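import Pool.Agent.Helper25.GG.Defs2

/-!
# Block A1: the difference operators on the spaces Cf Z i
-/

set_option autoImplicit false

namespace Pool.Agent.Helper25.GG

open Module

variable {p : ℕ} [Fact p.Prime] {V : Type} [Group V] {n : ℕ}

theorem PZ.antiA1 (Z : PZ p V n) (i : ℕ) : Antitone (Z.W i) :=
  antitone_nat_of_succ_le (Z.anti i)

omit [Fact p.Prime] in
theorem PZ.conjA1 (Z : PZ p V n) {i k : ℕ} {w : V} (hw : w ∈ Z.W i k) (x : V) :
    x⁻¹ * w * x ∈ Z.W i k := by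
  have := (Z.normal i k).conj_mem w hw x⁻¹
  rwa [inv_inv] at this

omit [Fact p.Prime] in
/-- left invariance. -/
theorem Cl.leftA1 {Z : PZ p V n} {i k : ℕ} {f : V → ZMod p} (hf : f ∈ Cl Z i k) (x w : V)
    (hw : w ∈ Z.W i k) : f (w * x) = f x := by
  have h1 : w * x = x * (x⁻¹ * w * x) := by group
  rw [h1]
  exact hf x _ (Z.conjA1 hw x)

omit [Fact p.Prime] in
/-- inner invariance. -/
theorem Cl.midA1 {Z : PZ p V n} {i k : ℕ} {f : V → ZMod p} (hf : f ∈ Cl Z i k) (x y w : V)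
    (hw : w ∈ Z.W i k) : f (x * w * y) = f (x * y) := by
  have h1 : x * w * y = x * y * (y⁻¹ * w * y) := by group
  rw [h1]
  exact hf (x * y) _ (Z.conjA1 hw y)

theorem Cf.succ_le (Z : PZ p V n) (i : ℕ) : Cf Z (i + 1) ≤ Cf Z i := by
  rintro f ⟨k, hk⟩
  exact ⟨k, fun x w hw => hk x w (Z.mono i k hw)⟩

theorem Cf.mem_succ (Z : PZ p V n) {i : ℕ} (hi : i < n) {f : V → ZMod p} (hf : f ∈ Cf Z i) :
    f ∈ Cf Z (i + 1) ↔ ∀ x, f (x * Z.t i) = f x := by
  constructor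
  · rintro ⟨k, hk⟩ x
    exact hk x _ (Z.mem i hi k)
  · intro h
    obtain ⟨k, hk⟩ := hf
    have hpow : ∀ m : ℕ, ∀ x, f (x * Z.t i ^ m) = f x := by
      intro m
      induction m with
      | zero => intro x; rw [pow_zero, mul_one]
      | succ m ih => intro x; rw [pow_succ, ← mul_assoc, h, ih]
    refine ⟨k, fun x v hv => ?_⟩
    obtain ⟨m, hm⟩ := Z.gen i hi k v hv
    have h1 : x * v = x * Z.t i ^ m * ((Z.t i ^ m)⁻¹ * v) := by group
    rw [h1, hk _ _ hm, hpow]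

theorem Cf.mem_succ_left (Z : PZ p V n) {i : ℕ} (hi : i < n) {f : V → ZMod p}
    (hf : f ∈ Cf Z i) : f ∈ Cf Z (i + 1) ↔ ∀ x, f (Z.t i * x) = f x := by
  constructor
  · rintro ⟨k, hk⟩ x
    have h1 : Z.t i * x = x * (x⁻¹ * Z.t i * x) := by group
    rw [h1]
    exact hk x _ (Z.conjA1 (Z.mem i hi k) x)
  · intro h
    rw [Cf.mem_succ Z hi hf]
    obtain ⟨k, hk⟩ := hf
    have hk' : f ∈ Cl Z i k := hk
    have hpow : ∀ m : ℕ, ∀ x, f (Z.t i ^ m * x) = f x := by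
      intro m
      induction m with
      | zero => intro x; rw [pow_zero, one_mul]
      | succ m ih => intro x; rw [pow_succ, mul_assoc, ih, h]
    intro x
    obtain ⟨m, -, hm⟩ := Z.conj i hi k x
    have h1 : x * Z.t i = (x * Z.t i * x⁻¹ * (Z.t i ^ m)⁻¹) * (Z.t i ^ m * x) := by group
    rw [h1, Cl.leftA1 hk' _ _ hm, hpow]

theorem TR_eq_zero_iff (Z : PZ p V n) {i : ℕ} (hi : i < n) (f : Cf Z i) :
    TR Z i f = 0 ↔ f.1 ∈ Cf Z (i + 1) := by
  rw [Cf.mem_succ Z hi f.2]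
  constructor
  · intro h x
    have h1 : (TR Z i f).1 x = 0 := by rw [h]; rfl
    rw [TR_apply] at h1
    exact sub_eq_zero.mp h1
  · intro h
    apply Subtype.ext
    funext x
    rw [TR_apply, h x, sub_self]
    rfl

theorem TL_eq_zero_iff (Z : PZ p V n) {i : ℕ} (hi : i < n) (f : Cf Z i) :
    TL Z i f = 0 ↔ f.1 ∈ Cf Z (i + 1) := by
  rw [Cf.mem_succ_left Z hi f.2]
  constructor
  · intro h x
    have h1 : (TL Z i f).1 x = 0 := by rw [h]; rfl
    rw [TL_apply] at h1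
    exact sub_eq_zero.mp h1
  · intro h
    apply Subtype.ext
    funext x
    rw [TL_apply, h x, sub_self]
    rfl

/-- the representative of a coset of `W (i + 1) K`. -/
noncomputable def rpA (Z : PZ p V n) (i K : ℕ) (x : V) : V :=
  (QuotientGroup.mk x : V ⧸ Z.W (i + 1) K).out

theorem rpA_mem (Z : PZ p V n) (i K : ℕ) (x : V) : (rpA Z i K x)⁻¹ * x ∈ Z.W (i + 1) K := by
  unfold rpA
  rw [← QuotientGroup.eq]
  exact Quotient.out_eq' _

theorem rpA_mul (Z : PZ p V n) (i K : ℕ) (x : V) {v : V} (hv : v ∈ Z.W (i + 1) K) :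
    rpA Z i K (x * v) = rpA Z i K x := by
  unfold rpA
  congr 1
  rw [eq_comm, QuotientGroup.eq, inv_mul_cancel_left]
  exact hv

open Classical in
/-- the exponent of `x` relative to the representative of its coset. -/
noncomputable def coA (Z : PZ p V n) (i K : ℕ) (x : V) : ℕ :=
  if h : ∃ m : ℕ, (Z.t i ^ m)⁻¹ * ((rpA Z i K x)⁻¹ * x) ∈ Z.W i K then Nat.find h else 0

theorem PZ.expUniqueA1 (Z : PZ p V n) {i K : ℕ} (hi : i < n) {y : V} {a b : ℕ}
    (ha : (Z.t i ^ a)⁻¹ * y ∈ Z.W i K) (hb : (Z.t i ^ b)⁻¹ * y ∈ Z.W i K) (ha' : a < p ^ K)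
    (hb' : b < p ^ K) : a = b := by
  wlog hab : a ≤ b generalizing a b
  · exact (this hb ha hb' ha' (le_of_not_ge hab)).symm
  have h1 : Z.t i ^ (b - a) ∈ Z.W i K := by
    have h2 : Z.t i ^ (b - a) = ((Z.t i ^ a)⁻¹ * y) * ((Z.t i ^ b)⁻¹ * y)⁻¹ := by
      have h3 : Z.t i ^ b = Z.t i ^ a * Z.t i ^ (b - a) := by
        rw [← pow_add]; congr 1; omega
      rw [h3]; group
    rw [h2]
    exact (Z.W i K).mul_mem ha ((Z.W i K).inv_mem hb)
  rw [Z.order i hi] at h1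
  have h4 := Nat.eq_zero_of_dvd_of_lt h1 (by omega)
  omega

theorem coA_spec (Z : PZ p V n) {i : ℕ} (hi : i < n) (K : ℕ) (x : V) :
    (Z.t i ^ coA Z i K x)⁻¹ * ((rpA Z i K x)⁻¹ * x) ∈ Z.W i K := by
  classical
  have h := Z.gen i hi K _ (rpA_mem Z i K x)
  unfold coA
  rw [dif_pos h]
  exact Nat.find_spec h

theorem coA_lt (Z : PZ p V n) {i : ℕ} (hi : i < n) (K : ℕ) (x : V) : coA Z i K x < p ^ K := by
  classical
  have h := Z.gen i hi K _ (rpA_mem Z i K x)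
  obtain ⟨m, hm⟩ := h
  have hpos : 0 < p ^ K := pow_pos (Fact.out : p.Prime).pos K
  have h1 : (Z.t i ^ (m % p ^ K))⁻¹ * ((rpA Z i K x)⁻¹ * x) ∈ Z.W i K := by
    have h2 : Z.t i ^ (p ^ K * (m / p ^ K)) ∈ Z.W i K :=
      (Z.order i hi K _).2 (Dvd.intro _ rfl)
    have h3 : (Z.t i ^ (m % p ^ K))⁻¹ * ((rpA Z i K x)⁻¹ * x) =
        Z.t i ^ (p ^ K * (m / p ^ K)) * ((Z.t i ^ m)⁻¹ * ((rpA Z i K x)⁻¹ * x)) := by
      have h4 : Z.t i ^ m = Z.t i ^ (m % p ^ K) * Z.t i ^ (p ^ K * (m / p ^ K)) := by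
        rw [← pow_add, Nat.mod_add_div]
      have h5 : Commute (Z.t i ^ (m % p ^ K)) (Z.t i ^ (p ^ K * (m / p ^ K))) :=
        (Commute.refl _).pow_pow _ _
      rw [h4, h5.eq]
      group
    rw [h3]
    exact (Z.W i K).mul_mem h2 hm
  have h' : ∃ m : ℕ, (Z.t i ^ m)⁻¹ * ((rpA Z i K x)⁻¹ * x) ∈ Z.W i K := ⟨m, hm⟩
  unfold coA
  rw [dif_pos h']
  exact lt_of_le_of_lt (Nat.find_min' h' h1) (Nat.mod_lt _ hpos)

theorem coA_eq (Z : PZ p V n) {i : ℕ} (hi : i < n) (K : ℕ) (x : V) {m : ℕ} (hm : m < p ^ K)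
    (h : (Z.t i ^ m)⁻¹ * ((rpA Z i K x)⁻¹ * x) ∈ Z.W i K) : coA Z i K x = m :=
  Z.expUniqueA1 hi (coA_spec Z hi K x) h (coA_lt Z hi K x) hm

theorem sum_periodA (u : ℕ → ZMod p) (q : ℕ) (hu : ∀ m, u (m + q) = u m) :
    ∑ m ∈ Finset.range (q * p), u m = 0 := by
  have h1 : ∀ c : ℕ, ∀ m, u (m + q * c) = u m := by
    intro c
    induction c with
    | zero => intro m; rw [mul_zero, add_zero]
    | succ c ih => intro m; rw [mul_add, mul_one, ← add_assoc, hu, ih]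
  have h2 : ∀ c : ℕ, ∑ m ∈ Finset.range (q * c), u m = c • ∑ m ∈ Finset.range q, u m := by
    intro c
    induction c with
    | zero => simp
    | succ c ih =>
      rw [mul_add, mul_one, Finset.sum_range_add, ih, succ_nsmul]
      congr 1
      apply Finset.sum_congr rfl
      intro m _
      rw [add_comm, h1]
  rw [h2, nsmul_eq_mul, CharP.cast_eq_zero, zero_mul]

theorem TR_surj (Z : PZ p V n) {i : ℕ} (hi : i < n) : Function.Surjective (TR Z i) := by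
  intro f
  obtain ⟨k, hk⟩ := Cf.exists_level f
  set K := k + 1 with hK
  have hkK : f.1 ∈ Cl Z i K := fun x w hw => hk x w (Z.anti i k hw)
  let g : V → ZMod p := fun x =>
    ∑ a ∈ Finset.range (coA Z i K x), f.1 (rpA Z i K x * Z.t i ^ a)
  have hg : g ∈ Cf Z i := by
    refine ⟨K, fun x w hw => ?_⟩
    have h1 : rpA Z i K (x * w) = rpA Z i K x := rpA_mul Z i K x (Z.mono i K hw)
    have h2 : coA Z i K (x * w) = coA Z i K x := by
      apply coA_eq Z hi K _ (coA_lt Z hi K x)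
      rw [h1]
      have h3 : (Z.t i ^ coA Z i K x)⁻¹ * ((rpA Z i K x)⁻¹ * (x * w)) =
          ((Z.t i ^ coA Z i K x)⁻¹ * ((rpA Z i K x)⁻¹ * x)) * w := by group
      rw [h3]
      exact (Z.W i K).mul_mem (coA_spec Z hi K x) hw
    simp only [g]
    rw [h1, h2]
  refine ⟨⟨g, hg⟩, ?_⟩
  apply Subtype.ext
  funext x
  rw [TR_apply]
  have hmem : Z.t i ∈ Z.W (i + 1) K := Z.mem i hi K
  have h1 : rpA Z i K (x * Z.t i) = rpA Z i K x := rpA_mul Z i K x hmem
  have hsp := coA_spec Z hi K x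
  have hlt := coA_lt Z hi K x
  set m := coA Z i K x with hm
  set r := rpA Z i K x with hr
  have hnext : (Z.t i ^ (m + 1))⁻¹ * (r⁻¹ * (x * Z.t i)) ∈ Z.W i K := by
    have h3 : (Z.t i ^ (m + 1))⁻¹ * (r⁻¹ * (x * Z.t i)) =
        (Z.t i)⁻¹ * ((Z.t i ^ m)⁻¹ * (r⁻¹ * x)) * Z.t i := by
      rw [pow_succ]; group
    rw [h3]
    exact Z.conjA1 hsp _
  have hfx : f.1 x = f.1 (r * Z.t i ^ m) := by
    have h3 : x = r * Z.t i ^ m * ((Z.t i ^ m)⁻¹ * (r⁻¹ * x)) := by group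
    conv_lhs => rw [h3]
    exact hkK _ _ hsp
  change (∑ a ∈ Finset.range (coA Z i K (x * Z.t i)), f.1 (rpA Z i K (x * Z.t i) * Z.t i ^ a)) -
    (∑ a ∈ Finset.range m, f.1 (r * Z.t i ^ a)) = f.1 x
  rw [h1]
  rcases lt_or_eq_of_le (Nat.succ_le_of_lt hlt) with h3 | h3
  · have h4 : coA Z i K (x * Z.t i) = m + 1 := by
      apply coA_eq Z hi K _ h3
      rw [h1]
      exact hnext
    rw [h4, Finset.sum_range_succ, hfx]
    ring
  · have h3' : m + 1 = p ^ K := h3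
    have h4 : coA Z i K (x * Z.t i) = 0 := by
      apply coA_eq Z hi K _ (lt_of_le_of_lt (Nat.zero_le _) hlt)
      rw [h1, pow_zero, inv_one, one_mul]
      have h5 : Z.t i ^ (m + 1) ∈ Z.W i K := (Z.order i hi K _).2 (by rw [h3'])
      have h6 := (Z.W i K).mul_mem h5 hnext
      rwa [mul_inv_cancel_left] at h6
    rw [h4, Finset.sum_range_zero, zero_sub, hfx]
    have h5 : ∑ a ∈ Finset.range (m + 1), f.1 (r * Z.t i ^ a) = 0 := by
      rw [h3', hK, pow_succ]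
      apply sum_periodA
      intro a
      have h6 : Z.t i ^ (p ^ k) ∈ Z.W i k := (Z.order i hi k _).2 (dvd_refl _)
      rw [pow_add, ← mul_assoc]
      exact hk _ _ h6
    rw [Finset.sum_range_succ] at h5
    exact (eq_neg_of_add_eq_zero_right h5).symm

omit [Fact p.Prime] in
theorem Cf.invA1 {Z : PZ p V n} {i : ℕ} {f : V → ZMod p} (hf : f ∈ Cf Z i) :
    (fun x => f x⁻¹) ∈ Cf Z i := by
  obtain ⟨k, hk⟩ := hf
  have hk' : f ∈ Cl Z i k := hk
  refine ⟨k, fun x w hw => ?_⟩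
  simp only
  rw [mul_inv_rev]
  exact Cl.leftA1 hk' _ _ ((Z.W i k).inv_mem hw)

theorem TL_surj (Z : PZ p V n) {i : ℕ} (hi : i < n) : Function.Surjective (TL Z i) := by
  intro f
  have hF : (fun y => -f.1 ((Z.t i)⁻¹ * y⁻¹)) ∈ Cf Z i := by
    have h1 := Cf.stab_left Z i (Z.t i)⁻¹ f.1 f.2
    have h2 := Cf.invA1 h1
    exact (Cf Z i).neg_mem h2
  obtain ⟨h, hh⟩ := TR_surj Z hi ⟨_, hF⟩
  refine ⟨⟨fun x => h.1 x⁻¹, Cf.invA1 h.2⟩, ?_⟩
  apply Subtype.ext
  funext x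
  rw [TL_apply]
  change h.1 (Z.t i * x)⁻¹ - h.1 x⁻¹ = f.1 x
  have h1 : (TR Z i h).1 ((Z.t i * x)⁻¹) = -f.1 x := by
    rw [hh]
    change -f.1 ((Z.t i)⁻¹ * ((Z.t i * x)⁻¹)⁻¹) = -f.1 x
    rw [inv_inv, inv_mul_cancel_left]
  rw [TR_apply] at h1
  have h2 : (Z.t i * x)⁻¹ * Z.t i = x⁻¹ := by group
  rw [h2] at h1
  linear_combination -h1

theorem TR_nil (Z : PZ p V n) {i : ℕ} (hi : i < n) (f : Cf Z i) {k : ℕ} (hf : f.1 ∈ Cl Z i k) :
    (TR Z i ^ (p ^ k)) f = 0 := by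
  have hc : CharP (Module.End (ZMod p) (Cf Z i)) p ∨ Subsingleton (Cf Z i) := by
    rcases subsingleton_or_nontrivial (Cf Z i) with h | h
    · exact Or.inr h
    · left
      exact charP_of_injective_algebraMap (algebraMap (ZMod p) (Module.End (ZMod p) (Cf Z i))).injective p
  rcases hc with hc | hc
  · unfold TR
    rw [sub_pow_char_pow_of_commute p k (Commute.one_right (Cf.ρ Z i (Z.t i))), one_pow, ← map_pow,
      LinearMap.sub_apply]
    apply Subtype.ext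
    funext x
    change f.1 (x * Z.t i ^ (p ^ k)) - f.1 x = 0
    rw [hf x _ ((Z.order i hi k _).2 (dvd_refl _)), sub_self]
  · exact Subsingleton.elim _ _

theorem Cf.leftPowA1 (Z : PZ p V n) (i : ℕ) (u : V) (m : ℕ) :
    Cf.left Z i u ^ m = Cf.left Z i (u ^ m) := by
  induction m with
  | zero =>
    apply LinearMap.ext
    intro f
    apply Subtype.ext
    funext x
    change f.1 x = f.1 (u ^ 0 * x)
    rw [pow_zero, one_mul]
  | succ m ih =>
    rw [pow_succ, ih]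
    apply LinearMap.ext
    intro f
    apply Subtype.ext
    funext x
    change f.1 (u * (u ^ m * x)) = f.1 (u ^ (m + 1) * x)
    rw [pow_succ', mul_assoc]

theorem TL_nil (Z : PZ p V n) {i : ℕ} (hi : i < n) (f : Cf Z i) {k : ℕ} (hf : f.1 ∈ Cl Z i k) :
    (TL Z i ^ (p ^ k)) f = 0 := by
  have hc : CharP (Module.End (ZMod p) (Cf Z i)) p ∨ Subsingleton (Cf Z i) := by
    rcases subsingleton_or_nontrivial (Cf Z i) with h | h
    · exact Or.inr h
    · left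
      exact charP_of_injective_algebraMap (algebraMap (ZMod p) (Module.End (ZMod p) (Cf Z i))).injective p
  rcases hc with hc | hc
  · unfold TL
    rw [sub_pow_char_pow_of_commute p k (Commute.one_right (Cf.left Z i (Z.t i))), one_pow, Cf.leftPowA1,
      LinearMap.sub_apply]
    apply Subtype.ext
    funext x
    change f.1 (Z.t i ^ (p ^ k) * x) - f.1 x = 0
    rw [Cl.leftA1 hf x _ ((Z.order i hi k _).2 (dvd_refl _)), sub_self]
  · exact Subsingleton.elim _ _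

/-- the difference operators preserve levels. -/
theorem TR_level (Z : PZ p V n) (i : ℕ) (f : Cf Z i) {k : ℕ} (hf : f.1 ∈ Cl Z i k) :
    (TR Z i f).1 ∈ Cl Z i k := by
  intro x w hw
  rw [TR_apply, TR_apply, Cl.midA1 hf x (Z.t i) w hw, hf x w hw]

theorem TL_level (Z : PZ p V n) (i : ℕ) (f : Cf Z i) {k : ℕ} (hf : f.1 ∈ Cl Z i k) :
    (TL Z i f).1 ∈ Cl Z i k := by
  intro x w hw
  rw [TL_apply, TL_apply, ← mul_assoc, hf _ w hw, hf x w hw]

theorem TL_eqv (Z : PZ p V n) (i : ℕ) : Eqv (Cf.ρ Z i) (Cf.ρ Z i) (TL Z i) := by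
  intro v f
  apply Subtype.ext
  funext x
  change f.1 (Z.t i * x * v) - f.1 (x * v) = f.1 (Z.t i * (x * v)) - f.1 (x * v)
  rw [mul_assoc]

/-- `TR ^ j` is equivariant modulo the kernel of `TR ^ (j + 1)`. -/
theorem TR_pow_comm (Z : PZ p V n) {i : ℕ} (hi : i < n) (j : ℕ) (f : Cf Z i)
    (hf : (TR Z i ^ (j + 1)) f = 0) (v : V) :
    (TR Z i ^ j) (Cf.ρ Z i v f) = Cf.ρ Z i v ((TR Z i ^ j) f) ∧
      (TR Z i ^ (j + 1)) (Cf.ρ Z i v f) = 0 := by
  obtain ⟨k, hk⟩ := Cf.exists_level f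
  obtain ⟨m, hm1, hm⟩ := Z.conj i hi k v⁻¹
  rw [inv_inv] at hm
  set R : Module.End (ZMod p) (Cf Z i) := Cf.ρ Z i (Z.t i) with hR
  set U : Module.End (ZMod p) (Cf Z i) := R ^ m - 1 with hU
  have hRm : ∀ (g : Cf Z i) (x : V), ((R ^ m) g).1 x = g.1 (x * Z.t i ^ m) := by
    intro g x
    rw [hR, ← map_pow]
    rfl
  have hUlev : ∀ g : Cf Z i, g.1 ∈ Cl Z i k → (U g).1 ∈ Cl Z i k := by
    intro g hg x w hw
    change ((R ^ m) g).1 (x * w) - g.1 (x * w) = ((R ^ m) g).1 x - g.1 x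
    rw [hRm, hRm, Cl.midA1 hg x _ w hw, hg x w hw]
  -- one step
  have hstep : ∀ g : Cf Z i, g.1 ∈ Cl Z i k → TR Z i (Cf.ρ Z i v g) = Cf.ρ Z i v (U g) := by
    intro g hg
    apply Subtype.ext
    funext x
    rw [TR_apply]
    change g.1 (x * Z.t i * v) - g.1 (x * v) = ((R ^ m) g).1 (x * v) - g.1 (x * v)
    rw [hRm]
    congr 1
    have h1 : x * Z.t i * v = x * v * (v⁻¹ * Z.t i * v * (Z.t i ^ m)⁻¹) * Z.t i ^ m := by group
    rw [h1]
    exact Cl.midA1 hg (x * v) _ _ hm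
  have hsteps : ∀ (a : ℕ) (g : Cf Z i), g.1 ∈ Cl Z i k →
      (TR Z i ^ a) (Cf.ρ Z i v g) = Cf.ρ Z i v ((U ^ a) g) := by
    intro a
    induction a with
    | zero => intro g _; rfl
    | succ a ih =>
      intro g hg
      rw [pow_succ, Module.End.mul_apply, hstep g hg, ih _ (hUlev g hg), pow_succ,
        Module.End.mul_apply]
  -- polynomials
  open Polynomial in
  have hpoly : ∃ s c : (ZMod p)[X], (X ^ m - 1 : (ZMod p)[X]) = s * (X - 1) ∧
      (X ^ m - 1 : (ZMod p)[X]) ^ j = (X - 1) ^ j + c * (X - 1) ^ (j + 1) := by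
    let s : (ZMod p)[X] := ∑ a ∈ Finset.range m, X ^ a
    have hs : (X ^ m - 1 : (ZMod p)[X]) = s * (X - 1) := (geom_sum_mul X m).symm
    have hs1 : s.eval 1 = 1 := by
      simp only [s]
      rw [Polynomial.eval_finsetSum]
      simp only [Polynomial.eval_pow, Polynomial.eval_X, one_pow, Finset.sum_const,
        Finset.card_range, nsmul_eq_mul, mul_one]
      have h1 : ((m : ℕ) : ZMod p) = ((m % p : ℕ) : ZMod p) := (ZMod.natCast_mod m p).symm
      rw [h1, hm1, Nat.cast_one]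
    have hdvd : (X - C 1 : (ZMod p)[X]) ∣ s ^ j - 1 := by
      rw [Polynomial.dvd_iff_isRoot, Polynomial.IsRoot.def]
      simp [hs1]
    obtain ⟨c, hc⟩ := hdvd
    rw [map_one] at hc
    refine ⟨s, c, hs, ?_⟩
    have h2 : s ^ j = 1 + (X - 1) * c := by rw [← hc]; ring
    rw [hs, mul_pow, h2]
    ring
  obtain ⟨s, c, hs, hc⟩ := hpoly
  have hTaev : TR Z i = Polynomial.aeval R (Polynomial.X - 1 : Polynomial (ZMod p)) := by
    rw [map_sub, Polynomial.aeval_X, map_one]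
    rfl
  have hUaev : U = Polynomial.aeval R (Polynomial.X ^ m - 1 : Polynomial (ZMod p)) := by
    rw [map_sub, map_pow, Polynomial.aeval_X, map_one]
  have e1 : (U ^ j) f = (TR Z i ^ j) f := by
    rw [hUaev, ← map_pow, hc, map_add, map_mul, map_pow, map_pow, ← hTaev, LinearMap.add_apply,
      Module.End.mul_apply, hf, map_zero, add_zero]
  have e2 : (U ^ (j + 1)) f = 0 := by
    rw [hUaev, ← map_pow, hs, mul_pow, map_mul, Module.End.mul_apply, map_pow, map_pow, ← hTaev,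
      hf, map_zero]
  refine ⟨?_, ?_⟩
  · rw [hsteps j f hk, e1]
  · rw [hsteps (j + 1) f hk, e2, map_zero]

theorem Cf.const (Z : PZ p V n) {f : V → ZMod p} (hf : f ∈ Cf Z n) (x y : V) : f x = f y := by
  obtain ⟨k, hk⟩ := hf
  have h1 : x = y * (y⁻¹ * x) := by group
  rw [h1]
  apply hk
  rw [Z.top k]
  exact Subgroup.mem_top _

end Pool.Agent.Helper25.GG
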