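import Pool.Agent.Helper25.GG.Defs2

/-!
# Block A1b: indices and dimensions
-/

set_option autoImplicit false

namespace Pool.Agent.Helper25.GG

open Module

variable {p : ℕ} [Fact p.Prime] {V : Type} [Group V] {n : ℕ}

omit [Fact p.Prime] in
theorem relIndex_W (Z : PZ p V n) {i : ℕ} (hi : i < n) (k : ℕ) :
    (Z.W i k).relIndex (Z.W (i + 1) k) = p ^ k := by
  haveI : (Z.W i k).Normal := Z.normal i k
  let K := Z.W (i + 1) k
  let N : Subgroup K := (Z.W i k).subgroupOf K
  haveI : N.Normal := Subgroup.normal_subgroupOf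
  let q : K ⧸ N := QuotientGroup.mk ⟨Z.t i, Z.mem i hi k⟩
  have hq : ∀ m : ℕ, q ^ m = 1 ↔ p ^ k ∣ m := by
    intro m
    rw [← QuotientGroup.mk_pow, QuotientGroup.eq_one_iff, Subgroup.mem_subgroupOf]
    exact Z.order i hi k m
  have ho : orderOf q = p ^ k := by
    apply Nat.dvd_antisymm
    · exact orderOf_dvd_iff_pow_eq_one.2 ((hq _).2 dvd_rfl)
    · exact (hq _).1 (pow_orderOf_eq_one q)
  have hg : ∀ x : K ⧸ N, x ∈ Subgroup.zpowers q := by
    intro x
    obtain ⟨y, rfl⟩ := QuotientGroup.mk_surjective x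
    obtain ⟨m, hm⟩ := Z.gen i hi k y.1 y.2
    refine ⟨(m : ℤ), ?_⟩
    simp only [zpow_natCast]
    rw [← QuotientGroup.mk_pow, QuotientGroup.eq, Subgroup.mem_subgroupOf]
    exact hm
  rw [Subgroup.relIndex, Subgroup.index, ← ho]
  exact (orderOf_eq_card_of_forall_mem_zpowers hg).symm

theorem index_W (Z : PZ p V n) {i : ℕ} (hi : i ≤ n) (k : ℕ) :
    (Z.W i k).index = p ^ ((n - i) * k) := by
  obtain ⟨d, hd⟩ : ∃ d, n - i = d := ⟨_, rfl⟩
  induction d generalizing i with
  | zero =>
    have : i = n := by omega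
    subst this
    rw [Z.top, Subgroup.index_top, Nat.sub_self, zero_mul, pow_zero]
  | succ d ih =>
    have hi' : i < n := by omega
    have h := Subgroup.relIndex_mul_index (Z.mono i k)
    rw [← h, relIndex_W Z hi' k, ih (i := i + 1) (by omega) (by omega), ← pow_add]
    congr 1
    have : n - i = (n - (i + 1)) + 1 := by omega
    rw [this]
    ring

/-- functions of level `k` are functions on the quotient. -/
noncomputable def ClMap (Z : PZ p V n) (i k : ℕ) :
    (V ⧸ Z.W i k → ZMod p) →ₗ[ZMod p] Cl Z i k where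
  toFun g := ⟨fun x => g (QuotientGroup.mk x), fun x w hw => by
    have : (QuotientGroup.mk (x * w) : V ⧸ Z.W i k) = QuotientGroup.mk x := by
      rw [eq_comm, QuotientGroup.eq]
      simpa using hw
    simp only [this]⟩
  map_add' _ _ := rfl
  map_smul' _ _ := rfl

theorem ClMap_bijective (Z : PZ p V n) (i k : ℕ) : Function.Bijective (ClMap Z i k) := by
  constructor
  · intro g g' h
    funext x
    obtain ⟨y, rfl⟩ := QuotientGroup.mk_surjective x
    exact congrFun (congrArg Subtype.val h) y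
  · intro f
    refine ⟨fun q => Quotient.liftOn' q f.1 ?_, ?_⟩
    · intro a b hab
      rw [QuotientGroup.leftRel_apply] at hab
      have := f.2 a (a⁻¹ * b) hab
      rw [mul_inv_cancel_left] at this
      exact this.symm
    · apply Subtype.ext
      funext x
      rfl

theorem finrank_Cl (Z : PZ p V n) {i : ℕ} (hi : i ≤ n) (k : ℕ) :
    FiniteDimensional (ZMod p) (Cl Z i k) ∧ finrank (ZMod p) (Cl Z i k) = p ^ ((n - i) * k) := by
  have hidx := index_W Z hi k
  have hp : 0 < p := (Fact.out : p.Prime).pos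
  have h0 : (Z.W i k).index ≠ 0 := by
    rw [hidx]; positivity
  haveI : (Z.W i k).FiniteIndex := ⟨h0⟩
  haveI : Finite (V ⧸ Z.W i k) := Subgroup.finite_quotient_of_finiteIndex
  haveI : Fintype (V ⧸ Z.W i k) := Fintype.ofFinite _
  let e : (V ⧸ Z.W i k → ZMod p) ≃ₗ[ZMod p] Cl Z i k :=
    LinearEquiv.ofBijective (ClMap Z i k) (ClMap_bijective Z i k)
  refine ⟨FiniteDimensional.of_surjective e.toLinearMap e.surjective, ?_⟩
  rw [← e.finrank_eq, Module.finrank_fintype_fun_eq_card, ← hidx, Subgroup.index,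
    Nat.card_eq_fintype_card]

end Pool.Agent.Helper25.GG
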