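import Pool.Agent.Helper25.GG.Defs2

/-!
# Subrepresentations, quotients, functoriality of the dual
-/

set_option autoImplicit false

namespace Pool.Agent.Helper25.GG

open Module

section

variable {p : ℕ} {V : Type} [Group V]
  {X : Type} [AddCommGroup X] [Module (ZMod p) X]

/-- stable subspaces. -/
def Stb (ρ : V →* Module.End (ZMod p) X) (S : Submodule (ZMod p) X) : Prop :=
  ∀ v, ∀ x ∈ S, ρ v x ∈ S

/-- the action on a stable subspace. -/
noncomputable def subρ (ρ : V →* Module.End (ZMod p) X) (S : Submodule (ZMod p) X)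
    (hS : Stb ρ S) : V →* Module.End (ZMod p) S where
  toFun v := (ρ v).restrict (hS v)
  map_one' := by
    apply LinearMap.ext
    intro w
    apply Subtype.ext
    rw [LinearMap.coe_restrict_apply, map_one]
    rfl
  map_mul' a b := by
    apply LinearMap.ext
    intro w
    apply Subtype.ext
    rw [LinearMap.coe_restrict_apply, map_mul]
    rfl

theorem subρ_coe (ρ : V →* Module.End (ZMod p) X) (S : Submodule (ZMod p) X)
    (hS : Stb ρ S) (v : V) (x : S) : ((subρ ρ S hS v x : S) : X) = ρ v x := rfl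

/-- the action on the quotient by a stable subspace. -/
noncomputable def quoρ (ρ : V →* Module.End (ZMod p) X) (S : Submodule (ZMod p) X)
    (hS : Stb ρ S) : V →* Module.End (ZMod p) (X ⧸ S) where
  toFun v := S.mapQ S (ρ v) (fun x hx => hS v x hx)
  map_one' := by
    apply LinearMap.ext
    intro w
    obtain ⟨x, rfl⟩ := Submodule.mkQ_surjective S w
    rw [Submodule.mkQ_apply, Submodule.mapQ_apply, map_one]
    rfl
  map_mul' a b := by
    apply LinearMap.ext
    intro w
    obtain ⟨x, rfl⟩ := Submodule.mkQ_surjective S w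
    rw [Module.End.mul_apply, Submodule.mkQ_apply, Submodule.mapQ_apply, Submodule.mapQ_apply,
      Submodule.mapQ_apply, map_mul]
    rfl

theorem quoρ_mk (ρ : V →* Module.End (ZMod p) X) (S : Submodule (ZMod p) X)
    (hS : Stb ρ S) (v : V) (x : X) : quoρ ρ S hS v (S.mkQ x) = S.mkQ (ρ v x) := rfl

variable {n : ℕ} {Y : Type} [AddCommGroup Y] [Module (ZMod p) Y]

/-- the transpose of an equivariant map. -/
noncomputable def Pd.map (Z : PZ p V n) {ρ : V →* Module.End (ZMod p) X}
    {ρ' : V →* Module.End (ZMod p) Y} (u : X →ₗ[ZMod p] Y) (hu : Eqv ρ ρ' u) :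
    Pd Z ρ' →ₗ[Lam Z] Pd Z ρ where
  toFun f := ⟨f.1.comp u, fun v x => by
    rw [LinearMap.comp_apply, hu v x, f.2 v (u x), LinearMap.comp_apply]⟩
  map_add' _ _ := rfl
  map_smul' _ _ := rfl

theorem Pd.map_apply (Z : PZ p V n) {ρ : V →* Module.End (ZMod p) X}
    {ρ' : V →* Module.End (ZMod p) Y} (u : X →ₗ[ZMod p] Y) (hu : Eqv ρ ρ' u) (f : Pd Z ρ') (x : X) :
    (Pd.map Z u hu f).1 x = f.1 (u x) := rfl

end

end Pool.Agent.Helper25.GG
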