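import Pool.Agent.Helper25.GG.A1
import Pool.Agent.Helper25.GG.Defs3

/-!
# Block A2: equivariant endomorphisms of Cf Z i are onto
-/

set_option autoImplicit false

namespace Pool.Agent.Helper25.GG

open Module

variable {p : ℕ} [Fact p.Prime] {V : Type} [Group V] {n : ℕ}

/-- an equivariant map vanishing on the kernel of `TL` factors through `TL` -/
theorem Eqv.factor_one (Z : PZ p V n) {i : ℕ} (hi : i < n) {l : Module.End (ZMod p) (Cf Z i)}
    (hl : Eqv (Cf.ρ Z i) (Cf.ρ Z i) l) (h0 : ∀ f : Cf Z i, TL Z i f = 0 → l f = 0) :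
    ∃ l' : Module.End (ZMod p) (Cf Z i), Eqv (Cf.ρ Z i) (Cf.ρ Z i) l' ∧ l = l' * TL Z i := by
  obtain ⟨s, hs⟩ := (TL Z i).exists_rightInverse_of_surjective
    (LinearMap.range_eq_top.2 (TL_surj Z hi))
  have hs' : ∀ g, TL Z i (s g) = g := fun g => by
    have := LinearMap.congr_fun hs g
    simpa using this
  have hkey : ∀ f, l (s (TL Z i f)) = l f := by
    intro f
    have h1 : TL Z i (s (TL Z i f) - f) = 0 := by
      rw [map_sub, hs', sub_self]
    have h2 := h0 _ h1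
    rwa [map_sub, sub_eq_zero] at h2
  refine ⟨l.comp s, ?_, ?_⟩
  · intro v g
    obtain ⟨f, rfl⟩ := TL_surj Z hi g
    rw [← TL_eqv Z i v f, LinearMap.comp_apply, LinearMap.comp_apply, hkey, hkey]
    exact hl v f
  · apply LinearMap.ext
    intro f
    rw [Module.End.mul_apply, LinearMap.comp_apply, hkey]

theorem Eqv.factor (Z : PZ p V n) {i : ℕ} (hi : i < n) {l : Module.End (ZMod p) (Cf Z i)}
    (hl : Eqv (Cf.ρ Z i) (Cf.ρ Z i) l) (h0 : l ≠ 0) :
    ∃ (j : ℕ) (l' : Module.End (ZMod p) (Cf Z i)), Eqv (Cf.ρ Z i) (Cf.ρ Z i) l' ∧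
      l = l' * TL Z i ^ j ∧ ∃ f : Cf Z i, f.1 ∈ Cf Z (i + 1) ∧ l' f ≠ 0 := by
  have main : ∀ (N : ℕ) (l : Module.End (ZMod p) (Cf Z i)), Eqv (Cf.ρ Z i) (Cf.ρ Z i) l →
      (∃ f, (TL Z i ^ N) f = 0 ∧ l f ≠ 0) →
      ∃ (j : ℕ) (l' : Module.End (ZMod p) (Cf Z i)), Eqv (Cf.ρ Z i) (Cf.ρ Z i) l' ∧
        l = l' * TL Z i ^ j ∧ ∃ f : Cf Z i, f.1 ∈ Cf Z (i + 1) ∧ l' f ≠ 0 := by
    intro N
    induction N with
    | zero =>
      rintro l - ⟨f, hf, hlf⟩
      rw [pow_zero, Module.End.one_apply] at hf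
      rw [hf, map_zero] at hlf
      exact absurd rfl hlf
    | succ N ih =>
      rintro l hl ⟨f, hf, hlf⟩
      by_cases hc : ∃ f : Cf Z i, f.1 ∈ Cf Z (i + 1) ∧ l f ≠ 0
      · exact ⟨0, l, hl, by rw [pow_zero, mul_one], hc⟩
      · have h0 : ∀ f : Cf Z i, TL Z i f = 0 → l f = 0 := by
          intro g hg
          by_contra hne
          exact hc ⟨g, (TL_eq_zero_iff Z hi g).1 hg, hne⟩
        obtain ⟨l'', hl'', hfac⟩ := Eqv.factor_one Z hi hl h0
        obtain ⟨j, l', hl', hj, hf'⟩ := ih l'' hl'' ⟨TL Z i f, by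
          rw [← Module.End.mul_apply, ← pow_succ]; exact hf, by
          rw [hfac, Module.End.mul_apply] at hlf
          exact hlf⟩
        refine ⟨j + 1, l', hl', ?_, hf'⟩
        rw [hfac, hj, pow_succ, mul_assoc]
  have hne : ∃ f, l f ≠ 0 := by
    by_contra hcon
    apply h0
    apply LinearMap.ext
    intro f
    rw [LinearMap.zero_apply]
    by_contra hf
    exact hcon ⟨f, hf⟩
  obtain ⟨f, hf⟩ := hne
  obtain ⟨k, hk⟩ := Cf.exists_level f
  exact main (p ^ k) l hl ⟨f, TL_nil Z hi f hk, hf⟩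

/-- restriction to `Cf Z (i + 1)`. -/
theorem Eqv.exists_res (Z : PZ p V n) {i : ℕ} (hi : i < n) {l : Module.End (ZMod p) (Cf Z i)}
    (hl : Eqv (Cf.ρ Z i) (Cf.ρ Z i) l) :
    ∃ l1 : Module.End (ZMod p) (Cf Z (i + 1)), Eqv (Cf.ρ Z (i + 1)) (Cf.ρ Z (i + 1)) l1 ∧
      ∀ (f : Cf Z (i + 1)) (h : f.1 ∈ Cf Z i), (l1 f).1 = (l ⟨f.1, h⟩).1 := by
  have hcod : ∀ f : Cf Z (i + 1), (((Cf Z i).subtype ∘ₗ l ∘ₗ
      Submodule.inclusion (Cf.succ_le Z i)) f) ∈ Cf Z (i + 1) := by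
    intro f
    change (l (Submodule.inclusion (Cf.succ_le Z i) f)).1 ∈ Cf Z (i + 1)
    set F := Submodule.inclusion (Cf.succ_le Z i) f with hF
    have h1 : TR Z i F = 0 := (TR_eq_zero_iff Z hi F).2 f.2
    have h2 : Cf.ρ Z i (Z.t i) F = F := by
      have : TR Z i F = Cf.ρ Z i (Z.t i) F - F := rfl
      rwa [this, sub_eq_zero] at h1
    have h3 : TR Z i (l F) = 0 := by
      have : TR Z i (l F) = Cf.ρ Z i (Z.t i) (l F) - l F := rfl
      rw [this, ← hl, h2, sub_self]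
    exact (TR_eq_zero_iff Z hi _).1 h3
  refine ⟨LinearMap.codRestrict (Cf Z (i + 1)) ((Cf Z i).subtype ∘ₗ l ∘ₗ
      Submodule.inclusion (Cf.succ_le Z i)) hcod, ?_, ?_⟩
  · intro v f
    apply Subtype.ext
    change (l (Submodule.inclusion (Cf.succ_le Z i) (Cf.ρ Z (i + 1) v f))).1 =
      (Cf.ρ Z i v (l (Submodule.inclusion (Cf.succ_le Z i) f))).1
    rw [← hl]
    rfl
  · intro f h
    rfl

/-- an equivariant map commutes with the powers of `TR` -/
theorem Eqv.TR_pow (Z : PZ p V n) {i : ℕ} {l : Module.End (ZMod p) (Cf Z i)}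
    (hl : Eqv (Cf.ρ Z i) (Cf.ρ Z i) l) (j : ℕ) (f : Cf Z i) :
    (TR Z i ^ j) (l f) = l ((TR Z i ^ j) f) := by
  induction j generalizing f with
  | zero => rfl
  | succ j ih =>
    rw [pow_succ, Module.End.mul_apply, Module.End.mul_apply]
    have h1 : TR Z i (l f) = l (TR Z i f) := by
      have e1 : TR Z i (l f) = Cf.ρ Z i (Z.t i) (l f) - l f := rfl
      have e2 : TR Z i f = Cf.ρ Z i (Z.t i) f - f := rfl
      rw [e1, e2, map_sub, hl]
    rw [h1, ih]

theorem Eqv.surj_step (Z : PZ p V n) {i : ℕ} (hi : i < n)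
    (ih : ∀ l : Module.End (ZMod p) (Cf Z (i + 1)), Eqv (Cf.ρ Z (i + 1)) (Cf.ρ Z (i + 1)) l →
      l ≠ 0 → Function.Surjective l)
    {l : Module.End (ZMod p) (Cf Z i)} (hl : Eqv (Cf.ρ Z i) (Cf.ρ Z i) l) (h0 : l ≠ 0) :
    Function.Surjective l := by
  obtain ⟨j, l', hl', hfac, f0, hf0, hne⟩ := Eqv.factor Z hi hl h0
  obtain ⟨l1, hl1, hres⟩ := Eqv.exists_res Z hi hl'
  have hl1ne : l1 ≠ 0 := by
    intro hz
    have h1 := hres ⟨f0.1, hf0⟩ f0.2
    rw [hz] at h1
    apply hne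
    apply Subtype.ext
    exact h1.symm
  have hsurj1 := ih l1 hl1 hl1ne
  have hran : ∀ (m : ℕ) (f : Cf Z i), (TR Z i ^ m) f = 0 → ∃ g, l' g = f := by
    intro m
    induction m with
    | zero =>
      intro f hf
      rw [pow_zero, Module.End.one_apply] at hf
      exact ⟨0, by rw [map_zero, hf]⟩
    | succ m ihm =>
      intro f hf
      rw [pow_succ', Module.End.mul_apply] at hf
      have h1 := (TR_eq_zero_iff Z hi _).1 hf
      obtain ⟨g, hg⟩ := hsurj1 ⟨_, h1⟩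
      have hgi : g.1 ∈ Cf Z i := Cf.succ_le Z i g.2
      have h2 : l' ⟨g.1, hgi⟩ = (TR Z i ^ m) f := by
        apply Subtype.ext
        rw [← hres g hgi, hg]
      have hTm : Function.Surjective (TR Z i ^ m) := by
        have h3 : ∀ q : ℕ, Function.Surjective (TR Z i ^ q) := by
          intro q
          induction q with
          | zero => exact fun x => ⟨x, rfl⟩
          | succ q ihq =>
            intro x
            obtain ⟨y, hy⟩ := TR_surj Z hi x
            obtain ⟨z, hz⟩ := ihq y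
            exact ⟨z, by rw [pow_succ', Module.End.mul_apply, hz, hy]⟩
        exact h3 m
      obtain ⟨h, hh⟩ := hTm ⟨g.1, hgi⟩
      have h4 : (TR Z i ^ m) (f - l' h) = 0 := by
        rw [map_sub, Eqv.TR_pow Z hl', hh, h2, sub_self]
      obtain ⟨g', hg'⟩ := ihm _ h4
      exact ⟨g' + h, by rw [map_add, hg', sub_add_cancel]⟩
  have hl'surj : Function.Surjective l' := by
    intro f
    obtain ⟨k, hk⟩ := Cf.exists_level f
    exact hran (p ^ k) f (TR_nil Z hi f hk)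
  have hTj : ∀ q : ℕ, Function.Surjective (TL Z i ^ q) := by
    intro q
    induction q with
    | zero => exact fun x => ⟨x, rfl⟩
    | succ q ihq =>
      intro x
      obtain ⟨y, hy⟩ := TL_surj Z hi x
      obtain ⟨z, hz⟩ := ihq y
      exact ⟨z, by rw [pow_succ', Module.End.mul_apply, hz, hy]⟩
  intro f
  obtain ⟨g, hg⟩ := hl'surj f
  obtain ⟨h, hh⟩ := hTj j g
  exact ⟨h, by rw [hfac, Module.End.mul_apply, hh, hg]⟩

theorem Eqv.surj (Z : PZ p V n) {i : ℕ} (hi : i ≤ n) {l : Module.End (ZMod p) (Cf Z i)}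
    (hl : Eqv (Cf.ρ Z i) (Cf.ρ Z i) l) (h0 : l ≠ 0) : Function.Surjective l := by
  have main : ∀ (d i : ℕ), i + d = n → ∀ l : Module.End (ZMod p) (Cf Z i),
      Eqv (Cf.ρ Z i) (Cf.ρ Z i) l → l ≠ 0 → Function.Surjective l := by
    intro d
    induction d with
    | zero =>
      intro i hin l hl h0 g
      rw [Nat.add_zero] at hin
      subst hin
      have hne : ∃ f, l f ≠ 0 := by
        by_contra hcon
        apply h0
        apply LinearMap.ext
        intro f
        rw [LinearMap.zero_apply]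
        by_contra hf
        exact hcon ⟨f, hf⟩
      obtain ⟨f, hf⟩ := hne
      have hc : (l f).1 1 ≠ 0 := by
        intro hz
        apply hf
        apply Subtype.ext
        funext x
        rw [Cf.const Z (l f).2 x 1, hz]
        rfl
      refine ⟨(g.1 1 * ((l f).1 1)⁻¹) • f, ?_⟩
      rw [map_smul]
      apply Subtype.ext
      funext x
      change (g.1 1 * ((l f).1 1)⁻¹) * (l f).1 x = g.1 x
      rw [Cf.const Z (l f).2 x 1, Cf.const Z g.2 x 1, mul_assoc, inv_mul_cancel₀ hc, mul_one]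
    | succ d ih =>
      intro i hin l hl h0
      exact Eqv.surj_step Z (by omega) (ih (i + 1) (by omega)) hl h0
  exact main (n - i) i (by omega) l hl h0

instance Lam.nontrivial (Z : PZ p V n) : Nontrivial (Lam Z) := by
  refine ⟨⟨1, 0, ?_⟩⟩
  intro h
  have h1 : (1 : Module.End (ZMod p) (Cf Z 0)) = 0 := congrArg Subtype.val h
  have h2 : (fun _ => 1 : V → ZMod p) ∈ Cf Z 0 := ⟨0, fun _ _ _ => rfl⟩
  have h3 := LinearMap.congr_fun h1 ⟨_, h2⟩
  have h4 := congrFun (congrArg Subtype.val h3) 1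
  exact one_ne_zero h4

instance Lam.noZeroDivisors (Z : PZ p V n) : NoZeroDivisors (Lam Z) := by
  refine ⟨?_⟩
  intro a b hab
  by_cases hb : b = 0
  · exact Or.inr hb
  · left
    have hb' : b.1 ≠ 0 := fun h => hb (Subtype.ext h)
    have hs := Eqv.surj Z (Nat.zero_le n) b.2 hb'
    apply Subtype.ext
    apply LinearMap.ext
    intro f
    obtain ⟨g, rfl⟩ := hs f
    have h1 := LinearMap.congr_fun (congrArg Subtype.val hab) g
    exact h1

end Pool.Agent.Helper25.GG
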