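import Pool.Agent.Helper25.GG.A1
import Pool.Agent.Helper25.GG.Defs3

/-!
# Block A3: descending chain condition
-/

set_option autoImplicit false

namespace Pool.Agent.Helper25.GG

open Module

variable {p : ℕ} [Fact p.Prime] {V : Type} [Group V] {n : ℕ}

/-- the graded pieces of a subspace of `Cf Z i`, as subspaces of `Cf Z (i + 1)`. -/
noncomputable def grA3 (Z : PZ p V n) (i j : ℕ) (S : Submodule (ZMod p) (Cf Z i)) :
    Submodule (ZMod p) (Cf Z (i + 1)) :=
  (S.map (TR Z i ^ j)).comap (Submodule.inclusion (Cf.succ_le Z i))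

theorem mem_grA3 (Z : PZ p V n) (i j : ℕ) (S : Submodule (ZMod p) (Cf Z i))
    (g : Cf Z (i + 1)) : g ∈ grA3 Z i j S ↔
      ∃ f ∈ S, (TR Z i ^ j) f = Submodule.inclusion (Cf.succ_le Z i) g := Iff.rfl

theorem grA3_mono (Z : PZ p V n) (i j : ℕ) {S S' : Submodule (ZMod p) (Cf Z i)} (h : S ≤ S') :
    grA3 Z i j S ≤ grA3 Z i j S' :=
  Submodule.comap_mono (Submodule.map_mono h)

theorem TR_memA3 (Z : PZ p V n) (i : ℕ) {S : Submodule (ZMod p) (Cf Z i)}
    (hS : Stb (Cf.ρ Z i) S) {f : Cf Z i} (hf : f ∈ S) : TR Z i f ∈ S :=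
  S.sub_mem (hS _ f hf) hf

theorem grA3_succ (Z : PZ p V n) (i j : ℕ) {S : Submodule (ZMod p) (Cf Z i)}
    (hS : Stb (Cf.ρ Z i) S) : grA3 Z i (j + 1) S ≤ grA3 Z i j S := by
  rintro g ⟨f, hf, hfg⟩
  refine ⟨TR Z i f, TR_memA3 Z i hS hf, ?_⟩
  rw [← hfg, pow_succ]
  rfl

theorem grA3_stb (Z : PZ p V n) {i : ℕ} (hi : i < n) (j : ℕ) {S : Submodule (ZMod p) (Cf Z i)}
    (hS : Stb (Cf.ρ Z i) S) : Stb (Cf.ρ Z (i + 1)) (grA3 Z i j S) := by
  rintro v g ⟨f, hf, hfg⟩
  have h0 : (TR Z i ^ (j + 1)) f = 0 := by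
    rw [pow_succ', Module.End.mul_apply, hfg, TR_eq_zero_iff Z hi]
    exact g.2
  refine ⟨Cf.ρ Z i v f, hS v f hf, ?_⟩
  rw [(TR_pow_comm Z hi j f h0 v).1, hfg]
  rfl

theorem grA3_anti (Z : PZ p V n) (i : ℕ) {S : Submodule (ZMod p) (Cf Z i)}
    (hS : Stb (Cf.ρ Z i) S) {a b : ℕ} (hab : a ≤ b) : grA3 Z i b S ≤ grA3 Z i a S :=
  antitone_nat_of_succ_le (f := fun j => grA3 Z i j S) (fun j => grA3_succ Z i j hS) hab

/-- if the graded pieces coincide, then the subspaces coincide. -/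
theorem le_of_grA3 (Z : PZ p V n) {i : ℕ} (hi : i < n) {S S' : Submodule (ZMod p) (Cf Z i)}
    (h : S ≤ S') (hgr : ∀ j, grA3 Z i j S' ≤ grA3 Z i j S) : S' ≤ S := by
  have key : ∀ j : ℕ, ∀ f ∈ S', (TR Z i ^ j) f = 0 → f ∈ S := by
    intro j
    induction j with
    | zero =>
      intro f _ h0
      rw [pow_zero, Module.End.one_apply] at h0
      rw [h0]
      exact S.zero_mem
    | succ j ih =>
      intro f hf h0
      have h1 : ((TR Z i ^ j) f).1 ∈ Cf Z (i + 1) := by
        rw [← TR_eq_zero_iff Z hi]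
        rw [pow_succ', Module.End.mul_apply] at h0
        exact h0
      have h2 : (⟨((TR Z i ^ j) f).1, h1⟩ : Cf Z (i + 1)) ∈ grA3 Z i j S' := ⟨f, hf, rfl⟩
      obtain ⟨f', hf', hff'⟩ := hgr j h2
      have h3 : (TR Z i ^ j) (f - f') = 0 := by
        rw [map_sub, hff', sub_eq_zero]
        rfl
      have h4 := ih (f - f') (S'.sub_mem hf (h hf')) h3
      have h5 := S.add_mem h4 hf'
      rwa [sub_add_cancel] at h5
  intro f hf
  obtain ⟨k, hk⟩ := Cf.exists_level f
  exact key _ f hf (TR_nil Z hi f hk)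

theorem Cf.dcc_top (Z : PZ p V n) (S : ℕ → Submodule (ZMod p) (Cf Z n)) (hanti : Antitone S) :
    ∃ m, ∀ k, m ≤ k → S k = S m := by
  let e : Cf Z n →ₗ[ZMod p] ZMod p := (LinearMap.proj 1).comp (Cf Z n).subtype
  have he : Function.Injective e := by
    intro f g hfg
    have hc : ∀ f : Cf Z n, ∀ x, f.1 x = f.1 1 := by
      intro f x
      obtain ⟨k, hk⟩ := f.2
      have := hk 1 x (by rw [Z.top]; trivial)
      rwa [one_mul] at this
    apply Subtype.ext
    funext x
    rw [hc f x, hc g x]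
    exact hfg
  have hfin : Module.Finite (ZMod p) (Cf Z n) := Module.Finite.of_injective e he
  have hart : IsArtinian (ZMod p) (Cf Z n) := inferInstance
  obtain ⟨m, hm⟩ := IsArtinian.monotone_stabilizes (R := ZMod p) (M := Cf Z n)
    ⟨fun k => OrderDual.toDual (S k), fun a b hab => hanti hab⟩
  exact ⟨m, fun k hk => (OrderDual.toDual.injective (hm k hk)).symm⟩

theorem Cf.dcc (Z : PZ p V n) {i : ℕ} (hi : i ≤ n) (S : ℕ → Submodule (ZMod p) (Cf Z i))
    (hS : ∀ m, Stb (Cf.ρ Z i) (S m)) (hanti : Antitone S) : ∃ m, ∀ k, m ≤ k → S k = S m := by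
  suffices H : ∀ (d i : ℕ), i + d = n → ∀ (S : ℕ → Submodule (ZMod p) (Cf Z i)),
      (∀ m, Stb (Cf.ρ Z i) (S m)) → Antitone S → ∃ m, ∀ k, m ≤ k → S k = S m by
    exact H (n - i) i (by omega) S hS hanti
  intro d
  induction d with
  | zero =>
    intro i hi S _ hanti
    rw [add_zero] at hi
    subst hi
    exact Cf.dcc_top Z S hanti
  | succ d ih =>
    intro i hid S hS hanti
    have hi : i < n := by omega
    have ih' := ih (i + 1) (by omega)
    -- the diagonal
    have hG : Antitone fun m => grA3 Z i m (S m) := by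
      apply antitone_nat_of_succ_le
      intro m
      exact (grA3_succ Z i m (hS (m + 1))).trans (grA3_mono Z i m (hanti (Nat.le_succ m)))
    obtain ⟨m0, hm0⟩ := ih' _ (fun m => grA3_stb Z hi m (hS m)) hG
    have hdiag : ∀ j m, m0 ≤ j → m0 ≤ m → grA3 Z i j (S m) = grA3 Z i m0 (S m0) := by
      intro j m hj hm
      apply le_antisymm
      · exact (grA3_anti Z i (hS m) hj).trans (grA3_mono Z i m0 (hanti hm))
      · have h1 := hm0 (max j m) (hj.trans (le_max_left _ _))
        rw [← h1]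
        exact (grA3_anti Z i (hS _) (le_max_left j m)).trans
          (grA3_mono Z i j (hanti (le_max_right j m)))
    -- the remaining indices
    have hrow : ∀ j, ∃ m, ∀ k, m ≤ k → grA3 Z i j (S k) = grA3 Z i j (S m) := fun j =>
      ih' (fun m => grA3 Z i j (S m)) (fun m => grA3_stb Z hi j (hS m))
        (fun a b hab => grA3_mono Z i j (hanti hab))
    choose M hM using hrow
    refine ⟨max m0 ((Finset.range m0).sup M), fun k hk => le_antisymm (hanti hk) ?_⟩
    apply le_of_grA3 Z hi (hanti hk)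
    intro j
    have hk0 : m0 ≤ k := (le_max_left _ _).trans hk
    rcases le_or_gt m0 j with hj | hj
    · rw [hdiag j k hj hk0, hdiag j _ hj (le_max_left _ _)]
    · have h1 : M j ≤ (Finset.range m0).sup M := Finset.le_sup (Finset.mem_range.2 hj)
      rw [hM j k ((h1.trans (le_max_right _ _)).trans hk), hM j _ (h1.trans (le_max_right _ _))]

end Pool.Agent.Helper25.GG
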