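import Pool.Agent.Helper25.GG.Defs3

/-!
# Block P1: the dual of a smooth representation
-/

set_option autoImplicit false

namespace Pool.Agent.Helper25.GG

open Module

variable {p : ℕ} [Fact p.Prime] {V : Type} [Group V] {n : ℕ}

variable {X : Type} [AddCommGroup X] [Module (ZMod p) X] {ρ : V →* Module.End (ZMod p) X}
  {Y : Type} [AddCommGroup Y] [Module (ZMod p) Y] {ρ' : V →* Module.End (ZMod p) Y}
  {X' : Type} [AddCommGroup X'] [Module (ZMod p) X'] {ρ'' : V →* Module.End (ZMod p) X'}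

theorem Cf.smo (Z : PZ p V n) : Smo Z (Cf.ρ Z 0) := by
  intro f
  obtain ⟨k, hk⟩ := f.2
  refine ⟨k, fun w hw => ?_⟩
  apply Subtype.ext
  funext x
  rw [Cf.ρ_apply]
  exact hk x w hw

theorem Cf.smom (Z : PZ p V n) (m : ℕ) : Smo Z (Cf.ρm Z 0 m) := by
  intro f
  have h : ∀ j : Fin m, ∃ k, ∀ w ∈ Z.W 0 k, Cf.ρ Z 0 w (f j) = f j := fun j => Cf.smo Z (f j)
  choose k hk using h
  have hanti : Antitone (Z.W 0) := antitone_nat_of_succ_le (Z.anti 0)
  refine ⟨Finset.univ.sup k, fun w hw => ?_⟩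
  funext j
  rw [Cf.ρm_apply]
  exact hk j w (hanti (Finset.le_sup (Finset.mem_univ j)) hw)

theorem Pd.exists_of_dual (Z : PZ p V n) (hsm : Smo Z ρ) (μ : Module.Dual (ZMod p) X) :
    ∃ f : Pd Z ρ, ∀ x v, (f.1 x).1 v = μ (ρ v x) := by
  let F : X →ₗ[ZMod p] Cf Z 0 :=
    { toFun := fun x => ⟨fun v => μ (ρ v x), by
        obtain ⟨k, hk⟩ := hsm x
        refine ⟨k, fun v w hw => ?_⟩
        change μ (ρ (v * w) x) = μ (ρ v x)
        rw [map_mul, Module.End.mul_apply, hk w hw]⟩
      map_add' := by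
        intro x y
        apply Subtype.ext
        funext v
        change μ (ρ v (x + y)) = μ (ρ v x) + μ (ρ v y)
        rw [map_add, map_add]
      map_smul' := by
        intro c x
        apply Subtype.ext
        funext v
        change μ (ρ v (c • x)) = c • μ (ρ v x)
        rw [map_smul, map_smul] }
  refine ⟨⟨F, ?_⟩, fun x v => rfl⟩
  intro v x
  apply Subtype.ext
  funext y
  rw [Cf.ρ_apply]
  change μ (ρ y (ρ v x)) = μ (ρ (y * v) x)
  rw [map_mul, Module.End.mul_apply]

theorem Pd.val_eq (Z : PZ p V n) (f : Pd Z ρ) (x : X) (v : V) :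
    (f.1 x).1 v = (f.1 (ρ v x)).1 1 := by
  rw [f.2 v x, Cf.ρ_apply, one_mul]

theorem Pd.eq_of (Z : PZ p V n) {f g : Pd Z ρ} (h : ∀ x, (f.1 x).1 1 = (g.1 x).1 1) : f = g := by
  apply Subtype.ext
  apply LinearMap.ext
  intro x
  apply Subtype.ext
  funext v
  rw [Pd.val_eq Z f x v, Pd.val_eq Z g x v, h]

theorem Pd.map_surj (Z : PZ p V n) (hX : Smo Z ρ) (hY : Smo Z ρ') {u : X →ₗ[ZMod p] Y}
    (hu : Eqv ρ ρ' u) (hinj : Function.Injective u) : Function.Surjective (Pd.map Z u hu) := by
  intro g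
  obtain ⟨s, hs⟩ := LinearMap.exists_leftInverse_of_injective u (LinearMap.ker_eq_bot.mpr hinj)
  let μ : Module.Dual (ZMod p) X :=
    { toFun := fun x => (g.1 x).1 1
      map_add' := by
        intro x y
        rw [map_add]
        rfl
      map_smul' := by
        intro c x
        rw [map_smul]
        rfl }
  obtain ⟨f, hf⟩ := Pd.exists_of_dual Z hY (μ.comp s)
  refine ⟨f, ?_⟩
  apply Pd.eq_of
  intro x
  rw [Pd.map_apply, hf, map_one, Module.End.one_apply, LinearMap.comp_apply]
  have h1 : s (u x) = x := by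
    have := LinearMap.congr_fun hs x
    simpa using this
  rw [h1]
  rfl

theorem Pd.map_inj (Z : PZ p V n) {u : X →ₗ[ZMod p] Y}
    (hu : Eqv ρ ρ' u) (hsurj : Function.Surjective u) : Function.Injective (Pd.map Z u hu) := by
  intro f g h
  apply Subtype.ext
  apply LinearMap.ext
  intro y
  obtain ⟨x, rfl⟩ := hsurj y
  rw [← Pd.map_apply Z u hu f x, ← Pd.map_apply Z u hu g x, h]

theorem Pd.map_exact (Z : PZ p V n) {u : X →ₗ[ZMod p] Y} {g : Y →ₗ[ZMod p] X'}
    (hu : Eqv ρ ρ' u) (hg : Eqv ρ' ρ'' g) (hsurj : Function.Surjective g)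
    (hex : ∀ y, g y = 0 ↔ ∃ x, u x = y) :
    LinearMap.range (Pd.map Z g hg) = LinearMap.ker (Pd.map Z u hu) := by
  apply le_antisymm
  · rintro _ ⟨f, rfl⟩
    rw [LinearMap.mem_ker]
    apply Subtype.ext
    apply LinearMap.ext
    intro x
    rw [Pd.map_apply, Pd.map_apply, (hex (u x)).mpr ⟨x, rfl⟩, map_zero]
    rfl
  · intro h hh
    rw [LinearMap.mem_ker] at hh
    have h0 : ∀ x, h.1 (u x) = 0 := by
      intro x
      rw [← Pd.map_apply Z u hu h x, hh]
      rfl
    obtain ⟨s, hs⟩ := LinearMap.exists_rightInverse_of_surjective g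
      (LinearMap.range_eq_top.mpr hsurj)
    have hs' : ∀ x', g (s x') = x' := by
      intro x'
      have := LinearMap.congr_fun hs x'
      simpa using this
    have hker : ∀ y y', g y = g y' → h.1 y = h.1 y' := by
      intro y y' hyy
      have h1 : g (y - y') = 0 := by rw [map_sub, hyy, sub_self]
      obtain ⟨x, hx⟩ := (hex _).mp h1
      have h2 := h0 x
      rw [hx, map_sub, sub_eq_zero] at h2
      exact h2
    refine ⟨⟨h.1.comp s, ?_⟩, ?_⟩
    · intro v x'
      rw [LinearMap.comp_apply, LinearMap.comp_apply, ← h.2 v (s x')]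
      apply hker
      rw [hs', hg v (s x'), hs']
    · apply Subtype.ext
      apply LinearMap.ext
      intro y
      rw [Pd.map_apply]
      change h.1 (s (g y)) = h.1 y
      apply hker
      rw [hs']

/-- nonzero smooth representations have nonzero fixed vectors. -/
theorem Smo.exists_fix (Z : PZ p V n) (hsm : Smo Z ρ) {S : Submodule (ZMod p) X}
    (hS : Stb ρ S) (h0 : S ≠ ⊥) : ∃ y ∈ S, y ≠ 0 ∧ y ∈ fix ρ ⊤ := by
  obtain ⟨x, hxS, hx0⟩ := Submodule.exists_mem_ne_zero_of_ne_bot h0
  obtain ⟨k, hk⟩ := hsm x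
  have key : ∀ i ≤ n, ∃ y ∈ S, y ≠ 0 ∧ ∀ w ∈ Z.W i k, ρ w y = y := by
    intro i
    induction i with
    | zero => intro _; exact ⟨x, hxS, hx0, hk⟩
    | succ i ih =>
      intro hi
      obtain ⟨y, hyS, hy0, hy⟩ := ih (Nat.le_of_succ_le hi)
      have hi' : i < n := hi
      set T : Module.End (ZMod p) X := ρ (Z.t i) - 1 with hT
      -- everything `T ^ j y` is in `S` and fixed by `W i k`
      have hTj : ∀ j, (T ^ j) y ∈ S ∧ ∀ w ∈ Z.W i k, ρ w ((T ^ j) y) = (T ^ j) y := by
        intro j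
        induction j with
        | zero => rw [pow_zero, Module.End.one_apply]; exact ⟨hyS, hy⟩
        | succ j ihj =>
          obtain ⟨h1, h2⟩ := ihj
          rw [pow_succ', Module.End.mul_apply]
          have h3 : ∀ z, T z = ρ (Z.t i) z - z := fun z => rfl
          rw [h3]
          refine ⟨S.sub_mem (hS _ _ h1) h1, fun w hw => ?_⟩
          rw [map_sub, h2 w hw]
          congr 1
          have h4 : w * Z.t i = Z.t i * ((Z.t i)⁻¹ * w * (Z.t i)) := by group
          have h5 : (Z.t i)⁻¹ * w * (Z.t i) ∈ Z.W i k := by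
            have := (Z.normal i k).conj_mem w hw (Z.t i)⁻¹
            rwa [inv_inv] at this
          rw [← Module.End.mul_apply, ← map_mul, h4, map_mul, Module.End.mul_apply, h2 _ h5]
      have hnil : (T ^ (p ^ k)) y = 0 := by
        have : CharP (Module.End (ZMod p) X) p := by
          have hinj : Function.Injective (algebraMap (ZMod p) (Module.End (ZMod p) X)) := by
            have : Nontrivial X := ⟨⟨x, 0, hx0⟩⟩
            exact (algebraMap (ZMod p) (Module.End (ZMod p) X)).injective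
          exact charP_of_injective_algebraMap hinj p
        have h1 : T ^ (p ^ k) = ρ (Z.t i) ^ (p ^ k) - 1 := by
          rw [hT, sub_pow_char_pow_of_commute p k (Commute.one_right (ρ (Z.t i))), one_pow]
        rw [h1, LinearMap.sub_apply, Module.End.one_apply, ← map_pow,
          hy _ ((Z.order i hi' k _).mpr dvd_rfl), sub_self]
      classical
      have hex : ∃ j, (T ^ j) y = 0 := ⟨_, hnil⟩
      obtain ⟨j, hj⟩ : ∃ j, Nat.find hex = j + 1 := by
        apply Nat.exists_eq_succ_of_ne_zero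
        intro h
        have := Nat.find_spec hex
        rw [h, pow_zero, Module.End.one_apply] at this
        exact hy0 this
      refine ⟨(T ^ j) y, (hTj j).1, Nat.find_min hex (by omega), ?_⟩
      have hfixt : ρ (Z.t i) ((T ^ j) y) = (T ^ j) y := by
        have := Nat.find_spec hex
        rw [hj, pow_succ', Module.End.mul_apply] at this
        exact sub_eq_zero.mp this
      have hfixtm : ∀ m : ℕ, ρ (Z.t i ^ m) ((T ^ j) y) = (T ^ j) y := by
        intro m
        induction m with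
        | zero => rw [pow_zero, map_one, Module.End.one_apply]
        | succ m ihm => rw [pow_succ, map_mul, Module.End.mul_apply, hfixt, ihm]
      intro v hv
      obtain ⟨m, hm⟩ := Z.gen i hi' k v hv
      have h6 : v = Z.t i ^ m * ((Z.t i ^ m)⁻¹ * v) := by group
      rw [h6, map_mul, Module.End.mul_apply, (hTj j).2 _ hm, hfixtm]
  obtain ⟨y, hyS, hy0, hy⟩ := key n le_rfl
  rw [Z.top k] at hy
  exact ⟨y, hyS, hy0, hy⟩

/-- a map injective on fixed vectors is injective. -/
theorem Smo.inj_of_fix (Z : PZ p V n) (hsm : Smo Z ρ) {u : X →ₗ[ZMod p] Y} (hu : Eqv ρ ρ' u)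
    (h : ∀ x ∈ fix ρ ⊤, u x = 0 → x = 0) : Function.Injective u := by
  rw [← LinearMap.ker_eq_bot]
  by_contra hne
  have hstb : Stb ρ (LinearMap.ker u) := by
    intro v x hx
    rw [LinearMap.mem_ker] at hx ⊢
    rw [hu v x, hx, map_zero]
  obtain ⟨y, hyS, hy0, hy⟩ := Smo.exists_fix Z hsm hstb hne
  exact hy0 (h y hy (LinearMap.mem_ker.mp hyS))

theorem exists_embed (Z : PZ p V n) (hsm : Smo Z ρ)
    (hfin : FiniteDimensional (ZMod p) (fix ρ ⊤)) :
    ∃ u : X →ₗ[ZMod p] (Fin (finrank (ZMod p) (fix ρ ⊤)) → Cf Z 0),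
      Eqv ρ (Cf.ρm Z 0 (finrank (ZMod p) (fix ρ ⊤))) u ∧ Function.Injective u := by
  let b := finBasis (ZMod p) (fix ρ ⊤)
  have h1 : ∀ j : Fin (finrank (ZMod p) (fix ρ ⊤)), ∃ μ : X →ₗ[ZMod p] ZMod p,
      μ.comp (fix ρ ⊤).subtype = b.coord j := fun j => LinearMap.exists_extend (b.coord j)
  choose μ hμ using h1
  have h2 : ∀ j, ∃ f : Pd Z ρ, ∀ x v, (f.1 x).1 v = μ j (ρ v x) :=
    fun j => Pd.exists_of_dual Z hsm (μ j)
  choose f hf using h2
  refine ⟨LinearMap.pi fun j => (f j).1, ?_, ?_⟩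
  · intro v x
    funext j
    rw [Cf.ρm_apply, LinearMap.pi_apply, LinearMap.pi_apply]
    exact (f j).2 v x
  · apply Smo.inj_of_fix Z hsm (ρ' := Cf.ρm Z 0 (finrank (ZMod p) (fix ρ ⊤)))
    · intro v x
      funext j
      rw [Cf.ρm_apply, LinearMap.pi_apply, LinearMap.pi_apply]
      exact (f j).2 v x
    · intro x hx hux
      have h3 : ∀ j, b.coord j ⟨x, hx⟩ = 0 := by
        intro j
        have h4 : (f j).1 x = 0 := congrFun hux j
        have h5 := hf j x 1
        rw [h4, map_one, Module.End.one_apply] at h5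
        have h6 := LinearMap.congr_fun (hμ j) ⟨x, hx⟩
        rw [LinearMap.comp_apply, Submodule.subtype_apply] at h6
        rw [← h6, ← h5]
        rfl
      have h7 : (⟨x, hx⟩ : fix ρ ⊤) = 0 := by
        apply b.ext_elem
        intro j
        have := h3 j
        rw [Basis.coord_apply] at this
        rw [this, map_zero]
        rfl
      exact congrArg Subtype.val h7

end Pool.Agent.Helper25.GG
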