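import Pool.Agent.Helper25.GG.A3
import Pool.Agent.Helper25.GG.P1

/-!
# Block A4: the ring Lam Z is left noetherian
-/

set_option autoImplicit false

namespace Pool.Agent.Helper25.GG

open Module

variable {p : ℕ} [Fact p.Prime] {V : Type} [Group V] {n : ℕ}

/-- quotients of smooth representations are smooth. -/
theorem Smo.quoA4 {X : Type} [AddCommGroup X] [Module (ZMod p) X] {Z : PZ p V n}
    {ρ : V →* Module.End (ZMod p) X} (h : Smo Z ρ) (S : Submodule (ZMod p) X) (hS : Stb ρ S) :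
    Smo Z (quoρ ρ S hS) := by
  intro w
  obtain ⟨x, rfl⟩ := Submodule.mkQ_surjective S w
  obtain ⟨k, hk⟩ := h x
  exact ⟨k, fun w hw => by rw [quoρ_mk, hk w hw]⟩

/-- if `m` vanishes on the common kernel of the `l a`, then `m` is in the left ideal they
generate. -/
theorem Lam.mem_of_ker (Z : PZ p V n) {r : ℕ} (l : Fin r → Lam Z) (m : Lam Z)
    (h : ∀ f, (∀ a, (l a).1 f = 0) → m.1 f = 0) : ∃ b : Fin r → Lam Z, m = ∑ a, b a * l a := by
  set u : Cf Z 0 →ₗ[ZMod p] (Fin r → Cf Z 0) := LinearMap.pi fun a => (l a).1 with hu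
  have hua : ∀ f a, u f a = (l a).1 f := fun f a => rfl
  have huE : Eqv (Cf.ρ Z 0) (Cf.ρm Z 0 r) u := by
    intro v f
    funext a
    rw [hua, Cf.ρm_apply, hua, (l a).2]
  set S : Submodule (ZMod p) (Cf Z 0) := LinearMap.ker u with hSdef
  have hS : Stb (Cf.ρ Z 0) S := by
    intro v x hx
    rw [hSdef, LinearMap.mem_ker] at hx ⊢
    rw [huE, hx, map_zero]
  have hSm : S ≤ LinearMap.ker m.1 := by
    intro x hx
    rw [hSdef, LinearMap.mem_ker] at hx
    rw [LinearMap.mem_ker]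
    apply h
    intro a
    rw [← hua, hx, Pi.zero_apply]
  set ub : (Cf Z 0 ⧸ S) →ₗ[ZMod p] (Fin r → Cf Z 0) := S.liftQ u le_rfl with hub
  set mb : (Cf Z 0 ⧸ S) →ₗ[ZMod p] Cf Z 0 := S.liftQ m.1 hSm with hmb
  have hub_mk : ∀ x, ub (S.mkQ x) = u x := fun x => rfl
  have hmb_mk : ∀ x, mb (S.mkQ x) = m.1 x := fun x => rfl
  have hubE : Eqv (quoρ (Cf.ρ Z 0) S hS) (Cf.ρm Z 0 r) ub := by
    intro v w
    obtain ⟨x, rfl⟩ := Submodule.mkQ_surjective S w
    rw [quoρ_mk, hub_mk, hub_mk, huE]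
  have hmbE : Eqv (quoρ (Cf.ρ Z 0) S hS) (Cf.ρ Z 0) mb := by
    intro v w
    obtain ⟨x, rfl⟩ := Submodule.mkQ_surjective S w
    rw [quoρ_mk, hmb_mk, hmb_mk, m.2]
  have hinj : Function.Injective ub := by
    rw [← LinearMap.ker_eq_bot, hub]
    exact Submodule.ker_liftQ_eq_bot' S u hSdef
  obtain ⟨F, hF⟩ := Pd.map_surj Z ((Cf.smo Z).quoA4 S hS) (Cf.smom Z r) hubE hinj ⟨mb, hmbE⟩
  have hF' : ∀ f, F.1 (u f) = m.1 f := by
    intro f
    rw [← hub_mk, ← hmb_mk, ← Pd.map_apply Z ub hubE F, hF]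
  classical
  refine ⟨fun a => ⟨F.1.comp (LinearMap.single (ZMod p) (fun _ => Cf Z 0) a), ?_⟩, ?_⟩
  · intro v f
    rw [LinearMap.comp_apply, LinearMap.comp_apply, ← F.2]
    congr 1
    funext j
    rw [Cf.ρm_apply]
    rw [LinearMap.coe_single]
    by_cases hj : j = a
    · subst hj
      rw [Pi.single_eq_same, Pi.single_eq_same]
    · rw [Pi.single_eq_of_ne hj, Pi.single_eq_of_ne hj, map_zero]
  · apply Subtype.ext
    apply LinearMap.ext
    intro f
    rw [← hF']
    have h1 : u f = ∑ a, LinearMap.single (ZMod p) (fun _ => Cf Z 0) a (u f a) := by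
      simp only [LinearMap.coe_single]
      exact (Finset.univ_sum_single (u f)).symm
    rw [AddSubmonoidClass.coe_finsetSum, LinearMap.sum_apply]
    conv_lhs => rw [h1, map_sum]
    rfl

/-- common kernel of a left ideal. -/
noncomputable def Lam.annS (Z : PZ p V n) (I : Submodule (Lam Z) (Lam Z)) :
    Submodule (ZMod p) (Cf Z 0) where
  carrier := {f | ∀ l ∈ I, l.1 f = 0}
  add_mem' := fun ha hb l hl => by rw [map_add, ha l hl, hb l hl, add_zero]
  zero_mem' := fun l _ => map_zero _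
  smul_mem' := fun c x hx l hl => by rw [map_smul, hx l hl, smul_zero]

instance Lam.noetherian (Z : PZ p V n) : IsNoetherianRing (Lam Z) := by
  rw [isNoetherianRing_iff, isNoetherian_iff_fg_wellFounded,
    wellFoundedGT_iff_monotone_chain_condition]
  intro a
  obtain ⟨M, hM⟩ := Cf.dcc Z (Nat.zero_le n) (fun m => Lam.annS Z (a m).1)
    (fun m v x hx l hl => by rw [l.2, hx l hl, map_zero])
    (fun i j hij x hx l hl => hx l (a.monotone hij hl))
  refine ⟨M, fun k hk => ?_⟩
  apply le_antisymm (a.monotone hk)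
  change (a k).1 ≤ (a M).1
  intro m hm
  obtain ⟨r, l, hl⟩ := Submodule.fg_iff_exists_fin_generating_family.1 (a M).2
  obtain ⟨b, hb⟩ := Lam.mem_of_ker Z l m (by
    intro f hf
    have h1 : f ∈ Lam.annS Z (a M).1 := by
      intro x hx
      rw [← hl] at hx
      induction hx using Submodule.span_induction with
      | mem x hx =>
        obtain ⟨i, rfl⟩ := hx
        exact hf i
      | zero => rfl
      | add x y _ _ hx hy =>
        change x.1 f + y.1 f = 0
        rw [hx, hy, add_zero]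
      | smul c x _ hx =>
        change c.1 (x.1 f) = 0
        rw [hx, map_zero]
    have h2 : Lam.annS Z (a k).1 = Lam.annS Z (a M).1 := hM k hk
    rw [← h2] at h1
    exact h1 m hm)
  rw [hb]
  apply Submodule.sum_mem
  intro i _
  rw [← smul_eq_mul]
  apply Submodule.smul_mem
  rw [← hl]
  exact Submodule.subset_span ⟨i, rfl⟩

end Pool.Agent.Helper25.GG
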