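import Pool.Agent.Helper25.GG.A1b
import Pool.Agent.Helper25.GG.A2

/-!
# Block A5: growth of kernels
-/

set_option autoImplicit false

namespace Pool.Agent.Helper25.GG

open Module

section lin

variable {K H H' : Type*} [Field K] [AddCommGroup H] [Module K H] [AddCommGroup H'] [Module K H']

theorem fr_le (f : H →ₗ[K] H') (M : Submodule K H) (N : Submodule K H')
    [FiniteDimensional K M] [FiniteDimensional K N] (h : ∀ x ∈ M, f x ∈ N) :
    finrank K M ≤ finrank K N + finrank K ↥(LinearMap.ker f ⊓ M) := by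
  let g : M →ₗ[K] N := f.restrict h
  have h1 := LinearMap.finrank_range_add_finrank_ker g
  have h2 : finrank K (LinearMap.range g) ≤ finrank K N := Submodule.finrank_le _
  haveI : FiniteDimensional K ↥(LinearMap.ker f ⊓ M) :=
    Submodule.finiteDimensional_of_le (inf_le_right : LinearMap.ker f ⊓ M ≤ M)
  let e : LinearMap.ker g →ₗ[K] ↥(LinearMap.ker f ⊓ M) :=
    { toFun := fun x => ⟨x.1.1, by
        refine ⟨?_, x.1.2⟩
        have := x.2
        rw [LinearMap.mem_ker] at this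
        have h3 := congrArg Subtype.val this
        exact h3⟩
      map_add' := fun _ _ => rfl
      map_smul' := fun _ _ => rfl }
  have he : Function.Injective e := by
    intro x y hxy
    apply Subtype.ext
    apply Subtype.ext
    have h3 := congrArg Subtype.val hxy
    exact h3
  have h3 : finrank K (LinearMap.ker g) ≤ finrank K ↥(LinearMap.ker f ⊓ M) :=
    LinearMap.finrank_le_finrank_of_injective he
  omega

theorem fr_pow (T : Module.End K H) (M : Submodule K H) [FiniteDimensional K M]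
    (h : ∀ x ∈ M, T x ∈ M) (q : ℕ) :
    finrank K ↥(LinearMap.ker (T ^ q) ⊓ M) ≤ q * finrank K ↥(LinearMap.ker T ⊓ M) := by
  induction q with
  | zero =>
    have : LinearMap.ker (T ^ 0) ⊓ M = ⊥ := by
      rw [eq_bot_iff]
      intro x hx
      have := LinearMap.mem_ker.1 hx.1
      rw [pow_zero] at this
      exact this
    rw [this, finrank_bot, zero_mul]
  | succ q ih =>
    haveI : FiniteDimensional K ↥(LinearMap.ker (T ^ (q + 1)) ⊓ M) :=
      Submodule.finiteDimensional_of_le (inf_le_right : LinearMap.ker (T ^ (q + 1)) ⊓ M ≤ M)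
    haveI : FiniteDimensional K ↥(LinearMap.ker (T ^ q) ⊓ M) :=
      Submodule.finiteDimensional_of_le (inf_le_right : LinearMap.ker (T ^ q) ⊓ M ≤ M)
    haveI : FiniteDimensional K ↥(LinearMap.ker T ⊓ M) :=
      Submodule.finiteDimensional_of_le (inf_le_right : LinearMap.ker T ⊓ M ≤ M)
    have h1 := fr_le T (LinearMap.ker (T ^ (q + 1)) ⊓ M) (LinearMap.ker (T ^ q) ⊓ M) (by
      intro x hx
      refine ⟨?_, h x hx.2⟩
      have := LinearMap.mem_ker.1 hx.1
      rw [pow_succ, Module.End.mul_apply] at this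
      exact LinearMap.mem_ker.2 this)
    have h2 : LinearMap.ker T ⊓ (LinearMap.ker (T ^ (q + 1)) ⊓ M) ≤ LinearMap.ker T ⊓ M :=
      fun x hx => ⟨hx.1, hx.2.2⟩
    have h3 := Submodule.finrank_mono h2
    rw [add_mul, one_mul]
    omega

end lin

variable {p : ℕ} [Fact p.Prime] {V : Type} [Group V] {n : ℕ}

/-- the functions of level `k` in `Cf Z i`. -/
def Lv (Z : PZ p V n) (i k : ℕ) : Submodule (ZMod p) (Cf Z i) :=
  (Cl Z i k).comap (Cf Z i).subtype

theorem mem_Lv {Z : PZ p V n} {i k : ℕ} {f : Cf Z i} : f ∈ Lv Z i k ↔ f.1 ∈ Cl Z i k := Iff.rfl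

theorem Lv_fin (Z : PZ p V n) {i : ℕ} (hi : i ≤ n) (k : ℕ) :
    FiniteDimensional (ZMod p) (Lv Z i k) := by
  haveI := (finrank_Cl Z hi k).1
  let e : Lv Z i k →ₗ[ZMod p] Cl Z i k :=
    { toFun := fun x => ⟨x.1.1, x.2⟩
      map_add' := fun _ _ => rfl
      map_smul' := fun _ _ => rfl }
  exact FiniteDimensional.of_injective e (by
    intro x y hxy
    apply Subtype.ext
    apply Subtype.ext
    have h3 := congrArg Subtype.val hxy
    exact h3)

omit [Fact p.Prime] in
theorem level_succ (Z : PZ p V n) {i : ℕ} (hi : i < n) {k : ℕ} {f : V → ZMod p}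
    (hf : f ∈ Cl Z i k) (h : ∀ x, f (x * Z.t i) = f x) : f ∈ Cl Z (i + 1) k := by
  intro x w hw
  obtain ⟨m, hm⟩ := Z.gen i hi k w hw
  have h1 : ∀ m : ℕ, ∀ x, f (x * Z.t i ^ m) = f x := by
    intro m
    induction m with
    | zero => intro x; rw [pow_zero, mul_one]
    | succ m ih => intro x; rw [pow_succ, ← mul_assoc, h, ih]
  have h2 : x * w = x * Z.t i ^ m * ((Z.t i ^ m)⁻¹ * w) := by group
  rw [h2, hf _ _ hm, h1]

theorem ker_growth (Z : PZ p V n) {i : ℕ} (hi : i ≤ n) {l : Module.End (ZMod p) (Cf Z i)}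
    (hl : Eqv (Cf.ρ Z i) (Cf.ρ Z i) l) (h0 : l ≠ 0) : ∃ C : ℕ, ∀ k : ℕ,
    finrank (ZMod p) ↥(LinearMap.ker l ⊓ (Cl Z i k).comap (Cf Z i).subtype) * p ^ k ≤
      C * p ^ ((n - i) * k) := by
  obtain ⟨d, hd⟩ : ∃ d, n - i = d := ⟨_, rfl⟩
  induction d generalizing i with
  | zero =>
    have : i = n := by omega
    subst this
    refine ⟨0, fun k => ?_⟩
    let ev : Cf Z i →ₗ[ZMod p] ZMod p :=
      { toFun := fun f => f.1 1
        map_add' := fun _ _ => rfl
        map_smul' := fun _ _ => rfl }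
    haveI : FiniteDimensional (ZMod p) (Cf Z i) := FiniteDimensional.of_injective ev (by
      intro f g hfg
      apply Subtype.ext
      funext x
      rw [Cf.const Z f.2 x 1, Cf.const Z g.2 x 1]
      exact hfg)
    have hs := Eqv.surj Z hi hl h0
    have hinj : Function.Injective l := LinearMap.injective_iff_surjective.2 hs
    have hk : LinearMap.ker l = ⊥ := LinearMap.ker_eq_bot.2 hinj
    rw [hk, bot_inf_eq, finrank_bot, zero_mul]
    exact Nat.zero_le _
  | succ d ih =>
    have hi' : i < n := by omega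
    obtain ⟨j, l', hl', hfac, f0, hf0, hlf0⟩ := Eqv.factor Z hi' hl h0
    obtain ⟨l1, hl1, hres⟩ := Eqv.exists_res Z hi' hl'
    have hl10 : l1 ≠ 0 := by
      intro h
      apply hlf0
      have h1 := hres ⟨f0.1, hf0⟩ f0.2
      rw [h] at h1
      apply Subtype.ext
      exact h1.symm
    obtain ⟨C', hC'⟩ := ih (i := i + 1) (by omega) hl1 hl10 (by omega)
    refine ⟨j + C', fun k => ?_⟩
    change finrank (ZMod p) ↥(LinearMap.ker l ⊓ Lv Z i k) * p ^ k ≤ _
    haveI hLv := Lv_fin Z hi k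
    haveI hLv' := Lv_fin Z (show i + 1 ≤ n from hi') k
    have hCl := finrank_Cl Z (show i + 1 ≤ n from hi') k
    haveI := hCl.1
    haveI fin1 : ∀ S : Submodule (ZMod p) (Cf Z i), FiniteDimensional (ZMod p) ↥(S ⊓ Lv Z i k) :=
      fun S => Submodule.finiteDimensional_of_le (inf_le_right : S ⊓ Lv Z i k ≤ Lv Z i k)
    haveI fin2 : ∀ S : Submodule (ZMod p) (Cf Z (i + 1)),
        FiniteDimensional (ZMod p) ↥(S ⊓ Lv Z (i + 1) k) :=
      fun S => Submodule.finiteDimensional_of_le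
        (inf_le_right : S ⊓ Lv Z (i + 1) k ≤ Lv Z (i + 1) k)
    have hTLst : ∀ x ∈ Lv Z i k, TL Z i x ∈ Lv Z i k := fun x hx => TL_level Z i x hx
    have hTRst : ∀ x ∈ Lv Z i k, TR Z i x ∈ Lv Z i k := fun x hx => TR_level Z i x hx
    have hTLpow : ∀ m : ℕ, ∀ x ∈ Lv Z i k, (TL Z i ^ m) x ∈ Lv Z i k := by
      intro m
      induction m with
      | zero => intro x hx; exact hx
      | succ m ihm =>
        intro x hx
        rw [pow_succ, Module.End.mul_apply]
        exact ihm _ (hTLst x hx)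
    -- first step
    have s1 : finrank (ZMod p) ↥(LinearMap.ker l ⊓ Lv Z i k) ≤
        finrank (ZMod p) ↥(LinearMap.ker l' ⊓ Lv Z i k) +
        finrank (ZMod p) ↥(LinearMap.ker (TL Z i ^ j) ⊓ Lv Z i k) := by
      have h1 := fr_le (TL Z i ^ j) (LinearMap.ker l ⊓ Lv Z i k) (LinearMap.ker l' ⊓ Lv Z i k) (by
        intro x hx
        refine ⟨?_, hTLpow j x hx.2⟩
        have h2 := LinearMap.mem_ker.1 hx.1
        rw [hfac, Module.End.mul_apply] at h2
        exact LinearMap.mem_ker.2 h2)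
      have h2 : LinearMap.ker (TL Z i ^ j) ⊓ (LinearMap.ker l ⊓ Lv Z i k) ≤
          LinearMap.ker (TL Z i ^ j) ⊓ Lv Z i k := fun x hx => ⟨hx.1, hx.2.2⟩
      have h3 := Submodule.finrank_mono h2
      omega
    have s2 := fr_pow (TL Z i) (Lv Z i k) hTLst j
    -- kernel of TL
    have s3 : finrank (ZMod p) ↥(LinearMap.ker (TL Z i) ⊓ Lv Z i k) ≤
        p ^ ((n - (i + 1)) * k) := by
      rw [← hCl.2]
      let e : ↥(LinearMap.ker (TL Z i) ⊓ Lv Z i k) →ₗ[ZMod p] Cl Z (i + 1) k :=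
        { toFun := fun x => ⟨x.1.1, by
            apply level_succ Z hi' x.2.2
            exact (Cf.mem_succ Z hi' x.1.2).1 ((TL_eq_zero_iff Z hi' x.1).1 x.2.1)⟩
          map_add' := fun _ _ => rfl
          map_smul' := fun _ _ => rfl }
      exact LinearMap.finrank_le_finrank_of_injective (f := e) (by
        intro x y hxy
        apply Subtype.ext
        apply Subtype.ext
        have h3 := congrArg Subtype.val hxy
        exact h3)
    -- kernel of l'
    have hcomm : ∀ x, l' (TR Z i x) = TR Z i (l' x) := by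
      intro x
      have h1 : TR Z i x = Cf.ρ Z i (Z.t i) x - x := rfl
      have h2 : TR Z i (l' x) = Cf.ρ Z i (Z.t i) (l' x) - l' x := rfl
      rw [h1, h2, map_sub, hl']
    have s4 := fr_pow (TR Z i) (LinearMap.ker l' ⊓ Lv Z i k) (by
      intro x hx
      refine ⟨LinearMap.mem_ker.2 ?_, hTRst x hx.2⟩
      rw [hcomm, (LinearMap.mem_ker.1 hx.1), map_zero]) (p ^ k)
    have s5 : LinearMap.ker (TR Z i ^ p ^ k) ⊓ (LinearMap.ker l' ⊓ Lv Z i k) =
        LinearMap.ker l' ⊓ Lv Z i k := by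
      apply inf_eq_right.2
      intro x hx
      rw [LinearMap.mem_ker]
      exact TR_nil Z hi' x hx.2
    rw [s5] at s4
    have s6 : finrank (ZMod p) ↥(LinearMap.ker (TR Z i) ⊓ (LinearMap.ker l' ⊓ Lv Z i k)) ≤
        finrank (ZMod p) ↥(LinearMap.ker l1 ⊓ Lv Z (i + 1) k) := by
      have hx1 : ∀ x : ↥(LinearMap.ker (TR Z i) ⊓ (LinearMap.ker l' ⊓ Lv Z i k)),
          x.1.1 ∈ Cf Z (i + 1) := fun x => (TR_eq_zero_iff Z hi' x.1).1 x.2.1
      let e : ↥(LinearMap.ker (TR Z i) ⊓ (LinearMap.ker l' ⊓ Lv Z i k)) →ₗ[ZMod p]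
          ↥(LinearMap.ker l1 ⊓ Lv Z (i + 1) k) :=
        { toFun := fun x => ⟨⟨x.1.1, hx1 x⟩, by
            refine ⟨?_, ?_⟩
            · rw [SetLike.mem_coe, LinearMap.mem_ker]
              apply Subtype.ext
              rw [hres ⟨x.1.1, hx1 x⟩ x.1.2]
              have h2 : l' x.1 = 0 := x.2.2.1
              exact congrArg Subtype.val h2
            · exact level_succ Z hi' x.2.2.2 ((Cf.mem_succ Z hi' x.1.2).1 (hx1 x))⟩
          map_add' := fun _ _ => rfl
          map_smul' := fun _ _ => rfl }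
      exact LinearMap.finrank_le_finrank_of_injective (f := e) (by
        intro x y hxy
        apply Subtype.ext
        apply Subtype.ext
        have h3 := congrArg (fun z => z.1.1) hxy
        exact h3)
    have s7 : finrank (ZMod p) ↥(LinearMap.ker l1 ⊓ Lv Z (i + 1) k) * p ^ k ≤
        C' * p ^ ((n - (i + 1)) * k) := hC' k
    have hpow : p ^ ((n - i) * k) = p ^ ((n - (i + 1)) * k) * p ^ k := by
      rw [← pow_add]
      congr 1
      have : n - i = (n - (i + 1)) + 1 := by omega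
      rw [this]; ring
    rw [hpow]
    set A := p ^ ((n - (i + 1)) * k)
    set P := p ^ k
    set a := finrank (ZMod p) ↥(LinearMap.ker l ⊓ Lv Z i k)
    set b := finrank (ZMod p) ↥(LinearMap.ker l' ⊓ Lv Z i k)
    set c := finrank (ZMod p) ↥(LinearMap.ker (TL Z i ^ j) ⊓ Lv Z i k)
    have t1 : c ≤ j * A := s2.trans (Nat.mul_le_mul_left j s3)
    have t2 : b ≤ P * finrank (ZMod p) ↥(LinearMap.ker l1 ⊓ Lv Z (i + 1) k) :=
      s4.trans (Nat.mul_le_mul_left _ s6)
    have t3 : b ≤ C' * A := by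
      calc b ≤ P * finrank (ZMod p) ↥(LinearMap.ker l1 ⊓ Lv Z (i + 1) k) := t2
        _ = finrank (ZMod p) ↥(LinearMap.ker l1 ⊓ Lv Z (i + 1) k) * P := mul_comm _ _
        _ ≤ C' * A := s7
    calc a * P ≤ (b + c) * P := Nat.mul_le_mul_right P s1
      _ ≤ (C' * A + j * A) * P := Nat.mul_le_mul_right P (Nat.add_le_add t3 t1)
      _ = (j + C') * (A * P) := by ring

end Pool.Agent.Helper25.GG
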