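import Mathlib

/-!
# Block A6: additivity of the rank over noetherian domains (not necessarily commutative)
-/

set_option autoImplicit false

namespace Pool.Agent.Helper25.GG

open Module

variable {R : Type*} [Ring R] [Nontrivial R] [NoZeroDivisors R] [IsNoetherianRing R]
  {M : Type*} [AddCommGroup M] [Module R M]

theorem exists_indep [Module.Finite R M] :
    ∃ v : Fin (finrank R M) → M, LinearIndependent R v :=
  exists_linearIndependent_of_le_finrank le_rfl

/-- A maximal independent family captures a nonzero multiple of every vector. -/
theorem exists_smul_mem_span [Module.Finite R M] {v : Fin (finrank R M) → M}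
    (hv : LinearIndependent R v) (m : M) :
    ∃ r : R, r ≠ 0 ∧ r • m ∈ Submodule.span R (Set.range v) := by
  by_contra! H
  have h1 : LinearIndependent R (Fin.cons m v : Fin (finrank R M + 1) → M) := by
    refine LinearIndependent.finCons' m v hv ?_
    intro c y hy hc
    by_contra hc0
    refine H c hc0 ?_
    have : c • m = -(y : M) := eq_neg_of_add_eq_zero_left hc
    rw [this]
    exact neg_mem hy
  have h2 := h1.fintype_card_le_finrank
  simp at h2

theorem exists_smul_eq_zero [Module.Finite R M] (h : finrank R M = 0) (x : M) :
    ∃ r : R, r ≠ 0 ∧ r • x = 0 := by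
  obtain ⟨v, hv⟩ := exists_indep (R := R) (M := M)
  obtain ⟨r, hr, hm⟩ := exists_smul_mem_span hv x
  refine ⟨r, hr, ?_⟩
  have : Set.range v = ∅ := by
    rw [Set.range_eq_empty_iff, h]
    infer_instance
  rw [this, Submodule.span_empty, Submodule.mem_bot] at hm
  exact hm

theorem finrank_quot_add (N : Submodule R M) [Module.Finite R M] :
    finrank R (M ⧸ N) + finrank R N = finrank R M := by
  have : IsNoetherian R M := isNoetherian_of_isNoetherianRing_of_finite R M
  have : Module.Finite R N := inferInstance
  apply le_antisymm
  · exact Module.finrank_quotient_add_finrank_le N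
  · obtain ⟨x, hx⟩ := exists_indep (R := R) (M := M ⧸ N)
    obtain ⟨y, hy⟩ := exists_indep (R := R) (M := N)
    obtain ⟨z, hz⟩ := exists_indep (R := R) (M := M)
    choose X hX using fun i => N.mkQ_surjective (x i)
    let w : Fin (finrank R (M ⧸ N)) ⊕ Fin (finrank R N) → M :=
      Sum.elim X (fun j => (y j : M))
    have key : ∀ m : M, ∃ r : R, r ≠ 0 ∧ r • m ∈ Submodule.span R (Set.range w) := by
      intro m
      obtain ⟨r, hr, hm⟩ := exists_smul_mem_span hx (N.mkQ m)
      rw [Submodule.mem_span_range_iff_exists_fun] at hm
      obtain ⟨c, hc⟩ := hm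
      have h1 : r • m - ∑ i, c i • X i ∈ N := by
        have h0 : N.mkQ (r • m - ∑ i, c i • X i) = 0 := by
          rw [map_sub, map_smul, map_sum, ← hc]
          simp only [map_smul, hX, sub_self]
        exact (Submodule.Quotient.mk_eq_zero N).1 h0
      obtain ⟨s, hs, hm2⟩ := exists_smul_mem_span hy ⟨_, h1⟩
      rw [Submodule.mem_span_range_iff_exists_fun] at hm2
      obtain ⟨d, hd⟩ := hm2
      refine ⟨s * r, mul_ne_zero hs hr, ?_⟩
      have h2 : s • (r • m - ∑ i, c i • X i) = ∑ j, d j • (y j : M) := by
        have := congrArg (fun t : N => (t : M)) hd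
        simp only [Submodule.coe_sum, Submodule.coe_smul] at this
        exact this.symm
      have h3 : (s * r) • m = s • (∑ i, c i • X i) + ∑ j, d j • (y j : M) := by
        rw [← h2, smul_sub, mul_smul]
        abel
      rw [h3]
      refine add_mem (Submodule.smul_mem _ _ (Submodule.sum_mem _ fun i _ =>
        Submodule.smul_mem _ _ (Submodule.subset_span ⟨Sum.inl i, rfl⟩)))
        (Submodule.sum_mem _ fun j _ => Submodule.smul_mem _ _
          (Submodule.subset_span ⟨Sum.inr j, rfl⟩))
    choose c hc hcm using fun i => key (z i)
    have hli : LinearIndependent R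
        (fun i => (⟨c i • z i, hcm i⟩ : Submodule.span R (Set.range w))) := by
      rw [Fintype.linearIndependent_iff]
      intro g hg i
      have hg2 : ∑ i, (g i * c i) • z i = 0 := by
        have := congrArg (fun t : Submodule.span R (Set.range w) => (t : M)) hg
        simp only [Submodule.coe_sum, Submodule.coe_smul, Submodule.coe_zero] at this
        simpa [mul_smul] using this
      have := (Fintype.linearIndependent_iff.1 hz) _ hg2 i
      exact (mul_eq_zero.1 this).resolve_right (hc i)
    have h4 := hli.fintype_card_le_finrank
    have h5 := finrank_range_le_card (R := R) w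
    simp only [Fintype.card_fin, Fintype.card_sum] at h4 h5
    exact h4.trans h5

end Pool.Agent.Helper25.GG
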