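import Mathlib

/-!
# Smooth mod `p` representations of a group with a normal series of `ℤ_p`-type
-/

set_option autoImplicit false

namespace Pool.Agent.Helper25.GG

open Module

/-- a group `V` with elements `t 0, …, t (n - 1)` and normal subgroups `W i k`
(generated by `t 0, …, t (i - 1)` and the `k`-th term `W 0 k` of a filtration), such that
`W (i + 1) k / W i k` is cyclic of order `p ^ k`, generated by `t i`. -/
structure PZ (p : ℕ) (V : Type) [Group V] (n : ℕ) where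
  W : ℕ → ℕ → Subgroup V
  t : ℕ → V
  normal : ∀ i k, (W i k).Normal
  anti : ∀ i k, W i (k + 1) ≤ W i k
  mono : ∀ i k, W i k ≤ W (i + 1) k
  zero : ∀ i, W i 0 = ⊤
  top : ∀ k, W n k = ⊤
  mem : ∀ i < n, ∀ k, t i ∈ W (i + 1) k
  gen : ∀ i < n, ∀ k, ∀ v ∈ W (i + 1) k, ∃ m : ℕ, (t i ^ m)⁻¹ * v ∈ W i k
  order : ∀ i < n, ∀ k m, t i ^ m ∈ W i k ↔ p ^ k ∣ m
  conj : ∀ i < n, ∀ k v, ∃ m : ℕ, m % p = 1 ∧ v * t i * v⁻¹ * (t i ^ m)⁻¹ ∈ W i k
  pow : ∀ i < n, ∀ k, t i ^ (p ^ k) ∈ W 0 k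

section

variable {p : ℕ} {V : Type} [Group V] {n : ℕ}

/-- locally constant functions on `V`, invariant under some `W i k`. -/
def Cf (Z : PZ p V n) (i : ℕ) : Submodule (ZMod p) (V → ZMod p) where
  carrier := {f | ∃ k, ∀ x, ∀ w ∈ Z.W i k, f (x * w) = f x}
  add_mem' := by
    rintro f g ⟨k, hk⟩ ⟨l, hl⟩
    refine ⟨max k l, fun x w hw => ?_⟩
    have hanti : Antitone (Z.W i) := antitone_nat_of_succ_le (Z.anti i)
    rw [Pi.add_apply, Pi.add_apply, hk x w (hanti (le_max_left _ _) hw),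
      hl x w (hanti (le_max_right _ _) hw)]
  zero_mem' := ⟨0, fun _ _ _ => rfl⟩
  smul_mem' := by
    rintro c f ⟨k, hk⟩
    exact ⟨k, fun x w hw => by rw [Pi.smul_apply, Pi.smul_apply, hk x w hw]⟩

theorem mem_Cf {Z : PZ p V n} {i : ℕ} {f : V → ZMod p} :
    f ∈ Cf Z i ↔ ∃ k, ∀ x, ∀ w ∈ Z.W i k, f (x * w) = f x := Iff.rfl

theorem Cf.stab_right (Z : PZ p V n) (i : ℕ) (v : V) (f : V → ZMod p) (hf : f ∈ Cf Z i) :
    (fun x => f (x * v)) ∈ Cf Z i := by
  obtain ⟨k, hk⟩ := hf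
  refine ⟨k, fun x w hw => ?_⟩
  have h1 : x * w * v = x * v * (v⁻¹ * w * v) := by group
  have h2 : v⁻¹ * w * v ∈ Z.W i k := by
    have := (Z.normal i k).conj_mem w hw v⁻¹
    rwa [inv_inv] at this
  simp only
  rw [h1, hk _ _ h2]

theorem Cf.stab_left (Z : PZ p V n) (i : ℕ) (v : V) (f : V → ZMod p) (hf : f ∈ Cf Z i) :
    (fun x => f (v * x)) ∈ Cf Z i := by
  obtain ⟨k, hk⟩ := hf
  refine ⟨k, fun x w hw => ?_⟩
  simp only
  rw [← mul_assoc, hk _ _ hw]

/-- right translations. -/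
noncomputable def Cf.ρ (Z : PZ p V n) (i : ℕ) : V →* Module.End (ZMod p) (Cf Z i) where
  toFun v :=
    { toFun := fun f => ⟨fun x => f.1 (x * v), Cf.stab_right Z i v f.1 f.2⟩
      map_add' := fun _ _ => rfl
      map_smul' := fun _ _ => rfl }
  map_one' := by
    apply LinearMap.ext
    intro f
    apply Subtype.ext
    funext x
    change f.1 (x * 1) = f.1 x
    rw [mul_one]
  map_mul' v v' := by
    apply LinearMap.ext
    intro f
    apply Subtype.ext
    funext x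
    change f.1 (x * (v * v')) = f.1 (x * v * v')
    rw [mul_assoc]

theorem Cf.ρ_apply (Z : PZ p V n) (i : ℕ) (v : V) (f : Cf Z i) (x : V) :
    (Cf.ρ Z i v f).1 x = f.1 (x * v) := rfl

/-- left translation by `v⁻¹ = u`: `x ↦ f (u x)`. -/
noncomputable def Cf.left (Z : PZ p V n) (i : ℕ) (u : V) : Module.End (ZMod p) (Cf Z i) where
  toFun f := ⟨fun x => f.1 (u * x), Cf.stab_left Z i u f.1 f.2⟩
  map_add' := fun _ _ => rfl
  map_smul' := fun _ _ => rfl

theorem Cf.left_apply (Z : PZ p V n) (i : ℕ) (u : V) (f : Cf Z i) (x : V) :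
    (Cf.left Z i u f).1 x = f.1 (u * x) := rfl

/-- equivariant maps. -/
def Eqv {X Y : Type} [AddCommGroup X] [Module (ZMod p) X] [AddCommGroup Y] [Module (ZMod p) Y]
    (ρ : V →* Module.End (ZMod p) X) (ρ' : V →* Module.End (ZMod p) Y)
    (f : X →ₗ[ZMod p] Y) : Prop := ∀ v x, f (ρ v x) = ρ' v (f x)

/-- smooth representations. -/
def Smo {X : Type} [AddCommGroup X] [Module (ZMod p) X] (Z : PZ p V n)
    (ρ : V →* Module.End (ZMod p) X) : Prop := ∀ x, ∃ k, ∀ w ∈ Z.W 0 k, ρ w x = x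

/-- fixed vectors of a subgroup. -/
def fix {X : Type} [AddCommGroup X] [Module (ZMod p) X]
    (ρ : V →* Module.End (ZMod p) X) (U : Subgroup V) : Submodule (ZMod p) X where
  carrier := {x | ∀ w ∈ U, ρ w x = x}
  add_mem' := fun ha hb w hw => by rw [map_add, ha w hw, hb w hw]
  zero_mem' := fun w _ => map_zero _
  smul_mem' := fun c x hx w hw => by rw [map_smul, hx w hw]

theorem mem_fix {X : Type} [AddCommGroup X] [Module (ZMod p) X]
    {ρ : V →* Module.End (ZMod p) X} {U : Subgroup V} {x : X} :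
    x ∈ fix ρ U ↔ ∀ w ∈ U, ρ w x = x := Iff.rfl

/-- the endomorphism ring of the regular smooth representation. -/
noncomputable def Lam (Z : PZ p V n) : Subalgebra (ZMod p) (Module.End (ZMod p) (Cf Z 0)) where
  carrier := {l | ∀ v f, l (Cf.ρ Z 0 v f) = Cf.ρ Z 0 v (l f)}
  mul_mem' := by
    intro a b ha hb v f
    rw [Module.End.mul_apply, Module.End.mul_apply, hb, ha]
  add_mem' := by
    intro a b ha hb v f
    rw [LinearMap.add_apply, LinearMap.add_apply, ha, hb, map_add]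
  algebraMap_mem' := by
    intro c v f
    rw [Module.algebraMap_end_apply, Module.algebraMap_end_apply, map_smul]

theorem mem_Lam {Z : PZ p V n} {l : Module.End (ZMod p) (Cf Z 0)} :
    l ∈ Lam Z ↔ Eqv (Cf.ρ Z 0) (Cf.ρ Z 0) l := Iff.rfl

/-- the dual of a smooth representation, as a left module over `Lam`. -/
noncomputable def Pd {X : Type} [AddCommGroup X] [Module (ZMod p) X] (Z : PZ p V n)
    (ρ : V →* Module.End (ZMod p) X) : Submodule (Lam Z) (X →ₗ[ZMod p] Cf Z 0) where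
  carrier := {f | Eqv ρ (Cf.ρ Z 0) f}
  add_mem' := by
    intro a b ha hb v x
    rw [LinearMap.add_apply, LinearMap.add_apply, ha, hb, map_add]
  zero_mem' := by
    intro v x
    rw [LinearMap.zero_apply, LinearMap.zero_apply, map_zero]
  smul_mem' := by
    intro l f hf v x
    change l.1 (f (ρ v x)) = Cf.ρ Z 0 v (l.1 (f x))
    rw [hf, l.2]

theorem mem_Pd {X : Type} [AddCommGroup X] [Module (ZMod p) X] {Z : PZ p V n}
    {ρ : V →* Module.End (ZMod p) X} {f : X →ₗ[ZMod p] Cf Z 0} :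
    f ∈ Pd Z ρ ↔ Eqv ρ (Cf.ρ Z 0) f := Iff.rfl

theorem Pd.smul_apply {X : Type} [AddCommGroup X] [Module (ZMod p) X] {Z : PZ p V n}
    {ρ : V →* Module.End (ZMod p) X} (l : Lam Z) (f : Pd Z ρ) (x : X) :
    (l • f).1 x = l.1 (f.1 x) := rfl

/-- the rank. -/
noncomputable def rk {X : Type} [AddCommGroup X] [Module (ZMod p) X] (Z : PZ p V n)
    (ρ : V →* Module.End (ZMod p) X) : ℕ := finrank (Lam Z) (Pd Z ρ)

end

end Pool.Agent.Helper25.GG
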