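import Pool.Agent.Helper25.GG.Defs

/-!
# More definitions for smooth representations
-/

set_option autoImplicit false

namespace Pool.Agent.Helper25.GG

open Module

section

variable {p : ℕ} {V : Type} [Group V] {n : ℕ}

/-- functions of level `k`. -/
def Cl (Z : PZ p V n) (i k : ℕ) : Submodule (ZMod p) (V → ZMod p) where
  carrier := {f | ∀ x, ∀ w ∈ Z.W i k, f (x * w) = f x}
  add_mem' := by
    intro f g hf hg x w hw
    rw [Pi.add_apply, Pi.add_apply, hf x w hw, hg x w hw]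
  zero_mem' := fun _ _ _ => rfl
  smul_mem' := by
    intro c f hf x w hw
    rw [Pi.smul_apply, Pi.smul_apply, hf x w hw]

theorem mem_Cl {Z : PZ p V n} {i k : ℕ} {f : V → ZMod p} :
    f ∈ Cl Z i k ↔ ∀ x, ∀ w ∈ Z.W i k, f (x * w) = f x := Iff.rfl

theorem Cf.exists_level {Z : PZ p V n} {i : ℕ} (f : Cf Z i) : ∃ k, f.1 ∈ Cl Z i k := f.2

theorem Cl_le_Cf (Z : PZ p V n) (i k : ℕ) : Cl Z i k ≤ Cf Z i := fun _ hf => ⟨k, hf⟩

/-- right difference operator on `Cf Z i`: `f ↦ (x ↦ f (x * t i) - f x)`. -/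
noncomputable def TR (Z : PZ p V n) (i : ℕ) : Module.End (ZMod p) (Cf Z i) :=
  Cf.ρ Z i (Z.t i) - 1

/-- left difference operator on `Cf Z i`: `f ↦ (x ↦ f (t i * x) - f x)`. -/
noncomputable def TL (Z : PZ p V n) (i : ℕ) : Module.End (ZMod p) (Cf Z i) :=
  Cf.left Z i (Z.t i) - 1

theorem TR_apply (Z : PZ p V n) (i : ℕ) (f : Cf Z i) (x : V) :
    (TR Z i f).1 x = f.1 (x * Z.t i) - f.1 x := rfl

theorem TL_apply (Z : PZ p V n) (i : ℕ) (f : Cf Z i) (x : V) :
    (TL Z i f).1 x = f.1 (Z.t i * x) - f.1 x := rfl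

/-- the action on `Fin m → Cf Z i`. -/
noncomputable def Cf.ρm (Z : PZ p V n) (i m : ℕ) : V →* Module.End (ZMod p) (Fin m → Cf Z i) where
  toFun v := LinearMap.pi fun j => (Cf.ρ Z i v).comp (LinearMap.proj j)
  map_one' := by
    apply LinearMap.ext
    intro f
    funext j
    change Cf.ρ Z i 1 (f j) = f j
    rw [map_one]
    rfl
  map_mul' v v' := by
    apply LinearMap.ext
    intro f
    funext j
    change Cf.ρ Z i (v * v') (f j) = Cf.ρ Z i v (Cf.ρ Z i v' (f j))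
    rw [map_mul]
    rfl

theorem Cf.ρm_apply (Z : PZ p V n) (i m : ℕ) (v : V) (f : Fin m → Cf Z i) (j : Fin m) :
    Cf.ρm Z i m v f j = Cf.ρ Z i v (f j) := rfl

/-- the exponents by which `v` acts on `t i`, `i < s`, modulo `W 0 k`, are equal. -/
def Hyp (Z : PZ p V n) (s : ℕ) : Prop :=
  ∀ k v, ∃ m : ℕ, m % p = 1 ∧ ∀ i < s, v * Z.t i * v⁻¹ * (Z.t i ^ m)⁻¹ ∈ Z.W 0 k

variable {X : Type} [AddCommGroup X] [Module (ZMod p) X]

/-- the vectors fixed by some `W i k`. -/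
def lev (Z : PZ p V n) (ρ : V →* Module.End (ZMod p) X) (i : ℕ) : Submodule (ZMod p) X where
  carrier := {x | ∃ k, ∀ w ∈ Z.W i k, ρ w x = x}
  add_mem' := by
    rintro x y ⟨k, hk⟩ ⟨l, hl⟩
    refine ⟨max k l, fun w hw => ?_⟩
    have hanti : Antitone (Z.W i) := antitone_nat_of_succ_le (Z.anti i)
    rw [map_add, hk w (hanti (le_max_left _ _) hw), hl w (hanti (le_max_right _ _) hw)]
  zero_mem' := ⟨0, fun w _ => map_zero _⟩
  smul_mem' := by
    rintro c x ⟨k, hk⟩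
    exact ⟨k, fun w hw => by rw [map_smul, hk w hw]⟩

theorem mem_lev {Z : PZ p V n} {ρ : V →* Module.End (ZMod p) X} {i : ℕ} {x : X} :
    x ∈ lev Z ρ i ↔ ∃ k, ∀ w ∈ Z.W i k, ρ w x = x := Iff.rfl

/-- `t i - 1` is onto on the vectors fixed by `t 0, …, t (i - 1)`, for all `i < j`. -/
def Coreg (Z : PZ p V n) (ρ : V →* Module.End (ZMod p) X) (j : ℕ) : Prop :=
  ∀ i < j, ∀ x ∈ lev Z ρ i, ∃ y ∈ lev Z ρ i, ρ (Z.t i) y - y = x

end

section

variable {p : ℕ} {G : Type} [Group G] {n : ℕ}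

/-- a group `G` with a normal subgroup `V` of finite index, with a structure `PZ` such that
the groups `W 0 k` are normal in `G`. -/
structure GD (p : ℕ) (G : Type) [Group G] (n : ℕ) where
  V : Subgroup G
  normal : V.Normal
  fin : V.index ≠ 0
  Z : PZ p V n
  A : ℕ → Subgroup G
  mem_A : ∀ k g, g ∈ A k ↔ ∃ h : g ∈ V, (⟨g, h⟩ : V) ∈ Z.W 0 k
  normalA : ∀ k, (A k).Normal

/-- a chain of subgroups from `V` to `G`, each step given by a character of order `p ^ 2` trivial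
on `A`. -/
def HasChain (p : ℕ) {G : Type} [Group G] (V A : Subgroup G) : Prop :=
  ∃ (n : ℕ) (U : ℕ → Subgroup G), U 0 = V ∧ U n = ⊤ ∧ ∀ i < n, U i ≤ U (i + 1) ∧
    ∃ ψ : U (i + 1) →* Multiplicative (ZMod (p ^ 2)), Function.Surjective ψ ∧
      (∀ x : U (i + 1), (x : G) ∈ U i ↔ p ∣ (Multiplicative.toAdd (ψ x)).val) ∧
      (∀ x : U (i + 1), (x : G) ∈ A → ψ x = 1)

variable (D : GD p G n)

/-- restriction to `V`. -/
def GD.rs {X : Type} [AddCommGroup X] [Module (ZMod p) X] (ρ : G →* Module.End (ZMod p) X) :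
    D.V →* Module.End (ZMod p) X := ρ.comp D.V.subtype

theorem GD.rs_apply {X : Type} [AddCommGroup X] [Module (ZMod p) X]
    (ρ : G →* Module.End (ZMod p) X) (v : D.V) (x : X) : D.rs ρ v x = ρ (v : G) x := rfl

/-- locally constant functions `G → 𝔽_p ^ m`. -/
def CG (m : ℕ) : Submodule (ZMod p) (G → (Fin m → ZMod p)) where
  carrier := {f | ∃ j, ∀ x, ∀ a ∈ D.A j, f (x * a) = f x}
  add_mem' := by
    rintro f g ⟨j, hj⟩ ⟨l, hl⟩
    have hmono : ∀ {a b : ℕ}, a ≤ b → D.A b ≤ D.A a := by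
      intro a b hab g hg
      rw [D.mem_A] at hg ⊢
      obtain ⟨h, h1⟩ := hg
      exact ⟨h, antitone_nat_of_succ_le (D.Z.anti 0) hab h1⟩
    refine ⟨max j l, fun x a ha => ?_⟩
    rw [Pi.add_apply, Pi.add_apply, hj x a (hmono (le_max_left _ _) ha),
      hl x a (hmono (le_max_right _ _) ha)]
  zero_mem' := ⟨0, fun _ _ _ => rfl⟩
  smul_mem' := by
    rintro c f ⟨j, hj⟩
    exact ⟨j, fun x a ha => by rw [Pi.smul_apply, Pi.smul_apply, hj x a ha]⟩

theorem CG.stab (m : ℕ) (g : G) (f : G → (Fin m → ZMod p)) (hf : f ∈ CG D m) :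
    (fun x => f (x * g)) ∈ CG D m := by
  obtain ⟨j, hj⟩ := hf
  refine ⟨j, fun x a ha => ?_⟩
  have h1 : x * a * g = x * g * (g⁻¹ * a * g) := by group
  have h2 : g⁻¹ * a * g ∈ D.A j := by
    have := (D.normalA j).conj_mem a ha g⁻¹
    rwa [inv_inv] at this
  simp only
  rw [h1, hj _ _ h2]

/-- right translations on `CG`. -/
noncomputable def CG.ρ (m : ℕ) : G →* Module.End (ZMod p) (CG D m) where
  toFun g :=
    { toFun := fun f => ⟨fun x => f.1 (x * g), CG.stab D m g f.1 f.2⟩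
      map_add' := fun f f' => rfl
      map_smul' := fun c f => rfl }
  map_one' := by
    apply LinearMap.ext
    intro f
    apply Subtype.ext
    funext x
    change f.1 (x * 1) = f.1 x
    rw [mul_one]
  map_mul' g g' := by
    apply LinearMap.ext
    intro f
    apply Subtype.ext
    funext x
    change f.1 (x * (g * g')) = f.1 (x * g * g')
    rw [mul_assoc]

theorem CG.ρ_apply (m : ℕ) (g : G) (f : CG D m) (x : G) :
    (CG.ρ D m g f).1 x = f.1 (x * g) := rfl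

end

end Pool.Agent.Helper25.GG
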