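import Pool.Agent.Helper25.ETCTowE
import Pool.Agent.Helper25.GG.Defs3

/-!
# Fields attached to a structure `PZ` on `Gal(K/E)`
-/

set_option autoImplicit false

namespace Pool.Agent.Helper25.GG

open Module Pool.Agent.Helper25.ETC

variable {F K : Type} [Field F] [Field K] [Algebra F K] {p : ℕ} [Fact p.Prime] {n : ℕ}
  {E : IntermediateField F K}

/-- the image of a subgroup of `Gal(K/E)` in `Gal(K/F)`. -/
def im (U : Subgroup E.fixingSubgroup) : Subgroup (K ≃ₐ[F] K) := U.map E.fixingSubgroup.subtype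

theorem mem_im {U : Subgroup E.fixingSubgroup} {σ : K ≃ₐ[F] K} :
    σ ∈ im U ↔ ∃ h : σ ∈ E.fixingSubgroup, (⟨σ, h⟩ : E.fixingSubgroup) ∈ U := by
  constructor
  · rintro ⟨τ, hτ, rfl⟩
    exact ⟨τ.2, hτ⟩
  · rintro ⟨h, h1⟩
    exact ⟨⟨σ, h⟩, h1, rfl⟩

/-- the fixed field. -/
noncomputable def fx (U : Subgroup E.fixingSubgroup) : IntermediateField F K :=
  IntermediateField.fixedField (im U)

theorem mem_fx {U : Subgroup E.fixingSubgroup} {x : K} :
    x ∈ fx U ↔ ∀ w ∈ U, (w : K ≃ₐ[F] K) x = x := by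
  unfold fx
  rw [IntermediateField.mem_fixedField_iff]
  constructor
  · intro h w hw
    exact h w (mem_im.mpr ⟨w.2, hw⟩)
  · intro h g hg
    obtain ⟨h1, h2⟩ := mem_im.mp hg
    exact h ⟨g, h1⟩ h2

/-- the groups `W 0 k` are open in `Gal(K/F)`. -/
def Op (Z : PZ p E.fixingSubgroup n) : Prop := ∀ k, IsOpen (im (Z.W 0 k) : Set (K ≃ₐ[F] K))

/-- `M` is the union of the fixed fields of the groups `W 0 k`. -/
def IsM (Z : PZ p E.fixingSubgroup n) (M : IntermediateField F K) : Prop :=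
  ∀ x, x ∈ M ↔ ∃ k, ∀ w ∈ Z.W 0 k, (w : K ≃ₐ[F] K) x = x

/-- the union of the fixed fields of the groups `W 0 k`. -/
noncomputable def MF (Z : PZ p E.fixingSubgroup n) : IntermediateField F K where
  carrier := {x | ∃ k, ∀ w ∈ Z.W 0 k, (w : K ≃ₐ[F] K) x = x}
  mul_mem' := by
    rintro x y ⟨k, hk⟩ ⟨l, hl⟩
    refine ⟨max k l, fun w hw => ?_⟩
    have hanti : Antitone (Z.W 0) := antitone_nat_of_succ_le (Z.anti 0)
    rw [map_mul, hk w (hanti (le_max_left _ _) hw), hl w (hanti (le_max_right _ _) hw)]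
  add_mem' := by
    rintro x y ⟨k, hk⟩ ⟨l, hl⟩
    refine ⟨max k l, fun w hw => ?_⟩
    have hanti : Antitone (Z.W 0) := antitone_nat_of_succ_le (Z.anti 0)
    rw [map_add, hk w (hanti (le_max_left _ _) hw), hl w (hanti (le_max_right _ _) hw)]
  algebraMap_mem' := fun r => ⟨0, fun w _ => (w : K ≃ₐ[F] K).commutes r⟩
  inv_mem' := by
    rintro x ⟨k, hk⟩
    exact ⟨k, fun w hw => by rw [map_inv₀, hk w hw]⟩

omit [Fact p.Prime] in
theorem isM_MF (Z : PZ p E.fixingSubgroup n) : IsM Z (MF Z) := fun _ => Iff.rfl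

/-- the action of the whole Galois group on `M* / M*^p`, `M` a stable subfield. -/
noncomputable def rep (p : ℕ) [Fact p.Prime] (M : IntermediateField F K)
    (hst : ∀ (g : K ≃ₐ[F] K), ∀ x ∈ M, g x ∈ M) : (K ≃ₐ[F] K) →* Module.End (ZMod p) (VV p M) where
  toFun g := autV p g M (hst g)
  map_one' := by
    apply LinearMap.ext
    intro u
    obtain ⟨x, hx, hx0, rfl⟩ := mkc_mku_surj u
    rfl
  map_mul' σ τ := by
    apply LinearMap.ext
    intro u
    obtain ⟨x, hx, hx0, rfl⟩ := mkc_mku_surj u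
    rfl

theorem rep_apply (M : IntermediateField F K) (hst : ∀ (g : K ≃ₐ[F] K), ∀ x ∈ M, g x ∈ M)
    (g : K ≃ₐ[F] K) {x : K} (hx : x ∈ M) (hx0 : x ≠ 0) :
    rep p M hst g (mkc p M (mku x hx hx0)) =
      mkc p M (mku (g x) (hst g x hx) ((_root_.map_ne_zero _).mpr hx0)) := rfl

/-- the action of `Gal(K/E)`. -/
noncomputable def repE (p : ℕ) [Fact p.Prime] (E : IntermediateField F K)
    (M : IntermediateField F K) (hst : ∀ (g : K ≃ₐ[F] K), ∀ x ∈ M, g x ∈ M) :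
    E.fixingSubgroup →* Module.End (ZMod p) (VV p M) :=
  (rep p M hst).comp E.fixingSubgroup.subtype

/-- Kummer data: `z k` compatible primitive roots of unity, `z c ∈ E`, and `z c, y 0 0, …,
y (s - 1) 0` representatives of a basis of `E* / E*^p`, with compatible roots `y i k`. -/
structure KS (p : ℕ) (E : IntermediateField F K) (s c : ℕ) where
  z : ℕ → K
  hz : ∀ k, IsPrimitiveRoot (z k) (p ^ k)
  hzz : ∀ k, z (k + 1) ^ p = z k
  zE : z c ∈ E
  y : Fin s → ℕ → K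
  hy : ∀ i k, y i (k + 1) ^ p = y i k
  yE : ∀ i, y i 0 ∈ E
  y0 : ∀ i, y i 0 ≠ 0
  span : ∀ x ∈ E, x ≠ 0 → ∃ (e0 : ℕ) (e : Fin s → ℕ), ∃ w ∈ E, w ≠ 0 ∧
    x = z c ^ e0 * (∏ i, y i 0 ^ e i) * w ^ p
  ind : ∀ (e0 : ℕ) (e : Fin s → ℕ), (∃ w ∈ E, w ^ p = z c ^ e0 * ∏ i, y i 0 ^ e i) →
    p ∣ e0 ∧ ∀ i, p ∣ e i

end Pool.Agent.Helper25.GG
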