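import Pool.Agent.Helper25.GG.DefsF
import Pool.Agent.Helper25.ETCKum

/-!
# Block FA: Kummer theory at level k
-/

set_option autoImplicit false

namespace Pool.Agent.Helper25.GG

open Module Pool.Agent.Helper25.ETC

variable {F K : Type} [Field F] [Field K] [Algebra F K] {p : ℕ} [Fact p.Prime] {n : ℕ} {ζ : K}
  {E : IntermediateField F K}

/-- the exponents `e` occur. -/
def FA.Has (A : IntermediateField F K) (z : K) {s : ℕ} (y : Fin s → K) (e : Fin s → ℤ) : Prop :=
  ∃ σ : A.fixingSubgroup, ∀ i, (σ : K ≃ₐ[F] K) (y i) = z ^ e i * y i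

section

variable {A : IntermediateField F K} {z : K} {s : ℕ} {y : Fin s → K}

theorem FA.Has.add (hzA : z ∈ A) (hz0 : z ≠ 0) {e f : Fin s → ℤ} (he : FA.Has A z y e)
    (hf : FA.Has A z y f) : FA.Has A z y (e + f) := by
  obtain ⟨σ, hσ⟩ := he
  obtain ⟨τ, hτ⟩ := hf
  refine ⟨σ * τ, fun i => ?_⟩
  have h1 : (σ : K ≃ₐ[F] K) z = z := (IntermediateField.mem_fixingSubgroup_iff A _).mp σ.2 z hzA
  rw [Subgroup.coe_mul, AlgEquiv.mul_apply, hτ, map_mul, map_zpow₀, h1, hσ, Pi.add_apply,
    zpow_add₀ hz0]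
  ring

theorem FA.Has.zero : FA.Has A z y 0 := ⟨1, fun i => by simp⟩

theorem FA.Has.neg (hzA : z ∈ A) (hz0 : z ≠ 0) {e : Fin s → ℤ} (he : FA.Has A z y e) :
    FA.Has A z y (-e) := by
  obtain ⟨σ, hσ⟩ := he
  refine ⟨σ⁻¹, fun i => ?_⟩
  have h1 : (σ : K ≃ₐ[F] K) z = z := (IntermediateField.mem_fixingSubgroup_iff A _).mp σ.2 z hzA
  apply (σ : K ≃ₐ[F] K).injective
  have h2 : (σ : K ≃ₐ[F] K) (((σ⁻¹ : A.fixingSubgroup) : K ≃ₐ[F] K) (y i)) = y i := by
    rw [← AlgEquiv.mul_apply, ← Subgroup.coe_mul, mul_inv_cancel]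
    rfl
  rw [h2, map_mul, map_zpow₀, h1, hσ, ← mul_assoc, ← zpow_add₀ hz0, Pi.neg_apply, neg_add_cancel,
    zpow_zero, one_mul]

theorem FA.Has.nsmul (hzA : z ∈ A) (hz0 : z ≠ 0) {e : Fin s → ℤ} (he : FA.Has A z y e) (n : ℕ) :
    FA.Has A z y (n • e) := by
  induction n with
  | zero => rw [zero_smul]; exact FA.Has.zero
  | succ n ih => rw [succ_nsmul]; exact ih.add hzA hz0 he

end

/-- independent classes over a (possibly infinite) extension `A` containing a primitive `p ^ k`-th
root of unity `z`: all exponents occur. -/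
theorem kummer_surj (Cx : Ctx p F K ζ) (A : IntermediateField F K) {k : ℕ} {z : K}
    (hz : IsPrimitiveRoot z (p ^ k)) (hzA : z ∈ A) (hζA : ζ ∈ A) {s : ℕ} (a : Fin s → K)
    (ha : ∀ i, a i ∈ A ∧ a i ≠ 0)
    (hind : ∀ e : Fin s → ℕ, (∃ w ∈ A, w ^ p = ∏ i, a i ^ e i) → ∀ i, p ∣ e i)
    (y : Fin s → K) (hy : ∀ i, y i ^ (p ^ k) = a i) (m : Fin s → ℕ) :
    ∃ σ : A.fixingSubgroup, ∀ i, (σ : K ≃ₐ[F] K) (y i) = z ^ m i * y i := by
  classical
  have hp := Cx.hp
  have := Cx.pc.gal
  have hz0 : z ≠ 0 := hz.ne_zero (pow_ne_zero k hp.ne_zero)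
  rcases Nat.eq_zero_or_pos k with hk | hk
  · subst hk
    refine ⟨1, fun i => ?_⟩
    have h1 : z = 1 := by
      have := hz.pow_eq_one
      rwa [pow_zero, pow_one] at this
    rw [h1, one_pow, one_mul]
    rfl
  have hσA : ∀ (σ : A.fixingSubgroup) (x : K), x ∈ A → (σ : K ≃ₐ[F] K) x = x := fun σ x hx =>
    (IntermediateField.mem_fixingSubgroup_iff A _).mp σ.2 x hx
  have hyne : ∀ i, y i ≠ 0 := by
    intro i h
    have h1 := hy i
    rw [h, zero_pow (pow_ne_zero k hp.ne_zero)] at h1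
    exact (ha i).2 h1.symm
  have hzk : z ^ ((p : ℤ) ^ k) = 1 := by
    have h1 : ((p : ℤ) ^ k) = ((p ^ k : ℕ) : ℤ) := by push_cast; rfl
    rw [h1, zpow_natCast, hz.pow_eq_one]
  -- every automorphism has exponents
  have hex : ∀ σ : A.fixingSubgroup, ∃ e : Fin s → ℤ,
      ∀ i, (σ : K ≃ₐ[F] K) (y i) = z ^ e i * y i := by
    intro σ
    have h1 : ∀ i, ∃ j : ℤ, (σ : K ≃ₐ[F] K) (y i) = z ^ j * y i := by
      intro i
      have h2 : ((σ : K ≃ₐ[F] K) (y i)) ^ (p ^ k) = (y i) ^ (p ^ k) := by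
        rw [← map_pow, hy, hσA σ _ (ha i).1]
      obtain ⟨j, -, hj⟩ := exists_zeta_pow (pow_pos hp.pos k) hz h2
      exact ⟨j, by rw [hj, zpow_natCast]⟩
    choose e he using h1
    exact ⟨e, he⟩
  -- surjectivity modulo `p`
  have hsurj1 : ∀ v : Fin s → ℤ, ∃ e, FA.Has A z y e ∧ ∀ i, (p : ℤ) ∣ e i - v i := by
    let W : AddSubgroup (Fin s → ZMod p) :=
      { carrier := {w | ∃ e : Fin s → ℤ, FA.Has A z y e ∧ ∀ i, w i = (e i : ZMod p)}
        add_mem' := by
          rintro w w' ⟨e, he, he'⟩ ⟨f, hf, hf'⟩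
          exact ⟨e + f, he.add hzA hz0 hf, fun i => by
            rw [Pi.add_apply, Pi.add_apply, Int.cast_add, he', hf']⟩
        zero_mem' := ⟨0, FA.Has.zero, fun i => by simp⟩
        neg_mem' := by
          rintro w ⟨e, he, he'⟩
          exact ⟨-e, he.neg hzA hz0, fun i => by
            rw [Pi.neg_apply, Pi.neg_apply, Int.cast_neg, he']⟩ }
    have hW : AddSubgroup.toZModSubmodule p W = ⊤ := by
      by_contra hne
      obtain ⟨f, hf0, hf⟩ := Submodule.exists_le_ker_of_lt_top _ (lt_top_iff_ne_top.mpr hne)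
      let c : Fin s → ZMod p := fun i => f (Pi.single i 1)
      have hfc : ∀ w : Fin s → ZMod p, f w = ∑ i, w i * c i := by
        intro w
        conv_lhs => rw [← Finset.univ_sum_single w]
        rw [map_sum]
        apply Finset.sum_congr rfl
        intro i _
        have : (Pi.single i (w i) : Fin s → ZMod p) = w i • Pi.single i 1 := by
          rw [← Pi.single_smul, smul_eq_mul, mul_one]
        rw [this, map_smul, smul_eq_mul]
      set x : K := ∏ i, y i ^ (p ^ (k - 1) * (c i).val) with hx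
      have hfix : ∀ σ : A.fixingSubgroup, (σ : K ≃ₐ[F] K) x = x := by
        intro σ
        obtain ⟨e, he⟩ := hex σ
        have h3 : f (fun i => (e i : ZMod p)) = 0 := by
          apply LinearMap.mem_ker.mp
          apply hf
          exact ⟨e, ⟨σ, he⟩, fun i => rfl⟩
        rw [hfc] at h3
        rw [hx, map_prod]
        have h4 : ∀ i, (σ : K ≃ₐ[F] K) (y i ^ (p ^ (k - 1) * (c i).val)) =
            z ^ ((p : ℤ) ^ (k - 1) * (e i * (c i).val)) * y i ^ (p ^ (k - 1) * (c i).val) := by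
          intro i
          rw [map_pow, he, mul_pow]
          congr 1
          rw [← zpow_natCast, ← zpow_mul]
          congr 1
          push_cast
          ring
        rw [Finset.prod_congr rfl (fun i _ => h4 i), Finset.prod_mul_distrib]
        have h6 : ∏ i, z ^ ((p : ℤ) ^ (k - 1) * (e i * (c i).val)) =
            z ^ (∑ i, (p : ℤ) ^ (k - 1) * (e i * (c i).val)) := by
          have key : ∀ T : Finset (Fin s), ∏ i ∈ T, z ^ ((p : ℤ) ^ (k - 1) * (e i * (c i).val)) =
              z ^ (∑ i ∈ T, (p : ℤ) ^ (k - 1) * (e i * (c i).val)) := by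
            intro T
            induction T using Finset.induction_on with
            | empty => simp
            | insert i T hi ih =>
              rw [Finset.prod_insert hi, Finset.sum_insert hi, ih, zpow_add₀ hz0]
          exact key Finset.univ
        have h7 : (p : ℤ) ∣ ∑ i, e i * ((c i).val : ℤ) := by
          rw [← ZMod.intCast_zmod_eq_zero_iff_dvd] <;> try infer_instance
          push_cast
          rw [← h3]
          apply Finset.sum_congr rfl
          intro i _
          rw [ZMod.natCast_zmod_val]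
        rw [h6, ← Finset.mul_sum]
        obtain ⟨q, hq⟩ := h7
        have h8 : (p : ℤ) ^ (k - 1) * ∑ i, e i * ((c i).val : ℤ) = (p : ℤ) ^ k * q := by
          rw [hq, ← mul_assoc, ← pow_succ, Nat.sub_add_cancel hk]
        rw [h8, zpow_mul, hzk, one_zpow, one_mul]
      have hmem : x ∈ A := by
        have h1 : x ∈ IntermediateField.fixedField A.fixingSubgroup := by
          rw [IntermediateField.mem_fixedField_iff]
          intro g hg
          exact hfix ⟨g, hg⟩
        rwa [InfiniteGalois.fixedField_fixingSubgroup] at h1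
      have h2 := hind (fun i => (c i).val) ⟨x, hmem, by
        rw [hx, ← Finset.prod_pow]
        apply Finset.prod_congr rfl
        intro i _
        rw [← pow_mul, ← hy i, ← pow_mul]
        congr 1
        have h9 : p ^ k = p ^ (k - 1) * p := by rw [← pow_succ, Nat.sub_add_cancel hk]
        rw [h9]
        ring⟩
      apply hf0
      have hc : ∀ i, c i = 0 := by
        intro i
        rw [← ZMod.natCast_zmod_val (c i)]
        exact (ZMod.natCast_eq_zero_iff _ _).mpr (h2 i)
      ext w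
      simp [hfc, hc]
    intro v
    have h1 : (fun i => (v i : ZMod p)) ∈ AddSubgroup.toZModSubmodule p W := by
      rw [hW]; trivial
    obtain ⟨e, he, he'⟩ := h1
    refine ⟨e, he, fun i => ?_⟩
    have h2 := he' i
    simp only at h2
    have h3 : ((e i - v i : ℤ) : ZMod p) = 0 := by rw [Int.cast_sub, ← h2, sub_self]
    exact (ZMod.intCast_zmod_eq_zero_iff_dvd _ p).mp h3
  have hsurjk : ∀ (j : ℕ) (v : Fin s → ℤ), ∃ e, FA.Has A z y e ∧ ∀ i, (p : ℤ) ^ j ∣ e i - v i := by
    intro j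
    induction j with
    | zero => intro v; exact ⟨0, FA.Has.zero, fun i => by simp⟩
    | succ j ih =>
      intro v
      obtain ⟨e, he, he'⟩ := ih v
      choose q hq using he'
      obtain ⟨f, hf, hf'⟩ := hsurj1 (fun i => -q i)
      refine ⟨e + p ^ j • f, he.add hzA hz0 (hf.nsmul hzA hz0 _), fun i => ?_⟩
      obtain ⟨r, hr⟩ := hf' i
      refine ⟨r, ?_⟩
      have h2 : f i = p * r - q i := by rw [← hr]; ring
      have h3 : e i = v i + (p : ℤ) ^ j * q i := by rw [← hq]; ring
      rw [Pi.add_apply, Pi.smul_apply, nsmul_eq_mul, h2, h3]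
      push_cast
      ring
  obtain ⟨e, ⟨σ, hσ⟩, he⟩ := hsurjk k (fun i => (m i : ℤ))
  refine ⟨σ, fun i => ?_⟩
  obtain ⟨q, hq⟩ := he i
  have h3 : e i = m i + (p : ℤ) ^ k * q := by rw [← hq]; ring
  rw [hσ, h3, zpow_add₀ hz0, zpow_mul, hzk, one_zpow, mul_one, zpow_natCast]

end Pool.Agent.Helper25.GG
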