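import Pool.Agent.Helper25.GG.DefsF
import Pool.Agent.Helper25.ETCRigid

/-!
# Block FB: independence in the cyclotomic tower
-/

set_option autoImplicit false

namespace Pool.Agent.Helper25.GG

open Module Pool.Agent.Helper25.ETC

variable {F K : Type} [Field F] [Field K] [Algebra F K] {p : ℕ} [Fact p.Prime] {n : ℕ} {ζ : K}
  {E : IntermediateField F K}

/-- one Kummer step `B = A(β)`, `β ^ p ∈ A`: independence of `β ^ p, a i` over `A` gives
independence of `β, a i` over `B`. -/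
theorem indep_step (Cx : Ctx p F K ζ) {A B : IntermediateField F K} {β : K} (hζA : ζ ∈ A)
    (hneg : (-1 : K) ∈ TT p A) (St : Step p A B β) {s : ℕ} (a : Fin s → K)
    (ha : ∀ i, a i ∈ A ∧ a i ≠ 0)
    (hind : ∀ (e0 : ℕ) (e : Fin s → ℕ), (∃ w ∈ A, w ^ p = (β ^ p) ^ e0 * ∏ i, a i ^ e i) →
      p ∣ e0 ∧ ∀ i, p ∣ e i) :
    ∀ (e0 : ℕ) (e : Fin s → ℕ), (∃ w ∈ B, w ^ p = β ^ e0 * ∏ i, a i ^ e i) →
      p ∣ e0 ∧ ∀ i, p ∣ e i := by
  rintro e0 e ⟨w, hw, hwp⟩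
  have hp := Cx.hp
  have hβ0 : β ≠ 0 := by
    rintro rfl
    exact St.notMem A.zero_mem
  set r := ∏ i, a i ^ e i with hr
  have hrA : r ∈ A := A.prod_mem fun i _ => pow_mem (ha i).1 _
  have hr0 : r ≠ 0 := by
    rw [hr, Finset.prod_ne_zero_iff]
    exact fun i _ => pow_ne_zero _ (ha i).2
  have h0 : p ∣ e0 := by
    by_contra hn
    apply smul_notMem_HH Cx hζA hneg St hrA hr0 (n := (e0 : ℤ))
      (by rwa [Int.natCast_dvd_natCast])
    apply TT_sub_HH Cx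
    rw [zpow_natCast, mul_comm]
    exact ⟨mul_ne_zero (pow_ne_zero _ hβ0) hr0, w, hw, hwp⟩
  refine ⟨h0, ?_⟩
  obtain ⟨q, rfl⟩ := h0
  have hy : (w / β ^ q) ^ p = r := by
    rw [div_pow, hwp, ← pow_mul, mul_comm q p, mul_div_assoc, mul_comm, div_mul_cancel₀]
    exact pow_ne_zero _ hβ0
  have hyB : w / β ^ q ∈ B := B.div_mem hw (pow_mem St.mem q)
  obtain ⟨i, hi, d, hd, hyd⟩ := kummer_mem Cx hζA St hyB (by rw [hy]; exact hrA)
  refine (hind (p - i) e ⟨β ^ p * d, A.mul_mem St.pow_mem hd, ?_⟩).2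
  rw [← hr, ← hy, hyd, mul_pow (β ^ i) d p, ← mul_assoc, ← pow_mul β i p, mul_comm i p,
    pow_mul β p i, ← pow_add, Nat.sub_add_cancel hi.le, mul_pow]

omit [Fact p.Prime] in
theorem KS.z_mem_FB {s c : ℕ} (S : KS p E s c) {k : ℕ} (hk : k ≤ c) : S.z k ∈ E := by
  induction hk using Nat.decreasingInduction with
  | self => exact S.zE
  | of_succ k hk ih =>
    rw [← S.hzz k]
    exact pow_mem ih p

theorem KS.neg_one_mem_FB {s c : ℕ} (hc : 2 ≤ c) (S : KS p E s c) : (-1 : K) ∈ TT p E := by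
  have hp : p.Prime := Fact.out
  refine ⟨neg_ne_zero.mpr one_ne_zero, ?_⟩
  rcases hp.eq_two_or_odd' with h2 | hodd
  · refine ⟨S.z 2, S.z_mem_FB hc, ?_⟩
    rw [S.hzz 1]
    have h1 := S.hz 1
    generalize S.z 1 = x at h1
    rw [pow_one, h2] at h1
    exact h1.eq_neg_one_of_two_right
  · exact ⟨-1, E.neg_mem E.one_mem, hodd.neg_one_pow⟩

/-- in the field `E(z (c + j))` the classes of `z (c + j)` and `y i 0` are independent. -/
theorem KS.indep_tower (Cx : Ctx p F K ζ) (hζE : ζ ∈ E) {s c : ℕ} (hc : 2 ≤ c) (S : KS p E s c)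
    (j : ℕ) : ∃ A : IntermediateField F K, E ≤ A ∧ S.z (c + j) ∈ A ∧ ζ ∈ A ∧
      ∀ (e0 : ℕ) (e : Fin s → ℕ), (∃ w ∈ A, w ^ p = S.z (c + j) ^ e0 * ∏ i, S.y i 0 ^ e i) →
        p ∣ e0 ∧ ∀ i, p ∣ e i := by
  have hp := Cx.hp
  induction j with
  | zero => exact ⟨E, le_refl _, S.zE, hζE, S.ind⟩
  | succ j ih =>
    obtain ⟨A, hEA, hzA, hζA, hind⟩ := ih
    have hβp : S.z (c + (j + 1)) ^ p = S.z (c + j) := S.hzz (c + j)
    have hβA : S.z (c + (j + 1)) ∉ A := by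
      intro h
      have h1 := (hind 1 (fun _ => 0) ⟨_, h, by
        rw [hβp, pow_one]
        simp⟩).1
      exact hp.one_lt.ne' (Nat.dvd_one.1 h1)
    obtain ⟨B, St, -⟩ := exists_step hp.ne_zero A hβA (by rw [hβp]; exact hzA)
    refine ⟨B, hEA.trans St.le, St.mem, St.le hζA, ?_⟩
    apply indep_step Cx hζA (TT_mono hEA (S.neg_one_mem_FB hc)) St (fun i => S.y i 0)
      (fun i => ⟨hEA (S.yE i), S.y0 i⟩)
    rw [hβp]
    exact hind

end Pool.Agent.Helper25.GG
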