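import Mathlib

/-!
# Block FC: the group of units congruent to 1 modulo p ^ c
-/

set_option autoImplicit false

namespace Pool.Agent.Helper25.GG

theorem fc_emult {p : ℕ} (hp : p.Prime) {c : ℕ} (hc1 : 1 ≤ c) (hc2 : p = 2 → 2 ≤ c) {u : ℕ}
    (hu : u ≡ 1 [MOD p ^ c]) (hu' : ¬ u ≡ 1 [MOD p ^ (c + 1)]) (m : ℕ) :
    emultiplicity (p : ℤ) ((u : ℤ) ^ m - 1) = c + emultiplicity p m := by
  have h1 : ((p : ℤ) ^ c) ∣ (u : ℤ) - 1 := by
    have := (Nat.modEq_iff_dvd.mp hu.symm)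
    push_cast at this
    exact this
  have h2 : ¬ ((p : ℤ) ^ (c + 1)) ∣ (u : ℤ) - 1 := by
    intro h
    apply hu'
    apply Nat.ModEq.symm
    rw [Nat.modEq_iff_dvd]
    push_cast
    exact h
  have h3 : emultiplicity (p : ℤ) ((u : ℤ) - 1) = c := emultiplicity_eq_coe.mpr ⟨h1, h2⟩
  have hp1 : (p : ℤ) ∣ (u : ℤ) - 1 := (dvd_pow_self _ (by omega)).trans h1
  have hpu : ¬ (p : ℤ) ∣ (u : ℤ) := by
    intro h
    have h4 : (p : ℤ) ∣ 1 := by
      have := dvd_sub h hp1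
      rwa [sub_sub_cancel] at this
    have h5 : p ∣ 1 := by exact_mod_cast h4
    exact hp.one_lt.ne' (Nat.dvd_one.mp h5)
  rcases hp.eq_two_or_odd' with h | h
  · subst h
    have h4 : (4 : ℤ) ∣ (u : ℤ) - 1 := by
      have : (4 : ℤ) = ((2 : ℕ) : ℤ) ^ 2 := by norm_num
      rw [this]
      exact (pow_dvd_pow _ (hc2 rfl)).trans h1
    have h5 := Int.two_pow_sub_pow' m h4 (by exact_mod_cast hpu)
    rw [one_pow] at h5
    have h6 : emultiplicity (2 : ℤ) (m : ℤ) = emultiplicity 2 m := by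
      exact_mod_cast Int.natCast_emultiplicity 2 m
    have h7 : ((2 : ℕ) : ℤ) = 2 := rfl
    rw [h7] at h3 ⊢
    rw [h5, h6, h3]
  · have h5 := Int.emultiplicity_pow_sub_pow hp h hp1 hpu m
    rw [one_pow] at h5
    rw [h5, h3]

theorem unit_order {p : ℕ} (hp : p.Prime) {c : ℕ} (hc1 : 1 ≤ c) (hc2 : p = 2 → 2 ≤ c) {u : ℕ}
    (hu : u ≡ 1 [MOD p ^ c]) (hu' : ¬ u ≡ 1 [MOD p ^ (c + 1)]) (m k : ℕ) :
    u ^ m ≡ 1 [MOD p ^ (c + k)] ↔ p ^ k ∣ m := by
  have h := fc_emult hp hc1 hc2 hu hu' m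
  have h1 : u ^ m ≡ 1 [MOD p ^ (c + k)] ↔ ((p : ℤ) ^ (c + k)) ∣ (u : ℤ) ^ m - 1 := by
    rw [Nat.ModEq.comm, Nat.modEq_iff_dvd]
    push_cast
    exact Iff.rfl
  rw [h1, pow_dvd_iff_le_emultiplicity, h, pow_dvd_iff_le_emultiplicity]
  push_cast
  exact (ENat.add_le_add_iff_left (ENat.natCast_ne_top c))

theorem fc_one_add_pow (X : ℤ) (l : ℕ) : ∃ q, (1 + X) ^ l = 1 + l * X + X ^ 2 * q := by
  induction l with
  | zero => exact ⟨0, by simp⟩
  | succ l ih =>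
    obtain ⟨q, hq⟩ := ih
    refine ⟨l + q + X * q, ?_⟩
    rw [pow_succ, hq]
    push_cast
    ring

/-- `u ≡ 1` modulo `p ^ c`, not modulo `p ^ (c + 1)`, generates the units `≡ 1` modulo `p ^ c`. -/
theorem unit_gen {p : ℕ} (hp : p.Prime) {c : ℕ} (hc1 : 1 ≤ c) (hc2 : p = 2 → 2 ≤ c) {u w : ℕ}
    (hu : u ≡ 1 [MOD p ^ c]) (hu' : ¬ u ≡ 1 [MOD p ^ (c + 1)]) (hw : w ≡ 1 [MOD p ^ c]) (k : ℕ) :
    ∃ m, u ^ m ≡ w [MOD p ^ (c + k)] := by
  have key : ∀ k : ℕ, ∃ m : ℕ, ((p : ℤ) ^ (c + k)) ∣ (u : ℤ) ^ m - w := by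
    intro k
    induction k with
    | zero =>
      refine ⟨0, ?_⟩
      have := (Nat.modEq_iff_dvd.mp hw)
      push_cast at this
      simpa using this
    | succ k ih =>
      obtain ⟨m, a, ha⟩ := ih
      have h1 := fc_emult hp hc1 hc2 hu hu' (p ^ k)
      have hfin : emultiplicity p (p ^ k) = k := by
        rw [emultiplicity_pow_self hp.ne_zero hp.prime.not_isUnit]
      rw [hfin] at h1
      have h2 : emultiplicity (p : ℤ) ((u : ℤ) ^ (p ^ k) - 1) = ((c + k : ℕ) : ℕ∞) := by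
        rw [h1]; push_cast; rfl
      obtain ⟨⟨e, he⟩, h4⟩ := emultiplicity_eq_coe.mp h2
      have he' : ¬ (p : ℤ) ∣ e := by
        rintro ⟨e', rfl⟩
        apply h4
        exact ⟨e', by rw [he]; ring⟩
      have hpI : Prime (p : ℤ) := Nat.prime_iff_prime_int.mp hp
      -- u is prime to p
      have hpu : ¬ (p : ℤ) ∣ (u : ℤ) := by
        intro h
        have h1' : ((p : ℤ) ^ c) ∣ (u : ℤ) - 1 := by
          have := (Nat.modEq_iff_dvd.mp hu.symm)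
          push_cast at this
          exact this
        have hp1 : (p : ℤ) ∣ (u : ℤ) - 1 := (dvd_pow_self _ (by omega)).trans h1'
        have h4 : (p : ℤ) ∣ 1 := by
          have := dvd_sub h hp1
          rwa [sub_sub_cancel] at this
        have h5 : p ∣ 1 := by exact_mod_cast h4
        exact hp.one_lt.ne' (Nat.dvd_one.mp h5)
      have hcop : ¬ (p : ℤ) ∣ e * (u : ℤ) ^ m := by
        intro h
        rcases hpI.dvd_or_dvd h with h | h
        · exact he' h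
        · exact hpu (hpI.dvd_of_dvd_pow h)
      -- solve for l
      obtain ⟨l, hl⟩ : ∃ l : ℕ, (p : ℤ) ∣ a + l * (e * (u : ℤ) ^ m) := by
        have : Fact p.Prime := ⟨hp⟩
        have hne : ((e * (u : ℤ) ^ m : ℤ) : ZMod p) ≠ 0 := by
          rw [Ne, ZMod.intCast_zmod_eq_zero_iff_dvd]
          exact hcop
        refine ⟨(-(a : ZMod p) / ((e * (u : ℤ) ^ m : ℤ) : ZMod p)).val, ?_⟩
        rw [← ZMod.intCast_zmod_eq_zero_iff_dvd]
        push_cast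
        rw [ZMod.natCast_val, ZMod.cast_id]
        push_cast at hne
        rw [div_mul_cancel₀ _ hne, add_neg_cancel]
      obtain ⟨b, hb⟩ := hl
      obtain ⟨q, hq⟩ := fc_one_add_pow ((p : ℤ) ^ (c + k) * e) l
      refine ⟨m + p ^ k * l, ?_⟩
      have h5 : (u : ℤ) ^ (m + p ^ k * l) - w =
          (p : ℤ) ^ (c + k) * (a + l * (e * (u : ℤ) ^ m)) +
            (p : ℤ) ^ (c + k) * (p : ℤ) ^ (c + k) * (e ^ 2 * q * (u : ℤ) ^ m) := by
        rw [pow_add, pow_mul]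
        have h6 : (u : ℤ) ^ (p ^ k) = 1 + (p : ℤ) ^ (c + k) * e := by linarith
        have h7 : (u : ℤ) ^ m = w + (p : ℤ) ^ (c + k) * a := by linarith
        rw [h6, hq]
        have h8 : (w : ℤ) = (u : ℤ) ^ m - (p : ℤ) ^ (c + k) * a := by linarith
        rw [h8]
        ring
      rw [h5, hb]
      apply dvd_add
      · exact ⟨b, by ring⟩
      · have h9 : (p : ℤ) ∣ (p : ℤ) ^ (c + k) := dvd_pow_self _ (by omega)
        obtain ⟨r, hr⟩ := h9
        refine ⟨r * (e ^ 2 * q * (u : ℤ) ^ m), ?_⟩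
        calc (p : ℤ) ^ (c + k) * (p : ℤ) ^ (c + k) * (e ^ 2 * q * (u : ℤ) ^ m)
            = (p : ℤ) ^ (c + k) * ((p : ℤ) * r) * (e ^ 2 * q * (u : ℤ) ^ m) := by rw [← hr]
          _ = _ := by ring
  obtain ⟨m, hm⟩ := key k
  refine ⟨m, Nat.ModEq.symm ?_⟩
  rw [Nat.modEq_iff_dvd]
  push_cast
  exact hm

end Pool.Agent.Helper25.GG
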