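import Pool.Agent.Helper25.GG.DefsF
import Pool.Agent.Helper25.ETCKum

/-!
# Block FD: existence of Kummer data
-/

set_option autoImplicit false

namespace Pool.Agent.Helper25.GG

open Module Pool.Agent.Helper25.ETC

variable {F K : Type} [Field F] [Field K] [Algebra F K] {p : ℕ} [Fact p.Prime] {n : ℕ} {ζ : K}
  {E : IntermediateField F K}

omit [Fact p.Prime] in
/-- a compatible system of primitive roots of unity in `K`. -/
theorem exists_roots (Cx : Ctx p F K ζ) : ∃ z : ℕ → K, (∀ k, IsPrimitiveRoot (z k) (p ^ k)) ∧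
    (∀ k, z (k + 1) ^ p = z k) ∧ z 1 = ζ := by
  have hp : Fact p.Prime := ⟨Cx.hp⟩
  choose r hr using Cx.pc.root
  let w : ℕ → K := fun k => Nat.rec ζ (fun _ x => r x) k
  have hw0 : w 0 = ζ := rfl
  have hws : ∀ k, w (k + 1) ^ p = w k := fun k => hr (w k)
  have hwp : ∀ k, IsPrimitiveRoot (w k) (p ^ (k + 1)) := by
    intro k
    induction k with
    | zero => rw [hw0, zero_add, pow_one]; exact Cx.hζ
    | succ k ih =>
      have h1 : ¬ (w (k + 1)) ^ (p ^ (k + 1)) = 1 := by
        rw [pow_succ', pow_mul, hws]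
        exact ih.pow_ne_one_of_pos_of_lt (pow_ne_zero _ Cx.hp.ne_zero)
          (Nat.pow_lt_pow_right Cx.hp.one_lt (Nat.lt_succ_self k))
      have h2 : (w (k + 1)) ^ (p ^ (k + 1 + 1)) = 1 := by
        rw [pow_succ', pow_mul, hws]
        exact ih.pow_eq_one
      have h3 := orderOf_eq_prime_pow h1 h2
      rw [← h3]
      exact IsPrimitiveRoot.orderOf _
  refine ⟨fun k => Nat.casesOn k 1 w, ?_, ?_, hw0⟩
  · intro k
    cases k with
    | zero =>
      change IsPrimitiveRoot (1 : K) (p ^ 0)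
      rw [pow_zero]; exact IsPrimitiveRoot.one
    | succ k => exact hwp k
  · intro k
    cases k with
    | zero =>
      change w 0 ^ p = 1
      rw [hw0]; exact Cx.hζ.pow_eq_one
    | succ k => exact hws k

/-- representatives of a given basis of `E* / E*^p`. -/
theorem fd_pbasis {s : ℕ} (b : Basis (Fin s) (ZMod p) (VV p E)) (a : Fin s → K)
    (ha : ∀ i, a i ∈ E) (ha0 : ∀ i, a i ≠ 0) (hab : ∀ i, mkc p E (mku (a i) (ha i) (ha0 i)) = b i) :
    (∀ x ∈ E, x ≠ 0 → ∃ n : Fin s → ℕ, ∃ w ∈ E, w ≠ 0 ∧ x = (∏ i, a i ^ n i) * w ^ p) ∧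
      (∀ n : Fin s → ℕ, (∃ w ∈ E, w ^ p = ∏ i, a i ^ n i) → ∀ i, p ∣ n i) := by
  classical
  have hp : p.Prime := Fact.out
  have hprod : ∀ n : Fin s → ℕ, ∃ (h : ∏ i, a i ^ n i ∈ E) (h0 : ∏ i, a i ^ n i ≠ 0),
      mkc p E (mku (∏ i, a i ^ n i) h h0) = ∑ i, (n i : ZMod p) • b i := by
    intro n
    have key : ∀ T : Finset (Fin s), ∃ (h : ∏ i ∈ T, a i ^ n i ∈ E) (h0 : ∏ i ∈ T, a i ^ n i ≠ 0),
        mkc p E (mku (∏ i ∈ T, a i ^ n i) h h0) = ∑ i ∈ T, (n i : ZMod p) • b i := by
      intro T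
      induction T using Finset.induction_on with
      | empty =>
        refine ⟨by simp, by simp, ?_⟩
        rw [Finset.sum_empty]
        have h1 : (1 : K) ^ p ≠ 0 := by rw [one_pow]; exact one_ne_zero
        rw [← mkc_mku_pow (p := p) E.one_mem one_ne_zero]
        apply mkc_eq_of_val
        simp [mku_val]
      | insert i T hi ih =>
        obtain ⟨h, h0, h1⟩ := ih
        have hpw : ∀ m : ℕ, mkc p E (mku (a i ^ m) (pow_mem (ha i) m) (pow_ne_zero m (ha0 i))) =
            (m : ZMod p) • b i := by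
          intro m
          induction m with
          | zero =>
            rw [Nat.cast_zero, zero_smul, ← mkc_mku_pow (p := p) E.one_mem one_ne_zero]
            apply mkc_eq_of_val
            simp [mku_val]
          | succ m ih =>
            rw [Nat.cast_succ, add_smul, one_smul, ← ih, ← hab i,
              ← mkc_mku_mul (pow_mem (ha i) m) (pow_ne_zero m (ha0 i)) (ha i) (ha0 i)]
            apply mkc_eq_of_val
            rw [mku_val, mku_val, pow_succ]
        refine ⟨by rw [Finset.prod_insert hi]; exact E.mul_mem (pow_mem (ha i) _) h,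
          by rw [Finset.prod_insert hi]; exact mul_ne_zero (pow_ne_zero _ (ha0 i)) h0, ?_⟩
        rw [Finset.sum_insert hi, ← h1, ← hpw (n i),
          ← mkc_mku_mul (pow_mem (ha i) (n i)) (pow_ne_zero (n i) (ha0 i)) h h0]
        apply mkc_eq_of_val
        rw [mku_val, mku_val, Finset.prod_insert hi]
    exact key Finset.univ
  refine ⟨?_, ?_⟩
  · intro x hx hx0
    refine ⟨fun i => (b.repr (mkc p E (mku x hx hx0)) i).val, ?_⟩
    obtain ⟨h, h0, h1⟩ := hprod (fun i => (b.repr (mkc p E (mku x hx hx0)) i).val)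
    have h2 : mkc p E (mku x hx hx0) = mkc p E (mku _ h h0) := by
      rw [h1]
      conv_lhs => rw [← b.sum_repr (mkc p E (mku x hx hx0))]
      apply Finset.sum_congr rfl
      intro i _
      rw [ZMod.natCast_zmod_val]
    obtain ⟨z, hz, hz0, hxz⟩ := (mkc_mku_eq_iff hp.ne_zero hx hx0 h h0).mp h2
    exact ⟨z, hz, hz0, hxz⟩
  · rintro n ⟨w, hw, hwp⟩ i
    obtain ⟨h, h0, h1⟩ := hprod n
    have hw0 : w ≠ 0 := by
      rintro rfl
      rw [zero_pow hp.ne_zero] at hwp
      exact h0 hwp.symm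
    have h2 : mkc p E (mku _ h h0) = 0 := by
      rw [← mkc_mku_pow (p := p) hw hw0]
      apply mkc_eq_of_val
      rw [mku_val, mku_val, hwp]
    rw [h1] at h2
    have h3 := (Fintype.linearIndependent_iff.mp b.linearIndependent) _ h2 i
    exact (ZMod.natCast_eq_zero_iff _ _).mp h3

/-- a nonzero vector is the first vector of a basis. -/
theorem fd_basis {V : Type} [AddCommGroup V] [Module (ZMod p) V] [FiniteDimensional (ZMod p) V]
    {m : ℕ} (hfr : finrank (ZMod p) V = m) {v : V} (hv : v ≠ 0) :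
    ∃ s, m = s + 1 ∧ ∃ b : Basis (Fin (s + 1)) (ZMod p) V, b 0 = v := by
  obtain ⟨C, hC⟩ := Submodule.exists_isCompl (Submodule.span (ZMod p) {v})
  have h1 := Submodule.finrank_add_eq_of_isCompl hC
  rw [finrank_span_singleton hv, hfr] at h1
  refine ⟨finrank (ZMod p) C, by omega, ?_⟩
  let b := finBasis (ZMod p) C
  have hli : LinearIndependent (ZMod p) (Fin.cons v (fun i => (b i : V)) :
      Fin (finrank (ZMod p) C + 1) → V) := by
    rw [linearIndependent_finCons]
    refine ⟨b.linearIndependent.map' C.subtype C.ker_subtype, fun h => ?_⟩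
    have h2 : v ∈ C := by
      refine (Submodule.span_le.mpr ?_) h
      rintro _ ⟨i, rfl⟩
      exact (b i).2
    have h3 := Submodule.disjoint_def.mp hC.disjoint v (Submodule.mem_span_singleton_self v) h2
    exact hv h3
  refine ⟨basisOfLinearIndependentOfCardEqFinrank hli (by rw [Fintype.card_fin, hfr]; omega), ?_⟩
  rw [coe_basisOfLinearIndependentOfCardEqFinrank]
  rfl

theorem exists_KS (Cx : Ctx p F K ζ) [FiniteDimensional F E]
    (hz2 : ∃ z ∈ E, IsPrimitiveRoot z (p ^ 2))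
    (hno : ∃ k, ∀ z ∈ E, ¬ IsPrimitiveRoot z (p ^ k)) {m : ℕ}
    (hm : Nat.card (PC p E) = p ^ m) :
    ∃ s c : ℕ, 2 ≤ c ∧ m = s + 1 ∧ Nonempty (KS p E s c) := by
  classical
  have hp : p.Prime := Fact.out
  obtain ⟨z, hz, hzz, hz1⟩ := exists_roots Cx
  have hmono : ∀ j k, z (k + j) ∈ E → z k ∈ E := by
    intro j
    induction j with
    | zero => intro k h; exact h
    | succ j ih =>
      intro k h
      apply ih
      rw [← hzz (k + j)]
      exact pow_mem h p
  obtain ⟨k0, hk0⟩ := hno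
  have hex : ∃ k, z k ∉ E := ⟨k0, fun h => hk0 _ h (hz k0)⟩
  have hz2E : z 2 ∈ E := by
    obtain ⟨x, hx, hxp⟩ := hz2
    have : NeZero (p ^ 2) := ⟨pow_ne_zero _ hp.ne_zero⟩
    obtain ⟨i, _, hi⟩ := hxp.eq_pow_of_pow_eq_one (hz 2).pow_eq_one
    rw [← hi]
    exact pow_mem hx i
  -- the level
  let N := Nat.find hex
  have hN : z N ∉ E := Nat.find_spec hex
  have hN' : ∀ k < N, z k ∈ E := fun k hk => not_not.mp (Nat.find_min hex hk)
  have hN3 : 3 ≤ N := by
    by_contra hlt
    push Not at hlt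
    apply hN
    apply hmono (2 - N) N
    rw [Nat.add_sub_cancel' (by omega)]
    exact hz2E
  obtain ⟨c, hc⟩ : ∃ c, N = c + 1 := ⟨N - 1, by omega⟩
  have hcE : z c ∈ E := hN' c (by omega)
  have hc1 : z (c + 1) ∉ E := by rw [← hc]; exact hN
  have hζE : ζ ∈ E := by rw [← hz1]; exact hN' 1 (by omega)
  have hzne : ∀ k, z k ≠ 0 := fun k => (hz k).ne_zero (pow_ne_zero _ hp.ne_zero)
  have hnp : ∀ w ∈ E, w ^ p ≠ z c := by
    intro w hw h
    have hne : z (c + 1) ≠ 0 := hzne _
    have h1 : (z (c + 1) * w⁻¹) ^ p = 1 := by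
      rw [mul_pow, inv_pow, h, hzz, mul_inv_cancel₀ (hzne c)]
    have : NeZero p := ⟨hp.ne_zero⟩
    obtain ⟨i, _, hi⟩ := Cx.hζ.eq_pow_of_pow_eq_one h1
    have hw0 : w ≠ 0 := by
      rintro rfl
      rw [zero_pow hp.ne_zero] at h
      exact hzne c h.symm
    apply hc1
    have h2 : z (c + 1) = ζ ^ i * w := by
      rw [hi, mul_assoc, inv_mul_cancel₀ hw0, mul_one]
    rw [h2]
    exact E.mul_mem (pow_mem hζE i) hw
  -- the basis
  have hfin : Finite (VV p E) := by
    have h : Nat.card (VV p E) ≠ 0 := by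
      change Nat.card (PC p E) ≠ 0
      rw [hm]
      exact pow_ne_zero _ hp.ne_zero
    exact Nat.finite_of_card_ne_zero h
  have hfd : FiniteDimensional (ZMod p) (VV p E) := inferInstance
  have hfr : finrank (ZMod p) (VV p E) = m := by
    have h1 : Nat.card (VV p E) = p ^ finrank (ZMod p) (VV p E) := by
      rw [Module.natCard_eq_pow_finrank (K := ZMod p), Nat.card_zmod]
    have h2 : Nat.card (VV p E) = p ^ m := hm
    exact Nat.pow_right_injective hp.two_le (h1.symm.trans h2)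
  have hv : mkc p E (mku (z c) hcE (hzne c)) ≠ 0 := by
    intro h
    rw [mkc_eq_zero] at h
    obtain ⟨_, y, hy, hyp⟩ := h
    exact hnp y hy hyp
  obtain ⟨s, hs, b, hb⟩ := fd_basis hfr hv
  choose a ha ha0 hab using fun i => mkc_mku_surj (b i)
  let a' : Fin (s + 1) → K := Fin.cons (z c) (fun i => a i.succ)
  have ha' : ∀ i, a' i ∈ E := by
    intro i
    refine Fin.cases ?_ (fun j => ?_) i
    · exact hcE
    · exact ha _
  have ha0' : ∀ i, a' i ≠ 0 := by
    intro i
    refine Fin.cases ?_ (fun j => ?_) i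
    · exact hzne c
    · exact ha0 _
  have hab' : ∀ i, mkc p E (mku (a' i) (ha' i) (ha0' i)) = b i := by
    intro i
    refine Fin.cases ?_ (fun j => ?_) i
    · rw [hb]; rfl
    · exact hab _
  obtain ⟨h1, h2⟩ := fd_pbasis b a' ha' ha0' hab'
  choose r hr using Cx.pc.root
  refine ⟨s, c, by omega, hs, ⟨{
    z := z
    hz := hz
    hzz := hzz
    zE := hcE
    y := fun i k => Nat.rec (a i.succ) (fun _ x => r x) k
    hy := fun i k => hr _
    yE := fun i => ha _
    y0 := fun i => ha0 _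
    span := ?_
    ind := ?_ }⟩⟩
  · intro x hx hx0
    obtain ⟨n, w, hw, hw0, hxw⟩ := h1 x hx hx0
    refine ⟨n 0, fun i => n i.succ, w, hw, hw0, ?_⟩
    rw [hxw, Fin.prod_univ_succ]
    rfl
  · rintro e0 e ⟨w, hw, hwp⟩
    have h3 := h2 (Fin.cons e0 e) ⟨w, hw, by
      rw [hwp, Fin.prod_univ_succ]
      rfl⟩
    exact ⟨h3 0, fun i => h3 i.succ⟩

end Pool.Agent.Helper25.GG
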