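import Pool.Agent.Helper25.GG.FA
import Pool.Agent.Helper25.GG.FB
import Pool.Agent.Helper25.GG.FC

/-!
# Block FE: the topological generators of Gal(M/E)
-/

set_option autoImplicit false

namespace Pool.Agent.Helper25.GG

open Module Pool.Agent.Helper25.ETC

variable {F K : Type} [Field F] [Field K] [Algebra F K] {p : ℕ} [Fact p.Prime] {n : ℕ} {ζ : K}
  {E : IntermediateField F K}

/-- any condition on the value of `σ` at `a` is open. -/
theorem FE.isOpen_eval (Cx : Ctx p F K ζ) (a : K) (Q : K → Prop) :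
    IsOpen {σ : K ≃ₐ[F] K | Q (σ a)} := by
  have := Cx.pc.gal
  have hint : IsIntegral F a := Algebra.IsIntegral.isIntegral _
  have : FiniteDimensional F (IntermediateField.adjoin F {a}) :=
    IntermediateField.adjoin.finiteDimensional hint
  have h1 := IntermediateField.fixingSubgroup_isOpen (IntermediateField.adjoin F {a})
  rw [isOpen_iff_mem_nhds]
  intro σ0 hσ0
  have h2 : IsOpen {σ : K ≃ₐ[F] K | σ0⁻¹ * σ ∈
      (IntermediateField.adjoin F {a}).fixingSubgroup} :=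
    h1.preimage (continuous_const_mul σ0⁻¹)
  have h3 : {σ : K ≃ₐ[F] K | σ0⁻¹ * σ ∈ (IntermediateField.adjoin F {a}).fixingSubgroup} ∈
      nhds σ0 := by
    apply h2.mem_nhds
    change σ0⁻¹ * σ0 ∈ (IntermediateField.adjoin F {a}).fixingSubgroup
    rw [inv_mul_cancel]
    exact one_mem _
  filter_upwards [h3] with σ hσ
  have hσ' : σ0⁻¹ * σ ∈ (IntermediateField.adjoin F {a}).fixingSubgroup := hσ
  rw [IntermediateField.mem_fixingSubgroup_iff] at hσ'
  have h4 := hσ' a (IntermediateField.mem_adjoin_simple_self F a)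
  rw [AlgEquiv.mul_apply] at h4
  have h5 : σ a = σ0 a := by
    have h6 := congrArg σ0 h4
    rwa [← AlgEquiv.mul_apply σ0, mul_inv_cancel, AlgEquiv.one_apply] at h6
  change Q (σ a)
  rw [h5]
  exact hσ0

theorem FE.isClosed_eval (Cx : Ctx p F K ζ) (a : K) (Q : K → Prop) :
    IsClosed {σ : E.fixingSubgroup | Q ((σ : K ≃ₐ[F] K) a)} := by
  rw [← isOpen_compl_iff]
  exact (FE.isOpen_eval Cx a (fun x => ¬ Q x)).preimage continuous_subtype_val

/-- compactness. -/
theorem FE.exists_of_levels (Cx : Ctx p F K ζ) [FiniteDimensional F E] (P : ℕ → E.fixingSubgroup → Prop)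
    (hcl : ∀ k, IsClosed {σ | P k σ}) (hdec : ∀ k σ, P (k + 1) σ → P k σ)
    (hne : ∀ k, ∃ σ, P k σ) : ∃ σ, ∀ k, P k σ := by
  have := Cx.pc.gal
  have hE : IsClosed (E.fixingSubgroup : Set (K ≃ₐ[F] K)) :=
    IntermediateField.fixingSubgroup_isClosed E
  have hcomp : CompactSpace E.fixingSubgroup := isCompact_iff_compactSpace.mp hE.isCompact
  have := IsCompact.nonempty_iInter_of_sequence_nonempty_isCompact_isClosed
    (fun k => {σ : E.fixingSubgroup | P k σ})
    (fun k σ hσ => hdec k σ hσ) (fun k => hne k) (hcl 0).isCompact hcl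
  obtain ⟨σ, hσ⟩ := this
  exact ⟨σ, fun k => Set.mem_iInter.mp hσ k⟩

section

variable {s c : ℕ} (S : KS p E s c)

omit [Fact p.Prime] in
theorem FE.z_pow (k j : ℕ) : S.z (k + j) ^ (p ^ j) = S.z k := by
  induction j with
  | zero => rw [pow_zero, pow_one, add_zero]
  | succ j ih => rw [pow_succ', pow_mul, ← add_assoc, S.hzz, ih]

omit [Fact p.Prime] in
theorem FE.y_pow (i : Fin s) (k : ℕ) : S.y i k ^ (p ^ k) = S.y i 0 := by
  induction k with
  | zero => rw [pow_zero, pow_one]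
  | succ k ih => rw [pow_succ', pow_mul, S.hy, ih]

theorem FE.z_ne (k : ℕ) : S.z k ≠ 0 :=
  (S.hz k).ne_zero (pow_ne_zero k (Fact.out : p.Prime).ne_zero)

theorem FE.y_ne (i : Fin s) (k : ℕ) : S.y i k ≠ 0 := by
  intro h
  have h1 := FE.y_pow S i k
  rw [h, zero_pow (pow_ne_zero k (Fact.out : p.Prime).ne_zero)] at h1
  exact S.y0 i h1.symm

omit [Fact p.Prime] in
theorem FE.fixE (σ : E.fixingSubgroup) {x : K} (hx : x ∈ E) : (σ : K ≃ₐ[F] K) x = x :=
  (IntermediateField.mem_fixingSubgroup_iff E _).mp σ.2 x hx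

/-- the value of an automorphism at `y j k`. -/
theorem FE.act_y (σ : E.fixingSubgroup) (j : Fin s) (k : ℕ) :
    ∃ m : ℕ, (σ : K ≃ₐ[F] K) (S.y j k) = S.z k ^ m * S.y j k := by
  have hp : p.Prime := Fact.out
  have h1 : ((σ : K ≃ₐ[F] K) (S.y j k)) ^ (p ^ k) = (S.y j k) ^ (p ^ k) := by
    rw [← map_pow, FE.y_pow, FE.fixE σ (S.yE j)]
  obtain ⟨m, -, hm⟩ := exists_zeta_pow (pow_pos hp.pos k) (S.hz k) h1
  exact ⟨m, hm⟩

/-- the value of an automorphism at `z k`. -/
theorem FE.act_z (σ : E.fixingSubgroup) (k : ℕ) :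
    ∃ u : ℕ, (σ : K ≃ₐ[F] K) (S.z k) = S.z k ^ u := by
  have hp : p.Prime := Fact.out
  have h1 : ((σ : K ≃ₐ[F] K) (S.z k)) ^ (p ^ k) = 1 ^ (p ^ k) := by
    rw [← map_pow, (S.hz k).pow_eq_one, map_one, one_pow]
  obtain ⟨m, -, hm⟩ := exists_zeta_pow (pow_pos hp.pos k) (S.hz k) h1
  rw [mul_one] at hm
  exact ⟨m, hm⟩

end

theorem KS.exists_t (Cx : Ctx p F K ζ) [FiniteDimensional F E] (hζE : ζ ∈ E) {s c : ℕ}
    (hc : 2 ≤ c) (S : KS p E s c) : ∃ t : Fin s → E.fixingSubgroup,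
      (∀ i k, (t i : K ≃ₐ[F] K) (S.z k) = S.z k) ∧
      ∀ i j k, (t i : K ≃ₐ[F] K) (S.y j k) = if i = j then S.z k * S.y j k else S.y j k := by
  classical
  have hp : p.Prime := Fact.out
  have key : ∀ i : Fin s, ∃ σ : E.fixingSubgroup, ∀ k, (σ : K ≃ₐ[F] K) (S.z k) = S.z k ∧
      ∀ j, (σ : K ≃ₐ[F] K) (S.y j k) = if i = j then S.z k * S.y j k else S.y j k := by
    intro i
    apply FE.exists_of_levels Cx
    · intro k
      have h1 : {σ : E.fixingSubgroup | (σ : K ≃ₐ[F] K) (S.z k) = S.z k ∧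
          ∀ j, (σ : K ≃ₐ[F] K) (S.y j k) = if i = j then S.z k * S.y j k else S.y j k} =
          {σ : E.fixingSubgroup | (σ : K ≃ₐ[F] K) (S.z k) = S.z k} ∩
          ⋂ j, {σ : E.fixingSubgroup | (σ : K ≃ₐ[F] K) (S.y j k) =
            if i = j then S.z k * S.y j k else S.y j k} := by
        ext σ
        simp
      rw [h1]
      exact (FE.isClosed_eval Cx (S.z k) (fun x => x = S.z k)).inter
        (isClosed_iInter fun j => FE.isClosed_eval Cx (S.y j k)
          (fun x => x = if i = j then S.z k * S.y j k else S.y j k))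
    · rintro k σ ⟨h1, h2⟩
      have h3 : (σ : K ≃ₐ[F] K) (S.z k) = S.z k := by
        rw [← S.hzz k, map_pow, h1]
      refine ⟨h3, fun j => ?_⟩
      rw [← S.hy j k, map_pow, h2 j]
      split_ifs with h
      · rw [mul_pow, S.hzz]
      · rfl
    · intro k
      obtain ⟨A, hEA, hzA, hζA, hind⟩ := S.indep_tower Cx hζE hc k
      have hzk : S.z k ∈ A := by
        have h1 := FE.z_pow S k c
        rw [← h1, add_comm k c]
        exact pow_mem hzA _
      obtain ⟨σ, hσ⟩ := kummer_surj Cx A (S.hz k) hzk hζA (fun j => S.y j 0)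
        (fun j => ⟨hEA (S.yE j), S.y0 j⟩)
        (by
          rintro e ⟨w, hw, hwp⟩
          exact (hind 0 e ⟨w, hw, by rw [pow_zero, one_mul]; exact hwp⟩).2)
        (fun j => S.y j k) (fun j => FE.y_pow S j k) (fun j => if i = j then 1 else 0)
      have hσE : (σ : K ≃ₐ[F] K) ∈ E.fixingSubgroup := by
        rw [IntermediateField.mem_fixingSubgroup_iff]
        intro x hx
        exact FE.fixE σ (hEA hx)
      refine ⟨⟨σ, hσE⟩, FE.fixE σ hzk, fun j => ?_⟩
      change (σ : K ≃ₐ[F] K) (S.y j k) = _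
      rw [hσ j]
      split_ifs
      · rw [pow_one]
      · rw [pow_zero, one_mul]
  choose t ht using key
  exact ⟨t, fun i k => (ht i k).1, fun i j k => (ht i k).2 j⟩

theorem KS.exists_g (Cx : Ctx p F K ζ) [FiniteDimensional F E] (hζE : ζ ∈ E) {s c : ℕ}
    (hc : 2 ≤ c) (S : KS p E s c) : ∃ g : E.fixingSubgroup,
      (∀ j k, (g : K ≃ₐ[F] K) (S.y j k) = S.y j k) ∧
      ∀ k, (g : K ≃ₐ[F] K) (S.z k) = S.z k ^ (1 + p ^ c) := by
  classical
  have hp : p.Prime := Fact.out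
  have := Cx.pc.gal
  -- `z (c + 1)` is not in `E`
  have hnot : S.z (c + 1) ∉ E := by
    intro h
    have h1 := (S.ind 1 (fun _ => 0) ⟨S.z (c + 1), h, by
      rw [S.hzz, pow_one]; simp⟩).1
    exact hp.one_lt.ne' (Nat.dvd_one.mp h1)
  obtain ⟨g0, hg0⟩ : ∃ g0 : E.fixingSubgroup, (g0 : K ≃ₐ[F] K) (S.z (c + 1)) ≠ S.z (c + 1) := by
    by_contra hcon
    push Not at hcon
    apply hnot
    have h1 : S.z (c + 1) ∈ IntermediateField.fixedField E.fixingSubgroup := by
      rw [IntermediateField.mem_fixedField_iff]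
      intro g hg
      exact hcon ⟨g, hg⟩
    rwa [InfiniteGalois.fixedField_fixingSubgroup] at h1
  have hpowmod : ∀ (k a b : ℕ), S.z k ^ a = S.z k ^ b ↔ a ≡ b [MOD p ^ k] := by
    intro k a b
    have hord : orderOf (S.z k) = p ^ k := (S.hz k).eq_orderOf.symm
    rw [← hord]
    exact (isOfFinOrder_iff_pow_eq_one.mpr
      ⟨p ^ k, pow_pos hp.pos k, (S.hz k).pow_eq_one⟩).pow_eq_pow_iff_modEq
  have key : ∃ σ : E.fixingSubgroup, ∀ k, (σ : K ≃ₐ[F] K) (S.z (c + k)) =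
      S.z (c + k) ^ (1 + p ^ c) ∧ ∀ j, (σ : K ≃ₐ[F] K) (S.y j k) = S.y j k := by
    have hdec : ∀ (k : ℕ) (σ : E.fixingSubgroup), ((σ : K ≃ₐ[F] K) (S.z (c + (k + 1))) =
        S.z (c + (k + 1)) ^ (1 + p ^ c) ∧ ∀ j, (σ : K ≃ₐ[F] K) (S.y j (k + 1)) = S.y j (k + 1)) →
        ((σ : K ≃ₐ[F] K) (S.z (c + k)) =
          S.z (c + k) ^ (1 + p ^ c) ∧ ∀ j, (σ : K ≃ₐ[F] K) (S.y j k) = S.y j k) := by
      rintro k σ ⟨h1, h2⟩
      refine ⟨?_, fun j => ?_⟩
      · have h1' : (σ : K ≃ₐ[F] K) (S.z (c + k + 1)) = S.z (c + k + 1) ^ (1 + p ^ c) := h1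
        rw [← S.hzz (c + k), map_pow, ← pow_mul, mul_comm p, pow_mul, ← h1']
      · rw [← S.hy j k, map_pow, h2 j]
    apply FE.exists_of_levels Cx
    · intro k
      have h1 : {σ : E.fixingSubgroup | (σ : K ≃ₐ[F] K) (S.z (c + k)) =
          S.z (c + k) ^ (1 + p ^ c) ∧ ∀ j, (σ : K ≃ₐ[F] K) (S.y j k) = S.y j k} =
          {σ : E.fixingSubgroup | (σ : K ≃ₐ[F] K) (S.z (c + k)) = S.z (c + k) ^ (1 + p ^ c)} ∩
          ⋂ j, {σ : E.fixingSubgroup | (σ : K ≃ₐ[F] K) (S.y j k) = S.y j k} := by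
        ext σ
        simp
      rw [h1]
      exact (FE.isClosed_eval Cx (S.z (c + k)) (fun x => x = S.z (c + k) ^ (1 + p ^ c))).inter
        (isClosed_iInter fun j => FE.isClosed_eval Cx (S.y j k) (fun x => x = S.y j k))
    · exact hdec
    · intro k0
      -- it is enough to do this at level `k0 + 1`
      suffices h : ∃ σ : E.fixingSubgroup, (σ : K ≃ₐ[F] K) (S.z (c + (k0 + 1))) =
          S.z (c + (k0 + 1)) ^ (1 + p ^ c) ∧
          ∀ j, (σ : K ≃ₐ[F] K) (S.y j (k0 + 1)) = S.y j (k0 + 1) by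
        obtain ⟨σ, hσ⟩ := h
        exact ⟨σ, hdec k0 σ hσ⟩
      set k := k0 + 1 with hk
      obtain ⟨u, hu⟩ := FE.act_z S g0 (c + k)
      have hu1 : (g0 : K ≃ₐ[F] K) (S.z c) = S.z c ^ u := by
        have h1 := FE.z_pow S c k
        rw [← h1, map_pow, hu, ← pow_mul, ← pow_mul, mul_comm]
      have hu2 : (g0 : K ≃ₐ[F] K) (S.z (c + 1)) = S.z (c + 1) ^ u := by
        have h1 := FE.z_pow S (c + 1) k0
        have e : c + 1 + k0 = c + k := by omega
        rw [e] at h1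
        rw [← h1, map_pow, hu, ← pow_mul, ← pow_mul, mul_comm]
      have hum : u ≡ 1 [MOD p ^ c] := by
        rw [← hpowmod, ← hu1, FE.fixE g0 S.zE, pow_one]
      have hum' : ¬ u ≡ 1 [MOD p ^ (c + 1)] := by
        rw [← hpowmod, ← hu2, pow_one]
        exact hg0
      have hw : 1 + p ^ c ≡ 1 [MOD p ^ c] := by
        have h1 : 1 + p ^ c ≡ 1 + 0 [MOD p ^ c] :=
          Nat.ModEq.add_left 1 (Nat.modEq_zero_iff_dvd.mpr (dvd_refl _))
        exact h1
      obtain ⟨m, hm⟩ := unit_gen hp (by omega) (fun _ => hc) hum hum' hw k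
      have hgm : ∀ m : ℕ, ((g0 ^ m : E.fixingSubgroup) : K ≃ₐ[F] K) (S.z (c + k)) =
          S.z (c + k) ^ (u ^ m) := by
        intro m
        induction m with
        | zero => rw [pow_zero, pow_zero, pow_one]; rfl
        | succ m ih =>
          rw [pow_succ g0, Subgroup.coe_mul, AlgEquiv.mul_apply, hu, map_pow, ih, ← pow_mul,
            ← pow_succ]
      have hz1 : ((g0 ^ m : E.fixingSubgroup) : K ≃ₐ[F] K) (S.z (c + k)) =
          S.z (c + k) ^ (1 + p ^ c) := by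
        rw [hgm, hpowmod]
        exact hm
      choose nn hnn using fun j => FE.act_y S (g0 ^ m) j k
      obtain ⟨A, hEA, hzA, hζA, hind⟩ := S.indep_tower Cx hζE hc k
      have hzk : S.z k ∈ A := by
        have h1 := FE.z_pow S k c
        rw [← h1, add_comm k c]
        exact pow_mem hzA _
      obtain ⟨τ, hτ⟩ := kummer_surj Cx A (S.hz k) hzk hζA (fun j => S.y j 0)
        (fun j => ⟨hEA (S.yE j), S.y0 j⟩)
        (by
          rintro e ⟨w, hw, hwp⟩
          exact (hind 0 e ⟨w, hw, by rw [pow_zero, one_mul]; exact hwp⟩).2)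
        (fun j => S.y j k) (fun j => FE.y_pow S j k) (fun j => nn j * (p ^ k - 1))
      have hτE : (τ : K ≃ₐ[F] K) ∈ E.fixingSubgroup := by
        rw [IntermediateField.mem_fixingSubgroup_iff]
        intro x hx
        exact FE.fixE τ (hEA hx)
      refine ⟨⟨τ, hτE⟩ * g0 ^ m, ?_, fun j => ?_⟩
      · rw [Subgroup.coe_mul, AlgEquiv.mul_apply, hz1]
        exact FE.fixE τ (pow_mem hzA _)
      · rw [Subgroup.coe_mul, AlgEquiv.mul_apply, hnn j, map_mul]
        change (τ : K ≃ₐ[F] K) (S.z k ^ nn j) * (τ : K ≃ₐ[F] K) (S.y j k) = S.y j k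
        rw [FE.fixE τ (pow_mem hzk _), hτ j, ← mul_assoc, ← pow_add]
        have h1 : nn j + nn j * (p ^ k - 1) = p ^ k * nn j := by
          have h2 : 1 ≤ p ^ k := Nat.one_le_pow _ _ hp.pos
          obtain ⟨q, hq⟩ := Nat.exists_eq_add_of_le h2
          rw [hq, Nat.add_sub_cancel_left]
          ring
        rw [h1, pow_mul, (S.hz k).pow_eq_one, one_pow, one_mul]
  obtain ⟨g, hg⟩ := key
  refine ⟨g, fun j k => (hg k).2 j, fun k => ?_⟩
  have h1 := FE.z_pow S k c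
  rw [add_comm k c] at h1
  rw [← h1, map_pow, (hg k).1, ← pow_mul, ← pow_mul, mul_comm]

end Pool.Agent.Helper25.GG
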