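import Pool.Agent.Helper25.GG.FC
import Pool.Agent.Helper25.GG.DefsF
import Pool.Agent.Helper25.ETCKum

/-!
# Block FF: the structure PZ on Gal(K/E)
-/

set_option autoImplicit false

namespace Pool.Agent.Helper25.GG

open Module Pool.Agent.Helper25.ETC

variable {F K : Type} [Field F] [Field K] [Algebra F K] {p : ℕ} [Fact p.Prime] {n : ℕ} {ζ : K}
  {E : IntermediateField F K}

section Aux

variable {s c : ℕ} (S : KS p E s c)

theorem FF.z_pow (a k : ℕ) : S.z (a + k) ^ (p ^ k) = S.z a := by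
  induction k with
  | zero => rw [pow_zero, pow_one, add_zero]
  | succ k ih => rw [pow_succ', pow_mul, ← add_assoc, S.hzz, ih]

theorem FF.z_pow' (a k : ℕ) : S.z (a + k) ^ (p ^ a) = S.z k := by
  rw [add_comm]; exact FF.z_pow S k a

theorem FF.y_pow (i : Fin s) (k : ℕ) : S.y i k ^ (p ^ k) = S.y i 0 := by
  induction k with
  | zero => rw [pow_zero, pow_one]
  | succ k ih => rw [pow_succ', pow_mul, S.hy, ih]

theorem FF.z_ne (k : ℕ) : S.z k ≠ 0 :=
  (S.hz k).ne_zero (pow_ne_zero k (Fact.out : p.Prime).ne_zero)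

theorem FF.y_ne (i : Fin s) (k : ℕ) : S.y i k ≠ 0 := by
  intro h
  have h1 := FF.y_pow S i k
  rw [h, zero_pow (pow_ne_zero k (Fact.out : p.Prime).ne_zero)] at h1
  exact S.y0 i h1.symm

omit [Fact p.Prime] in
theorem FF.fixE (σ : E.fixingSubgroup) {x : K} (hx : x ∈ E) : (σ : K ≃ₐ[F] K) x = x :=
  (IntermediateField.mem_fixingSubgroup_iff E _).mp σ.2 x hx

theorem FF.act_y (σ : E.fixingSubgroup) (i : Fin s) (k : ℕ) :
    ∃ m : ℕ, (σ : K ≃ₐ[F] K) (S.y i k) = S.z k ^ m * S.y i k := by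
  have h1 : ((σ : K ≃ₐ[F] K) (S.y i k)) ^ (p ^ k) = (S.y i k) ^ (p ^ k) := by
    rw [← map_pow, FF.y_pow, FF.fixE σ (S.yE i)]
  obtain ⟨j, -, hj⟩ := exists_zeta_pow (pow_pos (Fact.out : p.Prime).pos k) (S.hz k) h1
  exact ⟨j, hj⟩

theorem FF.act_z (σ : K ≃ₐ[F] K) (k : ℕ) : ∃ m : ℕ, σ (S.z k) = S.z k ^ m := by
  have h1 : (σ (S.z k)) ^ (p ^ k) = (1 : K) ^ (p ^ k) := by
    rw [← map_pow, (S.hz k).pow_eq_one, map_one, one_pow]
  obtain ⟨j, -, hj⟩ := exists_zeta_pow (pow_pos (Fact.out : p.Prime).pos k) (S.hz k) h1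
  exact ⟨j, by rw [hj, mul_one]⟩

/-- an automorphism fixing `z (c + k)` fixes `z k`. -/
theorem FF.fix_z {σ : K ≃ₐ[F] K} {k : ℕ} (h : σ (S.z (c + k)) = S.z (c + k)) :
    σ (S.z k) = S.z k := by
  rw [← FF.z_pow' S c k, map_pow, h]

omit [Fact p.Prime] in
theorem FF.inv_fix {σ : K ≃ₐ[F] K} {x : K} (h : σ x = x) : σ⁻¹ x = x := by
  have : σ ∈ MulAction.stabilizer (K ≃ₐ[F] K) x := h
  exact (MulAction.stabilizer (K ≃ₐ[F] K) x).inv_mem this

omit [Fact p.Prime] in
theorem FF.pow_fix {σ : K ≃ₐ[F] K} {x : K} (h : σ x = x) (m : ℕ) : (σ ^ m) x = x := by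
  have : σ ∈ MulAction.stabilizer (K ≃ₐ[F] K) x := h
  exact (MulAction.stabilizer (K ≃ₐ[F] K) x).pow_mem this m

/-- the subgroups. -/
def FF.W (i k : ℕ) : Subgroup E.fixingSubgroup where
  carrier := {σ | (i ≤ s → (σ : K ≃ₐ[F] K) (S.z (c + k)) = S.z (c + k)) ∧
    ∀ j : Fin s, i ≤ j → (σ : K ≃ₐ[F] K) (S.y j k) = S.y j k}
  mul_mem' := by
    rintro a b ⟨ha, ha'⟩ ⟨hb, hb'⟩
    refine ⟨fun h => ?_, fun j h => ?_⟩
    · rw [Subgroup.coe_mul, AlgEquiv.mul_apply, hb h, ha h]
    · rw [Subgroup.coe_mul, AlgEquiv.mul_apply, hb' j h, ha' j h]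
  one_mem' := ⟨fun _ => rfl, fun _ _ => rfl⟩
  inv_mem' := by
    rintro a ⟨ha, ha'⟩
    exact ⟨fun h => FF.inv_fix (ha h), fun j h => FF.inv_fix (ha' j h)⟩

theorem FF.mem_W {i k : ℕ} {σ : E.fixingSubgroup} : σ ∈ FF.W S i k ↔
    (i ≤ s → (σ : K ≃ₐ[F] K) (S.z (c + k)) = S.z (c + k)) ∧
      ∀ j : Fin s, i ≤ j → (σ : K ≃ₐ[F] K) (S.y j k) = S.y j k := Iff.rfl

theorem FF.normal (i k : ℕ) : (FF.W S i k).Normal := by
  constructor
  rintro σ ⟨h1, h2⟩ v
  refine ⟨fun hi => ?_, fun j hj => ?_⟩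
  · obtain ⟨m, hm⟩ := FF.act_z S ((v⁻¹ : E.fixingSubgroup) : K ≃ₐ[F] K) (c + k)
    rw [Subgroup.coe_mul, Subgroup.coe_mul, AlgEquiv.mul_apply, AlgEquiv.mul_apply, hm, map_pow,
      h1 hi, ← hm, ← AlgEquiv.mul_apply, ← Subgroup.coe_mul, mul_inv_cancel]
    rfl
  · have hi : i ≤ s := hj.trans j.2.le
    obtain ⟨m, hm⟩ := FF.act_y S (v⁻¹ : E.fixingSubgroup) j k
    rw [Subgroup.coe_mul, Subgroup.coe_mul, AlgEquiv.mul_apply, AlgEquiv.mul_apply, hm, map_mul,
      map_pow, FF.fix_z S (h1 hi), h2 j hj, ← hm, ← AlgEquiv.mul_apply, ← Subgroup.coe_mul,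
      mul_inv_cancel]
    rfl

theorem FF.anti (i k : ℕ) : FF.W S i (k + 1) ≤ FF.W S i k := by
  rintro σ ⟨h1, h2⟩
  refine ⟨fun hi => ?_, fun j hj => ?_⟩
  · rw [← S.hzz, map_pow]
    exact congrArg (· ^ p) (h1 hi)
  · rw [← S.hy, map_pow, h2 j hj]

/-- two automorphisms which agree on `z (c + k)` and on all `y j k`. -/
theorem FF.mul_inv_mem {σ τ : E.fixingSubgroup} {k : ℕ}
    (hz : (σ : K ≃ₐ[F] K) (S.z (c + k)) = S.z (c + k))
    (hz' : (τ : K ≃ₐ[F] K) (S.z (c + k)) = S.z (c + k)) (m : Fin s → ℕ)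
    (hy : ∀ j, (σ : K ≃ₐ[F] K) (S.y j k) = S.z k ^ m j * S.y j k)
    (hy' : ∀ j, (τ : K ≃ₐ[F] K) (S.y j k) = S.z k ^ m j * S.y j k) :
    σ * τ⁻¹ ∈ FF.W S 0 k := by
  refine ⟨fun _ => ?_, fun j _ => ?_⟩
  · rw [Subgroup.coe_mul, AlgEquiv.mul_apply, Subgroup.coe_inv, FF.inv_fix hz', hz]
  · have h1 : (((τ⁻¹ : E.fixingSubgroup)) : K ≃ₐ[F] K) (S.z k ^ m j * S.y j k) = S.y j k := by
      rw [← hy' j, ← AlgEquiv.mul_apply, ← Subgroup.coe_mul, inv_mul_cancel]
      rfl
    rw [map_mul, map_pow, Subgroup.coe_inv, FF.inv_fix (FF.fix_z S hz')] at h1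
    have hne : S.z k ^ m j ≠ 0 := pow_ne_zero _ (FF.z_ne S k)
    apply mul_left_cancel₀ hne
    rw [Subgroup.coe_mul, AlgEquiv.mul_apply, Subgroup.coe_inv, ← hy j]
    have h2 : (σ : K ≃ₐ[F] K) (S.z k ^ m j * ((τ : K ≃ₐ[F] K)⁻¹ (S.y j k))) =
        (σ : K ≃ₐ[F] K) (S.y j k) := by rw [h1]
    rw [map_mul, map_pow, FF.fix_z S hz] at h2
    exact h2

/-- powers of an automorphism acting on `z (c + k)` by a power. -/
theorem FF.pow_act_z {σ : K ≃ₐ[F] K} {x : K} {u : ℕ} (h : σ x = x ^ u) (m : ℕ) :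
    (σ ^ m) x = x ^ (u ^ m) := by
  induction m with
  | zero => rw [pow_zero, pow_zero, pow_one]; rfl
  | succ m ih => rw [pow_succ, AlgEquiv.mul_apply, h, map_pow, ih, ← pow_mul, pow_succ]

/-- powers of an automorphism multiplying `y` by `z`. -/
theorem FF.pow_act_y {σ : K ≃ₐ[F] K} {x y : K} (hx : σ x = x) (h : σ y = x * y) (m : ℕ) :
    (σ ^ m) y = x ^ m * y := by
  induction m with
  | zero => rw [pow_zero, pow_zero, one_mul]; rfl
  | succ m ih => rw [pow_succ, AlgEquiv.mul_apply, h, map_mul, ih, FF.pow_fix hx, pow_succ]; ring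

theorem FF.isOpen_fix [IsGalois F K] (x : K) : IsOpen {τ : K ≃ₐ[F] K | τ x = x} := by
  have hint : IsIntegral F x := Algebra.IsIntegral.isIntegral _
  have : FiniteDimensional F (IntermediateField.adjoin F {x}) :=
    IntermediateField.adjoin.finiteDimensional hint
  have h1 := IntermediateField.fixingSubgroup_isOpen (IntermediateField.adjoin F {x})
  convert h1 using 1
  ext τ
  simp only [Set.mem_ofPred_eq, SetLike.mem_coe]
  rw [IntermediateField.mem_fixingSubgroup_iff]
  constructor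
  · intro h y hy
    have h3 : IntermediateField.adjoin F {x} ≤
        IntermediateField.fixedField (Subgroup.zpowers τ) := by
      rw [IntermediateField.adjoin_simple_le_iff, IntermediateField.mem_fixedField_iff]
      intro g hg
      obtain ⟨m, rfl⟩ := Subgroup.mem_zpowers_iff.mp hg
      have h5 : τ ∈ MulAction.stabilizer (K ≃ₐ[F] K) x := h
      exact (MulAction.stabilizer (K ≃ₐ[F] K) x).zpow_mem h5 m
    have h4 := h3 hy
    rw [IntermediateField.mem_fixedField_iff] at h4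
    exact h4 _ (Subgroup.mem_zpowers _)
  · intro h
    exact h _ (IntermediateField.mem_adjoin_simple_self F _)

theorem FF.open' [IsGalois F K] [FiniteDimensional F E] (k : ℕ) :
    IsOpen (im (FF.W S 0 k) : Set (K ≃ₐ[F] K)) := by
  have h : (im (FF.W S 0 k) : Set (K ≃ₐ[F] K)) = (E.fixingSubgroup : Set (K ≃ₐ[F] K)) ∩
      ({τ : K ≃ₐ[F] K | τ (S.z (c + k)) = S.z (c + k)} ∩
        ⋂ j : Fin s, {τ : K ≃ₐ[F] K | τ (S.y j k) = S.y j k}) := by
    ext σ
    simp only [SetLike.mem_coe, mem_im, Set.mem_inter_iff, Set.mem_ofPred_eq, Set.mem_iInter]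
    constructor
    · rintro ⟨h1, h2, h3⟩
      exact ⟨h1, h2 (Nat.zero_le _), fun j => h3 j (Nat.zero_le _)⟩
    · rintro ⟨h1, h2, h3⟩
      exact ⟨h1, fun _ => h2, fun j _ => h3 j⟩
  rw [h]
  exact (IntermediateField.fixingSubgroup_isOpen E).inter ((FF.isOpen_fix _).inter
    (isOpen_iInter_of_finite fun j => FF.isOpen_fix _))

theorem FF.iff' (k : ℕ) (σ : E.fixingSubgroup) : σ ∈ FF.W S 0 k ↔
    ∀ y : K, y ^ (p ^ k) ∈ E → (σ : K ≃ₐ[F] K) y = y := by
  have hp : p.Prime := Fact.out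
  constructor
  · rintro ⟨h1, h2⟩ w hw
    by_cases hw0 : w = 0
    · rw [hw0, map_zero]
    have hspan : ∀ x ∈ E, x ≠ 0 → ∃ n : Fin (s + 1) → ℕ, ∃ w ∈ E, w ≠ 0 ∧
        x = (∏ i, (Fin.cons (S.z c) (fun i => S.y i 0) : Fin (s + 1) → K) i ^ n i) * w ^ p := by
      intro x hx hx0
      obtain ⟨e0, e, w, hw, hw0, hxw⟩ := S.span x hx hx0
      refine ⟨Fin.cons e0 e, w, hw, hw0, ?_⟩
      rw [Fin.prod_univ_succ]
      simpa using hxw
    obtain ⟨m, v, hv, hv0, hx⟩ := pbasis_pow hspan k _ hw (pow_ne_zero _ hw0)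
    rw [Fin.prod_univ_succ] at hx
    simp only [Fin.cons_zero, Fin.cons_succ] at hx
    have h3 : w ^ (p ^ k) =
        (S.z (c + k) ^ m 0 * (∏ i : Fin s, S.y i k ^ m i.succ) * v) ^ (p ^ k) := by
      rw [hx, mul_pow, mul_pow, ← Finset.prod_pow, ← pow_mul, mul_comm (m 0), pow_mul,
        FF.z_pow]
      congr 2
      apply Finset.prod_congr rfl
      intro i _
      rw [← pow_mul, mul_comm (m i.succ), pow_mul, FF.y_pow]
    obtain ⟨a, -, ha⟩ := exists_zeta_pow (pow_pos hp.pos k) (S.hz k) h3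
    have hz := h1 (Nat.zero_le _)
    rw [ha, map_mul, map_mul, map_mul, map_pow, map_pow, FF.fix_z S hz, hz, FF.fixE σ hv, map_prod]
    congr 3
    apply Finset.prod_congr rfl
    intro i _
    rw [map_pow, h2 i (Nat.zero_le _)]
  · intro h
    refine ⟨fun _ => h _ ?_, fun j _ => h _ ?_⟩
    · rw [FF.z_pow]; exact S.zE
    · rw [FF.y_pow]; exact S.yE j

end Aux

theorem KS.exists_PZ (Cx : Ctx p F K ζ) [FiniteDimensional F E] (hζE : ζ ∈ E) {s c : ℕ}
    (hc : 2 ≤ c) (S : KS p E s c) (t : Fin s → E.fixingSubgroup)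
    (ht1 : ∀ i k, (t i : K ≃ₐ[F] K) (S.z k) = S.z k)
    (ht2 : ∀ i j k, (t i : K ≃ₐ[F] K) (S.y j k) = if i = j then S.z k * S.y j k else S.y j k)
    (g : E.fixingSubgroup) (hg1 : ∀ j k, (g : K ≃ₐ[F] K) (S.y j k) = S.y j k)
    (hg2 : ∀ k, (g : K ≃ₐ[F] K) (S.z k) = S.z k ^ (1 + p ^ c)) :
    ∃ Z : PZ p E.fixingSubgroup (s + 1), Hyp Z s ∧ Op Z ∧
      ∀ k (σ : E.fixingSubgroup), σ ∈ Z.W 0 k ↔
        ∀ y : K, y ^ (p ^ k) ∈ E → (σ : K ≃ₐ[F] K) y = y := by
  classical
  have hp : p.Prime := Fact.out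
  have hgal := Cx.pc.gal
  -- powers of t i
  have htz : ∀ i k m, ((t i ^ m : E.fixingSubgroup) : K ≃ₐ[F] K) (S.z k) = S.z k := by
    intro i k m
    rw [Subgroup.coe_pow]
    exact FF.pow_fix (ht1 i k) m
  have hty : ∀ i j k m, ((t i ^ m : E.fixingSubgroup) : K ≃ₐ[F] K) (S.y j k) =
      S.z k ^ (if i = j then m else 0) * S.y j k := by
    intro i j k m
    rw [Subgroup.coe_pow]
    have h := ht2 i j k
    by_cases hij : i = j
    · rw [if_pos hij] at h ⊢
      exact FF.pow_act_y (ht1 i k) h m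
    · rw [if_neg hij] at h ⊢
      rw [pow_zero, one_mul]
      exact FF.pow_fix h m
  have hgz : ∀ k m, ((g ^ m : E.fixingSubgroup) : K ≃ₐ[F] K) (S.z k) = S.z k ^ ((1 + p ^ c) ^ m) := by
    intro k m
    rw [Subgroup.coe_pow]
    exact FF.pow_act_z (hg2 k) m
  have hgy : ∀ j k m, ((g ^ m : E.fixingSubgroup) : K ≃ₐ[F] K) (S.y j k) = S.y j k := by
    intro j k m
    rw [Subgroup.coe_pow]
    exact FF.pow_fix (hg1 j k) m
  have hu : 1 + p ^ c ≡ 1 [MOD p ^ c] := by
    have := (Nat.modEq_zero_iff_dvd.2 (dvd_refl (p ^ c))).add_left 1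
    simpa using this
  have hu' : ¬ 1 + p ^ c ≡ 1 [MOD p ^ (c + 1)] := by
    intro h
    have h1 : p ^ c ≡ 0 [MOD p ^ (c + 1)] := Nat.ModEq.add_left_cancel' 1 h
    rw [Nat.modEq_zero_iff_dvd] at h1
    have h2 := Nat.le_of_dvd (pow_pos hp.pos c) h1
    have h3 : p ^ c < p ^ (c + 1) := Nat.pow_lt_pow_right hp.one_lt (Nat.lt_succ_self c)
    omega
  have hc1 : 1 ≤ c := by omega
  have zpow_iff : ∀ k a b : ℕ, S.z k ^ a = S.z k ^ b ↔ a ≡ b [MOD p ^ k] := by
    intro k a b
    have hord : orderOf (S.z k) = p ^ k := (S.hz k).eq_orderOf.symm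
    rw [← hord]
    exact (isOfFinOrder_iff_pow_eq_one.mpr
      ⟨p ^ k, pow_pos hp.pos k, (S.hz k).pow_eq_one⟩).pow_eq_pow_iff_modEq
  -- the generators
  let T : ℕ → E.fixingSubgroup := fun i => if h : i < s then t ⟨i, h⟩ else g
  have hT1 : ∀ i (h : i < s), T i = t ⟨i, h⟩ := fun i h => dif_pos h
  have hT2 : T s = g := dif_neg (lt_irrefl s)
  -- commutation
  have hconj : ∀ k (v : E.fixingSubgroup), ∃ m : ℕ, m % p = 1 ∧
      ∀ i : Fin s, v * t i * v⁻¹ * (t i ^ m)⁻¹ ∈ FF.W S 0 k := by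
    intro k v
    obtain ⟨m, hm⟩ := FF.act_z S (v : K ≃ₐ[F] K) (k + 1)
    have hm1 : m % p = 1 := by
      have h1 : S.z 1 ∈ E := by
        obtain ⟨d, rfl⟩ : ∃ d, c = 1 + d := ⟨c - 1, by omega⟩
        rw [← FF.z_pow S 1 d]
        exact pow_mem S.zE _
      have h2 : (v : K ≃ₐ[F] K) (S.z 1) = S.z 1 ^ m := by
        have h3 : S.z 1 = S.z (k + 1) ^ (p ^ k) := by rw [add_comm, FF.z_pow]
        rw [h3, map_pow, hm, ← pow_mul, ← pow_mul, mul_comm]
      rw [FF.fixE v h1] at h2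
      have h3 : S.z 1 ^ 1 = S.z 1 ^ m := by rw [pow_one]; exact h2
      have h4 := (zpow_iff 1 1 m).1 h3
      rw [pow_one] at h4
      have h5 : 1 % p = m % p := h4
      rw [← h5]
      exact Nat.mod_eq_of_lt hp.one_lt
    refine ⟨m, hm1, fun i => ?_⟩
    have hvz : (v : K ≃ₐ[F] K) (S.z k) = S.z k ^ m := by
      rw [← S.hzz k, map_pow, hm, ← pow_mul, ← pow_mul, mul_comm]
    refine FF.mul_inv_mem S ?_ (htz i _ m) (fun j => if i = j then m else 0) ?_
      (fun j => hty i j k m)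
    · obtain ⟨b, hb⟩ := FF.act_z S ((v⁻¹ : E.fixingSubgroup) : K ≃ₐ[F] K) (c + k)
      rw [Subgroup.coe_mul, Subgroup.coe_mul, AlgEquiv.mul_apply, AlgEquiv.mul_apply, hb, map_pow,
        ht1, ← hb, ← AlgEquiv.mul_apply, ← Subgroup.coe_mul, mul_inv_cancel]
      rfl
    · intro j
      obtain ⟨b, hb⟩ := FF.act_y S (v⁻¹ : E.fixingSubgroup) j k
      have h1 : (v : K ≃ₐ[F] K) (S.z k ^ b * S.y j k) = S.y j k := by
        rw [← hb, ← AlgEquiv.mul_apply, ← Subgroup.coe_mul, mul_inv_cancel]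
        rfl
      have h2 := hty i j k 1
      rw [pow_one] at h2
      rw [Subgroup.coe_mul, Subgroup.coe_mul, AlgEquiv.mul_apply, AlgEquiv.mul_apply, hb, map_mul,
        map_pow, ht1, h2]
      have h3 : S.z k ^ b * (S.z k ^ (if i = j then 1 else 0) * S.y j k) =
          S.z k ^ (if i = j then 1 else 0) * (S.z k ^ b * S.y j k) := by ring
      rw [h3, map_mul, h1, map_pow, hvz]
      congr 1
      by_cases hij : i = j
      · rw [if_pos hij, if_pos hij, pow_one]
      · rw [if_neg hij, if_neg hij, pow_zero, pow_zero]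
  have hle : ∀ i k, FF.W S 0 k ≤ FF.W S i k := by
    intro i k σ hσ
    exact ⟨fun _ => hσ.1 (Nat.zero_le _), fun j _ => hσ.2 j (Nat.zero_le _)⟩
  have hpow : ∀ i < s + 1, ∀ k, T i ^ (p ^ k) ∈ FF.W S 0 k := by
    intro i hi k
    by_cases his : i < s
    · rw [hT1 i his]
      refine ⟨fun _ => htz _ _ _, fun j _ => ?_⟩
      rw [hty]
      by_cases hij : (⟨i, his⟩ : Fin s) = j
      · rw [if_pos hij, (S.hz k).pow_eq_one, one_mul]
      · rw [if_neg hij, pow_zero, one_mul]
    · have : i = s := by omega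
      rw [this, hT2]
      refine ⟨fun _ => ?_, fun j _ => hgy j k _⟩
      rw [hgz]
      have h1 := (unit_order hp hc1 (fun _ => hc) hu hu' (p ^ k) k).2 dvd_rfl
      have h2 := (zpow_iff (c + k) _ 1).2 h1
      rw [h2, pow_one]
  let Z : PZ p E.fixingSubgroup (s + 1) :=
    { W := FF.W S
      t := T
      normal := FF.normal S
      anti := FF.anti S
      mono := by
        rintro i k σ ⟨h1, h2⟩
        exact ⟨fun h => h1 (by omega), fun j hj => h2 j (by omega)⟩
      zero := by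
        intro i
        rw [eq_top_iff]
        intro σ _
        exact ⟨fun _ => FF.fixE σ S.zE, fun j _ => FF.fixE σ (S.yE j)⟩
      top := by
        intro k
        rw [eq_top_iff]
        intro σ _
        refine ⟨fun h => absurd h (by omega), fun j hj => absurd hj ?_⟩
        have := j.2
        omega
      mem := by
        intro i hi k
        by_cases his : i < s
        · rw [hT1 i his]
          refine ⟨fun _ => ht1 _ _, fun j hj => ?_⟩
          rw [ht2, if_neg]
          intro h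
          rw [← h] at hj
          simp only at hj
          omega
        · refine ⟨fun h => absurd h (by omega), fun j hj => absurd hj ?_⟩
          have := j.2
          omega
      gen := by
        intro i hi k v hv
        by_cases his : i < s
        · rw [hT1 i his]
          obtain ⟨h1, h2⟩ := hv
          obtain ⟨m, hm⟩ := FF.act_y S v ⟨i, his⟩ k
          refine ⟨m, fun _ => ?_, fun j hj => ?_⟩
          · rw [Subgroup.coe_mul, AlgEquiv.mul_apply, h1 (by omega), Subgroup.coe_inv]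
            exact FF.inv_fix (htz _ _ _)
          · rw [Subgroup.coe_mul, AlgEquiv.mul_apply]
            have h3 := hty ⟨i, his⟩ j k m
            by_cases hij : (⟨i, his⟩ : Fin s) = j
            · rw [if_pos hij] at h3
              rw [← hij, hm]
              rw [← hij] at h3
              rw [← h3, ← AlgEquiv.mul_apply, ← Subgroup.coe_mul, inv_mul_cancel]
              rfl
            · have hij' : i + 1 ≤ (j : ℕ) := by
                have : i ≠ (j : ℕ) := fun h => hij (Fin.ext h)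
                omega
              rw [if_neg hij, pow_zero, one_mul] at h3
              rw [h2 j hij', Subgroup.coe_inv]
              exact FF.inv_fix h3
        · have his' : i = s := by omega
          subst his'
          rw [hT2]
          obtain ⟨w, hw⟩ := FF.act_z S (v : K ≃ₐ[F] K) (c + k)
          have hw1 : w ≡ 1 [MOD p ^ c] := by
            have h1 : (v : K ≃ₐ[F] K) (S.z c) = S.z c ^ w := by
              rw [← FF.z_pow S c k, map_pow, hw, ← pow_mul, ← pow_mul, mul_comm]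
            rw [FF.fixE v S.zE] at h1
            have h2 : S.z c ^ w = S.z c ^ 1 := by rw [pow_one]; exact h1.symm
            exact (zpow_iff c w 1).1 h2
          obtain ⟨m, hm⟩ := unit_gen hp hc1 (fun _ => hc) hu hu' hw1 k
          refine ⟨m, fun _ => ?_, fun j hj => absurd hj ?_⟩
          · rw [Subgroup.coe_mul, AlgEquiv.mul_apply, hw, ← (zpow_iff (c + k) _ _).2 hm, ← hgz,
              ← AlgEquiv.mul_apply, ← Subgroup.coe_mul, inv_mul_cancel]
            rfl
          · have := j.2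
            omega
      order := by
        intro i hi k m
        by_cases his : i < s
        · rw [hT1 i his]
          constructor
          · rintro ⟨_, h2⟩
            have h3 := h2 ⟨i, his⟩ (le_refl i)
            rw [hty, if_pos rfl] at h3
            have h4 : S.z k ^ m = 1 := by
              apply mul_right_cancel₀ (FF.y_ne S ⟨i, his⟩ k)
              rw [one_mul]
              exact h3
            exact ((S.hz k).pow_eq_one_iff_dvd m).1 h4
          · intro h
            refine ⟨fun _ => htz _ _ _, fun j _ => ?_⟩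
            rw [hty]
            by_cases hij : (⟨i, his⟩ : Fin s) = j
            · rw [if_pos hij, ((S.hz k).pow_eq_one_iff_dvd m).2 h, one_mul]
            · rw [if_neg hij, pow_zero, one_mul]
        · have his' : i = s := by omega
          subst his'
          rw [hT2, ← unit_order hp hc1 (fun _ => hc) hu hu' m k]
          constructor
          · rintro ⟨h1, _⟩
            have h2 := h1 le_rfl
            rw [hgz] at h2
            apply (zpow_iff (c + k) _ 1).1
            rw [pow_one]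
            exact h2
          · intro h
            refine ⟨fun _ => ?_, fun j _ => hgy j k _⟩
            rw [hgz, (zpow_iff (c + k) _ 1).2 h, pow_one]
      conj := by
        intro i hi k v
        by_cases his : i < s
        · rw [hT1 i his]
          obtain ⟨m, hm, h⟩ := hconj k v
          exact ⟨m, hm, hle i k (h ⟨i, his⟩)⟩
        · have his' : i = s := by omega
          subst his'
          rw [hT2]
          refine ⟨1, Nat.mod_eq_of_lt hp.one_lt, fun _ => ?_, fun j hj => absurd hj ?_⟩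
          · rw [pow_one]
            obtain ⟨a, ha⟩ := FF.act_z S ((g⁻¹ : E.fixingSubgroup) : K ≃ₐ[F] K) (c + k)
            obtain ⟨b, hb⟩ := FF.act_z S ((v⁻¹ : E.fixingSubgroup) : K ≃ₐ[F] K) (c + k)
            have hb' : (v : K ≃ₐ[F] K) (S.z (c + k) ^ b) = S.z (c + k) := by
              rw [← hb, ← AlgEquiv.mul_apply, ← Subgroup.coe_mul, mul_inv_cancel]
              rfl
            have ha' : (g : K ≃ₐ[F] K) (S.z (c + k) ^ a) = S.z (c + k) := by
              rw [← ha, ← AlgEquiv.mul_apply, ← Subgroup.coe_mul, mul_inv_cancel]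
              rfl
            rw [map_pow] at ha' hb'
            rw [Subgroup.coe_mul, Subgroup.coe_mul, Subgroup.coe_mul, AlgEquiv.mul_apply,
              AlgEquiv.mul_apply, AlgEquiv.mul_apply, ha, map_pow, hb, map_pow, map_pow, map_pow,
              map_pow, hg2]
            rw [hg2] at ha'
            rw [← pow_mul] at ha'
            rw [map_pow, ← pow_mul, ← pow_mul]
            have e1 : ∀ x : ℕ, x = (1 + p ^ c) * b * a →
                (v : K ≃ₐ[F] K) (S.z (c + k)) ^ x = S.z (c + k) := by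
              intro x hx
              have hx2 : x = b * ((1 + p ^ c) * a) := by
                rw [hx]
                ring
              rw [hx2, pow_mul, hb', ha']
            exact e1 _ (by ring)
          · have := j.2
            omega
      pow := hpow }
  refine ⟨Z, ?_, ?_, ?_⟩
  · intro k v
    obtain ⟨m, hm, h⟩ := hconj k v
    refine ⟨m, hm, fun i hi => ?_⟩
    change v * T i * v⁻¹ * (T i ^ m)⁻¹ ∈ FF.W S 0 k
    rw [hT1 i hi]
    exact h ⟨i, hi⟩
  · intro k
    exact FF.open' S k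
  · intro k σ
    exact FF.iff' S k σ

end Pool.Agent.Helper25.GG
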