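import Pool.Agent.Helper25.GG.DefsF

/-!
# Block FG: fixed fields of open subgroups
-/

set_option autoImplicit false

namespace Pool.Agent.Helper25.GG

open Module Pool.Agent.Helper25.ETC

variable {F K : Type} [Field F] [Field K] [Algebra F K] {p : ℕ} [Fact p.Prime] {n : ℕ} {ζ : K}
  {E : IntermediateField F K}

theorem fx_fin [IsGalois F K] [FiniteDimensional F E] {Z : PZ p E.fixingSubgroup n} (hO : Op Z)
    {k : ℕ} {U : Subgroup E.fixingSubgroup} (hU : Z.W 0 k ≤ U) :
    FiniteDimensional F (fx U) ∧ finrank F (fx U) = finrank F E * U.index ∧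
      (fx U).fixingSubgroup = im U ∧ E ≤ fx U := by
  have hle : im (Z.W 0 k) ≤ im U := Subgroup.map_mono hU
  have hopen : IsOpen (im U : Set (K ≃ₐ[F] K)) := Subgroup.isOpen_mono hle (hO k)
  have hfix : (fx U).fixingSubgroup = im U := fixing_fixed ((im U).isClosed_of_isOpen hopen)
  refine ⟨?_, ?_, hfix, ?_⟩
  · rw [← InfiniteGalois.isOpen_iff_finite, hfix]
    exact hopen
  · rw [IntermediateField.finrank_eq_fixingSubgroup_index, hfix,
      IntermediateField.finrank_eq_fixingSubgroup_index]
    unfold im
    rw [Subgroup.index_map_subtype, mul_comm]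
  · intro x hx
    rw [mem_fx]
    intro w _
    exact (IntermediateField.mem_fixingSubgroup_iff E _).mp w.2 x hx

end Pool.Agent.Helper25.GG
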