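import Pool.Agent.Helper25.GG.FG

/-!
# Block FH: classes fixed by Gal(K/E)
-/

set_option autoImplicit false

namespace Pool.Agent.Helper25.GG

open Module Pool.Agent.Helper25.ETC

variable {F K : Type} [Field F] [Field K] [Algebra F K] {p : ℕ} [Fact p.Prime] {n : ℕ} {ζ : K}
  {E : IntermediateField F K}

/-- the elements fixed by some `W j k`. -/
noncomputable def MFj (Z : PZ p E.fixingSubgroup n) (j : ℕ) : IntermediateField F K where
  carrier := {x | ∃ k, ∀ w ∈ Z.W j k, (w : K ≃ₐ[F] K) x = x}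
  mul_mem' := by
    rintro x y ⟨k, hk⟩ ⟨l, hl⟩
    refine ⟨max k l, fun w hw => ?_⟩
    have hanti : Antitone (Z.W j) := antitone_nat_of_succ_le (Z.anti j)
    rw [map_mul, hk w (hanti (le_max_left _ _) hw), hl w (hanti (le_max_right _ _) hw)]
  add_mem' := by
    rintro x y ⟨k, hk⟩ ⟨l, hl⟩
    refine ⟨max k l, fun w hw => ?_⟩
    have hanti : Antitone (Z.W j) := antitone_nat_of_succ_le (Z.anti j)
    rw [map_add, hk w (hanti (le_max_left _ _) hw), hl w (hanti (le_max_right _ _) hw)]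
  algebraMap_mem' := fun r => ⟨0, fun w _ => (w : K ≃ₐ[F] K).commutes r⟩
  inv_mem' := by
    rintro x ⟨k, hk⟩
    exact ⟨k, fun w hw => by rw [map_inv₀, hk w hw]⟩

omit [Fact p.Prime] in
theorem mem_MFj {Z : PZ p E.fixingSubgroup n} {j : ℕ} {x : K} :
    x ∈ MFj Z j ↔ ∃ k, ∀ w ∈ Z.W j k, (w : K ≃ₐ[F] K) x = x := Iff.rfl

omit [Fact p.Prime] in
theorem MFj_stab (Z : PZ p E.fixingSubgroup n) (j : ℕ) (v : E.fixingSubgroup) {x : K}
    (hx : x ∈ MFj Z j) : (v : K ≃ₐ[F] K) x ∈ MFj Z j := by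
  obtain ⟨k, hk⟩ := mem_MFj.1 hx
  refine mem_MFj.2 ⟨k, fun w hw => ?_⟩
  have h2 : v⁻¹ * w * v ∈ Z.W j k := by
    have := (Z.normal j k).conj_mem w hw v⁻¹
    rwa [inv_inv] at this
  have h3 := hk _ h2
  calc (w : K ≃ₐ[F] K) ((v : K ≃ₐ[F] K) x) = ((w * v : E.fixingSubgroup) : K ≃ₐ[F] K) x := rfl
    _ = ((v * (v⁻¹ * w * v) : E.fixingSubgroup) : K ≃ₐ[F] K) x := by
        rw [show v * (v⁻¹ * w * v) = w * v by group]
    _ = (v : K ≃ₐ[F] K) (((v⁻¹ * w * v : E.fixingSubgroup) : K ≃ₐ[F] K) x) := rfl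
    _ = (v : K ≃ₐ[F] K) x := by rw [h3]

omit [Fact p.Prime] in
theorem coe_pow_fix {v : E.fixingSubgroup} {x : K} (h : (v : K ≃ₐ[F] K) x = x) (m : ℕ) :
    ((v ^ m : E.fixingSubgroup) : K ≃ₐ[F] K) x = x := by
  induction m with
  | zero => rfl
  | succ m ih =>
    rw [pow_succ]
    change ((v ^ m : E.fixingSubgroup) : K ≃ₐ[F] K) ((v : K ≃ₐ[F] K) x) = x
    rw [h, ih]

omit [Fact p.Prime] in
theorem MFj_succ (Z : PZ p E.fixingSubgroup n) {j : ℕ} (hj : j < n) (x : K) :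
    x ∈ MFj Z (j + 1) ↔ x ∈ MFj Z j ∧ (Z.t j : K ≃ₐ[F] K) x = x := by
  rw [mem_MFj, mem_MFj]
  constructor
  · rintro ⟨k, hk⟩
    exact ⟨⟨k, fun w hw => hk w (Z.mono j k hw)⟩, hk _ (Z.mem j hj k)⟩
  · rintro ⟨⟨k, hk⟩, h⟩
    refine ⟨k, fun w hw => ?_⟩
    obtain ⟨m, hm⟩ := Z.gen j hj k w hw
    have h1 := hk _ hm
    calc (w : K ≃ₐ[F] K) x
        = ((Z.t j ^ m * ((Z.t j ^ m)⁻¹ * w) : E.fixingSubgroup) : K ≃ₐ[F] K) x := by
          rw [mul_inv_cancel_left]
      _ = ((Z.t j ^ m : E.fixingSubgroup) : K ≃ₐ[F] K)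
            ((((Z.t j ^ m)⁻¹ * w : E.fixingSubgroup) : K ≃ₐ[F] K) x) := rfl
      _ = x := by rw [h1, coe_pow_fix h]

omit [Fact p.Prime] in
theorem MFj_last [IsGalois F K] (Z : PZ p E.fixingSubgroup n) : MFj Z n = E := by
  ext x
  rw [mem_MFj]
  constructor
  · rintro ⟨k, hk⟩
    rw [← InfiniteGalois.fixedField_fixingSubgroup E, IntermediateField.mem_fixedField_iff]
    intro g hg
    exact hk ⟨g, hg⟩ (by rw [Z.top]; exact Subgroup.mem_top _)
  · intro hx
    exact ⟨0, fun w _ => (IntermediateField.mem_fixingSubgroup_iff E _).mp w.2 x hx⟩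

theorem dim_bound0 (Cx : Ctx p F K ζ) [FiniteDimensional F E] (hζE : ζ ∈ E)
    (Z : PZ p E.fixingSubgroup n) (hO : Op Z) {M : IntermediateField F K} (hM : IsM Z M)
    (hst : ∀ (g : K ≃ₐ[F] K), ∀ x ∈ M, g x ∈ M) {m : ℕ} (hm : Nat.card (PC p E) = p ^ m) :
    FiniteDimensional (ZMod p) (fix (repE p E M hst) ⊤) ∧
      finrank (ZMod p) (fix (repE p E M hst) ⊤) ≤ m + n * n := by
  classical
  have := Cx.pc.gal
  have hp := Cx.hp
  let s : Fin n → (K ≃ₐ[F] K) := fun i => (Z.t i : K ≃ₐ[F] K)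
  have hstab : ∀ j (i : Fin n), ∀ x ∈ MFj Z j, s i x ∈ MFj Z j :=
    fun j i x hx => MFj_stab Z j (Z.t i) hx
  have hζL : ∀ j, ζ ∈ MFj Z j := fun j => mem_MFj.2 ⟨0, fun w _ =>
    (IntermediateField.mem_fixingSubgroup_iff E _).mp w.2 ζ hζE⟩
  have hMn : MFj Z n = E := MFj_last Z
  have key : ∀ q, q ≤ n → FiniteDimensional (ZMod p)
      (InvV p s (MFj Z (n - q)) (hstab (n - q))) ∧
      finrank (ZMod p) (InvV p s (MFj Z (n - q)) (hstab (n - q))) ≤ m + q * n := by
    intro q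
    induction q with
    | zero =>
      intro _
      rw [Nat.sub_zero]
      have h1 : Nat.card (VV p (MFj Z n)) = p ^ m := by
        rw [hMn, ← hm]; rfl
      have hfin : Finite (VV p (MFj Z n)) :=
        Nat.finite_of_card_ne_zero (by rw [h1]; exact pow_ne_zero _ hp.ne_zero)
      have hfd : FiniteDimensional (ZMod p) (VV p (MFj Z n)) := Module.Finite.of_finite
      have h2 : Nat.card (VV p (MFj Z n)) =
          Nat.card (ZMod p) ^ finrank (ZMod p) (VV p (MFj Z n)) := Module.natCard_eq_pow_finrank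
      rw [h1, Nat.card_zmod] at h2
      have h3 : m = finrank (ZMod p) (VV p (MFj Z n)) := Nat.pow_right_injective hp.two_le h2
      refine ⟨inferInstance, ?_⟩
      refine (Submodule.finrank_le _).trans ?_
      omega
    | succ q ih =>
      intro hn
      obtain ⟨ih1, ih2⟩ := ih (by omega)
      have hj : n - q = (n - (q + 1)) + 1 := by omega
      set j := n - (q + 1) with hjdef
      have hjd : j < n := by omega
      have hM0 : ∀ x, x ∈ MFj Z (n - q) ↔ x ∈ MFj Z j ∧ s ⟨j, hjd⟩ x = x := by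
        intro x
        rw [hj]
        exact MFj_succ Z hjd x
      have hord : ∀ x ∈ MFj Z j, ∃ b : ℕ, (s ⟨j, hjd⟩ ^ (p ^ b)) x = x := by
        intro x hx
        obtain ⟨k, hk⟩ := mem_MFj.1 hx
        refine ⟨k, ?_⟩
        have h1 := hk (Z.t j ^ (p ^ k)) ((Z.order j hjd k (p ^ k)).2 dvd_rfl)
        rw [Subgroup.coe_pow] at h1
        exact h1
      have hind : ∀ b : ℕ, ∃ w ∈ MFj Z j, (s ⟨j, hjd⟩ ^ (p ^ (b + 1))) w = w ∧
          (s ⟨j, hjd⟩ ^ (p ^ b)) w ≠ w := by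
        intro b
        have hle : Z.W 0 (b + 1) ≤ Z.W j (b + 1) :=
          monotone_nat_of_le_succ (f := fun i => Z.W i (b + 1)) (fun i => Z.mono i (b + 1))
            (Nat.zero_le j)
        obtain ⟨-, -, hfix, -⟩ := fx_fin hO hle
        have hnot : Z.t j ^ (p ^ b) ∉ Z.W j (b + 1) := by
          intro h
          have h1 := (Z.order j hjd (b + 1) (p ^ b)).1 h
          have h2 := (Nat.pow_dvd_pow_iff_le_right hp.one_lt).1 h1
          omega
        by_contra hcon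
        apply hnot
        have h3 : ((Z.t j ^ (p ^ b) : E.fixingSubgroup) : K ≃ₐ[F] K) ∈
            (fx (Z.W j (b + 1))).fixingSubgroup := by
          rw [IntermediateField.mem_fixingSubgroup_iff]
          intro w hw
          by_contra hne
          apply hcon
          have hw' := mem_fx.1 hw
          refine ⟨w, mem_MFj.2 ⟨b + 1, hw'⟩, ?_, ?_⟩
          · have h4 := hw' (Z.t j ^ (p ^ (b + 1)))
              ((Z.order j hjd (b + 1) (p ^ (b + 1))).2 dvd_rfl)
            rw [Subgroup.coe_pow] at h4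
            exact h4
          · rw [Subgroup.coe_pow] at hne
            exact hne
        rw [hfix] at h3
        obtain ⟨h5, h6⟩ := mem_im.1 h3
        exact h6
      have h5 := invV_step Cx (M1 := MFj Z j) (M0 := MFj Z (n - q)) (τ := s) ⟨j, hjd⟩
        (hζL _) hM0 (hstab j) (hstab (n - q)) hord hind ih1
      rw [Nat.card_eq_fintype_card, Fintype.card_fin] at h5
      refine ⟨h5.1, h5.2.trans ?_⟩
      rw [Nat.add_mul, one_mul, ← add_assoc]
      exact Nat.add_le_add_right ih2 n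
  have h6 := key n le_rfl
  have hMM : MFj Z (n - n) = M := by
    rw [Nat.sub_self]
    ext x
    exact (hM x).symm
  have h7 := invV_congr hMM (hstab (n - n)) (fun i => hst (s i)) h6
  have hle : fix (repE p E M hst) ⊤ ≤ InvV p s M (fun i => hst (s i)) := by
    intro u hu
    rw [mem_InvV]
    intro i
    exact hu (Z.t i) (Subgroup.mem_top _)
  obtain ⟨h8, h9⟩ := h7
  exact ⟨Submodule.finiteDimensional_of_le hle, (Submodule.finrank_mono hle).trans h9⟩

end Pool.Agent.Helper25.GG
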