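import Pool.Agent.Helper25.GG.DefsF

/-!
# Block FI: classes of a subfield
-/

set_option autoImplicit false

namespace Pool.Agent.Helper25.GG

open Module Pool.Agent.Helper25.ETC

variable {F K : Type} [Field F] [Field K] [Algebra F K] {p : ℕ} [Fact p.Prime] {n : ℕ} {ζ : K}
  {E : IntermediateField F K}

theorem card_le (Cx : Ctx p F K ζ) {M L : IntermediateField F K} (hle : L ≤ M) {ι : Type}
    [Fintype ι] (τ : ι → (K ≃ₐ[F] K)) (hτL : ∀ i, ∀ x ∈ L, τ i x = x)
    (hLτ : ∀ x ∈ M, (∀ i, τ i x = x) → x ∈ L) {m : ℕ} (hm : Nat.card (PC p L) = p ^ m)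
    (S : Submodule (ZMod p) (VV p M)) (hfin : FiniteDimensional (ZMod p) S)
    (hS : ∀ (x : K) (hx : x ∈ M) (hx0 : x ≠ 0), x ∈ L → mkc p M (mku x hx hx0) ∈ S) :
    m ≤ finrank (ZMod p) S + Fintype.card ι := by
  classical
  have hp := Cx.hp
  have hζ := Cx.hζ
  have hfinV : Finite (VV p L) := by
    have h : Nat.card (VV p L) ≠ 0 := by
      change Nat.card (PC p L) ≠ 0
      rw [hm]
      exact pow_ne_zero _ hp.ne_zero
    exact Nat.finite_of_card_ne_zero h
  have fL : FiniteDimensional (ZMod p) (VV p L) := Module.Finite.of_finite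
  have hcm : finrank (ZMod p) (VV p L) = m := by
    have h2 : Nat.card (VV p L) = Nat.card (ZMod p) ^ finrank (ZMod p) (VV p L) :=
      Module.natCard_eq_pow_finrank
    have h3 : Nat.card (VV p L) = p ^ m := hm
    rw [h3, Nat.card_zmod] at h2
    exact (Nat.pow_right_injective hp.two_le h2).symm
  set inc := incV p hle with hinc
  have hrange : LinearMap.range inc ≤ S := by
    rintro _ ⟨u, rfl⟩
    obtain ⟨x, hx, hx0, rfl⟩ := mkc_mku_surj u
    rw [hinc, incV_mkc]
    exact hS x (hle hx) hx0 hx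
  have hker : ∀ u : LinearMap.ker inc, ∃ (y : K) (c : ι → Fin p), y ∈ M ∧ y ≠ 0 ∧
      (∃ (x : K) (hx : x ∈ L) (hx0 : x ≠ 0), y ^ p = x ∧ mkc p L (mku x hx hx0) = u) ∧
      ∀ i, τ i y = ζ ^ (c i : ℕ) * y := by
    intro u
    obtain ⟨x, hx, hx0, hu⟩ := mkc_mku_surj (u : VV p L)
    have h1 : inc (u : VV p L) = 0 := LinearMap.mem_ker.mp u.2
    rw [← hu, hinc, incV_mkc, mkc_eq_zero] at h1
    obtain ⟨-, y, hy, hyp⟩ := h1
    rw [mku_val] at hyp
    have h2 : ∀ i, ∃ j < p, τ i y = ζ ^ j * y := by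
      intro i
      apply exists_zeta_pow hp.pos hζ
      rw [← map_pow, hyp]
      exact hτL i x hx
    choose c hc hc2 using h2
    exact ⟨y, fun i => ⟨c i, hc i⟩, hy, pow_ne_zero_of hp.ne_zero (by rw [hyp]; exact hx0),
      ⟨x, hx, hx0, hyp, hu⟩, hc2⟩
  choose y c hyM hy0 hyx hyc using hker
  have hcinj : Function.Injective c := by
    intro u v huv
    obtain ⟨x, hx, hx0, hyx1, hu⟩ := hyx u
    obtain ⟨x', hx', hx0', hyx2, hv⟩ := hyx v
    apply Subtype.ext
    rw [← hu, ← hv, mkc_mku_eq_iff hp.ne_zero]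
    refine ⟨y u / y v, ?_, div_ne_zero (hy0 u) (hy0 v), ?_⟩
    · apply hLτ _ (M.div_mem (hyM u) (hyM v))
      intro i
      rw [map_div₀, hyc u i, hyc v i, huv]
      have : ζ ^ (c v i : ℕ) ≠ 0 := pow_ne_zero _ (hζ.ne_zero hp.ne_zero)
      rw [mul_div_mul_left _ _ this]
    · rw [div_pow, hyx1, hyx2]
      field_simp
  have hkc : Nat.card (LinearMap.ker inc) ≤ p ^ Fintype.card ι := by
    refine (Nat.card_le_card_of_injective c hcinj).trans ?_
    rw [Nat.card_eq_fintype_card, Fintype.card_fun, Fintype.card_fin]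
  have hkf : finrank (ZMod p) (LinearMap.ker inc) ≤ Fintype.card ι := by
    have h2 : Nat.card (LinearMap.ker inc) =
      Nat.card (ZMod p) ^ finrank (ZMod p) (LinearMap.ker inc) := Module.natCard_eq_pow_finrank
    rw [h2, Nat.card_zmod] at hkc
    exact (Nat.pow_le_pow_iff_right hp.one_lt).mp hkc
  have h1 := LinearMap.finrank_range_add_finrank_ker inc
  have h2 := Submodule.finrank_mono hrange
  rw [hcm] at h1
  omega

end Pool.Agent.Helper25.GG
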