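import Pool.Agent.Helper25.GG.Defs

/-!
# Block Sub: the structure on the subgroup W 0 k
-/

set_option autoImplicit false

namespace Pool.Agent.Helper25.GG

variable {p : ℕ} [Fact p.Prime] {V : Type} [Group V] {n : ℕ}

omit [Fact p.Prime] in
theorem sub_anti_le (Z : PZ p V n) (i : ℕ) {a b : ℕ} (h : a ≤ b) : Z.W i b ≤ Z.W i a :=
  antitone_nat_of_succ_le (Z.anti i) h

omit [Fact p.Prime] in
theorem sub_mono_zero (Z : PZ p V n) (i k : ℕ) : Z.W 0 k ≤ Z.W i k :=
  monotone_nat_of_le_succ (fun i => Z.mono i k) (Nat.zero_le i)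

theorem exists_sub (Z : PZ p V n) (k : ℕ) {U : Type} [Group U] (j : U →* V)
    (hj : Function.Injective j) (hr : ∀ v, v ∈ Z.W 0 k ↔ ∃ u, j u = v) :
    ∃ Z' : PZ p U n, (∀ i m u, u ∈ Z'.W i m ↔ j u ∈ Z.W i (m + k)) ∧
      ∀ i < n, j (Z'.t i) = Z.t i ^ (p ^ k) := by
  classical
  have hp0 : 0 < p ^ k := pow_pos (Fact.out : p.Prime).pos k
  have ht : ∀ i, ∃ u, i < n → j u = Z.t i ^ (p ^ k) := by
    intro i
    by_cases hi : i < n
    · obtain ⟨u, hu⟩ := (hr _).1 (Z.pow i hi k)
      exact ⟨u, fun _ => hu⟩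
    · exact ⟨1, fun h => absurd h hi⟩
  choose t' ht' using ht
  refine ⟨{ W := fun i m => (Z.W i (m + k)).comap j
            t := t'
            normal := fun i m => (Z.normal i (m + k)).comap j
            anti := fun i m => Subgroup.comap_mono (sub_anti_le Z i (by omega))
            mono := fun i m => Subgroup.comap_mono (Z.mono i (m + k))
            zero := ?_
            top := ?_
            mem := ?_
            gen := ?_
            order := ?_
            conj := ?_
            pow := ?_ }, fun i m u => Subgroup.mem_comap, ht'⟩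
  · intro i
    rw [eq_top_iff]
    intro u _
    rw [Subgroup.mem_comap, Nat.zero_add]
    exact sub_mono_zero Z i k ((hr _).2 ⟨u, rfl⟩)
  · intro m
    rw [Z.top, Subgroup.comap_top]
  · intro i hi m
    rw [Subgroup.mem_comap, ht' i hi]
    exact Subgroup.pow_mem _ (Z.mem i hi _) _
  · intro i hi m u hu
    rw [Subgroup.mem_comap] at hu
    obtain ⟨a, ha⟩ := Z.gen i hi _ _ hu
    have h1 : Z.t i ^ a ∈ Z.W i k := by
      have h2 := sub_anti_le Z i (show k ≤ m + k by omega) ha
      have h3 := sub_mono_zero Z i k ((hr _).2 ⟨u, rfl⟩)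
      have h4 := (Z.W i k).mul_mem h3 ((Z.W i k).inv_mem h2)
      simpa using h4
    obtain ⟨b, rfl⟩ := (Z.order i hi k a).1 h1
    refine ⟨b, ?_⟩
    rw [Subgroup.mem_comap, map_mul, map_inv, map_pow, ht' i hi, ← pow_mul]
    exact ha
  · intro i hi m l
    rw [Subgroup.mem_comap, map_pow, ht' i hi, ← pow_mul, Z.order i hi, pow_add, mul_comm (p ^ m)]
    exact Nat.mul_dvd_mul_iff_left hp0
  · intro i hi m u
    obtain ⟨a, ha, hc⟩ := Z.conj i hi (m + k) (j u)
    refine ⟨a, ha, ?_⟩
    have := Z.normal i (m + k)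
    rw [Subgroup.mem_comap, map_mul, map_mul, map_mul, map_inv, map_inv, map_pow, ht' i hi]
    rw [← QuotientGroup.eq_one_iff] at hc ⊢
    simp only [QuotientGroup.mk_mul, QuotientGroup.mk_inv, QuotientGroup.mk_pow] at hc ⊢
    rw [mul_inv_eq_one] at hc ⊢
    rw [← conj_pow, hc, ← pow_mul, ← pow_mul, mul_comm]
  · intro i hi m
    rw [Subgroup.mem_comap, map_pow, ht' i hi, ← pow_mul, ← pow_add, Nat.add_comm k m]
    exact Z.pow i hi (m + k)

end Pool.Agent.Helper25.GG
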