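import Pool.Agent.Helper25.GG.FH
import Pool.Agent.Helper25.GG.FI
import Pool.Agent.Helper25.GG.Sub

/-!
# Block FJ: classes fixed by W 0 k
-/

set_option autoImplicit false

namespace Pool.Agent.Helper25.GG

open Module Pool.Agent.Helper25.ETC

variable {F K : Type} [Field F] [Field K] [Algebra F K] {p : ℕ} [Fact p.Prime] {n : ℕ} {ζ : K}
  {E : IntermediateField F K}

theorem fj_anti (Z : PZ p E.fixingSubgroup n) (i : ℕ) {a b : ℕ} (h : a ≤ b) :
    Z.W i b ≤ Z.W i a := antitone_nat_of_succ_le (Z.anti i) h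

theorem fj_zero_le (Z : PZ p E.fixingSubgroup n) (i k : ℕ) : Z.W 0 k ≤ Z.W i k :=
  monotone_nat_of_le_succ (fun i => Z.mono i k) (Nat.zero_le i)

theorem fj_mem_fix_iff (L M : IntermediateField F K)
    (hst : ∀ (g : K ≃ₐ[F] K), ∀ x ∈ M, g x ∈ M) (U : Subgroup L.fixingSubgroup) (u : VV p M) :
    u ∈ fix (repE p L M hst) U ↔ ∀ g ∈ im U, rep p M hst g u = u := by
  rw [mem_fix]
  constructor
  · intro h g hg
    obtain ⟨h1, h2⟩ := mem_im.mp hg
    exact h ⟨g, h1⟩ h2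
  · intro h w hw
    exact h w (mem_im.mpr ⟨w.2, hw⟩)

theorem fj_fix_eq {E L : IntermediateField F K} (M : IntermediateField F K)
    (hst : ∀ (g : K ≃ₐ[F] K), ∀ x ∈ M, g x ∈ M) (U : Subgroup L.fixingSubgroup)
    (U' : Subgroup E.fixingSubgroup) (h : im U = im U') :
    fix (repE p L M hst) U = fix (repE p E M hst) U' := by
  ext u
  rw [fj_mem_fix_iff, fj_mem_fix_iff, h]

theorem fj_im_top (L : IntermediateField F K) : im (⊤ : Subgroup L.fixingSubgroup) =
    L.fixingSubgroup := by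
  ext σ
  rw [mem_im]
  constructor
  · rintro ⟨h, -⟩; exact h
  · intro h; exact ⟨h, Subgroup.mem_top _⟩

theorem fix_le (Cx : Ctx p F K ζ) [FiniteDimensional F E] (hζE : ζ ∈ E)
    (Z : PZ p E.fixingSubgroup n) (hO : Op Z) {M : IntermediateField F K} (hM : IsM Z M)
    (hst : ∀ (g : K ≃ₐ[F] K), ∀ x ∈ M, g x ∈ M) (k : ℕ) {m : ℕ}
    (hm : Nat.card (PC p (fx (Z.W 0 k))) = p ^ m) :
    FiniteDimensional (ZMod p) (fix (repE p E M hst) (Z.W 0 k)) ∧
      finrank (ZMod p) (fix (repE p E M hst) (Z.W 0 k)) ≤ m + n * n := by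
  have : IsGalois F K := Cx.pc.gal
  obtain ⟨hfd, -, hfix, hEL⟩ := fx_fin hO (k := k) (U := Z.W 0 k) le_rfl
  set L := fx (Z.W 0 k) with hL
  have hle : L.fixingSubgroup ≤ E.fixingSubgroup := IntermediateField.fixingSubgroup_le hEL
  have hjv : ∀ u : L.fixingSubgroup,
      ((Subgroup.inclusion hle u : E.fixingSubgroup) : K ≃ₐ[F] K) = u := fun u => rfl
  have hmemL : ∀ v : E.fixingSubgroup, v ∈ Z.W 0 k ↔ (v : K ≃ₐ[F] K) ∈ L.fixingSubgroup := by
    intro v
    rw [hfix, mem_im]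
    constructor
    · intro h; exact ⟨v.2, h⟩
    · rintro ⟨h1, h2⟩; exact h2
  obtain ⟨Z', hZ', -⟩ := exists_sub Z k (Subgroup.inclusion hle) (Subgroup.inclusion_injective hle)
    (by
      intro v
      rw [hmemL]
      constructor
      · intro h; exact ⟨⟨v, h⟩, rfl⟩
      · rintro ⟨u, rfl⟩; exact u.2)
  have him : ∀ m, im (Z'.W 0 m) = im (Z.W 0 (m + k)) := by
    intro m
    ext σ
    rw [mem_im, mem_im]
    constructor
    · rintro ⟨h1, h2⟩
      exact ⟨hle h1, (hZ' 0 m _).mp h2⟩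
    · rintro ⟨h1, h2⟩
      have h3 : σ ∈ L.fixingSubgroup :=
        (hmemL ⟨σ, h1⟩).mp (fj_anti Z 0 (Nat.le_add_left k m) h2)
      exact ⟨h3, (hZ' 0 m ⟨σ, h3⟩).mpr h2⟩
  have hO' : Op Z' := by
    intro m
    rw [him]
    exact hO _
  have hM' : IsM Z' M := by
    intro x
    rw [hM]
    constructor
    · rintro ⟨k', hk'⟩
      refine ⟨k', fun w hw => ?_⟩
      have h1 : (w : K ≃ₐ[F] K) ∈ im (Z.W 0 (k' + k)) := by
        rw [← him]
        exact mem_im.mpr ⟨w.2, hw⟩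
      obtain ⟨h2, h3⟩ := mem_im.mp h1
      exact hk' ⟨w, h2⟩ (fj_anti Z 0 (Nat.le_add_right k' k) h3)
    · rintro ⟨m, hm⟩
      refine ⟨m + k, fun w hw => ?_⟩
      have h1 : (w : K ≃ₐ[F] K) ∈ im (Z'.W 0 m) := by
        rw [him]
        exact mem_im.mpr ⟨w.2, hw⟩
      obtain ⟨h2, h3⟩ := mem_im.mp h1
      exact hm ⟨w, h2⟩ h3
  have key := dim_bound0 (E := L) Cx (hEL hζE) Z' hO' hM' hst hm
  have hfx : fix (repE p L M hst) ⊤ = fix (repE p E M hst) (Z.W 0 k) := by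
    apply fj_fix_eq
    rw [fj_im_top, hfix]
  rw [hfx] at key
  exact key

/-- `x ∈ M` fixed by the `t i ^ (p ^ k)` is fixed by `W 0 k`. -/
theorem mem_fx_of_t {Z : PZ p E.fixingSubgroup n} {M : IntermediateField F K} (hM : IsM Z M)
    (k : ℕ) {x : K} (hx : x ∈ M)
    (h : ∀ i < n, ((Z.t i ^ (p ^ k) : E.fixingSubgroup) : K ≃ₐ[F] K) x = x) :
    x ∈ fx (Z.W 0 k) := by
  obtain ⟨m', hm'⟩ := (hM x).mp hx
  set m := max m' k with hmdef
  have h0 : ∀ w ∈ Z.W 0 m, (w : K ≃ₐ[F] K) x = x := fun w hw =>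
    hm' w (fj_anti Z 0 (le_max_left _ _) hw)
  have key : ∀ i ≤ n, ∀ v ∈ Z.W i m, v ∈ Z.W 0 k → (v : K ≃ₐ[F] K) x = x := by
    intro i
    induction i with
    | zero => intro _ v hv _; exact h0 v hv
    | succ i ih =>
      intro hi v hv hvk
      obtain ⟨a, ha⟩ := Z.gen i hi m v hv
      have h1 : Z.t i ^ a ∈ Z.W i k := by
        have h2 := fj_anti Z i (le_max_right m' k) ha
        have h3 := fj_zero_le Z i k hvk
        have h4 := (Z.W i k).mul_mem h3 ((Z.W i k).inv_mem h2)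
        simpa using h4
      obtain ⟨b, rfl⟩ := (Z.order i hi k a).mp h1
      have h5 : Z.t i ^ (p ^ k * b) ∈ Z.W 0 k := by
        rw [pow_mul]
        exact Subgroup.pow_mem _ (Z.pow i hi k) b
      have h6 : ((Z.t i ^ (p ^ k * b) : E.fixingSubgroup) : K ≃ₐ[F] K) x = x := by
        have h7 : ∀ b : ℕ, ((Z.t i ^ (p ^ k * b) : E.fixingSubgroup) : K ≃ₐ[F] K) x = x := by
          intro b
          induction b with
          | zero => simp
          | succ b ihb =>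
            rw [Nat.mul_succ, pow_add, Subgroup.coe_mul, AlgEquiv.mul_apply, h i hi, ihb]
        exact h7 b
      have h8 : (((Z.t i ^ (p ^ k * b))⁻¹ * v : E.fixingSubgroup) : K ≃ₐ[F] K) x = x := by
        apply ih (by omega) _ ha
        exact (Z.W 0 k).mul_mem ((Z.W 0 k).inv_mem h5) hvk
      have h9 : v = Z.t i ^ (p ^ k * b) * ((Z.t i ^ (p ^ k * b))⁻¹ * v) := by group
      rw [h9, Subgroup.coe_mul, AlgEquiv.mul_apply, h8, h6]
  rw [mem_fx]
  intro v hv
  exact key n le_rfl v (by rw [Z.top]; exact Subgroup.mem_top _) hv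

theorem le_fix (Cx : Ctx p F K ζ) [FiniteDimensional F E] (hζE : ζ ∈ E)
    (Z : PZ p E.fixingSubgroup n) (hO : Op Z) {M : IntermediateField F K} (hM : IsM Z M)
    (hst : ∀ (g : K ≃ₐ[F] K), ∀ x ∈ M, g x ∈ M) (k : ℕ) {m : ℕ}
    (hm : Nat.card (PC p (fx (Z.W 0 k))) = p ^ m)
    (hfin : FiniteDimensional (ZMod p) (fix (repE p E M hst) (Z.W 0 k))) :
    m ≤ finrank (ZMod p) (fix (repE p E M hst) (Z.W 0 k)) + n := by
  have hle : fx (Z.W 0 k) ≤ M := by
    intro x hx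
    rw [mem_fx] at hx
    exact (hM x).mpr ⟨k, hx⟩
  have key := card_le Cx hle (ι := Fin n)
    (fun i => ((Z.t i ^ (p ^ k) : E.fixingSubgroup) : K ≃ₐ[F] K))
    (by
      intro i x hx
      exact mem_fx.mp hx _ (Z.pow i i.2 k))
    (by
      intro x hx h
      exact mem_fx_of_t hM k hx (fun i hi => h ⟨i, hi⟩))
    hm (fix (repE p E M hst) (Z.W 0 k)) hfin
    (by
      intro x hx hx0 hxL
      rw [mem_fix]
      intro w hw
      change rep p M hst (w : K ≃ₐ[F] K) _ = _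
      rw [rep_apply]
      exact mkc_congr _ _ (mem_fx.mp hxL w hw) _ _)
  rwa [Fintype.card_fin] at key

end Pool.Agent.Helper25.GG
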