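import Pool.Agent.Helper25.GG.FG
import Pool.Agent.Helper25.GG.FJ
import Pool.Agent.Helper25.GG.A1b
import Pool.Agent.Helper25.ETCRgK

/-!
# Block FK: special elements give a valuation
-/

set_option autoImplicit false

namespace Pool.Agent.Helper25.GG

open Module Pool.Agent.Helper25.ETC

variable {F K : Type} [Field F] [Field K] [Algebra F K] {p : ℕ} [Fact p.Prime] {n : ℕ} {ζ : K}
  {E : IntermediateField F K}

theorem concl_of_special2 (Cx : Ctx p F K ζ) [FiniteDimensional F E] (hζE : ζ ∈ E)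
    (hneg : (-1 : K) ∈ TT p E) (Z : PZ p E.fixingSubgroup n) (hO : Op Z)
    {M : IntermediateField F K} (hM : IsM Z M) (hst : ∀ (g : K ≃ₐ[F] K), ∀ x ∈ M, g x ∈ M)
    {m : ℕ} (hm : Nat.card (PC p E) = p ^ m) (hm2 : 2 ≤ m) {s : ℕ}
    (d : Fin s → E.fixingSubgroup)
    (hd : ∀ k, ∃ w ∈ Z.W 0 k,
      w ∉ Subgroup.closure (Set.range d ∪ (Z.W 0 (k + 1) : Set E.fixingSubgroup)))
    (hfin : FiniteDimensional (ZMod p) (fix (repE p E M hst) (Subgroup.closure (Set.range d)))) :
    Concl F K := by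
  classical
  have := Cx.pc.gal
  have hp := Cx.hp
  let D : ℕ → Subgroup E.fixingSubgroup := fun k =>
    Subgroup.closure (Set.range d ∪ (Z.W 0 k : Set E.fixingSubgroup))
  have hWD : ∀ k, Z.W 0 k ≤ D k := fun k w hw => Subgroup.subset_closure (Or.inr hw)
  have hdD : ∀ k i, d i ∈ D k := fun k i => Subgroup.subset_closure (Or.inl ⟨i, rfl⟩)
  have hanti : ∀ k, D (k + 1) ≤ D k := by
    intro k
    rw [Subgroup.closure_le]
    rintro w (hw | hw)
    · exact Subgroup.subset_closure (Or.inl hw)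
    · exact Subgroup.subset_closure (Or.inr (Z.anti 0 k hw))
  have hlt : ∀ k, D (k + 1) < D k := by
    intro k
    refine lt_of_le_of_ne (hanti k) (fun h => ?_)
    obtain ⟨w, hw, hw'⟩ := hd k
    apply hw'
    have h2 : w ∈ D k := hWD k hw
    rw [← h] at h2
    exact h2
  -- the indices are powers of `p`
  have hidx : ∀ k, ∃ a, k ≤ a ∧ (D k).index = p ^ a := by
    have hpow : ∀ k, ∃ a, (D k).index = p ^ a := by
      intro k
      have h1 : (D k).index ∣ p ^ ((n - 0) * k) := by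
        rw [← index_W Z (Nat.zero_le n) k]
        exact Subgroup.index_dvd_of_le (hWD k)
      obtain ⟨a, -, ha⟩ := (Nat.dvd_prime_pow hp).1 h1
      exact ⟨a, ha⟩
    intro k
    induction k with
    | zero =>
      obtain ⟨a, ha⟩ := hpow 0
      exact ⟨a, Nat.zero_le _, ha⟩
    | succ k ih =>
      obtain ⟨a, hka, ha⟩ := ih
      obtain ⟨b, hb⟩ := hpow (k + 1)
      refine ⟨b, ?_, hb⟩
      have h1 : (D k).index < (D (k + 1)).index := by
        have hne : (D (k + 1)).index ≠ 0 := by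
          rw [hb]; exact (pow_pos hp.pos _).ne'
        have : (D (k + 1)).FiniteIndex := ⟨hne⟩
        exact Subgroup.index_strictAnti (hlt k)
      rw [ha, hb] at h1
      have := (Nat.pow_lt_pow_iff_right hp.one_lt).1 h1
      omega
  set S : Submodule (ZMod p) (VV p M) :=
    fix (repE p E M hst) (Subgroup.closure (Set.range d)) with hSdef
  let C : ℕ := finrank (ZMod p) S + Fintype.card (Fin s ⊕ Fin n)
  obtain ⟨a, hCa, ha⟩ := hidx C
  obtain ⟨hLf, hLr, hLfix, hEL⟩ := fx_fin hO (hWD C)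
  rw [ha] at hLr
  obtain ⟨m', hm', -⟩ := RG.card_schreier Cx hζE hEL hm hLr
  have hLM : fx (D C) ≤ M := by
    intro x hx
    rw [hM]
    exact ⟨C, fun w hw => mem_fx.1 hx w (hWD C hw)⟩
  have hle : m' ≤ finrank (ZMod p) S + Fintype.card (Fin s ⊕ Fin n) := by
    refine card_le Cx hLM (fun i : Fin s ⊕ Fin n =>
      Sum.elim (fun i => ((d i : E.fixingSubgroup) : K ≃ₐ[F] K))
        (fun i => ((Z.t i ^ (p ^ C) : E.fixingSubgroup) : K ≃ₐ[F] K)) i) ?_ ?_ hm' S hfin ?_
    · rintro (i | i) x hx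
      · exact mem_fx.1 hx _ (hdD C i)
      · exact mem_fx.1 hx _ (hWD C (Z.pow i i.2 C))
    · intro x hx h
      have h1 : x ∈ fx (Z.W 0 C) :=
        mem_fx_of_t hM C hx (fun i hi => h (Sum.inr ⟨i, hi⟩))
      rw [mem_fx] at h1 ⊢
      intro w hw
      induction hw using Subgroup.closure_induction with
      | mem w hw =>
        rcases hw with ⟨i, rfl⟩ | hw
        · exact h (Sum.inl i)
        · exact h1 w hw
      | one => rfl
      | mul v w _ _ hv hw =>
        change (v : K ≃ₐ[F] K) ((w : K ≃ₐ[F] K) x) = x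
        rw [hw, hv]
      | inv v _ hv =>
        change ((v : K ≃ₐ[F] K)⁻¹ : K ≃ₐ[F] K) x = x
        have h2 : ((v : K ≃ₐ[F] K)⁻¹ : K ≃ₐ[F] K) ((v : K ≃ₐ[F] K) x) = x :=
          (v : K ≃ₐ[F] K).symm_apply_apply x
        rwa [hv] at h2
    · intro x hx hx0 hxL
      rw [hSdef, mem_fix]
      intro w hw
      change rep p M hst (w : K ≃ₐ[F] K) (mkc p M (mku x hx hx0)) = _
      rw [rep_apply]
      apply mkc_eq_of_val
      rw [mku_val, mku_val]
      refine mem_fx.1 hxL w ?_
      exact Subgroup.closure_mono Set.subset_union_left hw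
  have hfinL : Finite (PC p (fx (D C))) := by
    apply Nat.finite_of_card_ne_zero
    rw [hm']
    exact (pow_pos hp.pos _).ne'
  refine concl_of_growth Cx hζE hneg hEL hm hm2 hLr hfinL ?_
  rw [hm']
  apply Nat.pow_lt_pow_right hp.one_lt
  have h3 : a ≤ (p - 1) * a := Nat.le_mul_of_pos_left _ (by have := hp.one_lt; omega)
  have h4 : m' ≤ C := hle
  omega

end Pool.Agent.Helper25.GG
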