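import Pool.Agent.Helper25.GG.DefsF
import Pool.Agent.Helper25.GG.FC
import Pool.Agent.Helper25.ETCRgK

/-!
# Block FL: characters of order p ^ 2
-/

set_option autoImplicit false

namespace Pool.Agent.Helper25.GG

open Module Pool.Agent.Helper25.ETC

variable {F K : Type} [Field F] [Field K] [Algebra F K] {p : ℕ} [Fact p.Prime] {n : ℕ} {ζ : K}
  {E : IntermediateField F K}

/-- as `step_char` in `Helper25/ETCRgK.lean`, with `z ∈ A` instead of `z ∈ F`. -/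
theorem step_char2 (Cx : Ctx p F K ζ) {z : K} (hz : IsPrimitiveRoot z (p ^ 2))
    {A B : IntermediateField F K} {β : K} (hzA : z ∈ A) (hζA : ζ ∈ A) (St : Step p A B β) :
    ∃ ψ : A.fixingSubgroup →* Multiplicative (ZMod (p ^ 2)), Function.Surjective ψ ∧
      (∀ x : A.fixingSubgroup, (x : K ≃ₐ[F] K) ∈ B.fixingSubgroup ↔
        p ∣ (Multiplicative.toAdd (ψ x)).val) ∧
      (∀ x : A.fixingSubgroup, (∀ y : K, y ^ p ∈ B → (x : K ≃ₐ[F] K) y = y) → ψ x = 1) := by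
  classical
  have := Cx.pc.gal
  have hp := Cx.hp
  have hζ := Cx.hζ
  have hp2 : NeZero (p ^ 2) := ⟨pow_ne_zero 2 hp.ne_zero⟩
  obtain ⟨σ₀, S⟩ := exists_stepAut (p := p) hp hζ hζA St.notMem St.pow_mem
  have hβ0 : β ≠ 0 := by rintro rfl; exact St.notMem A.zero_mem
  obtain ⟨γ, hγ⟩ := Cx.pc.root β
  have hγ0 : γ ≠ 0 := by
    rintro rfl
    rw [zero_pow hp.ne_zero] at hγ
    exact hβ0 hγ.symm
  have hZp : IsPrimitiveRoot z (p ^ 2) := hz
  have hσA : ∀ (σ : A.fixingSubgroup) (x : K), x ∈ A → (σ : K ≃ₐ[F] K) x = x := fun σ x hx =>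
    (IntermediateField.mem_fixingSubgroup_iff A _).mp σ.2 x hx
  have hex : ∀ σ : A.fixingSubgroup, ∃ j : ℕ, (σ : K ≃ₐ[F] K) γ = z ^ j * γ := by
    intro σ
    have h1 : ((σ : K ≃ₐ[F] K) γ / γ) ^ (p ^ 2) = 1 := by
      have h2 : γ ^ (p ^ 2) = β ^ p := by rw [pow_two, pow_mul, hγ]
      rw [div_pow, ← map_pow, h2, hσA σ _ St.pow_mem, ← h2,
        div_self (pow_ne_zero _ hγ0)]
    obtain ⟨j, -, hj⟩ := hZp.eq_pow_of_pow_eq_one h1
    exact ⟨j, by rw [hj]; field_simp⟩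
  choose j hj using hex
  have hZj : ∀ a b : ℕ, z ^ a = z ^ b ↔ (a : ZMod (p ^ 2)) = b := by
    intro a b
    rw [ZMod.natCast_eq_natCast_iff, hZp.eq_orderOf]
    exact (isOfFinOrder_iff_pow_eq_one.mpr
      ⟨p ^ 2, pow_pos hp.pos 2, hZp.pow_eq_one⟩).pow_eq_pow_iff_modEq
  have hjn : ∀ (σ : A.fixingSubgroup) (n : ℕ), (σ : K ≃ₐ[F] K) γ = z ^ n * γ →
      (j σ : ZMod (p ^ 2)) = n := by
    intro σ n h
    rw [← hZj]
    have h1 : z ^ (j σ) * γ = z ^ n * γ := by rw [← hj σ, h]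
    exact mul_right_cancel₀ hγ0 h1
  have hmul : ∀ σ τ : A.fixingSubgroup, (j (σ * τ) : ZMod (p ^ 2)) = j σ + j τ := by
    intro σ τ
    rw [← Nat.cast_add]
    apply hjn
    change (σ : K ≃ₐ[F] K) ((τ : K ≃ₐ[F] K) γ) = _
    rw [hj τ, map_mul, map_pow, hσA σ z hzA, hj σ, pow_add]
    ring
  let ψ : A.fixingSubgroup →* Multiplicative (ZMod (p ^ 2)) := MonoidHom.mk'
    (fun σ => Multiplicative.ofAdd (j σ : ZMod (p ^ 2))) (by
      intro σ τ
      change Multiplicative.ofAdd (j (σ * τ) : ZMod (p ^ 2)) =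
        Multiplicative.ofAdd ((j σ : ZMod (p ^ 2)) + j τ)
      rw [hmul])
  have hψ : ∀ σ, Multiplicative.toAdd (ψ σ) = (j σ : ZMod (p ^ 2)) := fun σ => rfl
  -- action on `β`
  have hβj : ∀ σ : A.fixingSubgroup, (σ : K ≃ₐ[F] K) β = (z ^ p) ^ (j σ) * β := by
    intro σ
    rw [← hγ, map_pow, hj, mul_pow]
    ring
  have hfix : ∀ σ : A.fixingSubgroup, (σ : K ≃ₐ[F] K) ∈ B.fixingSubgroup ↔ p ∣ j σ := by
    intro σ
    have hZ1 : IsPrimitiveRoot (z ^ p) p := hZp.pow (pow_pos hp.pos 2) (by rw [pow_two])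
    rw [← hZ1.pow_eq_one_iff_dvd]
    constructor
    · intro h
      have h1 := (IntermediateField.mem_fixingSubgroup_iff B _).mp h β St.mem
      rw [hβj] at h1
      have h2 : (z ^ p) ^ (j σ) * β = 1 * β := by rw [h1, one_mul]
      exact mul_right_cancel₀ hβ0 h2
    · intro h
      rw [IntermediateField.mem_fixingSubgroup_iff]
      intro x hx
      obtain ⟨e, he, rfl⟩ := St.span x hx
      rw [map_sum]
      apply Finset.sum_congr rfl
      intro i _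
      rw [map_mul, map_pow, hσA σ _ (he i), hβj, h, one_mul]
  refine ⟨ψ, ?_, ?_, ?_⟩
  · -- surjective
    have hσ₀A : σ₀ ∈ A.fixingSubgroup := by
      rw [IntermediateField.mem_fixingSubgroup_iff]
      exact S.fix
    have hnd : ¬ p ∣ j ⟨σ₀, hσ₀A⟩ := by
      rw [← hfix, IntermediateField.mem_fixingSubgroup_iff]
      intro h
      have h1 : σ₀ β = β := h β St.mem
      rw [S.act] at h1
      have h2 : ζ * β = 1 * β := by rw [h1, one_mul]
      exact hζ.ne_one hp.one_lt (mul_right_cancel₀ hβ0 h2)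
    have hun : IsUnit ((j ⟨σ₀, hσ₀A⟩ : ℕ) : ZMod (p ^ 2)) := by
      rw [ZMod.isUnit_iff_coprime]
      exact ((Nat.Prime.coprime_iff_not_dvd hp).mpr hnd).symm.pow_right 2
    obtain ⟨w, hw⟩ := hun.exists_right_inv
    intro v
    refine ⟨⟨σ₀, hσ₀A⟩ ^ (w * Multiplicative.toAdd v).val, ?_⟩
    rw [map_pow]
    apply Multiplicative.toAdd.injective
    rw [toAdd_pow, hψ, nsmul_eq_mul, ZMod.natCast_val, ZMod.cast_id', id_eq]
    linear_combination (Multiplicative.toAdd v) * hw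
  · intro σ
    rw [hfix, hψ, ZMod.val_natCast]
    have h1 : p ∣ p ^ 2 := dvd_pow_self p two_ne_zero
    rw [Nat.dvd_mod_iff h1]
  · intro σ h
    have h1 := h γ (by rw [hγ]; exact St.mem)
    apply Multiplicative.toAdd.injective
    rw [hψ, toAdd_one]
    have h2 := hjn σ 0 (by rw [h1, pow_zero, one_mul])
    rw [h2, Nat.cast_zero]

/-- powers of a generator of the units `≡ 1`. -/
theorem unit_pow_iff {p : ℕ} (hp : p.Prime) {c : ℕ} (hc1 : 1 ≤ c) (hc2 : p = 2 → 2 ≤ c) {u : ℕ}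
    (hu : u ≡ 1 [MOD p ^ c]) (hu' : ¬ u ≡ 1 [MOD p ^ (c + 1)]) (a b k : ℕ) :
    u ^ a ≡ u ^ b [MOD p ^ (c + k)] ↔ (a : ZMod (p ^ k)) = b := by
  have hcop : ∀ l, Nat.Coprime (p ^ (c + k)) (u ^ l) := by
    intro l
    apply Nat.Coprime.pow
    rw [Nat.Prime.coprime_iff_not_dvd hp]
    intro h
    have h1 : u ≡ 1 [MOD p] := hu.of_dvd (dvd_pow_self p (by omega))
    have h2 : u ≡ 0 [MOD p] := (Nat.modEq_zero_iff_dvd).mpr h
    have h3 : 1 ≡ 0 [MOD p] := h1.symm.trans h2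
    have h4 : p ∣ 1 := (Nat.modEq_zero_iff_dvd).mp h3
    exact hp.one_lt.ne' (Nat.dvd_one.mp h4)
  have main : ∀ a b : ℕ, a ≤ b →
      (u ^ a ≡ u ^ b [MOD p ^ (c + k)] ↔ (a : ZMod (p ^ k)) = b) := by
    intro a b hab
    obtain ⟨d, rfl⟩ := Nat.exists_eq_add_of_le hab
    have h1 : u ^ a ≡ u ^ (a + d) [MOD p ^ (c + k)] ↔ u ^ d ≡ 1 [MOD p ^ (c + k)] := by
      rw [pow_add u a d]
      constructor
      · intro h
        have h' : u ^ a * 1 ≡ u ^ a * u ^ d [MOD p ^ (c + k)] := by rw [mul_one]; exact h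
        exact (Nat.ModEq.cancel_left_of_coprime (hcop a) h').symm
      · intro h
        have := Nat.ModEq.mul_left (u ^ a) h
        rw [mul_one] at this
        exact this.symm
    rw [h1, unit_order hp hc1 hc2 hu hu' d k, ZMod.natCast_eq_natCast_iff]
    constructor
    · intro h
      have : a + d ≡ a + 0 [MOD p ^ k] := Nat.ModEq.add_left a ((Nat.modEq_zero_iff_dvd).mpr h)
      exact this.symm
    · intro h
      have h' : a + 0 ≡ a + d [MOD p ^ k] := h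
      exact (Nat.modEq_zero_iff_dvd).mp (Nat.ModEq.add_left_cancel' a h').symm
  rcases le_total a b with h | h
  · exact main a b h
  · rw [Nat.ModEq.comm, main b a h, eq_comm]

/-- the cyclotomic step: `B = A(z)`, `z` a primitive `p ^ 2`-th root of unity, `z ∉ A ∋ ζ`,
`p` odd. -/
theorem cyc_char (Cx : Ctx p F K ζ) (hp2 : p ≠ 2) {z : K} (hz : IsPrimitiveRoot z (p ^ 2))
    {A B : IntermediateField F K} (hζA : ζ ∈ A) (St : Step p A B z) :
    ∃ ψ : A.fixingSubgroup →* Multiplicative (ZMod (p ^ 2)), Function.Surjective ψ ∧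
      (∀ x : A.fixingSubgroup, (x : K ≃ₐ[F] K) ∈ B.fixingSubgroup ↔
        p ∣ (Multiplicative.toAdd (ψ x)).val) ∧
      (∀ x : A.fixingSubgroup, (∀ y : K, y ^ p ∈ B → (x : K ≃ₐ[F] K) y = y) → ψ x = 1) := by
  classical
  have := Cx.pc.gal
  have hp := Cx.hp
  have hζ := Cx.hζ
  have hp2' : NeZero (p ^ 2) := ⟨pow_ne_zero 2 hp.ne_zero⟩
  have hp3' : NeZero (p ^ 3) := ⟨pow_ne_zero 3 hp.ne_zero⟩
  obtain ⟨σ₀, S⟩ := exists_stepAut (p := p) hp hζ hζA St.notMem St.pow_mem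
  have hz0 : z ≠ 0 := hz.ne_zero (pow_ne_zero 2 hp.ne_zero)
  obtain ⟨γ, hγ⟩ := Cx.pc.root z
  have hγ0 : γ ≠ 0 := by
    rintro rfl
    rw [zero_pow hp.ne_zero] at hγ
    exact hz0 hγ.symm
  -- `γ` is a primitive `p ^ 3`-th root of unity
  have hγp : IsPrimitiveRoot γ (p ^ 3) := by
    rw [IsPrimitiveRoot.iff_orderOf]
    apply orderOf_eq_prime_pow
    · intro h
      have h1 : z ^ p = 1 := by
        rw [← hγ, ← pow_mul, ← pow_two]; exact h
      have h2 : p ^ 2 ∣ p := hz.dvd_of_pow_eq_one p h1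
      have h3 : p ^ 2 ≤ p := Nat.le_of_dvd hp.pos h2
      have h4 := hp.one_lt
      nlinarith
    · rw [pow_succ' p 2, pow_mul, hγ]
      exact hz.pow_eq_one
  have hγpow : ∀ a b : ℕ, γ ^ a = γ ^ b ↔ a ≡ b [MOD p ^ 3] := by
    intro a b
    rw [hγp.eq_orderOf]
    exact (isOfFinOrder_iff_pow_eq_one.mpr
      ⟨p ^ 3, pow_pos hp.pos 3, hγp.pow_eq_one⟩).pow_eq_pow_iff_modEq
  have hzpow : ∀ a b : ℕ, z ^ a = z ^ b ↔ a ≡ b [MOD p ^ 2] := by
    intro a b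
    rw [hz.eq_orderOf]
    exact (isOfFinOrder_iff_pow_eq_one.mpr
      ⟨p ^ 2, pow_pos hp.pos 2, hz.pow_eq_one⟩).pow_eq_pow_iff_modEq
  have hzp : IsPrimitiveRoot (z ^ p) p := hz.pow (pow_pos hp.pos 2) (by rw [pow_two])
  have hzppow : ∀ a b : ℕ, (z ^ p) ^ a = (z ^ p) ^ b ↔ a ≡ b [MOD p] := by
    intro a b
    conv_rhs => rw [hzp.eq_orderOf]
    exact (isOfFinOrder_iff_pow_eq_one.mpr
      ⟨p, hp.pos, hzp.pow_eq_one⟩).pow_eq_pow_iff_modEq
  -- the generator `1 + p`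
  have hu1 : 1 + p ≡ 1 [MOD p ^ 1] := by
    rw [pow_one]
    exact (Nat.modEq_iff_dvd' (by omega)).mpr ⟨1, by omega⟩ |>.symm
  have hu2 : ¬ 1 + p ≡ 1 [MOD p ^ (1 + 1)] := by
    intro h
    have h1 : p ^ (1 + 1) ∣ 1 + p - 1 := (Nat.modEq_iff_dvd' (by omega)).mp h.symm
    have h2 : 1 + p - 1 = p := by omega
    rw [h2] at h1
    have h3 : p ^ (1 + 1) ≤ p := Nat.le_of_dvd hp.pos h1
    have h4 := hp.one_lt
    have h5 : p ^ (1 + 1) = p * p := by ring
    nlinarith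
  have hc2 : p = 2 → 2 ≤ 1 := fun h => absurd h hp2
  have hσA : ∀ (σ : A.fixingSubgroup) (x : K), x ∈ A → (σ : K ≃ₐ[F] K) x = x := fun σ x hx =>
    (IntermediateField.mem_fixingSubgroup_iff A _).mp σ.2 x hx
  have hex : ∀ σ : A.fixingSubgroup, ∃ j : ℕ, (σ : K ≃ₐ[F] K) γ = γ ^ ((1 + p) ^ j) := by
    intro σ
    have h1 : ((σ : K ≃ₐ[F] K) γ) ^ (p ^ 3) = 1 := by
      rw [← map_pow, hγp.pow_eq_one, map_one]
    obtain ⟨w, -, hw⟩ := hγp.eq_pow_of_pow_eq_one h1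
    have h2 : (σ : K ≃ₐ[F] K) (z ^ p) = (z ^ p) ^ w := by
      rw [← hγ, map_pow, map_pow, ← hw]
      ring
    rw [hσA σ _ St.pow_mem] at h2
    have h3 : 1 ≡ w [MOD p] := by
      rw [← hzppow, pow_one]; exact h2
    obtain ⟨m, hm⟩ := unit_gen hp (c := 1) le_rfl hc2 hu1 hu2 (w := w)
      (by rw [pow_one]; exact h3.symm) 2
    refine ⟨m, ?_⟩
    rw [← hw]
    symm
    rw [hγpow]
    exact hm
  choose j hj using hex
  have hjn : ∀ (σ : A.fixingSubgroup) (n : ℕ), (σ : K ≃ₐ[F] K) γ = γ ^ ((1 + p) ^ n) →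
      (j σ : ZMod (p ^ 2)) = n := by
    intro σ n h
    rw [← unit_pow_iff hp (c := 1) le_rfl hc2 hu1 hu2]
    have h1 : γ ^ ((1 + p) ^ (j σ)) = γ ^ ((1 + p) ^ n) := by rw [← hj σ, h]
    exact (hγpow _ _).mp h1
  have hmul : ∀ σ τ : A.fixingSubgroup, (j (σ * τ) : ZMod (p ^ 2)) = j σ + j τ := by
    intro σ τ
    rw [← Nat.cast_add]
    apply hjn
    change (σ : K ≃ₐ[F] K) ((τ : K ≃ₐ[F] K) γ) = _
    rw [hj τ, map_pow, hj σ, ← pow_mul, pow_add]
  let ψ : A.fixingSubgroup →* Multiplicative (ZMod (p ^ 2)) := MonoidHom.mk'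
    (fun σ => Multiplicative.ofAdd (j σ : ZMod (p ^ 2))) (by
      intro σ τ
      change Multiplicative.ofAdd (j (σ * τ) : ZMod (p ^ 2)) =
        Multiplicative.ofAdd ((j σ : ZMod (p ^ 2)) + j τ)
      rw [hmul])
  have hψ : ∀ σ, Multiplicative.toAdd (ψ σ) = (j σ : ZMod (p ^ 2)) := fun σ => rfl
  -- action on `z`
  have hzj : ∀ σ : A.fixingSubgroup, (σ : K ≃ₐ[F] K) z = z ^ ((1 + p) ^ (j σ)) := by
    intro σ
    rw [← hγ, map_pow, hj, ← pow_mul, ← pow_mul, mul_comm]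
  have hfix : ∀ σ : A.fixingSubgroup, (σ : K ≃ₐ[F] K) ∈ B.fixingSubgroup ↔ p ∣ j σ := by
    intro σ
    have h0 : p ∣ j σ ↔ (σ : K ≃ₐ[F] K) z = z := by
      rw [hzj]
      have h1 := unit_order hp (c := 1) le_rfl hc2 hu1 hu2 (j σ) 1
      rw [pow_one] at h1
      rw [← h1]
      have h2 := hzpow ((1 + p) ^ (j σ)) 1
      rw [pow_one] at h2
      exact h2.symm
    rw [h0]
    constructor
    · intro h
      exact (IntermediateField.mem_fixingSubgroup_iff B _).mp h z St.mem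
    · intro h
      rw [IntermediateField.mem_fixingSubgroup_iff]
      intro x hx
      obtain ⟨e, he, rfl⟩ := St.span x hx
      rw [map_sum]
      apply Finset.sum_congr rfl
      intro i _
      rw [map_mul, map_pow, hσA σ _ (he i), h]
  refine ⟨ψ, ?_, ?_, ?_⟩
  · -- surjective
    have hσ₀A : σ₀ ∈ A.fixingSubgroup := by
      rw [IntermediateField.mem_fixingSubgroup_iff]
      exact S.fix
    have hnd : ¬ p ∣ j ⟨σ₀, hσ₀A⟩ := by
      rw [← hfix, IntermediateField.mem_fixingSubgroup_iff]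
      intro h
      have h1 : σ₀ z = z := h z St.mem
      rw [S.act] at h1
      have h2 : ζ * z = 1 * z := by rw [h1, one_mul]
      exact hζ.ne_one hp.one_lt (mul_right_cancel₀ hz0 h2)
    have hun : IsUnit ((j ⟨σ₀, hσ₀A⟩ : ℕ) : ZMod (p ^ 2)) := by
      rw [ZMod.isUnit_iff_coprime]
      exact ((Nat.Prime.coprime_iff_not_dvd hp).mpr hnd).symm.pow_right 2
    obtain ⟨w, hw⟩ := hun.exists_right_inv
    intro v
    refine ⟨⟨σ₀, hσ₀A⟩ ^ (w * Multiplicative.toAdd v).val, ?_⟩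
    rw [map_pow]
    apply Multiplicative.toAdd.injective
    rw [toAdd_pow, hψ, nsmul_eq_mul, ZMod.natCast_val, ZMod.cast_id', id_eq]
    linear_combination (Multiplicative.toAdd v) * hw
  · intro σ
    rw [hfix, hψ, ZMod.val_natCast]
    have h1 : p ∣ p ^ 2 := dvd_pow_self p two_ne_zero
    rw [Nat.dvd_mod_iff h1]
  · intro σ h
    have h1 := h γ (by rw [hγ]; exact St.mem)
    apply Multiplicative.toAdd.injective
    rw [hψ, toAdd_one]
    have h2 := hjn σ 0 (by rw [h1, pow_zero, pow_one])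
    rw [h2, Nat.cast_zero]

end Pool.Agent.Helper25.GG
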