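import Pool.Agent.Helper25.GG.FC
import Pool.Agent.Helper25.GG.FD

/-!
# Block FN: finite extensions do not contain all roots of unity
-/

set_option autoImplicit false

namespace Pool.Agent.Helper25.GG

open Module Pool.Agent.Helper25.ETC

variable {F K : Type} [Field F] [Field K] [Algebra F K] {p : ℕ} [Fact p.Prime] {n : ℕ} {ζ : K}
  {E : IntermediateField F K}

theorem no_roots (Cx : Ctx p F K ζ) (hζF : ζ ∈ (⊥ : IntermediateField F K))
    (hp2 : p = 2 → ∃ z ∈ (⊥ : IntermediateField F K), z ^ 2 = -1)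
    (hno : ∃ k, ∀ z ∈ (⊥ : IntermediateField F K), ¬ IsPrimitiveRoot z (p ^ k))
    (E : IntermediateField F K) [FiniteDimensional F E] :
    ∃ k, ∀ z ∈ E, ¬ IsPrimitiveRoot z (p ^ k) := by
  classical
  by_contra hcon
  push Not at hcon
  have hp := Cx.hp
  have hζ := Cx.hζ
  have hgal : IsGalois F K := Cx.pc.gal
  obtain ⟨z, hz, hzz, hz1⟩ := exists_roots Cx
  -- all `z k` lie in `E`
  have hzE : ∀ k, z k ∈ E := by
    intro k
    obtain ⟨w, hwE, hw⟩ := hcon k
    have : NeZero (p ^ k) := ⟨pow_ne_zero k hp.ne_zero⟩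
    obtain ⟨i, -, hi⟩ := hw.eq_pow_of_pow_eq_one (hz k).pow_eq_one
    rw [← hi]
    exact pow_mem hwE i
  have hzpow : ∀ k l, z (k + l) ^ p ^ l = z k := by
    intro k l
    induction l with
    | zero => simp
    | succ l ih =>
      rw [← add_assoc, pow_succ', pow_mul, hzz, ih]
  -- the last `c`
  have hex : ∃ k, z k ∉ (⊥ : IntermediateField F K) := by
    obtain ⟨k, hk⟩ := hno
    exact ⟨k, fun h => hk _ h (hz k)⟩
  have hfind := Nat.find_spec hex
  have hmin : ∀ m < Nat.find hex, z m ∈ (⊥ : IntermediateField F K) := fun m hm => by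
    have := Nat.find_min hex hm
    simpa using this
  set d := Nat.find hex with hd
  have hd2 : 2 ≤ d := by
    by_contra h
    have h1 : d = 0 ∨ d = 1 := by omega
    rcases h1 with h1 | h1
    · rw [h1] at hfind
      apply hfind
      have h2 : z 0 = 1 := by
        have := (hz 0).pow_eq_one
        simpa using this
      rw [h2]
      exact one_mem _
    · rw [h1, hz1] at hfind
      exact hfind hζF
  obtain ⟨c, hc⟩ : ∃ c, d = c + 1 := ⟨d - 1, by omega⟩
  have hc1 : 1 ≤ c := by omega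
  have hzc : z c ∈ (⊥ : IntermediateField F K) := hmin c (by omega)
  have hzc1 : z (c + 1) ∉ (⊥ : IntermediateField F K) := by rw [← hc]; exact hfind
  have hc2 : p = 2 → 2 ≤ c := by
    intro h2
    by_contra hlt
    have h3 : c = 1 := by omega
    obtain ⟨w, hw0, hw⟩ := hp2 h2
    apply hzc1
    subst h2
    rw [h3]
    have h4 : z (1 + 1) ^ 2 = w ^ 2 := by
      rw [hzz 1, hz1, hw]
      rcases sq_eq_one_iff.mp hζ.pow_eq_one with h5 | h5
      · exact absurd h5 (hζ.ne_one (by norm_num))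
      · exact h5
    rcases sq_eq_sq_iff_eq_or_eq_neg.mp h4 with h5 | h5
    · rw [h5]; exact hw0
    · rw [h5]; exact neg_mem hw0
  -- an automorphism moving `z (c + 1)`
  obtain ⟨σ, hσ⟩ : ∃ σ : K ≃ₐ[F] K, σ (z (c + 1)) ≠ z (c + 1) := by
    by_contra h
    push Not at h
    apply hzc1
    exact (InfiniteGalois.mem_bot_iff_fixed _).mpr h
  have hu : ∀ k, ∃ u : ℕ, σ (z k) = z k ^ u := by
    intro k
    have : NeZero (p ^ k) := ⟨pow_ne_zero k hp.ne_zero⟩
    have h1 : (σ (z k)) ^ p ^ k = 1 := by rw [← map_pow, (hz k).pow_eq_one, map_one]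
    obtain ⟨i, -, hi⟩ := (hz k).eq_pow_of_pow_eq_one h1
    exact ⟨i, hi.symm⟩
  choose u hu using hu
  have hmod : ∀ k a b, z k ^ a = z k ^ b ↔ a ≡ b [MOD p ^ k] := by
    intro k a b
    rw [(hz k).eq_orderOf]
    exact (isOfFinOrder_iff_pow_eq_one.mpr
      ⟨p ^ k, pow_pos hp.pos k, (hz k).pow_eq_one⟩).pow_eq_pow_iff_modEq
  have hfixc : σ (z c) = z c := by
    obtain ⟨a, ha⟩ := IntermediateField.mem_bot.mp hzc
    rw [← ha, AlgEquiv.commutes]
  have hu1 : ∀ k, c ≤ k → u k ≡ 1 [MOD p ^ c] := by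
    intro k hk
    obtain ⟨l, rfl⟩ := Nat.exists_eq_add_of_le hk
    rw [← hmod, pow_one]
    conv_rhs => rw [← hfixc]
    rw [← hzpow c l, map_pow, hu (c + l)]
    ring
  have hu2 : ∀ k, c + 1 ≤ k → ¬ u k ≡ 1 [MOD p ^ (c + 1)] := by
    intro k hk h
    obtain ⟨l, rfl⟩ := Nat.exists_eq_add_of_le hk
    rw [← hmod, pow_one] at h
    apply hσ
    conv_rhs => rw [← h]
    rw [← hzpow (c + 1) l, map_pow, hu (c + 1 + l)]
    ring
  -- some power of `σ` fixes `E`
  have hidx : E.fixingSubgroup.index ≠ 0 := by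
    rw [← IntermediateField.finrank_eq_fixingSubgroup_index]
    exact finrank_pos.ne'
  obtain ⟨m, hm0, -, hm⟩ := Subgroup.exists_pow_mem_of_index_ne_zero hidx σ
  have hpow : ∀ k j, (σ ^ j) (z k) = z k ^ (u k ^ j) := by
    intro k j
    induction j with
    | zero => simp
    | succ j ih =>
      rw [pow_succ', AlgEquiv.mul_apply, ih, map_pow, hu, ← pow_mul, pow_succ, mul_comm]
  have hdvd : ∀ k, p ^ k ∣ m := by
    intro k
    rcases Nat.eq_zero_or_pos k with rfl | hk
    · simp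
    · rw [← unit_order hp hc1 hc2 (hu1 (c + k) (by omega)) (hu2 (c + k) (by omega)) m k, ← hmod,
        pow_one, ← hpow]
      exact (IntermediateField.mem_fixingSubgroup_iff E _).mp hm _ (hzE _)
  have h1 := Nat.le_of_dvd hm0 (hdvd m)
  have h2 : m < p ^ m := Nat.lt_pow_self hp.one_lt
  omega

end Pool.Agent.Helper25.GG
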