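import Pool.Agent.Helper25.GG.DefsF
import Pool.Agent.Helper25.ETCRgK

/-!
# Block FO: the dimension does not drop
-/

set_option autoImplicit false

namespace Pool.Agent.Helper25.GG

open Module Pool.Agent.Helper25.ETC

variable {F K : Type} [Field F] [Field K] [Algebra F K] {p : ℕ} [Fact p.Prime] {n : ℕ} {ζ : K}
  {E : IntermediateField F K}

/-- the dimension does not drop in a Kummer step. -/
theorem step_mono2 (Cx : Ctx p F K ζ) (hζF : ζ ∈ (⊥ : IntermediateField F K))
    (hp2 : p = 2 → ∃ z ∈ (⊥ : IntermediateField F K), z ^ 2 = -1)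
    {A B : IntermediateField F K} {β : K} (hζA : ζ ∈ A) (St : Step p A B β) {n m : ℕ}
    (hn : Nat.card (PC p A) = p ^ n) (hm : Nat.card (PC p B) = p ^ m) : n ≤ m := by
  classical
  have := Cx.pc.gal
  have hp := Cx.hp
  have hζ := Cx.hζ
  obtain ⟨σ, S⟩ := exists_stepAut (p := p) hp hζ hζA St.notMem St.pow_mem
  have hβ0 : β ≠ 0 := by rintro rfl; exact St.notMem A.zero_mem
  have fin_of : ∀ (C : IntermediateField F K) (k : ℕ), Nat.card (PC p C) = p ^ k →
      FiniteDimensional (ZMod p) (VV p C) ∧ finrank (ZMod p) (VV p C) = k := by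
    intro C k hk
    have hfinV : Finite (VV p C) := by
      have h : Nat.card (VV p C) ≠ 0 := by
        change Nat.card (PC p C) ≠ 0
        rw [hk]
        exact pow_ne_zero _ hp.ne_zero
      exact Nat.finite_of_card_ne_zero h
    have fL : FiniteDimensional (ZMod p) (VV p C) := Module.Finite.of_finite
    have h2 : Nat.card (VV p C) = Nat.card (ZMod p) ^ finrank (ZMod p) (VV p C) :=
      Module.natCard_eq_pow_finrank
    have h3 : Nat.card (VV p C) = p ^ k := hk
    rw [h3, Nat.card_zmod] at h2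
    exact ⟨fL, (Nat.pow_right_injective hp.two_le h2).symm⟩
  obtain ⟨fA, rA⟩ := fin_of A n hn
  obtain ⟨fB, rB⟩ := fin_of B m hm
  set i := incV p St.le with hi
  have hkeri : LinearMap.ker i ≤ Submodule.span (ZMod p)
      {mkc p A (mku (β ^ p) St.pow_mem (pow_ne_zero _ hβ0))} := by
    intro u hu
    obtain ⟨x, hx, hx0, rfl⟩ := mkc_mku_surj u
    rw [LinearMap.mem_ker, hi, incV_mkc, mkc_eq_zero] at hu
    obtain ⟨-, y, hyB, hy⟩ := hu
    rw [mku_val] at hy
    obtain ⟨k, -, d, hd, hyd⟩ := kummer_mem Cx hζA St hyB (by rw [hy]; exact hx)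
    have hd0 : d ≠ 0 := by
      rintro rfl
      rw [hyd] at hy
      apply hx0
      rw [← hy]
      simp [hp.ne_zero]
    have h3 : mkc p A (mku x hx hx0) =
        (k : ZMod p) • mkc p A (mku (β ^ p) St.pow_mem (pow_ne_zero _ hβ0)) := by
      have h5 : (k : ZMod p) • mkc p A (mku (β ^ p) St.pow_mem (pow_ne_zero _ hβ0)) =
          mkc p A (mku ((β ^ p) ^ k) (pow_mem St.pow_mem k)
            (pow_ne_zero k (pow_ne_zero _ hβ0))) := by
        rw [Nat.cast_smul_eq_nsmul (ZMod p)]
        have h6 : k • mkc p A (mku (β ^ p) St.pow_mem (pow_ne_zero _ hβ0)) =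
          mkc p A ((mku (β ^ p) St.pow_mem (pow_ne_zero _ hβ0)) ^ k) := rfl
        rw [h6]
        apply mkc_eq_of_val
        rw [Units.val_pow_eq_pow_val]
        rfl
      rw [h5, mkc_mku_eq_iff hp.ne_zero]
      refine ⟨d, hd, hd0, ?_⟩
      rw [← hy, hyd]
      ring
    rw [h3]
    exact Submodule.smul_mem _ _ (Submodule.mem_span_singleton_self _)
  have rk : finrank (ZMod p) (LinearMap.ker i) ≤ 1 := by
    refine (Submodule.finrank_mono hkeri).trans ?_
    refine (finrank_span_le_card _).trans ?_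
    simp
  -- the class of `β` is not in the image
  have hβi : mkc p B (mku β St.mem hβ0) ∉ LinearMap.range i := by
    rintro ⟨u, hu⟩
    obtain ⟨a, ha, ha0, rfl⟩ := mkc_mku_surj u
    rw [hi, incV_mkc, eq_comm, mkc_mku_eq_iff hp.ne_zero] at hu
    obtain ⟨b, hb, hb0, hbe⟩ := hu
    -- `w = σ b / b`, `w ^ p = ζ`
    have h1 : (σ b) ^ p = ζ * b ^ p := by
      have h2 : σ β = ζ * β := S.act
      rw [hbe, map_mul, map_pow, S.fix a ha] at h2
      have h3 : a * (σ b ^ p) = a * (ζ * b ^ p) := by rw [h2]; ring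
      exact mul_left_cancel₀ ha0 h3
    have hσF : ∀ x ∈ (⊥ : IntermediateField F K), σ x = x := by
      intro x hx
      obtain ⟨r, rfl⟩ := IntermediateField.mem_bot.mp hx
      exact σ.commutes r
    have hσζ : σ ζ = ζ := hσF ζ hζF
    obtain ⟨w, hw⟩ : ∃ w, w = σ b / b := ⟨_, rfl⟩
    have hwp : w ^ p = ζ := by
      rw [hw, div_pow, h1, mul_div_assoc, div_self (pow_ne_zero p hb0), mul_one]
    have hw0 : w ≠ 0 := by
      rintro h0
      rw [h0, zero_pow hp.ne_zero] at hwp
      exact hζ.ne_zero hp.ne_zero hwp.symm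
    have hσb : σ b = w * b := by rw [hw]; field_simp
    have h5 : (σ ^ p) b = b := step_pow St S hζ hζA hb
    by_cases hp2' : p = 2
    · obtain ⟨z, hzF, hz2⟩ := hp2 hp2'
      subst hp2'
      have hζ1 : ζ = -1 := by
        have h6 : ζ ^ 2 = 1 := hζ.pow_eq_one
        have h7 : (ζ - 1) * (ζ + 1) = 0 := by linear_combination h6
        rcases mul_eq_zero.1 h7 with h8 | h8
        · exact absurd (sub_eq_zero.1 h8) (hζ.ne_one (by norm_num))
        · exact eq_neg_of_add_eq_zero_left h8
      have h6 : (w - z) * (w + z) = 0 := by linear_combination hwp + hζ1 - hz2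
      have hσw : σ w = w := by
        rcases mul_eq_zero.1 h6 with h8 | h8
        · rw [sub_eq_zero.1 h8]; exact hσF z hzF
        · rw [eq_neg_of_add_eq_zero_left h8, map_neg, hσF z hzF]
      rw [pow_two, AlgEquiv.mul_apply, hσb, map_mul, hσw, hσb, ← mul_assoc, ← pow_two, hwp] at h5
      have h9 : ζ * b = 1 * b := by rw [h5, one_mul]
      exact hζ.ne_one hp.one_lt (mul_right_cancel₀ hb0 h9)
    · have hodd : Odd p := hp.odd_of_ne_two hp2'
      obtain ⟨j, -, hj⟩ : ∃ j < p, σ w = ζ ^ j * w := by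
        apply exists_zeta_pow hp.pos hζ
        rw [← map_pow, hwp]
        exact hσζ
      have hk : ∀ k : ℕ, (σ ^ k) b = w ^ k * ζ ^ (j * k.choose 2) * b := by
        intro k
        induction k with
        | zero => simp
        | succ k ih =>
          rw [pow_succ', AlgEquiv.mul_apply, ih, map_mul, map_mul, map_pow, map_pow, hσζ, hσb, hj,
            Nat.choose_succ_succ' k 1, Nat.choose_one_right, mul_add, pow_add, mul_pow, ← pow_mul]
          ring
      rw [hk p, hwp] at h5
      have h6 : p ∣ p.choose 2 := by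
        have h7 : 2 < p := by
          rcases hodd with ⟨t, ht⟩
          have := hp.two_le
          omega
        exact hp.dvd_choose_self (by norm_num) h7
      have h7 : ζ ^ (j * p.choose 2) = 1 := by
        rw [hζ.pow_eq_one_iff_dvd]
        exact Dvd.dvd.mul_left h6 j
      rw [h7, mul_one] at h5
      have h9 : ζ * b = 1 * b := by rw [h5, one_mul]
      exact hζ.ne_one hp.one_lt (mul_right_cancel₀ hb0 h9)
  have hlt : LinearMap.range i < ⊤ := by
    rw [lt_top_iff_ne_top]
    intro h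
    exact hβi (by rw [h]; trivial)
  have h1 := Submodule.finrank_lt hlt.ne
  have h2 := LinearMap.finrank_range_add_finrank_ker i
  omega

theorem card_mono2 (Cx : Ctx p F K ζ) (hζF : ζ ∈ (⊥ : IntermediateField F K))
    (hp2 : p = 2 → ∃ z ∈ (⊥ : IntermediateField F K), z ^ 2 = -1)
    {E E' : IntermediateField F K} (hle : E ≤ E') [FiniteDimensional F E'] {n m : ℕ}
    (hn : Nat.card (PC p E) = p ^ n) (hm : Nat.card (PC p E') = p ^ m) : n ≤ m := by
  have hp := Cx.hp
  have hζE : ζ ∈ E := (bot_le : (⊥ : IntermediateField F K) ≤ E) hζF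
  have key := tower_induction hp Cx.hζ Cx.pc hζE hle
    (fun A => ∃ m, Nat.card (PC p A) = p ^ m ∧ n ≤ m)
    ⟨n, hn, le_rfl⟩ ?_
  · obtain ⟨m', h1, h2⟩ := key
    rw [hm] at h1
    have h3 := Nat.pow_right_injective hp.two_le h1
    omega
  · rintro A B β hEA hBE' St ⟨m, h1, h2⟩
    obtain ⟨m', h4, -⟩ := schreier_step Cx (hEA hζE) St h1
    exact ⟨m', h4, h2.trans (step_mono2 Cx hζF hp2 (hEA hζE) St h1 h4)⟩

end Pool.Agent.Helper25.GG
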