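import Pool.Agent.Helper25.GG.FA
import Pool.Agent.Helper25.GG.FD
import Pool.Agent.Helper25.GG.FE
import Pool.Agent.Helper25.GG.FF
import Pool.Agent.Helper25.GG.DefsF
import Pool.Agent.Helper25.ETCKum

/-!
# Block FP: the structure PZ on Gal(K/E), E containing all roots of unity
-/

set_option autoImplicit false

namespace Pool.Agent.Helper25.GG

open Module Pool.Agent.Helper25.ETC

variable {F K : Type} [Field F] [Field K] [Algebra F K] {p : ℕ} [Fact p.Prime] {n : ℕ} {ζ : K}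
  {E : IntermediateField F K}

/-- Kummer data for a field `E` containing all `p`-power roots of unity. -/
structure FP.KI (p : ℕ) (E : IntermediateField F K) (s : ℕ) where
  z : ℕ → K
  hz : ∀ k, IsPrimitiveRoot (z k) (p ^ k)
  zE : ∀ k, z k ∈ E
  hzz : ∀ k, z (k + 1) ^ p = z k
  y : Fin s → ℕ → K
  hy : ∀ i k, y i (k + 1) ^ p = y i k
  yE : ∀ i, y i 0 ∈ E
  y0 : ∀ i, y i 0 ≠ 0
  span : ∀ x ∈ E, x ≠ 0 → ∃ e : Fin s → ℕ, ∃ w ∈ E, w ≠ 0 ∧ x = (∏ i, y i 0 ^ e i) * w ^ p
  ind : ∀ e : Fin s → ℕ, (∃ w ∈ E, w ^ p = ∏ i, y i 0 ^ e i) → ∀ i, p ∣ e i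

theorem FP.exists_KI (Cx : Ctx p F K ζ) (hall : ∀ k, ∃ z ∈ E, IsPrimitiveRoot z (p ^ k)) {m : ℕ}
    (hm : Nat.card (PC p E) = p ^ m) : Nonempty (FP.KI p E m) := by
  obtain ⟨z, hz, hzz, -⟩ := exists_roots Cx
  obtain ⟨a, ha, hspan, hind⟩ := exists_pbasis hm
  have hzE : ∀ k, z k ∈ E := by
    intro k
    obtain ⟨w, hw, hwp⟩ := hall k
    have : NeZero (p ^ k) := ⟨pow_ne_zero k Cx.hp.ne_zero⟩
    obtain ⟨i, -, hi⟩ := hwp.eq_pow_of_pow_eq_one (hz k).pow_eq_one
    rw [← hi]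
    exact pow_mem hw i
  obtain ⟨y, hy0, hyp⟩ : ∃ y : Fin m → ℕ → K, (∀ i, y i 0 = a i) ∧
      ∀ i k, (y i (k + 1)) ^ p = y i k :=
    ⟨fun i k => Nat.rec (a i) (fun _ x => (Cx.pc.root x).choose) k, fun _ => rfl,
      fun i k => (Cx.pc.root _).choose_spec⟩
  exact ⟨{
    z := z
    hz := hz
    zE := hzE
    hzz := hzz
    y := y
    hy := hyp
    yE := fun i => by rw [hy0]; exact (ha i).1
    y0 := fun i => by rw [hy0]; exact (ha i).2
    span := by simpa only [hy0] using hspan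
    ind := by simpa only [hy0] using hind }⟩

section Aux

variable {s : ℕ} (S : FP.KI p E s)

omit [Fact p.Prime] in
theorem FP.y_pow (i : Fin s) (k : ℕ) : S.y i k ^ (p ^ k) = S.y i 0 := by
  induction k with
  | zero => rw [pow_zero, pow_one]
  | succ k ih => rw [pow_succ', pow_mul, S.hy, ih]

theorem FP.y_ne (i : Fin s) (k : ℕ) : S.y i k ≠ 0 := by
  intro h
  have h1 := FP.y_pow S i k
  rw [h, zero_pow (pow_ne_zero k (Fact.out : p.Prime).ne_zero)] at h1
  exact S.y0 i h1.symm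

omit [Fact p.Prime] in
theorem FP.fixE (σ : E.fixingSubgroup) {x : K} (hx : x ∈ E) : (σ : K ≃ₐ[F] K) x = x :=
  (IntermediateField.mem_fixingSubgroup_iff E _).mp σ.2 x hx

omit [Fact p.Prime] in
theorem FP.fix_z (σ : E.fixingSubgroup) (k m : ℕ) : (σ : K ≃ₐ[F] K) (S.z k ^ m) = S.z k ^ m :=
  FP.fixE σ (pow_mem (S.zE k) m)

theorem FP.act_y (σ : E.fixingSubgroup) (i : Fin s) (k : ℕ) :
    ∃ m : ℕ, (σ : K ≃ₐ[F] K) (S.y i k) = S.z k ^ m * S.y i k := by
  have h1 : ((σ : K ≃ₐ[F] K) (S.y i k)) ^ (p ^ k) = (S.y i k) ^ (p ^ k) := by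
    rw [← map_pow, FP.y_pow, FP.fixE σ (S.yE i)]
  obtain ⟨j, -, hj⟩ := exists_zeta_pow (pow_pos (Fact.out : p.Prime).pos k) (S.hz k) h1
  exact ⟨j, hj⟩

/-- the subgroups. -/
def FP.W (i k : ℕ) : Subgroup E.fixingSubgroup where
  carrier := {σ | ∀ j : Fin s, i ≤ j → (σ : K ≃ₐ[F] K) (S.y j k) = S.y j k}
  mul_mem' := by
    rintro a b ha' hb' j h
    rw [Subgroup.coe_mul, AlgEquiv.mul_apply, hb' j h, ha' j h]
  one_mem' := fun _ _ => rfl
  inv_mem' := by
    rintro a ha' j h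
    exact FF.inv_fix (ha' j h)

theorem FP.normal (i k : ℕ) : (FP.W S i k).Normal := by
  constructor
  rintro σ h2 v j hj
  obtain ⟨m, hm⟩ := FP.act_y S (v⁻¹ : E.fixingSubgroup) j k
  rw [Subgroup.coe_mul, Subgroup.coe_mul, AlgEquiv.mul_apply, AlgEquiv.mul_apply, hm, map_mul,
    FP.fix_z S, h2 j hj, ← hm, ← AlgEquiv.mul_apply, ← Subgroup.coe_mul, mul_inv_cancel]
  rfl

/-- two automorphisms which agree on all `y j k`, `j ≥ i`. -/
theorem FP.mul_inv_mem {σ τ : E.fixingSubgroup} {i k : ℕ} (m : Fin s → ℕ)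
    (hy : ∀ j : Fin s, i ≤ j → (σ : K ≃ₐ[F] K) (S.y j k) = S.z k ^ m j * S.y j k)
    (hy' : ∀ j : Fin s, i ≤ j → (τ : K ≃ₐ[F] K) (S.y j k) = S.z k ^ m j * S.y j k) :
    σ * τ⁻¹ ∈ FP.W S i k := by
  intro j hj
  have h1 : (((τ⁻¹ : E.fixingSubgroup)) : K ≃ₐ[F] K) (S.z k ^ m j * S.y j k) = S.y j k := by
    rw [← hy' j hj, ← AlgEquiv.mul_apply, ← Subgroup.coe_mul, inv_mul_cancel]
    rfl
  rw [map_mul, FP.fix_z S] at h1
  have hne : S.z k ^ m j ≠ 0 :=
    pow_ne_zero _ ((S.hz k).ne_zero (pow_ne_zero k (Fact.out : p.Prime).ne_zero))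
  apply mul_left_cancel₀ hne
  have h2 : (σ : K ≃ₐ[F] K) (S.z k ^ m j * (((τ⁻¹ : E.fixingSubgroup)) : K ≃ₐ[F] K) (S.y j k)) =
      (σ : K ≃ₐ[F] K) (S.y j k) := by rw [h1]
  rw [map_mul, FP.fix_z S] at h2
  rw [Subgroup.coe_mul, AlgEquiv.mul_apply, ← hy j hj]
  exact h2

theorem FP.open' [IsGalois F K] [FiniteDimensional F E] (k : ℕ) :
    IsOpen (im (FP.W S 0 k) : Set (K ≃ₐ[F] K)) := by
  have h : (im (FP.W S 0 k) : Set (K ≃ₐ[F] K)) = (E.fixingSubgroup : Set (K ≃ₐ[F] K)) ∩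
      ⋂ j : Fin s, {τ : K ≃ₐ[F] K | τ (S.y j k) = S.y j k} := by
    ext σ
    simp only [SetLike.mem_coe, mem_im, Set.mem_inter_iff, Set.mem_ofPred_eq, Set.mem_iInter]
    constructor
    · rintro ⟨h1, h3⟩
      exact ⟨h1, fun j => h3 j (Nat.zero_le _)⟩
    · rintro ⟨h1, h3⟩
      exact ⟨h1, fun j _ => h3 j⟩
  rw [h]
  exact (IntermediateField.fixingSubgroup_isOpen E).inter
    (isOpen_iInter_of_finite fun j => FF.isOpen_fix _)

theorem FP.iff' (k : ℕ) (σ : E.fixingSubgroup) : σ ∈ FP.W S 0 k ↔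
    ∀ y : K, y ^ (p ^ k) ∈ E → (σ : K ≃ₐ[F] K) y = y := by
  have hp : p.Prime := Fact.out
  constructor
  · rintro h2 w hw
    by_cases hw0 : w = 0
    · rw [hw0, map_zero]
    obtain ⟨m, v, hv, hv0, hx⟩ := pbasis_pow S.span k _ hw (pow_ne_zero _ hw0)
    have h3 : w ^ (p ^ k) = ((∏ i : Fin s, S.y i k ^ m i) * v) ^ (p ^ k) := by
      rw [hx, mul_pow, ← Finset.prod_pow]
      congr 1
      apply Finset.prod_congr rfl
      intro i _
      rw [← pow_mul, mul_comm (m i), pow_mul, FP.y_pow]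
    obtain ⟨a, -, ha⟩ := exists_zeta_pow (pow_pos hp.pos k) (S.hz k) h3
    rw [ha, map_mul, map_mul, FP.fix_z S, FP.fixE σ hv, map_prod]
    congr 2
    apply Finset.prod_congr rfl
    intro i _
    rw [map_pow, h2 i (Nat.zero_le _)]
  · intro h j _
    apply h
    rw [FP.y_pow]
    exact S.yE j

theorem FP.exists_t (Cx : Ctx p F K ζ) [FiniteDimensional F E] (hζE : ζ ∈ E) :
    ∃ t : Fin s → E.fixingSubgroup,
      ∀ i j k, (t i : K ≃ₐ[F] K) (S.y j k) = if i = j then S.z k * S.y j k else S.y j k := by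
  classical
  have hp : p.Prime := Fact.out
  have key : ∀ i : Fin s, ∃ σ : E.fixingSubgroup, ∀ k, ∀ j, (σ : K ≃ₐ[F] K) (S.y j k) =
      if i = j then S.z k * S.y j k else S.y j k := by
    intro i
    apply FE.exists_of_levels Cx
    · intro k
      have h1 : {σ : E.fixingSubgroup |
          ∀ j, (σ : K ≃ₐ[F] K) (S.y j k) = if i = j then S.z k * S.y j k else S.y j k} =
          ⋂ j, {σ : E.fixingSubgroup | (σ : K ≃ₐ[F] K) (S.y j k) =
            if i = j then S.z k * S.y j k else S.y j k} := by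
        ext σ
        simp
      rw [h1]
      exact isClosed_iInter fun j => FE.isClosed_eval Cx (S.y j k)
          (fun x => x = if i = j then S.z k * S.y j k else S.y j k)
    · rintro k σ h2 j
      rw [← S.hy j k, map_pow, h2 j]
      split_ifs with h
      · rw [mul_pow, S.hzz]
      · rfl
    · intro k
      obtain ⟨σ, hσ⟩ := kummer_surj Cx E (S.hz k) (S.zE k) hζE (fun j => S.y j 0)
        (fun j => ⟨S.yE j, S.y0 j⟩) S.ind
        (fun j => S.y j k) (fun j => FP.y_pow S j k) (fun j => if i = j then 1 else 0)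
      refine ⟨σ, fun j => ?_⟩
      rw [hσ j]
      split_ifs
      · rw [pow_one]
      · rw [pow_zero, one_mul]
  choose t ht using key
  exact ⟨t, fun i j k => ht i k j⟩

end Aux

theorem exists_PZ_inf (Cx : Ctx p F K ζ) [FiniteDimensional F E] (hζE : ζ ∈ E)
    (hall : ∀ k, ∃ z ∈ E, IsPrimitiveRoot z (p ^ k)) {m : ℕ}
    (hm : Nat.card (PC p E) = p ^ m) :
    ∃ Z : PZ p E.fixingSubgroup m, Hyp Z m ∧ Op Z ∧
      ∀ k (σ : E.fixingSubgroup), σ ∈ Z.W 0 k ↔
        ∀ y : K, y ^ (p ^ k) ∈ E → (σ : K ≃ₐ[F] K) y = y := by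
  classical
  have hp : p.Prime := Fact.out
  have hgal := Cx.pc.gal
  obtain ⟨S⟩ := FP.exists_KI Cx hall hm
  obtain ⟨t, ht⟩ := FP.exists_t S Cx hζE
  have hty : ∀ i j k l, ((t i ^ l : E.fixingSubgroup) : K ≃ₐ[F] K) (S.y j k) =
      S.z k ^ (if i = j then l else 0) * S.y j k := by
    intro i j k l
    rw [Subgroup.coe_pow]
    have h := ht i j k
    by_cases hij : i = j
    · rw [if_pos hij] at h ⊢
      exact FF.pow_act_y (FP.fixE _ (S.zE k)) h l
    · rw [if_neg hij] at h ⊢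
      rw [pow_zero, one_mul]
      exact FF.pow_fix h l
  let T : ℕ → E.fixingSubgroup := fun i => if h : i < m then t ⟨i, h⟩ else 1
  have hT1 : ∀ i (h : i < m), T i = t ⟨i, h⟩ := fun i h => dif_pos h
  have hconj : ∀ k (v : E.fixingSubgroup) (i : Fin m), v * t i * v⁻¹ * (t i ^ 1)⁻¹ ∈ FP.W S 0 k := by
    intro k v i
    refine FP.mul_inv_mem S (fun j => if i = j then 1 else 0) (fun j _ => ?_)
      (fun j _ => hty i j k 1)
    obtain ⟨b, hb⟩ := FP.act_y S (v⁻¹ : E.fixingSubgroup) j k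
    have h1 : (v : K ≃ₐ[F] K) (S.z k ^ b * S.y j k) = S.y j k := by
      rw [← hb, ← AlgEquiv.mul_apply, ← Subgroup.coe_mul, mul_inv_cancel]
      rfl
    have h2 := hty i j k 1
    rw [pow_one] at h2
    rw [Subgroup.coe_mul, Subgroup.coe_mul, AlgEquiv.mul_apply, AlgEquiv.mul_apply, hb, map_mul,
      FP.fix_z S, h2]
    have h3 : S.z k ^ b * (S.z k ^ (if i = j then 1 else 0) * S.y j k) =
        S.z k ^ (if i = j then 1 else 0) * (S.z k ^ b * S.y j k) := by ring
    rw [h3, map_mul, h1, FP.fix_z S]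
  have hle : ∀ i k, FP.W S 0 k ≤ FP.W S i k := by
    intro i k σ hσ j _
    exact hσ j (Nat.zero_le _)
  have h1p : 1 % p = 1 := Nat.mod_eq_of_lt hp.one_lt
  let Z : PZ p E.fixingSubgroup m :=
    { W := FP.W S
      t := T
      normal := FP.normal S
      anti := by
        intro i k σ h2 j hj
        rw [← S.hy, map_pow, h2 j hj]
      mono := by
        intro i k σ h2 j hj
        exact h2 j (by omega)
      zero := by
        intro i
        rw [eq_top_iff]
        intro σ _ j _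
        exact FP.fixE σ (S.yE j)
      top := by
        intro k
        rw [eq_top_iff]
        intro σ _ j hj
        have := j.2
        omega
      mem := by
        intro i hi k
        rw [hT1 i hi]
        intro j hj
        rw [ht, if_neg]
        intro h
        rw [← h] at hj
        simp only at hj
        omega
      gen := by
        intro i hi k v hv
        rw [hT1 i hi]
        obtain ⟨l, hl⟩ := FP.act_y S v ⟨i, hi⟩ k
        refine ⟨l, fun j hj => ?_⟩
        have h3 := hty ⟨i, hi⟩ j k l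
        rw [Subgroup.coe_mul, AlgEquiv.mul_apply]
        by_cases hij : (⟨i, hi⟩ : Fin m) = j
        · rw [if_pos hij] at h3
          rw [← hij, hl]
          rw [← hij] at h3
          rw [← h3, ← AlgEquiv.mul_apply, ← Subgroup.coe_mul, inv_mul_cancel]
          rfl
        · have hij' : i + 1 ≤ (j : ℕ) := by
            have : i ≠ (j : ℕ) := fun h => hij (Fin.ext h)
            omega
          rw [if_neg hij, pow_zero, one_mul] at h3
          rw [hv j hij', Subgroup.coe_inv]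
          exact FF.inv_fix h3
      order := by
        intro i hi k l
        rw [hT1 i hi]
        constructor
        · intro h2
          have h3 := h2 ⟨i, hi⟩ (le_refl i)
          rw [hty, if_pos rfl] at h3
          have h4 : S.z k ^ l = 1 := by
            apply mul_right_cancel₀ (FP.y_ne S ⟨i, hi⟩ k)
            rw [one_mul]
            exact h3
          exact ((S.hz k).pow_eq_one_iff_dvd l).1 h4
        · intro h j _
          rw [hty]
          by_cases hij : (⟨i, hi⟩ : Fin m) = j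
          · rw [if_pos hij, ((S.hz k).pow_eq_one_iff_dvd l).2 h, one_mul]
          · rw [if_neg hij, pow_zero, one_mul]
      conj := by
        intro i hi k v
        rw [hT1 i hi]
        exact ⟨1, h1p, hle i k (hconj k v ⟨i, hi⟩)⟩
      pow := by
        intro i hi k
        rw [hT1 i hi]
        intro j _
        rw [hty]
        by_cases hij : (⟨i, hi⟩ : Fin m) = j
        · rw [if_pos hij, (S.hz k).pow_eq_one, one_mul]
        · rw [if_neg hij, pow_zero, one_mul] }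
  refine ⟨Z, ?_, ?_, ?_⟩
  · intro k v
    refine ⟨1, h1p, fun i hi => ?_⟩
    change v * T i * v⁻¹ * (T i ^ 1)⁻¹ ∈ FP.W S 0 k
    rw [hT1 i hi]
    exact hconj k v ⟨i, hi⟩
  · intro k
    exact FP.open' S k
  · intro k σ
    exact FP.iff' S k σ

end Pool.Agent.Helper25.GG
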