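import Pool.Agent.Helper25.GG.FM

/-!
# Block FQ: the chain of subgroups, relative version
-/

set_option autoImplicit false

namespace Pool.Agent.Helper25.GG

open Module Pool.Agent.Helper25.ETC

variable {F K : Type} [Field F] [Field K] [Algebra F K] {p : ℕ} [Fact p.Prime] {n : ℕ} {ζ : K}
  {E : IntermediateField F K}

omit [Fact p.Prime] in
/-- one step of the chain inside a subgroup `N`. -/
theorem chain_step_rel {G : Type} [Group G] {N V V' A : Subgroup G} (hle : V' ≤ V) (hVN : V ≤ N)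
    (ψ : V →* Multiplicative (ZMod (p ^ 2))) (h1 : Function.Surjective ψ)
    (h2 : ∀ x : V, (x : G) ∈ V' ↔ p ∣ (Multiplicative.toAdd (ψ x)).val)
    (h3 : ∀ x : V, (x : G) ∈ A → ψ x = 1)
    (h : HasChain p (V.subgroupOf N) (A.subgroupOf N)) :
    HasChain p (V'.subgroupOf N) (A.subgroupOf N) := by
  refine chain_step (V := V.subgroupOf N) (V' := V'.subgroupOf N) ?_
    (ψ.comp (Subgroup.subgroupOfEquivOfLe hVN).toMonoidHom) ?_ ?_ ?_ h
  · intro x hx
    exact hle hx
  · exact h1.comp (Subgroup.subgroupOfEquivOfLe hVN).surjective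
  · intro x
    exact h2 ((Subgroup.subgroupOfEquivOfLe hVN) x)
  · intro x hx
    exact h3 ((Subgroup.subgroupOfEquivOfLe hVN) x) hx

theorem hasChain_rel (Cx : Ctx p F K ζ) {F1 : IntermediateField F K} (hζ1 : ζ ∈ F1)
    (hp2 : p = 2 → ∃ z ∈ F1, z ^ 2 = -1) (hle : F1 ≤ E) [FiniteDimensional F E]
    (hz2 : ∃ z ∈ E, IsPrimitiveRoot z (p ^ 2)) (A : Subgroup (K ≃ₐ[F] K))
    (hA : ∀ σ ∈ A, ∀ y : K, y ^ p ∈ E → σ y = y) :
    HasChain p (E.fixingSubgroup.subgroupOf F1.fixingSubgroup)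
      (A.subgroupOf F1.fixingSubgroup) := by
  classical
  have hp := Cx.hp
  have hζ := Cx.hζ
  -- the tower from any field containing a primitive `p ^ 2`-th root of unity
  have key : ∀ E0 : IntermediateField F K, F1 ≤ E0 → E0 ≤ E →
      (∃ z ∈ E0, IsPrimitiveRoot z (p ^ 2)) →
      HasChain p (E0.fixingSubgroup.subgroupOf F1.fixingSubgroup)
        (A.subgroupOf F1.fixingSubgroup) →
      HasChain p (E.fixingSubgroup.subgroupOf F1.fixingSubgroup)
        (A.subgroupOf F1.fixingSubgroup) := by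
    rintro E0 h10 hle ⟨z, hz0, hz⟩ h0
    have hζE0 : ζ ∈ E0 := h10 hζ1
    refine tower_induction hp hζ Cx.pc hζE0 hle
      (fun C => HasChain p (C.fixingSubgroup.subgroupOf F1.fixingSubgroup)
        (A.subgroupOf F1.fixingSubgroup)) h0 ?_
    rintro C B β hEC hBE St hC
    obtain ⟨ψ, hψ1, hψ2, hψ3⟩ := step_char2 Cx hz (hEC hz0) (hEC hζE0) St
    refine chain_step_rel (IntermediateField.fixingSubgroup_antitone St.le)
      (IntermediateField.fixingSubgroup_antitone (h10.trans hEC)) ψ hψ1 hψ2 ?_ hC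
    intro x hx
    apply hψ3
    intro y hy
    exact hA _ hx y (hBE hy)
  have hbot : HasChain p (F1.fixingSubgroup.subgroupOf F1.fixingSubgroup)
      (A.subgroupOf F1.fixingSubgroup) :=
    ⟨0, fun _ => ⊤, by rw [Subgroup.subgroupOf_self], rfl, fun i hi => by omega⟩
  by_cases hz : ∃ z ∈ F1, IsPrimitiveRoot z (p ^ 2)
  · exact key F1 le_rfl hle hz hbot
  · have hpne : p ≠ 2 := by
      rintro rfl
      obtain ⟨z, hz0, hz1⟩ := hp2 rfl
      apply hz
      refine ⟨z, hz0, ?_⟩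
      have hne : (-1 : K) ≠ 1 := by
        intro h
        have h1 : ζ ^ 2 = 1 := hζ.pow_eq_one
        have h2 : ζ ≠ 1 := hζ.ne_one (by norm_num)
        rcases sq_eq_one_iff.mp h1 with h3 | h3
        · exact h2 h3
        · exact h2 (h3.trans h)
      rw [IsPrimitiveRoot.iff_orderOf]
      apply orderOf_eq_prime_pow
      · rw [pow_one, hz1]
        exact hne
      · have h4 : z ^ 2 ^ (1 + 1) = (z ^ 2) ^ 2 := by ring
        rw [h4, hz1]
        norm_num
    obtain ⟨z, hzE, hzp⟩ := hz2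
    have hzn : z ∉ F1 := fun h => hz ⟨z, h, hzp⟩
    have hzpow : z ^ p ∈ F1 := by
      have : NeZero p := ⟨hp.ne_zero⟩
      have h1 : (z ^ p) ^ p = 1 := by
        rw [← pow_mul, ← pow_two, hzp.pow_eq_one]
      obtain ⟨i, -, hi⟩ := hζ.eq_pow_of_pow_eq_one h1
      rw [← hi]
      exact pow_mem hζ1 i
    obtain ⟨B, St, hmin⟩ := exists_step hp.ne_zero F1 hzn hzpow
    have hBE : B ≤ E := hmin E hle hzE
    obtain ⟨ψ, hψ1, hψ2, hψ3⟩ := cyc_char Cx hpne hzp hζ1 St
    refine key B St.le hBE ⟨z, St.mem, hzp⟩ (chain_step_rel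
      (IntermediateField.fixingSubgroup_antitone St.le) le_rfl ψ hψ1 hψ2 ?_ hbot)
    intro x hx
    apply hψ3
    intro y hy
    exact hA _ hx y (hBE hy)

end Pool.Agent.Helper25.GG
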