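import Pool.Agent.Helper25.GG.A1b
import Pool.Agent.Helper25.GG.A2
import Pool.Agent.Helper25.GG.A4
import Pool.Agent.Helper25.GG.A6
import Pool.Agent.Helper25.GG.P1

/-!
# Block P2: the rank of a smooth representation
-/

set_option autoImplicit false

namespace Pool.Agent.Helper25.GG

open Module

variable {p : ℕ} [Fact p.Prime] {V : Type} [Group V] {n : ℕ}

variable {X : Type} [AddCommGroup X] [Module (ZMod p) X] {ρ : V →* Module.End (ZMod p) X}
  {Y : Type} [AddCommGroup Y] [Module (ZMod p) Y] {ρ' : V →* Module.End (ZMod p) Y}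
  {X' : Type} [AddCommGroup X'] [Module (ZMod p) X'] {ρ'' : V →* Module.End (ZMod p) X'}

theorem fin_of_inj {R M N : Type} [Ring R] [IsNoetherianRing R] [AddCommGroup M] [Module R M]
    [AddCommGroup N] [Module R N] (h : Module.Finite R N) (f : M →ₗ[R] N)
    (hf : Function.Injective f) : Module.Finite R M :=
  Module.Finite.of_injective f hf

theorem finrank_exact {R M N P : Type} [Ring R] [Nontrivial R] [NoZeroDivisors R]
    [IsNoetherianRing R] [AddCommGroup M] [Module R M] [AddCommGroup N] [Module R N]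
    [AddCommGroup P] [Module R P] (h : Module.Finite R M) (f : M →ₗ[R] N) (g : P →ₗ[R] M)
    (hf : Function.Surjective f) (hg : Function.Injective g)
    (hex : LinearMap.range g = LinearMap.ker f) :
    finrank R M = finrank R N + finrank R P := by
  have h2 := finrank_quot_add (R := R) (M := M) (LinearMap.ker f)
  have e1 := (LinearMap.quotKerEquivOfSurjective f hf).finrank_eq
  have e2 := (LinearEquiv.ofInjective g hg).finrank_eq
  rw [hex] at e2
  rw [← h2, e1, e2]

/-- the `j`-th coefficient of an equivariant map `C ^ m → C`. -/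
noncomputable def piCoef (Z : PZ p V n) (m : ℕ) (f : Pd Z (Cf.ρm Z 0 m)) (j : Fin m) : Lam Z :=
  ⟨f.1.comp (LinearMap.single (ZMod p) (fun _ : Fin m => Cf Z 0) j), by
    rw [mem_Lam]
    intro v x
    rw [LinearMap.comp_apply, LinearMap.comp_apply, ← f.2 v]
    congr 1
    funext i
    rw [Cf.ρm_apply]
    by_cases h : i = j
    · subst h; simp
    · simp [Pi.single_eq_of_ne h]⟩

theorem piCoef_apply (Z : PZ p V n) (m : ℕ) (f : Pd Z (Cf.ρm Z 0 m)) (j : Fin m) (x : Cf Z 0) :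
    (piCoef Z m f j).1 x = f.1 (Pi.single j x) := rfl

theorem sum_piCoef (Z : PZ p V n) (m : ℕ) (f : Pd Z (Cf.ρm Z 0 m)) (x : Fin m → Cf Z 0) :
    f.1 x = ∑ j, (piCoef Z m f j).1 (x j) := by
  conv_lhs => rw [← Finset.univ_sum_single x]
  rw [map_sum]
  rfl

/-- the equivariant maps `C ^ m → C`. -/
noncomputable def piEquiv (Z : PZ p V n) (m : ℕ) :
    Pd Z (Cf.ρm Z 0 m) ≃ₗ[Lam Z] (Fin m → Lam Z) where
  toFun f j := piCoef Z m f j
  map_add' f g := by
    funext j
    apply Subtype.ext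
    rfl
  map_smul' l f := by
    funext j
    apply Subtype.ext
    rfl
  invFun b := ⟨∑ j, (b j).1.comp (LinearMap.proj j), by
    intro v x
    rw [LinearMap.sum_apply, LinearMap.sum_apply, map_sum]
    refine Finset.sum_congr rfl fun j _ => ?_
    rw [LinearMap.comp_apply, LinearMap.comp_apply, LinearMap.proj_apply, LinearMap.proj_apply,
      Cf.ρm_apply]
    exact (b j).2 v (x j)⟩
  left_inv f := by
    apply Subtype.ext
    apply LinearMap.ext
    intro x
    rw [sum_piCoef Z m f x]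
    simp only [LinearMap.sum_apply, LinearMap.comp_apply, LinearMap.proj_apply]
  right_inv b := by
    funext j
    apply Subtype.ext
    apply LinearMap.ext
    intro x
    rw [piCoef_apply]
    simp only [LinearMap.sum_apply, LinearMap.comp_apply, LinearMap.proj_apply]
    rw [Finset.sum_eq_single j]
    · rw [Pi.single_eq_same]
    · intro i _ hi
      rw [Pi.single_eq_of_ne hi, map_zero]
    · intro h; exact absurd (Finset.mem_univ _) h

theorem Pd.pi_finite (Z : PZ p V n) (m : ℕ) : Module.Finite (Lam Z) (Pd Z (Cf.ρm Z 0 m)) :=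
  Module.Finite.equiv (piEquiv Z m).symm

theorem Pd.finite (Z : PZ p V n) (hsm : Smo Z ρ) (hfin : FiniteDimensional (ZMod p) (fix ρ ⊤)) :
    Module.Finite (Lam Z) (Pd Z ρ) := by
  obtain ⟨u, hu, hinj⟩ := exists_embed Z hsm hfin
  have := Pd.pi_finite Z (finrank (ZMod p) (fix ρ ⊤))
  exact Module.Finite.of_surjective _ (Pd.map_surj Z hsm (Cf.smom Z _) hu hinj)

/-- generators of the dual separate points. -/
theorem Pd.sep (Z : PZ p V n) (hsm : Smo Z ρ) {m : ℕ} {φ : Fin m → Pd Z ρ}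
    (hφ : Submodule.span (Lam Z) (Set.range φ) = ⊤) {x : X} (hx : ∀ j, (φ j).1 x = 0) : x = 0 := by
  have key : ∀ f : Pd Z ρ, f.1 x = 0 := by
    intro f
    have hf : f ∈ Submodule.span (Lam Z) (Set.range φ) := by rw [hφ]; trivial
    refine Submodule.span_induction (p := fun f _ => f.1 x = 0) ?_ ?_ ?_ ?_ hf
    · rintro _ ⟨j, rfl⟩
      exact hx j
    · rfl
    · intro a b _ _ ha hb
      change a.1 x + b.1 x = 0
      rw [ha, hb, add_zero]
    · intro l a _ ha
      rw [Pd.smul_apply, ha, map_zero]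
  rw [← Module.forall_dual_apply_eq_zero_iff (ZMod p)]
  intro μ
  obtain ⟨f, hf⟩ := Pd.exists_of_dual Z hsm μ
  have h1 := hf x 1
  rw [key f, map_one] at h1
  exact h1.symm

/-- a finite family of equivariant maps into `C` as one equivariant map. -/
theorem Pd.pi_eqv (Z : PZ p V n) {m : ℕ} (φ : Fin m → Pd Z ρ) :
    Eqv ρ (Cf.ρm Z 0 m) (LinearMap.pi fun j => (φ j).1) := by
  intro v x
  funext j
  rw [LinearMap.pi_apply, Cf.ρm_apply, LinearMap.pi_apply]
  exact (φ j).2 v x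

/-- a representation with finitely generated dual embeds into `C ^ m`. -/
theorem exists_embed_of_finite (Z : PZ p V n) (hsm : Smo Z ρ)
    (hfin : Module.Finite (Lam Z) (Pd Z ρ)) :
    ∃ (m : ℕ) (u : X →ₗ[ZMod p] (Fin m → Cf Z 0)), Eqv ρ (Cf.ρm Z 0 m) u ∧
      Function.Injective u := by
  obtain ⟨m, φ, hφ⟩ := Module.Finite.exists_fin (R := Lam Z) (M := Pd Z ρ)
  refine ⟨m, LinearMap.pi fun j => (φ j).1, Pd.pi_eqv Z φ, ?_⟩
  rw [← LinearMap.ker_eq_bot, LinearMap.ker_eq_bot']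
  intro x hx
  exact Pd.sep Z hsm hφ fun j => congrFun hx j

theorem fix_finite (Z : PZ p V n) (hsm : Smo Z ρ) (hfin : Module.Finite (Lam Z) (Pd Z ρ)) (k : ℕ) :
    FiniteDimensional (ZMod p) (fix ρ (Z.W 0 k)) := by
  obtain ⟨m, u, hu, hinj⟩ := exists_embed_of_finite Z hsm hfin
  have hC := (finrank_Cl Z (Nat.zero_le n) k).1
  let F : fix ρ (Z.W 0 k) →ₗ[ZMod p] (Fin m → Cl Z 0 k) :=
    { toFun := fun x j => ⟨((u x.1) j).1, by
        intro y w hw
        have h1 := congrFun (hu w x.1) j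
        rw [x.2 w hw, Cf.ρm_apply] at h1
        have h2 := congrArg (fun g : Cf Z 0 => g.1 y) h1
        simp only [Cf.ρ_apply] at h2
        exact h2.symm⟩
      map_add' := by
        intro x y
        funext j
        apply Subtype.ext
        change ((u (x.1 + y.1)) j).1 = _
        rw [map_add]
        rfl
      map_smul' := by
        intro c x
        funext j
        apply Subtype.ext
        change ((u (c • x.1)) j).1 = _
        rw [map_smul]
        rfl }
  refine FiniteDimensional.of_injective F ?_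
  intro x y hxy
  apply Subtype.ext
  apply hinj
  funext j
  apply Subtype.ext
  have h1 := congrFun hxy j
  exact congrArg (fun g : Cl Z 0 k => g.1) h1

theorem fix_finite_quot (Z : PZ p V n) (hX : Smo Z ρ) (hY : Smo Z ρ') {g : X →ₗ[ZMod p] Y}
    (hg : Eqv ρ ρ' g) (hsurj : Function.Surjective g)
    (hfin : FiniteDimensional (ZMod p) (fix ρ ⊤)) :
    FiniteDimensional (ZMod p) (fix ρ' ⊤) := by
  have h1 := Pd.finite Z hX hfin
  have h2 : Module.Finite (Lam Z) (Pd Z ρ') :=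
    @fin_of_inj (Lam Z) (Pd Z ρ') (Pd Z ρ) _ _ _ _ _ _ h1 (Pd.map Z g hg) (Pd.map_inj Z hg hsurj)
  have h3 := fix_finite Z hY h2 0
  rwa [Z.zero] at h3

theorem rk_add (Z : PZ p V n) {u : X →ₗ[ZMod p] Y} {g : Y →ₗ[ZMod p] X'}
    (hX : Smo Z ρ) (hY : Smo Z ρ') (hX' : Smo Z ρ'')
    (hu : Eqv ρ ρ' u) (hg : Eqv ρ' ρ'' g) (hinj : Function.Injective u)
    (hsurj : Function.Surjective g) (hex : ∀ y, g y = 0 ↔ ∃ x, u x = y)
    (hfin : FiniteDimensional (ZMod p) (fix ρ' ⊤)) :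
    rk Z ρ' = rk Z ρ + rk Z ρ'' := by
  have h1 := Pd.finite Z hY hfin
  exact @finrank_exact (Lam Z) (Pd Z ρ') (Pd Z ρ) (Pd Z ρ'') _ _ _ _ _ _ _ _ _ _ h1
    (Pd.map Z u hu) (Pd.map Z g hg) (Pd.map_surj Z hX hY hu hinj) (Pd.map_inj Z hg hsurj)
    (Pd.map_exact Z hu hg hsurj hex)

theorem rk_congr (Z : PZ p V n) (e : X ≃ₗ[ZMod p] Y) (he : Eqv ρ ρ' e.toLinearMap) :
    rk Z ρ = rk Z ρ' := by
  have he' : Eqv ρ' ρ e.symm.toLinearMap := by
    intro v y
    apply e.injective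
    have h1 := he v (e.symm y)
    simp only [LinearEquiv.coe_coe, LinearEquiv.apply_symm_apply] at h1 ⊢
    exact h1.symm
  have e1 : Pd Z ρ ≃ₗ[Lam Z] Pd Z ρ' :=
    LinearEquiv.ofLinearMap (Pd.map Z e.symm.toLinearMap he') (Pd.map Z e.toLinearMap he)
      (by
        apply LinearMap.ext
        intro f
        apply Subtype.ext
        apply LinearMap.ext
        intro x
        change f.1 (e (e.symm x)) = f.1 x
        rw [LinearEquiv.apply_symm_apply])
      (by
        apply LinearMap.ext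
        intro f
        apply Subtype.ext
        apply LinearMap.ext
        intro x
        change f.1 (e.symm (e x)) = f.1 x
        rw [LinearEquiv.symm_apply_apply])
  exact e1.finrank_eq

theorem rk_pi (Z : PZ p V n) (m : ℕ) : rk Z (Cf.ρm Z 0 m) = m := by
  rw [rk, (piEquiv Z m).finrank_eq, Module.finrank_fin_fun]

/-- a representation maps onto `C ^ rk`. -/
theorem exists_onto (Z : PZ p V n) (hsm : Smo Z ρ)
    (hfin : FiniteDimensional (ZMod p) (fix ρ ⊤)) :
    ∃ u : X →ₗ[ZMod p] (Fin (rk Z ρ) → Cf Z 0), Eqv ρ (Cf.ρm Z 0 (rk Z ρ)) u ∧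
      Function.Surjective u := by
  have h1 := Pd.finite Z hsm hfin
  obtain ⟨φ, hφ⟩ := exists_indep (R := Lam Z) (M := Pd Z ρ)
  change ∃ u : X →ₗ[ZMod p] (Fin (finrank (Lam Z) (Pd Z ρ)) → Cf Z 0),
    Eqv ρ (Cf.ρm Z 0 (finrank (Lam Z) (Pd Z ρ))) u ∧ Function.Surjective u
  generalize finrank (Lam Z) (Pd Z ρ) = r at φ hφ ⊢
  set u : X →ₗ[ZMod p] (Fin r → Cf Z 0) := LinearMap.pi fun j => (φ j).1 with hu_def
  have hu : Eqv ρ (Cf.ρm Z 0 r) u := Pd.pi_eqv Z φ
  refine ⟨u, hu, ?_⟩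
  rw [← LinearMap.range_eq_top]
  by_contra hne
  set S := LinearMap.range u with hS_def
  have hS : Stb (Cf.ρm Z 0 r) S := by
    rintro v _ ⟨x, rfl⟩
    exact ⟨ρ v x, hu v x⟩
  have hsmQ : Smo Z (quoρ (Cf.ρm Z 0 r) S hS) := by
    intro w
    obtain ⟨y, rfl⟩ := Submodule.mkQ_surjective S w
    obtain ⟨k, hk⟩ := Cf.smom Z r y
    exact ⟨k, fun v hv => by rw [quoρ_mk, hk v hv]⟩
  obtain ⟨y, hy⟩ : ∃ y, y ∉ S := by
    by_contra hcon
    push Not at hcon
    exact hne (Submodule.eq_top_iff'.2 hcon)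
  have hy0 : S.mkQ y ≠ 0 := by
    rw [Ne, Submodule.mkQ_apply, Submodule.Quotient.mk_eq_zero]
    exact hy
  obtain ⟨μ, hμ⟩ : ∃ μ : Module.Dual (ZMod p) ((Fin r → Cf Z 0) ⧸ S), μ (S.mkQ y) ≠ 0 := by
    by_contra hcon
    push Not at hcon
    exact hy0 ((Module.forall_dual_apply_eq_zero_iff (ZMod p) _).1 hcon)
  obtain ⟨f, hf⟩ := Pd.exists_of_dual Z hsmQ μ
  have hmk : Eqv (Cf.ρm Z 0 r) (quoρ (Cf.ρm Z 0 r) S hS) S.mkQ := fun v x => (quoρ_mk _ S hS v x).symm
  set g := Pd.map Z S.mkQ hmk f with hg_def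
  have hgS : ∀ x, g.1 (u x) = 0 := by
    intro x
    rw [hg_def, Pd.map_apply]
    have : S.mkQ (u x) = 0 := by
      rw [Submodule.mkQ_apply, Submodule.Quotient.mk_eq_zero]
      exact ⟨x, rfl⟩
    rw [this, map_zero]
  have hsum : ∑ j, piCoef Z r g j • φ j = 0 := by
    apply Subtype.ext
    apply LinearMap.ext
    intro x
    have h2 := hgS x
    rw [sum_piCoef] at h2
    change _ = (0 : Cf Z 0)
    rw [← h2]
    have h3 : ((∑ j, piCoef Z r g j • φ j : Pd Z ρ) : X →ₗ[ZMod p] Cf Z 0) =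
        ∑ j, ((piCoef Z r g j • φ j : Pd Z ρ) : X →ₗ[ZMod p] Cf Z 0) := by
      rw [AddSubmonoidClass.coe_finsetSum]
    rw [h3, LinearMap.sum_apply]
    rfl
  have hb := Fintype.linearIndependent_iff.1 hφ _ hsum
  have hg0 : g.1 y = 0 := by
    rw [sum_piCoef]
    refine Finset.sum_eq_zero fun j _ => ?_
    rw [hb j]
    rfl
  apply hμ
  have h4 := hf (S.mkQ y) 1
  rw [map_one] at h4
  rw [hg_def, Pd.map_apply] at hg0
  rw [hg0] at h4
  exact h4.symm

/-- a representation of rank `0` embeds into a sum of kernels of nonzero endomorphisms of `C`. -/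
theorem exists_tors (Z : PZ p V n) (hsm : Smo Z ρ)
    (hfin : FiniteDimensional (ZMod p) (fix ρ ⊤)) (h0 : rk Z ρ = 0) :
    ∃ (m : ℕ) (φ : Fin m → Pd Z ρ) (l : Fin m → Lam Z), (∀ j, l j ≠ 0) ∧
      (∀ j x, (l j).1 ((φ j).1 x) = 0) ∧ ∀ x, (∀ j, (φ j).1 x = 0) → x = 0 := by
  have h1 := Pd.finite Z hsm hfin
  obtain ⟨m, φ, hφ⟩ := Module.Finite.exists_fin (R := Lam Z) (M := Pd Z ρ)
  have h2 : ∀ j, ∃ r : Lam Z, r ≠ 0 ∧ r • φ j = 0 := by
    intro j
    refine exists_smul_eq_zero (R := Lam Z) (M := Pd Z ρ) ?_ (φ j)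
    exact h0
  choose l hl0 hl using h2
  refine ⟨m, φ, l, hl0, fun j x => ?_, fun x hx => Pd.sep Z hsm hφ hx⟩
  rw [← Pd.smul_apply, hl j]
  rfl

end Pool.Agent.Helper25.GG
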