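import Pool.Agent.Helper25.GG.A5
import Pool.Agent.Helper25.GG.P2

/-!
# Block P3: growth of the fixed vectors of W 0 k
-/

set_option autoImplicit false

namespace Pool.Agent.Helper25.GG

open Module

variable {p : ℕ} [Fact p.Prime] {V : Type} [Group V] {n : ℕ}

variable {X : Type} [AddCommGroup X] [Module (ZMod p) X] {ρ : V →* Module.End (ZMod p) X}

section Aux

variable {Y : Type} [AddCommGroup Y] [Module (ZMod p) Y] {ρ' : V →* Module.End (ZMod p) Y}
  {X' : Type} [AddCommGroup X'] [Module (ZMod p) X'] {ρ'' : V →* Module.End (ZMod p) X'}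

/-- left exactness of fixed vectors. -/
theorem P3.fix_exact_le (U : Subgroup V) {u : X →ₗ[ZMod p] Y} {g : Y →ₗ[ZMod p] X'}
    (hu : Eqv ρ ρ' u) (hg : Eqv ρ' ρ'' g) (hinj : Function.Injective u)
    (hex : ∀ y, g y = 0 → ∃ x, u x = y)
    (f1 : FiniteDimensional (ZMod p) (fix ρ U)) (f2 : FiniteDimensional (ZMod p) (fix ρ' U))
    (f3 : FiniteDimensional (ZMod p) (fix ρ'' U)) :
    finrank (ZMod p) (fix ρ' U) ≤ finrank (ZMod p) (fix ρ U) + finrank (ZMod p) (fix ρ'' U) := by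
  have hgr : ∀ y ∈ fix ρ' U, g y ∈ fix ρ'' U := by
    intro y hy w hw
    rw [← hg, hy w hw]
  have hur : ∀ x ∈ fix ρ U, u x ∈ fix ρ' U := by
    intro x hx w hw
    rw [← hu, hx w hw]
  let G : fix ρ' U →ₗ[ZMod p] fix ρ'' U := g.restrict hgr
  let F : fix ρ U →ₗ[ZMod p] fix ρ' U := u.restrict hur
  have h1 := LinearMap.finrank_range_add_finrank_ker G
  have h2 : finrank (ZMod p) (LinearMap.range G) ≤ finrank (ZMod p) (fix ρ'' U) :=
    Submodule.finrank_le _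
  have h3 : LinearMap.ker G ≤ LinearMap.range F := by
    intro y hy
    have hy' : g y.1 = 0 := by
      have := congrArg Subtype.val (LinearMap.mem_ker.1 hy)
      exact this
    obtain ⟨x, hx⟩ := hex y.1 hy'
    refine ⟨⟨x, fun w hw => hinj ?_⟩, Subtype.ext hx⟩
    rw [hu, hx, y.2 w hw]
  have h4 : finrank (ZMod p) (LinearMap.ker G) ≤ finrank (ZMod p) (LinearMap.range F) :=
    Submodule.finrank_mono h3
  have h5 : finrank (ZMod p) (LinearMap.range F) ≤ finrank (ZMod p) (fix ρ U) :=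
    LinearMap.finrank_range_le F
  omega

theorem P3.fix_sub_finite (U : Subgroup V) {u : X →ₗ[ZMod p] Y}
    (hu : Eqv ρ ρ' u) (hinj : Function.Injective u)
    (f2 : FiniteDimensional (ZMod p) (fix ρ' U)) : FiniteDimensional (ZMod p) (fix ρ U) := by
  have hur : ∀ x ∈ fix ρ U, u x ∈ fix ρ' U := by
    intro x hx w hw
    rw [← hu, hx w hw]
  let F : fix ρ U →ₗ[ZMod p] fix ρ' U := u.restrict hur
  refine FiniteDimensional.of_injective F ?_
  intro x y hxy
  apply Subtype.ext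
  apply hinj
  exact congrArg Subtype.val hxy

/-- the fixed vectors of `C ^ m`. -/
noncomputable def P3.fixPi (Z : PZ p V n) (m k : ℕ) :
    fix (Cf.ρm Z 0 m) (Z.W 0 k) ≃ₗ[ZMod p] (Fin m → Cl Z 0 k) where
  toFun f j := ⟨(f.1 j).1, fun x w hw => by
    have h := congrFun (f.2 w hw) j
    have h2 := congrFun (congrArg Subtype.val h) x
    exact h2⟩
  map_add' _ _ := rfl
  map_smul' _ _ := rfl
  invFun g := ⟨fun j => ⟨(g j).1, Cl_le_Cf Z 0 k (g j).2⟩, fun w hw => by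
    funext j
    apply Subtype.ext
    funext x
    exact (g j).2 x w hw⟩
  left_inv f := rfl
  right_inv g := rfl

theorem P3.finrank_fixPi (Z : PZ p V n) (m k : ℕ) :
    FiniteDimensional (ZMod p) (fix (Cf.ρm Z 0 m) (Z.W 0 k)) ∧
      finrank (ZMod p) (fix (Cf.ρm Z 0 m) (Z.W 0 k)) = m * p ^ (n * k) := by
  obtain ⟨h1, h2⟩ := finrank_Cl Z (Nat.zero_le n) k
  have := h1
  refine ⟨FiniteDimensional.of_injective (P3.fixPi Z m k).toLinearMap (P3.fixPi Z m k).injective,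
    ?_⟩
  rw [(P3.fixPi Z m k).finrank_eq, Module.finrank_pi_fintype]
  simp [h2]

theorem P3.fixTop (Z : PZ p V n) (ρ : V →* Module.End (ZMod p) X)
    (h : FiniteDimensional (ZMod p) (fix ρ (Z.W 0 0))) :
    FiniteDimensional (ZMod p) (fix ρ ⊤) := by
  rw [Z.zero] at h
  exact h

/-- rank zero representations. -/
theorem P3.tors_growth (Z : PZ p V n) (hsm : Smo Z ρ)
    (hfin : FiniteDimensional (ZMod p) (fix ρ ⊤)) (h0 : rk Z ρ = 0) : ∃ C : ℕ, ∀ k : ℕ,
    finrank (ZMod p) (fix ρ (Z.W 0 k)) * p ^ k ≤ C * p ^ (n * k) := by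
  classical
  obtain ⟨m, φ, l, hl0, hl, hinj⟩ := exists_tors Z hsm hfin h0
  have hC : ∀ j, ∃ C : ℕ, ∀ k : ℕ,
      finrank (ZMod p) ↥(LinearMap.ker (l j).1 ⊓ (Cl Z 0 k).comap (Cf Z 0).subtype) * p ^ k ≤
        C * p ^ (n * k) := by
    intro j
    have h := ker_growth Z (Nat.zero_le n) (l := (l j).1) (mem_Lam.1 (l j).2)
      (fun h => hl0 j (Subtype.ext h))
    simpa only [Nat.sub_zero] using h
  choose C hC using hC
  refine ⟨∑ j, C j, fun k => ?_⟩
  have hCl := (finrank_Cl Z (Nat.zero_le n) k).1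
  have hfd : ∀ j, FiniteDimensional (ZMod p)
      ↥(LinearMap.ker (l j).1 ⊓ (Cl Z 0 k).comap (Cf Z 0).subtype) := by
    intro j
    let I : ↥(LinearMap.ker (l j).1 ⊓ (Cl Z 0 k).comap (Cf Z 0).subtype) →ₗ[ZMod p] Cl Z 0 k :=
      { toFun := fun f => ⟨f.1.1, f.2.2⟩
        map_add' := fun _ _ => rfl
        map_smul' := fun _ _ => rfl }
    refine FiniteDimensional.of_injective I ?_
    intro f f' h
    apply Subtype.ext
    apply Subtype.ext
    have h2 : (I f).1 = (I f').1 := congrArg Subtype.val h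
    exact h2
  let F : fix ρ (Z.W 0 k) →ₗ[ZMod p]
      (∀ j : Fin m, ↥(LinearMap.ker (l j).1 ⊓ (Cl Z 0 k).comap (Cf Z 0).subtype)) :=
    { toFun := fun x j => ⟨(φ j).1 x.1, by
        refine ⟨hl j x.1, ?_⟩
        intro y w hw
        have h1 := (φ j).2 w x.1
        rw [x.2 w hw] at h1
        have h2 := congrFun (congrArg Subtype.val h1) y
        exact h2.symm⟩
      map_add' := fun x y => by
        funext j
        apply Subtype.ext
        exact map_add (φ j).1 x.1 y.1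
      map_smul' := fun c x => by
        funext j
        apply Subtype.ext
        exact map_smul (φ j).1 c x.1 }
  have hF : Function.Injective F := by
    rw [injective_iff_map_eq_zero]
    intro x hx
    apply Subtype.ext
    apply hinj
    intro j
    exact congrArg Subtype.val (congrFun hx j)
  have h1 := LinearMap.finrank_le_finrank_of_injective hF
  rw [Module.finrank_pi_fintype] at h1
  calc finrank (ZMod p) (fix ρ (Z.W 0 k)) * p ^ k
      ≤ (∑ j, finrank (ZMod p)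
          ↥(LinearMap.ker (l j).1 ⊓ (Cl Z 0 k).comap (Cf Z 0).subtype)) * p ^ k :=
        Nat.mul_le_mul_right _ h1
    _ = ∑ j, finrank (ZMod p)
          ↥(LinearMap.ker (l j).1 ⊓ (Cl Z 0 k).comap (Cf Z 0).subtype) * p ^ k :=
        Finset.sum_mul _ _ _
    _ ≤ ∑ j, C j * p ^ (n * k) := Finset.sum_le_sum fun j _ => hC j k
    _ = (∑ j, C j) * p ^ (n * k) := (Finset.sum_mul _ _ _).symm

end Aux

theorem growth_upper (Z : PZ p V n) (hsm : Smo Z ρ)
    (hfin : FiniteDimensional (ZMod p) (fix ρ ⊤)) : ∃ C : ℕ, ∀ k : ℕ,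
    finrank (ZMod p) (fix ρ (Z.W 0 k)) * p ^ k ≤ rk Z ρ * p ^ (n * k) * p ^ k + C * p ^ (n * k) := by
  obtain ⟨u, hu, hsurj⟩ := exists_onto Z hsm hfin
  have hS : Stb ρ (LinearMap.ker u) := by
    intro v x hx
    rw [LinearMap.mem_ker] at hx ⊢
    rw [hu, hx, map_zero]
  have hι : Eqv (subρ ρ (LinearMap.ker u) hS) ρ (LinearMap.ker u).subtype := fun v x => rfl
  have hιinj : Function.Injective (LinearMap.ker u).subtype := Subtype.val_injective
  have hsmN : Smo Z (subρ ρ (LinearMap.ker u) hS) := by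
    intro x
    obtain ⟨k, hk⟩ := hsm x.1
    exact ⟨k, fun w hw => Subtype.ext (hk w hw)⟩
  have hadd := rk_add Z hsmN hsm (Cf.smom Z (rk Z ρ)) hι hu hιinj hsurj
    (fun y => ⟨fun h => ⟨⟨y, h⟩, rfl⟩, fun ⟨x, hx⟩ => by rw [← hx]; exact x.2⟩) hfin
  rw [rk_pi] at hadd
  have h0 : rk Z (subρ ρ (LinearMap.ker u) hS) = 0 := by omega
  have hfinN := P3.fix_sub_finite ⊤ hι hιinj hfin
  obtain ⟨C, hC⟩ := P3.tors_growth Z hsmN hfinN h0
  refine ⟨C, fun k => ?_⟩
  have hX : FiniteDimensional (ZMod p) (fix ρ (Z.W 0 k)) :=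
    fix_finite Z hsm (Pd.finite Z hsm hfin) k
  obtain ⟨hc1, hc2⟩ := P3.finrank_fixPi Z (rk Z ρ) k
  have h := P3.fix_exact_le (Z.W 0 k) hι hu hιinj (fun y hy => ⟨⟨y, hy⟩, rfl⟩)
    (P3.fix_sub_finite _ hι hιinj hX) hX hc1
  rw [hc2] at h
  calc finrank (ZMod p) (fix ρ (Z.W 0 k)) * p ^ k
      ≤ (finrank (ZMod p) (fix (subρ ρ (LinearMap.ker u) hS) (Z.W 0 k)) +
          rk Z ρ * p ^ (n * k)) * p ^ k := Nat.mul_le_mul_right _ h
    _ = finrank (ZMod p) (fix (subρ ρ (LinearMap.ker u) hS) (Z.W 0 k)) * p ^ k +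
          rk Z ρ * p ^ (n * k) * p ^ k := by ring
    _ ≤ C * p ^ (n * k) + rk Z ρ * p ^ (n * k) * p ^ k := Nat.add_le_add_right (hC k) _
    _ = rk Z ρ * p ^ (n * k) * p ^ k + C * p ^ (n * k) := Nat.add_comm _ _

theorem growth_lower (Z : PZ p V n) (hsm : Smo Z ρ)
    (hfin : FiniteDimensional (ZMod p) (fix ρ ⊤)) : ∃ C : ℕ, ∀ k : ℕ,
    rk Z ρ * p ^ (n * k) * p ^ k ≤ finrank (ZMod p) (fix ρ (Z.W 0 k)) * p ^ k + C * p ^ (n * k) := by
  obtain ⟨u, hu, hinj⟩ := exists_embed Z hsm hfin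
  generalize finrank (ZMod p) (fix ρ ⊤) = m at u hu hinj
  have hS : Stb (Cf.ρm Z 0 m) (LinearMap.range u) := by
    rintro v _ ⟨x, rfl⟩
    exact ⟨ρ v x, hu v x⟩
  have hq : Eqv (Cf.ρm Z 0 m) (quoρ (Cf.ρm Z 0 m) (LinearMap.range u) hS)
      (LinearMap.range u).mkQ := fun v x => (quoρ_mk _ _ hS v x).symm
  have hqs : Function.Surjective (LinearMap.range u).mkQ := Submodule.mkQ_surjective _
  have hsmC := Cf.smom Z m
  have hsmQ : Smo Z (quoρ (Cf.ρm Z 0 m) (LinearMap.range u) hS) := by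
    intro y
    obtain ⟨x, rfl⟩ := hqs y
    obtain ⟨k, hk⟩ := hsmC x
    exact ⟨k, fun w hw => by rw [quoρ_mk, hk w hw]⟩
  have hfinC : FiniteDimensional (ZMod p) (fix (Cf.ρm Z 0 m) ⊤) :=
    P3.fixTop Z _ (P3.finrank_fixPi Z m 0).1
  have hfinQ := fix_finite_quot Z hsmC hsmQ hq hqs hfinC
  have hex : ∀ y, (LinearMap.range u).mkQ y = 0 ↔ ∃ x, u x = y := by
    intro y
    rw [Submodule.mkQ_apply, Submodule.Quotient.mk_eq_zero, LinearMap.mem_range]
  have hadd := rk_add Z hsm hsmC hsmQ hu hq hinj hqs hex hfinC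
  rw [rk_pi] at hadd
  obtain ⟨C, hC⟩ := growth_upper Z hsmQ hfinQ
  refine ⟨C, fun k => ?_⟩
  have hX : FiniteDimensional (ZMod p) (fix ρ (Z.W 0 k)) :=
    fix_finite Z hsm (Pd.finite Z hsm hfin) k
  have hQ : FiniteDimensional (ZMod p)
      (fix (quoρ (Cf.ρm Z 0 m) (LinearMap.range u) hS) (Z.W 0 k)) :=
    fix_finite Z hsmQ (Pd.finite Z hsmQ hfinQ) k
  obtain ⟨hc1, hc2⟩ := P3.finrank_fixPi Z m k
  have h := P3.fix_exact_le (Z.W 0 k) hu hq hinj (fun y hy => (hex y).1 hy) hX hc1 hQ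
  rw [hc2] at h
  have hCk := hC k
  generalize finrank (ZMod p) (fix (quoρ (Cf.ρm Z 0 m) (LinearMap.range u) hS) (Z.W 0 k)) = a
    at h hCk
  generalize rk Z (quoρ (Cf.ρm Z 0 m) (LinearMap.range u) hS) = b at hadd hCk
  have h' : m * p ^ (n * k) * p ^ k ≤ (finrank (ZMod p) (fix ρ (Z.W 0 k)) + a) * p ^ k :=
    Nat.mul_le_mul_right _ h
  rw [hadd] at h'
  have e1 : (rk Z ρ + b) * p ^ (n * k) * p ^ k =
      rk Z ρ * p ^ (n * k) * p ^ k + b * p ^ (n * k) * p ^ k := by ring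
  have e2 : (finrank (ZMod p) (fix ρ (Z.W 0 k)) + a) * p ^ k =
      finrank (ZMod p) (fix ρ (Z.W 0 k)) * p ^ k + a * p ^ k := by ring
  rw [e1, e2] at h'
  omega

end Pool.Agent.Helper25.GG
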