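import Pool.Agent.Helper25.GG.Defs2

/-!
# Block S2: procyclic subgroups are small when n = 2
-/

set_option autoImplicit false

namespace Pool.Agent.Helper25.GG

open Module

variable {p : ℕ} [Fact p.Prime] {V : Type} [Group V] {n : ℕ}

/-- a cyclic group has at most one subgroup of order `p`. -/
theorem mem_zpowers_of_pow_eq_one_S2 {Q : Type} [Group Q] {d a b : Q}
    (ha : a ∈ Subgroup.zpowers d) (hb : b ∈ Subgroup.zpowers d) (ha1 : a ≠ 1)
    (hap : a ^ p = 1) (hbp : b ^ p = 1) : b ∈ Subgroup.zpowers a := by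
  have hp : p.Prime := Fact.out
  obtain ⟨x, hx⟩ := ha
  obtain ⟨y, hy⟩ := hb
  simp only at hx hy
  obtain ⟨N, hN⟩ : ∃ N : ℤ, N = (orderOf d : ℤ) := ⟨_, rfl⟩
  have hiff : ∀ z : ℤ, d ^ z = 1 ↔ N ∣ z := by
    intro z
    rw [hN, orderOf_dvd_iff_zpow_eq_one]
  have h1 : ¬ N ∣ x := by
    rw [← hiff, hx]
    exact ha1
  have h2 : N ∣ x * (p : ℤ) := by
    rw [← hiff, zpow_mul, hx, zpow_natCast, hap]
  have h3 : N ∣ y * (p : ℤ) := by
    rw [← hiff, zpow_mul, hy, zpow_natCast, hbp]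
  obtain ⟨g, hg⟩ : ∃ g : ℤ, g = (Int.gcd N x : ℤ) := ⟨_, rfl⟩
  obtain ⟨N', hN'⟩ : g ∣ N := hg ▸ Int.gcd_dvd_left N x
  obtain ⟨x', hx'⟩ : g ∣ x := hg ▸ Int.gcd_dvd_right N x
  have hbez : g = N * Int.gcdA N x + x * Int.gcdB N x := by
    rw [hg]
    exact Int.gcd_eq_gcd_ab N x
  have hg0 : g ≠ 0 := by
    intro h0
    apply h1
    rw [hx', h0, zero_mul]
    exact dvd_zero _
  have hcop : IsCoprime N' x' := by
    refine ⟨Int.gcdA N x, Int.gcdB N x, ?_⟩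
    apply mul_left_cancel₀ hg0
    calc g * (Int.gcdA N x * N' + Int.gcdB N x * x')
        = (g * N') * Int.gcdA N x + (g * x') * Int.gcdB N x := by ring
      _ = g * 1 := by rw [← hN', ← hx', ← hbez, mul_one]
  have h4 : N' ∣ (p : ℤ) := by
    have h5 : g * N' ∣ g * (x' * (p : ℤ)) := by
      rw [← hN', ← mul_assoc, ← hx']
      exact h2
    exact hcop.dvd_of_dvd_mul_left (Int.dvd_of_mul_dvd_mul_left hg0 h5)
  have h6 : (p : ℤ) ∣ N' := by
    have h7 : N'.natAbs ∣ p := by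
      rw [← Int.natCast_dvd_natCast]
      simpa using h4
    rcases (Nat.dvd_prime hp).1 h7 with h8 | h8
    · exfalso
      apply h1
      have h9 : IsUnit N' := Int.isUnit_iff_natAbs_eq.2 h8
      rw [hN', hx']
      exact mul_dvd_mul_left g h9.dvd
    · rw [← h8]
      exact Int.natAbs_dvd.2 dvd_rfl
  have h10 : g ∣ y := by
    obtain ⟨c, hc⟩ := h6
    obtain ⟨e, he⟩ := h3
    refine ⟨c * e, ?_⟩
    have hp0 : (p : ℤ) ≠ 0 := by
      exact_mod_cast hp.ne_zero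
    apply mul_right_cancel₀ hp0
    rw [he, hN', hc]
    ring
  obtain ⟨y', hy'⟩ := h10
  refine ⟨Int.gcdB N x * y', ?_⟩
  simp only
  rw [← hx, ← hy, ← zpow_mul]
  have h11 : y = N * (Int.gcdA N x * y') + x * (Int.gcdB N x * y') := by
    conv_lhs => rw [hy', hbez]
    ring
  conv_rhs => rw [h11, zpow_add, zpow_mul, (hiff N).2 dvd_rfl, one_zpow, one_mul]

theorem special_index (Z : PZ p V 2) (d : V) (k : ℕ) :
    ∃ w ∈ Z.W 0 k, w ∉ Subgroup.closure ({d} ∪ (Z.W 0 (k + 1) : Set V)) := by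
  by_contra hcon
  push Not at hcon
  have hp : p.Prime := Fact.out
  have : (Z.W 0 (k + 1)).Normal := Z.normal 0 (k + 1)
  let q : V →* V ⧸ Z.W 0 (k + 1) := QuotientGroup.mk' _
  have hq : ∀ x, q x = 1 ↔ x ∈ Z.W 0 (k + 1) := fun x => QuotientGroup.eq_one_iff x
  have hH : ∀ w ∈ Subgroup.closure ({d} ∪ (Z.W 0 (k + 1) : Set V)),
      q w ∈ Subgroup.zpowers (q d) := by
    intro w hw
    have h : Subgroup.closure ({d} ∪ (Z.W 0 (k + 1) : Set V)) ≤
        (Subgroup.zpowers (q d)).comap q := by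
      rw [Subgroup.closure_le]
      rintro x (hx | hx)
      · rw [Set.mem_singleton_iff] at hx
        subst hx
        exact Subgroup.mem_zpowers _
      · change q x ∈ Subgroup.zpowers (q d)
        rw [(hq x).2 hx]
        exact one_mem _
    exact h hw
  have ha := hH _ (hcon _ (Z.pow 0 (by norm_num) k))
  have hb := hH _ (hcon _ (Z.pow 1 (by norm_num) k))
  have ha1 : q (Z.t 0 ^ p ^ k) ≠ 1 := by
    rw [Ne, hq, Z.order 0 (by norm_num), Nat.pow_dvd_pow_iff_le_right hp.one_lt]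
    omega
  have hpow : ∀ i < 2, q (Z.t i ^ p ^ k) ^ p = 1 := by
    intro i hi
    rw [← map_pow, hq, ← pow_mul, ← pow_succ]
    exact Z.pow i hi (k + 1)
  obtain ⟨j, hj⟩ := mem_zpowers_of_pow_eq_one_S2 ha hb ha1 (hpow 0 (by norm_num))
    (hpow 1 (by norm_num))
  simp only at hj
  have h1 : ((Z.t 0 ^ p ^ k) ^ j)⁻¹ * Z.t 1 ^ p ^ k ∈ Z.W 0 (k + 1) := by
    rw [← hq, map_mul, map_inv, map_zpow, hj, inv_mul_cancel]
  have h2 : (Z.t 0 ^ p ^ k) ^ j ∈ Z.W 1 (k + 1) :=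
    (Z.W 1 (k + 1)).zpow_mem ((Z.W 1 (k + 1)).pow_mem (Z.mem 0 (by norm_num) (k + 1)) _) _
  have h3 : Z.t 1 ^ p ^ k ∈ Z.W 1 (k + 1) := by
    have := (Z.W 1 (k + 1)).mul_mem h2 (Z.mono 0 (k + 1) h1)
    rwa [mul_inv_cancel_left] at this
  rw [Z.order 1 (by norm_num), Nat.pow_dvd_pow_iff_le_right hp.one_lt] at h3
  omega

end Pool.Agent.Helper25.GG
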