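import Pool.Agent.Helper25.GG.A2

/-!
# Block S3: the quotient by a normal special element
-/

set_option autoImplicit false
set_option linter.unusedSectionVars false

namespace Pool.Agent.Helper25.GG

open Module

variable {p : ℕ} [Fact p.Prime] {V : Type} [Group V] {n : ℕ}

namespace S3

section

variable {s : ℕ} (Z : PZ p V (s + 2)) (b k : ℕ)

/-- the special element. -/
def dd : V := Z.t 0 * (Z.t 1 ^ (p ^ b))⁻¹

instance inst_normal (i k : ℕ) : (Z.W i k).Normal := Z.normal i k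

/-- the projection modulo `W 0 k`. -/
abbrev pr : V →* V ⧸ Z.W 0 k := QuotientGroup.mk' (Z.W 0 k)

variable {Z b k}

theorem pr_eq_one {v : V} : pr Z k v = 1 ↔ v ∈ Z.W 0 k := QuotientGroup.eq_one_iff v

theorem pr_eq {v w : V} : pr Z k v = pr Z k w ↔ v⁻¹ * w ∈ Z.W 0 k := QuotientGroup.eq

theorem anti_le (i : ℕ) {a c : ℕ} (h : a ≤ c) : Z.W i c ≤ Z.W i a :=
  antitone_nat_of_succ_le (Z.anti i) h

theorem mono_le {i j : ℕ} (h : i ≤ j) (k : ℕ) : Z.W i k ≤ Z.W j k :=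
  monotone_nat_of_le_succ (f := fun i => Z.W i k) (fun i => Z.mono i k) h

theorem pow_mem {i : ℕ} (hi : i < s + 2) {m : ℕ} (h : p ^ k ∣ m) : Z.t i ^ m ∈ Z.W 0 k := by
  obtain ⟨c, rfl⟩ := h
  rw [pow_mul]
  exact (Z.W 0 k).pow_mem (Z.pow i hi k) c

theorem pr_pow {i : ℕ} (hi : i < s + 2) {m : ℕ} (h : p ^ k ∣ m) : pr Z k (Z.t i) ^ m = 1 := by
  rw [← map_pow, pr_eq_one]
  exact pow_mem hi h

theorem pr_conj (hs : 1 ≤ s) (H : Hyp Z (s + 1)) (v : V) : ∃ m : ℕ, m % p = 1 ∧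
    pr Z k v * pr Z k (Z.t 0) * (pr Z k v)⁻¹ = pr Z k (Z.t 0) ^ m ∧
    pr Z k v * pr Z k (Z.t 1) * (pr Z k v)⁻¹ = pr Z k (Z.t 1) ^ m := by
  obtain ⟨m, hm, h⟩ := H k v
  have aux : ∀ i, i < s + 1 →
      pr Z k v * pr Z k (Z.t i) * (pr Z k v)⁻¹ = pr Z k (Z.t i) ^ m := by
    intro i hi
    have h1 := h i hi
    rw [← pr_eq_one] at h1
    rw [map_mul, map_mul, map_mul, map_inv, map_inv, map_pow] at h1
    exact mul_inv_eq_one.1 h1
  exact ⟨m, hm, aux 0 (by omega), aux 1 (by omega)⟩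

theorem pr_comm (hs : 1 ≤ s) (H : Hyp Z (s + 1)) :
    Commute (pr Z k (Z.t 0)) (pr Z k (Z.t 1)) := by
  obtain ⟨m, hm, h0, h1⟩ := pr_conj (k := k) hs H (Z.t 0)
  have hp : 1 < p := (Fact.out : p.Prime).one_lt
  have hm1 : 1 ≤ m := by
    rcases Nat.eq_zero_or_pos m with h | h
    · subst h; simp at hm
    · exact h
  have h2 : pr Z k (Z.t 0) ^ (m - 1) = 1 := by
    have h3 : pr Z k (Z.t 0) ^ m = pr Z k (Z.t 0) := by
      rw [← h0]; group
    have h4 : pr Z k (Z.t 0) ^ (m - 1) * pr Z k (Z.t 0) = pr Z k (Z.t 0) := by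
      rw [← pow_succ, Nat.sub_add_cancel hm1, h3]
    exact mul_eq_right.1 h4
  have h3 : p ^ k ∣ m - 1 := by
    rw [← Z.order 0 (by omega) k, ← pr_eq_one, map_pow]
    exact h2
  have h4 : pr Z k (Z.t 1) ^ m = pr Z k (Z.t 1) := by
    have := pr_pow (Z := Z) (k := k) (i := 1) (by omega) h3
    have h5 : pr Z k (Z.t 1) ^ (m - 1) * pr Z k (Z.t 1) = pr Z k (Z.t 1) := by
      rw [this, one_mul]
    rw [← pow_succ, Nat.sub_add_cancel hm1] at h5
    exact h5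
  rw [h4] at h1
  change pr Z k (Z.t 0) * pr Z k (Z.t 1) = pr Z k (Z.t 1) * pr Z k (Z.t 0)
  exact mul_inv_eq_iff_eq_mul.1 h1

theorem pr_dd : pr Z k (dd Z b) = pr Z k (Z.t 0) * (pr Z k (Z.t 1) ^ (p ^ b))⁻¹ := by
  unfold dd
  rw [map_mul, map_inv, map_pow]

theorem pr_dd_pow (hs : 1 ≤ s) (H : Hyp Z (s + 1)) (m : ℕ) :
    pr Z k (dd Z b) ^ m = pr Z k (Z.t 0) ^ m * (pr Z k (Z.t 1) ^ (p ^ b * m))⁻¹ := by
  rw [pr_dd]
  have hc : Commute (pr Z k (Z.t 0)) ((pr Z k (Z.t 1) ^ (p ^ b))⁻¹) :=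
    ((pr_comm hs H).pow_right _).inv_right
  rw [hc.mul_pow, inv_pow, ← pow_mul]

theorem pr_dd_pow_card (hs : 1 ≤ s) (H : Hyp Z (s + 1)) :
    pr Z k (dd Z b) ^ (p ^ k) = 1 := by
  rw [pr_dd_pow hs H, pr_pow (by omega) dvd_rfl, pr_pow (by omega) (dvd_mul_left _ _)]
  simp

theorem pr_dd_conj (hs : 1 ≤ s) (H : Hyp Z (s + 1)) (v : V) : ∃ m : ℕ,
    pr Z k v * pr Z k (dd Z b) * (pr Z k v)⁻¹ = pr Z k (dd Z b) ^ m := by
  obtain ⟨m, -, h0, h1⟩ := pr_conj (k := k) hs H v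
  refine ⟨m, ?_⟩
  rw [pr_dd_pow hs H, pr_dd]
  have e1 : pr Z k v * (pr Z k (Z.t 0) * (pr Z k (Z.t 1) ^ (p ^ b))⁻¹) * (pr Z k v)⁻¹
      = (pr Z k v * pr Z k (Z.t 0) * (pr Z k v)⁻¹) *
        (pr Z k v * (pr Z k (Z.t 1)) ^ (p ^ b) * (pr Z k v)⁻¹)⁻¹ := by group
  rw [e1, h0, ← conj_pow, h1, ← pow_mul, mul_comm m (p ^ b)]

variable (Z b k)

/-- the subgroup generated by `d` and `W 0 k`. -/
def W0 : Subgroup V := (Subgroup.zpowers (pr Z k (dd Z b))).comap (pr Z k)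

variable {Z b k}

theorem mem_W0 (hs : 1 ≤ s) (H : Hyp Z (s + 1)) {v : V} :
    v ∈ W0 Z b k ↔ ∃ m : ℕ, ((dd Z b) ^ m)⁻¹ * v ∈ Z.W 0 k := by
  unfold W0
  rw [Subgroup.mem_comap]
  have hfin : IsOfFinOrder (pr Z k (dd Z b)) :=
    isOfFinOrder_iff_pow_eq_one.2 ⟨p ^ k, pow_pos (Fact.out : p.Prime).pos k, pr_dd_pow_card hs H⟩
  rw [← hfin.mem_powers_iff_mem_zpowers, Submonoid.mem_powers_iff]
  constructor
  · rintro ⟨m, hm⟩
    refine ⟨m, ?_⟩
    rw [← map_pow, pr_eq] at hm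
    exact hm
  · rintro ⟨m, hm⟩
    refine ⟨m, ?_⟩
    rw [← map_pow, pr_eq]
    exact hm

theorem W0_normal (hs : 1 ≤ s) (H : Hyp Z (s + 1)) : (W0 Z b k).Normal := by
  have h1 : (Subgroup.zpowers (pr Z k (dd Z b))).Normal := by
    constructor
    intro x hx q
    obtain ⟨z, rfl⟩ := Subgroup.mem_zpowers_iff.1 hx
    obtain ⟨v, rfl⟩ := QuotientGroup.mk'_surjective (Z.W 0 k) q
    obtain ⟨m, hm⟩ := pr_dd_conj (b := b) (k := k) hs H v
    change pr Z k v * pr Z k (dd Z b) ^ z * (pr Z k v)⁻¹ ∈ _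
    rw [← conj_zpow, hm]
    exact Subgroup.zpow_mem _ (Subgroup.pow_mem _ (Subgroup.mem_zpowers _) _) _
  exact h1.comap _

theorem W_le_W0 : Z.W 0 k ≤ W0 Z b k := by
  intro v hv
  unfold W0
  rw [Subgroup.mem_comap, pr_eq_one.2 hv]
  exact Subgroup.one_mem _

theorem dd_mem_W0 : dd Z b ∈ W0 Z b k := by
  unfold W0
  rw [Subgroup.mem_comap]
  exact Subgroup.mem_zpowers _

theorem dd_mem_W2 : dd Z b ∈ Z.W 2 k := by
  unfold dd
  have h0 : Z.t 0 ∈ Z.W 2 k := Z.mono 1 k (Z.mem 0 (by omega) k)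
  have h1 : Z.t 1 ∈ Z.W 2 k := Z.mem 1 (by omega) k
  exact Subgroup.mul_mem _ h0 (Subgroup.inv_mem _ (Subgroup.pow_mem _ h1 _))

theorem dd_mem_W1 (h : k ≤ b) : dd Z b ∈ Z.W 1 k := by
  unfold dd
  have h0 : Z.t 0 ∈ Z.W 1 k := Z.mem 0 (by omega) k
  have h1 : Z.t 1 ^ (p ^ b) ∈ Z.W 1 k :=
    Z.mono 0 k (pow_mem (by omega) (pow_dvd_pow p h))
  exact Subgroup.mul_mem _ h0 (Subgroup.inv_mem _ h1)

/-- the quotient structure. -/
def ZQ (Z : PZ p V (s + 2)) (b : ℕ) (hs : 1 ≤ s) (H : Hyp Z (s + 1)) : PZ p V (s + 1) where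
  W i k := match i with
    | 0 => W0 Z b k
    | i + 1 => Z.W (i + 2) k
  t i := Z.t (i + 1)
  normal := by
    rintro (_ | i) k
    · exact W0_normal hs H
    · exact Z.normal _ _
  anti := by
    rintro (_ | i) k
    · intro v hv
      rw [mem_W0 hs H] at hv ⊢
      obtain ⟨m, hm⟩ := hv
      exact ⟨m, Z.anti 0 k hm⟩
    · exact Z.anti _ _
  mono := by
    rintro (_ | i) k
    · intro v hv
      rw [mem_W0 hs H] at hv
      obtain ⟨m, hm⟩ := hv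
      have h1 : ((dd Z b) ^ m)⁻¹ * v ∈ Z.W 2 k := mono_le (by omega) k hm
      have h2 : (dd Z b) ^ m ∈ Z.W 2 k := Subgroup.pow_mem _ dd_mem_W2 m
      have := Subgroup.mul_mem _ h2 h1
      rwa [mul_inv_cancel_left] at this
    · exact Z.mono _ _
  zero := by
    rintro (_ | i)
    · refine top_le_iff.1 ?_
      intro v _
      exact W_le_W0 (by rw [Z.zero]; trivial)
    · exact Z.zero _
  top := by
    intro k
    exact Z.top k
  mem := by
    intro i hi k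
    exact Z.mem (i + 1) (by omega) k
  gen := by
    rintro (_ | i) hi k v hv
    · change v ∈ Z.W 2 k at hv
      obtain ⟨m, hm⟩ := Z.gen 1 (by omega) k v hv
      obtain ⟨c, hc⟩ := Z.gen 0 (by omega) k _ hm
      refine ⟨m + p ^ b * c, ?_⟩
      change (Z.t 1 ^ (m + p ^ b * c))⁻¹ * v ∈ W0 Z b k
      rw [mem_W0 hs H]
      refine ⟨c, ?_⟩
      rw [← pr_eq_one] at hc ⊢
      simp only [map_mul, map_inv, map_pow] at hc ⊢
      rw [pr_dd_pow hs H]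
      have hcomm := (pr_comm (k := k) hs H)
      have h1 : pr Z k v = pr Z k (Z.t 1) ^ m * pr Z k (Z.t 0) ^ c := by
        have := eq_inv_of_mul_eq_one_right hc
        rw [inv_inv] at this
        rw [← this]
        group
      rw [h1]
      have h2 : pr Z k (Z.t 0) ^ c * (pr Z k (Z.t 1) ^ (p ^ b * c))⁻¹
          = (pr Z k (Z.t 1) ^ (p ^ b * c))⁻¹ * pr Z k (Z.t 0) ^ c :=
        ((hcomm.pow_pow c (p ^ b * c)).inv_right).eq
      rw [h2, pow_add]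
      have h3 : pr Z k (Z.t 1) ^ m * pr Z k (Z.t 1) ^ (p ^ b * c)
          = pr Z k (Z.t 1) ^ (p ^ b * c) * pr Z k (Z.t 1) ^ m := by
        rw [← pow_add, ← pow_add, add_comm m (p ^ b * c)]
      rw [h3]
      group
    · exact Z.gen (i + 2) (by omega) k v hv
  order := by
    rintro (_ | i) hi k m
    · change Z.t 1 ^ m ∈ W0 Z b k ↔ _
      constructor
      · intro h
        rw [mem_W0 hs H] at h
        obtain ⟨a, ha⟩ := h
        rw [← pr_eq_one] at ha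
        simp only [map_mul, map_inv, map_pow] at ha
        rw [pr_dd_pow hs H] at ha
        have hcomm := (pr_comm (k := k) hs H)
        have h1 : pr Z k (Z.t 1) ^ (m + p ^ b * a) = pr Z k (Z.t 0) ^ a := by
          have h2 := inv_mul_eq_one.1 ha
          rw [pow_add, ← h2]
          group
        have h2 : Z.t 1 ^ (m + p ^ b * a) ∈ Z.W 1 k := by
          have h3 : (Z.t 0 ^ a)⁻¹ * Z.t 1 ^ (m + p ^ b * a) ∈ Z.W 0 k := by
            rw [← pr_eq, map_pow, map_pow, h1]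
          have h4 := Z.mono 0 k h3
          have h5 : Z.t 0 ^ a ∈ Z.W 1 k := Subgroup.pow_mem _ (Z.mem 0 (by omega) k) a
          have := Subgroup.mul_mem _ h5 h4
          rwa [mul_inv_cancel_left] at this
        rw [Z.order 1 (by omega)] at h2
        rw [pr_pow (by omega) h2] at h1
        have h3 : p ^ k ∣ a := by
          rw [← Z.order 0 (by omega) k, ← pr_eq_one, map_pow]
          exact h1.symm
        exact (Nat.dvd_add_left (Dvd.dvd.mul_left h3 _)).1 h2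
      · intro h
        exact W_le_W0 (pow_mem (by omega) h)
    · exact Z.order (i + 2) (by omega) k m
  conj := by
    rintro (_ | i) hi k v
    · obtain ⟨m, hm, h⟩ := H k v
      exact ⟨m, hm, W_le_W0 (h 1 (by omega))⟩
    · exact Z.conj (i + 2) (by omega) k v
  pow := by
    intro i hi k
    exact W_le_W0 (Z.pow (i + 1) (by omega) k)

end

end S3

open S3

/-- the quotient structure by `d = t 0 * (t 1) ^ (- p ^ b)`. -/
theorem exists_quotPZ {s : ℕ} (Z : PZ p V (s + 2)) (hs : 1 ≤ s) (H : Hyp Z (s + 1)) (b : ℕ) :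
    ∃ Z' : PZ p V (s + 1), Hyp Z' s ∧ ∀ k v, v ∈ Z'.W 0 k ↔
      ∃ m : ℕ, ((Z.t 0 * (Z.t 1 ^ (p ^ b))⁻¹) ^ m)⁻¹ * v ∈ Z.W 0 k := by
  refine ⟨ZQ Z b hs H, ?_, fun k v => mem_W0 hs H⟩
  intro k v
  obtain ⟨m, hm, h⟩ := H k v
  refine ⟨m, hm, fun i hi => ?_⟩
  exact W_le_W0 (h (i + 1) (by omega))

/-- a nonzero equivariant endomorphism stays nonzero on the functions invariant under `d`. -/
theorem quot_ne_zero {s : ℕ} (Z : PZ p V (s + 2)) (hs : 1 ≤ s) (H : Hyp Z (s + 1))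
    {l : Module.End (ZMod p) (Cf Z 0)} (hl : Eqv (Cf.ρ Z 0) (Cf.ρ Z 0) l) (h0 : l ≠ 0) :
    ∃ b0 : ℕ, ∀ b, b0 ≤ b → ∃ f : Cf Z 0,
      Cf.ρ Z 0 (Z.t 0 * (Z.t 1 ^ (p ^ b))⁻¹) f = f ∧ l f ≠ 0 := by
  obtain ⟨j, l', hl', hfac, f1, hf1, hne⟩ := Eqv.factor Z (by omega : 0 < s + 2) hl h0
  obtain ⟨k, hk⟩ := hf1
  refine ⟨k, fun b hb => ?_⟩
  change ∃ f : Cf Z 0, Cf.ρ Z 0 (dd Z b) f = f ∧ l f ≠ 0
  -- the functions invariant under `d`
  set Z' := ZQ Z b hs H with hZ'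
  have hle : ∀ f : V → ZMod p, f ∈ Cf Z' 0 → f ∈ Cf Z 0 := by
    rintro f ⟨c, hc⟩
    exact ⟨c, fun x w hw => hc x w (W_le_W0 hw)⟩
  have hright : ∀ f : V → ZMod p, f ∈ Cf Z' 0 → ∀ x, f (x * dd Z b) = f x := by
    rintro f ⟨c, hc⟩ x
    exact hc x _ dd_mem_W0
  have hleft : ∀ f : V → ZMod p, f ∈ Cf Z' 0 → ∀ x, f (dd Z b * x) = f x := by
    rintro f ⟨c, hc⟩ x
    have h1 : dd Z b * x = x * (x⁻¹ * dd Z b * x) := by group
    have h2 : x⁻¹ * dd Z b * x ∈ Z'.W 0 c := by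
      have := (Z'.normal 0 c).conj_mem (dd Z b) dd_mem_W0 x⁻¹
      rwa [inv_inv] at this
    rw [h1, hc _ _ h2]
  -- f1 is in Cf Z' 0
  have hf1' : f1.1 ∈ Cf Z' 0 := by
    have hdf : ∀ m : ℕ, ∀ x, f1.1 (x * (dd Z b) ^ m) = f1.1 x := by
      intro m x
      exact hk x _ (Subgroup.pow_mem _ (dd_mem_W1 hb) m)
    obtain ⟨c, hc⟩ := f1.2
    refine ⟨c, fun x w hw => ?_⟩
    have hw' : w ∈ W0 Z b c := hw
    rw [mem_W0 hs H] at hw'
    obtain ⟨m, hm⟩ := hw'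
    have : x * w = x * (dd Z b) ^ m * (((dd Z b) ^ m)⁻¹ * w) := by group
    rw [this, hc _ _ hm, hdf]
  -- TL on Cf Z' 0
  have hleftpow : ∀ (q : ℕ) (f : Cf Z' 0) (x : V),
      ((Cf.left Z' 0 (Z'.t 0) ^ q) f).1 x = f.1 (Z.t 1 ^ q * x) := by
    intro q
    induction q with
    | zero => intro f x; simp
    | succ q ih =>
      intro f x
      rw [pow_succ, Module.End.mul_apply, ih, Cf.left_apply]
      change f.1 (Z.t 1 * (Z.t 1 ^ q * x)) = _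
      rw [← mul_assoc, ← pow_succ']
  have hTL : ∀ f : Cf Z' 0, TL Z 0 ⟨f.1, hle _ f.2⟩
      = ⟨((TL Z' 0 ^ (p ^ b)) f).1, hle _ ((TL Z' 0 ^ (p ^ b)) f).2⟩ := by
    intro f
    have hsub : TL Z' 0 ^ (p ^ b) = Cf.left Z' 0 (Z'.t 0) ^ (p ^ b) - 1 := by
      unfold TL
      by_cases hsS : Subsingleton (Cf Z' 0)
      · apply LinearMap.ext; intro u; exact Subsingleton.elim _ _
      · rw [not_subsingleton_iff_nontrivial] at hsS
        have : CharP (Module.End (ZMod p) (Cf Z' 0)) p := charP_of_injective_algebraMap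
              (algebraMap (ZMod p) (Module.End (ZMod p) (Cf Z' 0))).injective p
        rw [sub_pow_char_pow_of_commute (p := p) b (Commute.one_right (Cf.left Z' 0 (Z'.t 0))),
          one_pow]
    apply Subtype.ext
    funext x
    rw [TL_apply, hsub]
    change f.1 (Z.t 0 * x) - f.1 x = ((Cf.left Z' 0 (Z'.t 0) ^ (p ^ b)) f).1 x - f.1 x
    rw [hleftpow]
    congr 1
    have : Z.t 0 * x = dd Z b * (Z.t 1 ^ (p ^ b) * x) := by unfold dd; group
    rw [this, hleft f.1 f.2]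
  have hTLj : ∀ (j : ℕ) (f : Cf Z' 0), (TL Z 0 ^ j) ⟨f.1, hle _ f.2⟩
      = ⟨(((TL Z' 0 ^ (p ^ b)) ^ j) f).1, hle _ (((TL Z' 0 ^ (p ^ b)) ^ j) f).2⟩ := by
    intro j
    induction j with
    | zero => intro f; simp
    | succ j ih =>
      intro f
      rw [pow_succ, Module.End.mul_apply, hTL, ih]
      apply Subtype.ext
      simp only
      rw [pow_succ, Module.End.mul_apply]
  have hsurj : Function.Surjective ⇑((TL Z' 0 ^ (p ^ b)) ^ j) := by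
    rw [← pow_mul, Module.End.coe_pow]
    exact (TL_surj Z' (by omega : 0 < s + 1)).iterate _
  obtain ⟨g, hg⟩ := hsurj ⟨f1.1, hf1'⟩
  refine ⟨⟨g.1, hle _ g.2⟩, ?_, ?_⟩
  · apply Subtype.ext
    funext x
    rw [Cf.ρ_apply]
    exact hright g.1 g.2 x
  · rw [hfac, Module.End.mul_apply, hTLj j g]
    have : (⟨(((TL Z' 0 ^ (p ^ b)) ^ j) g).1, hle _ (((TL Z' 0 ^ (p ^ b)) ^ j) g).2⟩ : Cf Z 0)
        = f1 := by
      apply Subtype.ext
      simp only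
      rw [hg]
    rw [this]
    exact hne

end Pool.Agent.Helper25.GG
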