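import Pool.Agent.Helper25.GG.S1
import Pool.Agent.Helper25.GG.S2
import Pool.Agent.Helper25.GG.S3
import Pool.Agent.Helper25.GG.P2

/-!
# Block S4: special elements
-/

set_option autoImplicit false

namespace Pool.Agent.Helper25.GG

open Module

variable {p : ℕ} [Fact p.Prime] {V : Type} [Group V] {n : ℕ}

section s4

variable {n' : ℕ} {Z : PZ p V n} {Z' : PZ p V n'} {d : V}

theorem s4_le (hZ : ∀ k v, v ∈ Z'.W 0 k ↔ ∃ m : ℕ, (d ^ m)⁻¹ * v ∈ Z.W 0 k) (k : ℕ) :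
    Z.W 0 k ≤ Z'.W 0 k := by
  intro v hv
  rw [hZ]
  exact ⟨0, by simpa using hv⟩

theorem s4_mem (hZ : ∀ k v, v ∈ Z'.W 0 k ↔ ∃ m : ℕ, (d ^ m)⁻¹ * v ∈ Z.W 0 k) (k : ℕ) :
    d ∈ Z'.W 0 k := by
  rw [hZ]
  exact ⟨1, by simp⟩

theorem s4_sub (hZ : ∀ k v, v ∈ Z'.W 0 k ↔ ∃ m : ℕ, (d ^ m)⁻¹ * v ∈ Z.W 0 k) :
    Cf Z' 0 ≤ Cf Z 0 := by
  rintro f ⟨k, hk⟩
  exact ⟨k, fun x w hw => hk x w (s4_le hZ k hw)⟩

theorem s4_inv (hZ : ∀ k v, v ∈ Z'.W 0 k ↔ ∃ m : ℕ, (d ^ m)⁻¹ * v ∈ Z.W 0 k)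
    {f : V → ZMod p} (hf : f ∈ Cf Z' 0) (x : V) : f (x * d) = f x := by
  obtain ⟨k, hk⟩ := hf
  exact hk x d (s4_mem hZ k)

theorem s4_back (hZ : ∀ k v, v ∈ Z'.W 0 k ↔ ∃ m : ℕ, (d ^ m)⁻¹ * v ∈ Z.W 0 k)
    {f : V → ZMod p} (hf : f ∈ Cf Z 0) (hd : ∀ x, f (x * d) = f x) : f ∈ Cf Z' 0 := by
  obtain ⟨k, hk⟩ := hf
  refine ⟨k, fun x w hw => ?_⟩
  rw [hZ] at hw
  obtain ⟨m, hm⟩ := hw
  have h1 : ∀ (m : ℕ) (x : V), f (x * d ^ m) = f x := by
    intro m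
    induction m with
    | zero => intro x; rw [pow_zero, mul_one]
    | succ m ih => intro x; rw [pow_succ, ← mul_assoc, hd, ih]
  have h2 : x * w = x * d ^ m * ((d ^ m)⁻¹ * w) := by group
  rw [h2, hk _ _ hm, h1]

/-- inclusion of the functions invariant under `d`. -/
noncomputable def s4_incl (hZ : ∀ k v, v ∈ Z'.W 0 k ↔ ∃ m : ℕ, (d ^ m)⁻¹ * v ∈ Z.W 0 k) :
    Cf Z' 0 →ₗ[ZMod p] Cf Z 0 := Submodule.inclusion (s4_sub hZ)

theorem s4_incl_val (hZ : ∀ k v, v ∈ Z'.W 0 k ↔ ∃ m : ℕ, (d ^ m)⁻¹ * v ∈ Z.W 0 k)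
    (f : Cf Z' 0) : (s4_incl hZ f).1 = f.1 := rfl

theorem s4_incl_rho (hZ : ∀ k v, v ∈ Z'.W 0 k ↔ ∃ m : ℕ, (d ^ m)⁻¹ * v ∈ Z.W 0 k)
    (f : Cf Z' 0) (v : V) : s4_incl hZ (Cf.ρ Z' 0 v f) = Cf.ρ Z 0 v (s4_incl hZ f) := rfl

theorem s4_incl_fix (hZ : ∀ k v, v ∈ Z'.W 0 k ↔ ∃ m : ℕ, (d ^ m)⁻¹ * v ∈ Z.W 0 k)
    (f : Cf Z' 0) : Cf.ρ Z 0 d (s4_incl hZ f) = s4_incl hZ f := by
  apply Subtype.ext
  funext x
  exact s4_inv hZ f.2 x

/-- the restriction of `l` to the functions invariant under `d`. -/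
noncomputable def s4_res (hZ : ∀ k v, v ∈ Z'.W 0 k ↔ ∃ m : ℕ, (d ^ m)⁻¹ * v ∈ Z.W 0 k)
    (l : Module.End (ZMod p) (Cf Z 0)) (hl : Eqv (Cf.ρ Z 0) (Cf.ρ Z 0) l) :
    Module.End (ZMod p) (Cf Z' 0) where
  toFun f := ⟨(l (s4_incl hZ f)).1, s4_back hZ (l (s4_incl hZ f)).2 (fun x => by
    have h1 := hl d (s4_incl hZ f)
    rw [s4_incl_fix] at h1
    have h2 := congrArg (fun g : Cf Z 0 => g.1 x) h1
    exact h2.symm)⟩
  map_add' f g := by
    apply Subtype.ext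
    change (l (s4_incl hZ (f + g))).1 = (l (s4_incl hZ f)).1 + (l (s4_incl hZ g)).1
    rw [map_add, map_add]
    rfl
  map_smul' c f := by
    apply Subtype.ext
    change (l (s4_incl hZ (c • f))).1 = c • (l (s4_incl hZ f)).1
    rw [map_smul, map_smul]
    rfl

theorem s4_res_incl (hZ : ∀ k v, v ∈ Z'.W 0 k ↔ ∃ m : ℕ, (d ^ m)⁻¹ * v ∈ Z.W 0 k)
    (l : Module.End (ZMod p) (Cf Z 0)) (hl : Eqv (Cf.ρ Z 0) (Cf.ρ Z 0) l) (f : Cf Z' 0) :
    s4_incl hZ (s4_res hZ l hl f) = l (s4_incl hZ f) := rfl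

theorem s4_incl_inj (hZ : ∀ k v, v ∈ Z'.W 0 k ↔ ∃ m : ℕ, (d ^ m)⁻¹ * v ∈ Z.W 0 k) :
    Function.Injective (s4_incl (p := p) hZ) :=
  Submodule.inclusion_injective (s4_sub hZ)

theorem s4_res_eqv (hZ : ∀ k v, v ∈ Z'.W 0 k ↔ ∃ m : ℕ, (d ^ m)⁻¹ * v ∈ Z.W 0 k)
    (l : Module.End (ZMod p) (Cf Z 0)) (hl : Eqv (Cf.ρ Z 0) (Cf.ρ Z 0) l) :
    Eqv (Cf.ρ Z' 0) (Cf.ρ Z' 0) (s4_res hZ l hl) := by
  intro v f
  apply s4_incl_inj hZ
  rw [s4_res_incl, s4_incl_rho, s4_incl_rho, s4_res_incl, hl]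

end s4

theorem exists_special {s : ℕ} (hs : 1 ≤ s) (Z : PZ p V (s + 1)) (H : Hyp Z s) {m : ℕ}
    (l : Fin m → Module.End (ZMod p) (Cf Z 0)) (hl : ∀ j, Eqv (Cf.ρ Z 0) (Cf.ρ Z 0) (l j))
    (h0 : ∀ j, l j ≠ 0) :
    ∃ d : Fin s → V,
      (∀ k, ∃ w ∈ Z.W 0 k, w ∉ Subgroup.closure (Set.range d ∪ (Z.W 0 (k + 1) : Set V))) ∧
      ∀ j, FiniteDimensional (ZMod p)
        ↥(LinearMap.ker (l j) ⊓ fix (Cf.ρ Z 0) (Subgroup.closure (Set.range d))) := by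
  induction s, hs using Nat.le_induction with
  | base =>
    choose b0 hb0 using fun j => special_base Z (hl j) (h0 j)
    set b := Finset.univ.sup b0 with hb
    set e := (Z.t 1 ^ (p ^ b))⁻¹ * Z.t 0 with he
    refine ⟨fun _ => e, fun k => ?_, fun j => ?_⟩
    · rw [Set.range_const]
      exact special_index Z e k
    · have h1 := hb0 j b (Finset.le_sup (f := b0) (Finset.mem_univ j))
      refine Submodule.finiteDimensional_of_le (S₂ := LinearMap.ker (l j) ⊓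
        LinearMap.ker (Cf.ρ Z 0 e - 1)) ?_
      refine inf_le_inf le_rfl ?_
      intro x hx
      rw [LinearMap.mem_ker, LinearMap.sub_apply, Module.End.one_apply, sub_eq_zero]
      exact hx e (Subgroup.subset_closure ⟨0, rfl⟩)
  | succ s hs ih =>
    choose b0 hb0 using fun j => quot_ne_zero Z hs H (hl j) (h0 j)
    set b := Finset.univ.sup b0 with hb
    obtain ⟨Z', H', hZ⟩ := exists_quotPZ Z hs H b
    set e := Z.t 0 * (Z.t 1 ^ (p ^ b))⁻¹ with he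
    have hne : ∀ j, s4_res hZ (l j) (hl j) ≠ 0 := by
      intro j h
      obtain ⟨f, hf1, hf2⟩ := hb0 j b (Finset.le_sup (f := b0) (Finset.mem_univ j))
      have hf3 : f.1 ∈ Cf Z' 0 := s4_back hZ f.2 (fun x => by
        have h2 := congrArg (fun g : Cf Z 0 => g.1 x) hf1
        exact h2)
      have h3 := congrArg (fun L : Module.End (ZMod p) (Cf Z' 0) => s4_incl hZ (L ⟨f.1, hf3⟩)) h
      rw [s4_res_incl, LinearMap.zero_apply, map_zero] at h3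
      exact hf2 h3
    obtain ⟨d', hd1, hd2⟩ := ih Z' H' (fun j => s4_res hZ (l j) (hl j))
      (fun j => s4_res_eqv hZ (l j) (hl j)) hne
    refine ⟨Fin.cons e d', fun k => ?_, fun j => ?_⟩
    · obtain ⟨w', hw1, hw2⟩ := hd1 k
      obtain ⟨m, hm⟩ := (hZ k w').1 hw1
      refine ⟨(e ^ m)⁻¹ * w', hm, fun hc => hw2 ?_⟩
      have hle : Subgroup.closure (Set.range (Fin.cons e d' : Fin (s + 1) → V) ∪
          (Z.W 0 (k + 1) : Set V)) ≤
          Subgroup.closure (Set.range d' ∪ (Z'.W 0 (k + 1) : Set V)) := by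
        rw [Subgroup.closure_le]
        rintro x (⟨i, rfl⟩ | hx)
        · refine Fin.cases ?_ (fun i => ?_) i
          · exact Subgroup.subset_closure (Or.inr (s4_mem hZ (k + 1)))
          · exact Subgroup.subset_closure (Or.inl ⟨i, rfl⟩)
        · exact Subgroup.subset_closure (Or.inr (s4_le hZ (k + 1) hx))
      have h1 := hle hc
      have h4 : e ∈ Subgroup.closure (Set.range d' ∪ (Z'.W 0 (k + 1) : Set V)) :=
        Subgroup.subset_closure (Or.inr (s4_mem hZ (k + 1)))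
      have h2 := pow_mem h4 m
      have h3 := mul_mem h2 h1
      rwa [mul_inv_cancel_left] at h3
    · have h1 := hd2 j
      refine Submodule.finiteDimensional_of_le (S₂ :=
        (LinearMap.ker (s4_res hZ (l j) (hl j)) ⊓
          fix (Cf.ρ Z' 0) (Subgroup.closure (Set.range d'))).map (s4_incl hZ)) ?_
      rintro f ⟨hf1, hf2⟩
      have hf3 : f.1 ∈ Cf Z' 0 := s4_back hZ f.2 (fun x => by
        have h2 := congrArg (fun g : Cf Z 0 => g.1 x) (hf2 e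
          (Subgroup.subset_closure ⟨0, rfl⟩))
        exact h2)
      refine ⟨⟨f.1, hf3⟩, ⟨?_, ?_⟩, rfl⟩
      · change s4_res hZ (l j) (hl j) ⟨f.1, hf3⟩ = 0
        apply s4_incl_inj hZ
        rw [s4_res_incl, map_zero]
        exact hf1
      · intro w hw
        apply s4_incl_inj hZ
        rw [s4_incl_rho]
        refine hf2 w (Subgroup.closure_mono ?_ hw)
        rintro x ⟨i, rfl⟩
        exact ⟨i.succ, rfl⟩

theorem special_of_rk_zero {s : ℕ} (hs : 1 ≤ s) (Z : PZ p V (s + 1)) (H : Hyp Z s)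
    {X : Type} [AddCommGroup X] [Module (ZMod p) X] {ρ : V →* Module.End (ZMod p) X}
    (hsm : Smo Z ρ) (hfin : FiniteDimensional (ZMod p) (fix ρ ⊤)) (hr : rk Z ρ = 0) :
    ∃ d : Fin s → V,
      (∀ k, ∃ w ∈ Z.W 0 k, w ∉ Subgroup.closure (Set.range d ∪ (Z.W 0 (k + 1) : Set V))) ∧
      FiniteDimensional (ZMod p) (fix ρ (Subgroup.closure (Set.range d))) := by
  obtain ⟨m, φ, l, hl0, hl1, hl2⟩ := exists_tors Z hsm hfin hr
  obtain ⟨d, hd1, hd2⟩ := exists_special hs Z H (fun j => (l j).1) (fun j => (l j).2)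
    (fun j h => hl0 j (Subtype.ext h))
  refine ⟨d, hd1, ?_⟩
  have hfd : ∀ j : Fin m, FiniteDimensional (ZMod p)
      ↥(LinearMap.ker (l j).1 ⊓ fix (Cf.ρ Z 0) (Subgroup.closure (Set.range d))) := hd2
  let F : fix ρ (Subgroup.closure (Set.range d)) →ₗ[ZMod p]
      ((j : Fin m) → ↥(LinearMap.ker (l j).1 ⊓
        fix (Cf.ρ Z 0) (Subgroup.closure (Set.range d)))) :=
    LinearMap.pi fun j => LinearMap.codRestrict _
      ((φ j).1.comp (fix ρ (Subgroup.closure (Set.range d))).subtype) (fun x => by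
        refine ⟨hl1 j x.1, fun w hw => ?_⟩
        change Cf.ρ Z 0 w ((φ j).1 x.1) = (φ j).1 x.1
        rw [← (φ j).2 w x.1, x.2 w hw])
  have hF : Function.Injective F := by
    rw [injective_iff_map_eq_zero]
    intro x hx
    apply Subtype.ext
    apply hl2
    intro j
    have h1 := congrArg (fun g => (g j).1) hx
    exact h1
  exact FiniteDimensional.of_injective F hF

end Pool.Agent.Helper25.GG
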