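import Pool.Agent.Helper25.GG.G7
import Pool.Agent.Helper25.GG.P3
import Pool.Agent.Helper25.GG.S4
import Pool.Agent.Helper25.GG.FD
import Pool.Agent.Helper25.GG.FE
import Pool.Agent.Helper25.GG.FF
import Pool.Agent.Helper25.GG.FK
import Pool.Agent.Helper25.GG.FM
import Pool.Agent.Helper25.GG.FN
import Pool.Agent.Helper25.GG.FO
import Pool.Agent.Helper25.ETCRgK

/-!
# The rank gradient of a field without all roots of unity of `p`-power order
-/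

set_option autoImplicit false

namespace Pool.Agent.Helper25.GG

open Module Pool.Agent.Helper25.ETC Pool.Agent.Helper25.ETC.RG

variable {F K : Type} [Field F] [Field K] [Algebra F K] {p : ℕ} [Fact p.Prime] {n : ℕ} {ζ : K}
  {E : IntermediateField F K}

/-- the structure on `Gal(K/E)` given by Kummer theory. -/
structure GE (p : ℕ) (E : IntermediateField F K) (n : ℕ) where
  Z : PZ p E.fixingSubgroup n
  hO : Op Z
  iff : ∀ k (σ : E.fixingSubgroup), σ ∈ Z.W 0 k ↔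
    ∀ y : K, y ^ (p ^ k) ∈ E → (σ : K ≃ₐ[F] K) y = y

theorem inv_gal (hgal : ∀ (σ : K ≃ₐ[F] K), ∀ x ∈ E, σ x ∈ E) (σ : K ≃ₐ[F] K) {x : K}
    (h : σ x ∈ E) : x ∈ E := by
  have h1 := hgal σ⁻¹ _ h
  have h2 : σ⁻¹ (σ x) = (σ⁻¹ * σ) x := (AlgEquiv.mul_apply _ _ _).symm
  rwa [h2, inv_mul_cancel, AlgEquiv.one_apply] at h1

omit [Fact p.Prime] in
theorem GE.normal (X : GE p E n) (hgal : ∀ (σ : K ≃ₐ[F] K), ∀ x ∈ E, σ x ∈ E) (k : ℕ) :
    (im (X.Z.W 0 k)).Normal := by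
  constructor
  intro σ hσ g
  rw [mem_im] at hσ ⊢
  obtain ⟨h1, h2⟩ := hσ
  have hg : ∀ y, g (g⁻¹ y) = y := by
    intro y
    rw [← AlgEquiv.mul_apply, mul_inv_cancel, AlgEquiv.one_apply]
  have h3 : g * σ * g⁻¹ ∈ E.fixingSubgroup := by
    rw [IntermediateField.mem_fixingSubgroup_iff] at h1 ⊢
    intro x hx
    rw [AlgEquiv.mul_apply, AlgEquiv.mul_apply, h1 _ (hgal g⁻¹ x hx), hg]
  refine ⟨h3, ?_⟩
  rw [X.iff] at h2 ⊢
  intro y hy
  change (g * σ * g⁻¹) y = y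
  have h4 := h2 (g⁻¹ y) (by rw [← map_pow]; exact hgal _ _ hy)
  change σ (g⁻¹ y) = g⁻¹ y at h4
  rw [AlgEquiv.mul_apply, AlgEquiv.mul_apply, h4, hg]

theorem normal_fixing (hgal : ∀ (σ : K ≃ₐ[F] K), ∀ x ∈ E, σ x ∈ E) :
    (E.fixingSubgroup).Normal := by
  constructor
  intro σ h1 g
  have hg : ∀ y, g (g⁻¹ y) = y := by
    intro y
    rw [← AlgEquiv.mul_apply, mul_inv_cancel, AlgEquiv.one_apply]
  rw [IntermediateField.mem_fixingSubgroup_iff] at h1 ⊢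
  intro x hx
  rw [AlgEquiv.mul_apply, AlgEquiv.mul_apply, h1 _ (hgal g⁻¹ x hx), hg]

/-- the group data. -/
noncomputable def GE.dat [IsGalois F K] [FiniteDimensional F E] (X : GE p E n)
    (hgal : ∀ (σ : K ≃ₐ[F] K), ∀ x ∈ E, σ x ∈ E) : GD p (K ≃ₐ[F] K) n where
  V := E.fixingSubgroup
  normal := normal_fixing hgal
  fin := by
    have h1 := Subgroup.quotient_finite_of_isOpen E.fixingSubgroup
      (IntermediateField.fixingSubgroup_isOpen E)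
    exact (Subgroup.finiteIndex_of_finite_quotient (H := E.fixingSubgroup)).index_ne_zero
  Z := X.Z
  A := fun k => im (X.Z.W 0 k)
  mem_A := fun k g => mem_im
  normalA := fun k => X.normal hgal k

omit [Fact p.Prime] in
theorem GE.stM (X : GE p E n) (hgal : ∀ (σ : K ≃ₐ[F] K), ∀ x ∈ E, σ x ∈ E)
    (g : K ≃ₐ[F] K) : ∀ x ∈ MF X.Z, g x ∈ MF X.Z := by
  rintro x ⟨k, hk⟩
  refine ⟨k, fun w hw => ?_⟩
  have h1 : (w : K ≃ₐ[F] K) ∈ im (X.Z.W 0 k) := mem_im.mpr ⟨w.2, hw⟩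
  have h2 := (X.normal hgal k).conj_mem _ h1 g⁻¹
  rw [inv_inv] at h2
  obtain ⟨h3, h4⟩ := mem_im.mp h2
  have h5 := hk _ h4
  change (g⁻¹ * (w : K ≃ₐ[F] K) * g) x = x at h5
  have h6 := congrArg g h5
  rw [← AlgEquiv.mul_apply] at h6
  have h7 : g * (g⁻¹ * (w : K ≃ₐ[F] K) * g) = w * g := by group
  rw [h7] at h6
  exact h6

theorem GE.smo (X : GE p E n) (hgal : ∀ (σ : K ≃ₐ[F] K), ∀ x ∈ E, σ x ∈ E) :
    Smo X.Z (repE p E (MF X.Z) (X.stM hgal)) := by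
  intro u
  obtain ⟨x, hx, hx0, rfl⟩ := mkc_mku_surj u
  obtain ⟨k, hk⟩ := id hx
  refine ⟨k, fun w hw => ?_⟩
  change rep p (MF X.Z) (X.stM hgal) (w : K ≃ₐ[F] K) _ = _
  rw [rep_apply]
  apply mkc_eq_of_val
  rw [mku_val, mku_val]
  exact hk w hw

/-- the rank. -/
noncomputable def GE.rk (X : GE p E n) (hgal : ∀ (σ : K ≃ₐ[F] K), ∀ x ∈ E, σ x ∈ E) : ℕ :=
  GG.rk X.Z (repE p E (MF X.Z) (X.stM hgal))

section

variable [IsGalois F K] [FiniteDimensional F E]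

theorem GE.fin (Cx : Ctx p F K ζ) (hζE : ζ ∈ E) (X : GE p E n)
    (hgal : ∀ (σ : K ≃ₐ[F] K), ∀ x ∈ E, σ x ∈ E) {m : ℕ} (hs : Nat.card (PC p E) = p ^ m) :
    FiniteDimensional (ZMod p) (fix (repE p E (MF X.Z) (X.stM hgal)) ⊤) :=
  (dim_bound0 Cx hζE X.Z X.hO (isM_MF X.Z) (X.stM hgal) hs).1

theorem GE.fxk (Cx : Ctx p F K ζ) (hζE : ζ ∈ E) (X : GE p E n) {m : ℕ}
    (hs : Nat.card (PC p E) = p ^ m) (k : ℕ) :
    FiniteDimensional F (fx (X.Z.W 0 k)) ∧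
    finrank F (fx (X.Z.W 0 k)) = finrank F E * p ^ (n * k) ∧
      ∃ mk, Nat.card (PC p (fx (X.Z.W 0 k))) = p ^ mk ∧ mk ≤ 1 + p ^ (n * k) * (m - 1) := by
  obtain ⟨h1, h2, h3, h4⟩ := fx_fin X.hO (k := k) (U := X.Z.W 0 k) le_rfl
  rw [index_W X.Z (Nat.zero_le n), Nat.sub_zero] at h2
  exact ⟨h1, h2, card_schreier Cx hζE h4 hs h2⟩

/-- the rank is at most `d(E) - 1`. -/
theorem GE.rank_le (Cx : Ctx p F K ζ) (hζE : ζ ∈ E) (X : GE p E n)
    (hgal : ∀ (σ : K ≃ₐ[F] K), ∀ x ∈ E, σ x ∈ E) (hs : Nat.card (PC p E) = p ^ n) (h1 : 1 ≤ n) :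
    X.rk hgal + 1 ≤ n := by
  have hp := Cx.hp
  have hfin := X.fin Cx hζE hgal hs
  obtain ⟨C, hC⟩ := growth_lower X.Z (X.smo hgal) hfin
  set r := X.rk hgal with hr
  by_contra hcon
  set k := 1 + n * n + C with hk
  obtain ⟨-, hfr, m, hm, hm2⟩ := X.fxk Cx hζE hs k
  obtain ⟨-, hb2⟩ := fix_le Cx hζE X.Z X.hO (isM_MF X.Z) (X.stM hgal) k hm
  have h2 := hC k
  set dd := finrank (ZMod p) (fix (repE p E (MF X.Z) (X.stM hgal)) (X.Z.W 0 k)) with hdd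
  have h2' : r * p ^ (n * k) * p ^ k ≤ dd * p ^ k + C * p ^ (n * k) := h2
  obtain ⟨e, rfl⟩ : ∃ e, n = e + 1 := ⟨n - 1, by omega⟩
  rw [Nat.add_sub_cancel] at hm2
  have h5 : k < p ^ k := Nat.lt_pow_self hp.one_lt
  have hkk : p ^ k ≤ p ^ ((e + 1) * k) :=
    Nat.pow_le_pow_right hp.pos (Nat.le_mul_of_pos_left k (Nat.succ_pos e))
  have h7 : (e + 1) * p ^ ((e + 1) * k) * p ^ k ≤ r * p ^ ((e + 1) * k) * p ^ k :=
    Nat.mul_le_mul_right _ (Nat.mul_le_mul_right _ (by omega))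
  have h8 : dd * p ^ k ≤ (1 + p ^ ((e + 1) * k) * e + (e + 1) * (e + 1)) * p ^ k :=
    Nat.mul_le_mul_right _ (hb2.trans (Nat.add_le_add_right hm2 _))
  have h9 : (e + 1) * p ^ ((e + 1) * k) * p ^ k ≤
      (1 + p ^ ((e + 1) * k) * e + (e + 1) * (e + 1)) * p ^ k + C * p ^ ((e + 1) * k) :=
    h7.trans (h2'.trans (Nat.add_le_add_right h8 _))
  have h10 : (e + 1) * p ^ ((e + 1) * k) * p ^ k =
      p ^ ((e + 1) * k) * e * p ^ k + p ^ ((e + 1) * k) * p ^ k := by ring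
  have h11 : (1 + p ^ ((e + 1) * k) * e + (e + 1) * (e + 1)) * p ^ k =
      p ^ ((e + 1) * k) * e * p ^ k + (1 + (e + 1) * (e + 1)) * p ^ k := by ring
  have h12 : p ^ ((e + 1) * k) * p ^ k ≤ (1 + (e + 1) * (e + 1)) * p ^ k + C * p ^ ((e + 1) * k) := by
    omega
  have h13 : (1 + (e + 1) * (e + 1)) * p ^ k ≤ (1 + (e + 1) * (e + 1)) * p ^ ((e + 1) * k) :=
    Nat.mul_le_mul_left _ hkk
  have h14 : p ^ ((e + 1) * k) * p ^ k ≤ p ^ ((e + 1) * k) * k := by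
    calc p ^ ((e + 1) * k) * p ^ k
        ≤ (1 + (e + 1) * (e + 1)) * p ^ ((e + 1) * k) + C * p ^ ((e + 1) * k) :=
          h12.trans (Nat.add_le_add_right h13 _)
      _ = p ^ ((e + 1) * k) * k := by rw [hk]; ring
  exact absurd (Nat.le_of_mul_le_mul_left h14 (pow_pos hp.pos _)) (not_le.mpr h5)

theorem GE.dvd (Cx : Ctx p F K ζ) (hζF : ζ ∈ (⊥ : IntermediateField F K))
    (hp2 : p = 2 → ∃ z ∈ (⊥ : IntermediateField F K), z ^ 2 = -1)
    (hz2 : ∃ z ∈ E, IsPrimitiveRoot z (p ^ 2)) (hζE : ζ ∈ E) (X : GE p E n)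
    (hgal : ∀ (σ : K ≃ₐ[F] K), ∀ x ∈ E, σ x ∈ E) {m : ℕ} (hs : Nat.card (PC p E) = p ^ m) :
    finrank F E ∣ X.rk hgal := by
  have hch : HasChain p (X.dat hgal).V ((X.dat hgal).A 1) := by
    apply hasChain_gal Cx hζF hp2 hz2
    intro σ hσ y hy
    obtain ⟨h1, h2⟩ := mem_im.mp hσ
    exact (X.iff 1 _).mp h2 y (by rwa [pow_one])
  have h1 := dvd_rank (X.dat hgal) (ρ := rep p (MF X.Z) (X.stM hgal)) hch (X.smo hgal)
    (X.fin Cx hζE hgal hs)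
  have h2 : (X.dat hgal).V.index = finrank F E := by
    rw [IntermediateField.finrank_eq_fixingSubgroup_index]
    rfl
  rw [h2] at h1
  exact h1

/-- the rank is approached. -/
theorem GE.approx (Cx : Ctx p F K ζ) (hζE : ζ ∈ E) (X : GE p E n)
    (hgal : ∀ (σ : K ≃ₐ[F] K), ∀ x ∈ E, σ x ∈ E) (hs : Nat.card (PC p E) = p ^ n) (h1 : 1 ≤ n)
    {r : ℕ} (hr : X.rk hgal = r * finrank F E) {ε : ℝ} (hε : 0 < ε) :
    ∃ L : IntermediateField F K, FiniteDimensional F L ∧ ∃ m : ℕ, Nat.card (PC p L) = p ^ m ∧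
      (m : ℝ) - 1 ≤ (r + ε) * finrank F L := by
  have hp := Cx.hp
  have hfin := X.fin Cx hζE hgal hs
  obtain ⟨C, hC⟩ := growth_upper X.Z (X.smo hgal) hfin
  obtain ⟨k, hk⟩ := pow_unbounded_of_one_lt (((C + n : ℕ) : ℝ) / ε)
    (show (1 : ℝ) < (p : ℝ) by exact_mod_cast hp.one_lt)
  rw [div_lt_iff₀ hε] at hk
  obtain ⟨hLfin, hfr, m, hm, hm2⟩ := X.fxk Cx hζE hs k
  obtain ⟨hb1, -⟩ := fix_le Cx hζE X.Z X.hO (isM_MF X.Z) (X.stM hgal) k hm
  have h3 := le_fix Cx hζE X.Z X.hO (isM_MF X.Z) (X.stM hgal) k hm hb1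
  have h4 := hC k
  set dd := finrank (ZMod p) (fix (repE p E (MF X.Z) (X.stM hgal)) (X.Z.W 0 k)) with hdd
  have h4' : dd * p ^ k ≤ r * finrank F E * p ^ (n * k) * p ^ k + C * p ^ (n * k) := by
    have h5 : GG.rk X.Z (repE p E (MF X.Z) (X.stM hgal)) = r * finrank F E := hr
    rw [h5] at h4
    exact h4
  refine ⟨fx (X.Z.W 0 k), hLfin, m, hm, ?_⟩
  have hkk : p ^ k ≤ p ^ (n * k) := Nat.pow_le_pow_right hp.pos (Nat.le_mul_of_pos_left k h1)
  have h5 : m * p ^ k ≤ r * finrank F E * p ^ (n * k) * p ^ k + (C + n) * p ^ (n * k) := by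
    calc m * p ^ k ≤ (dd + n) * p ^ k := Nat.mul_le_mul_right _ h3
      _ = dd * p ^ k + n * p ^ k := by ring
      _ ≤ (r * finrank F E * p ^ (n * k) * p ^ k + C * p ^ (n * k)) + n * p ^ (n * k) :=
          Nat.add_le_add h4' (Nat.mul_le_mul_left _ hkk)
      _ = _ := by ring
  have h6 : (m : ℝ) * p ^ k ≤
      r * finrank F E * p ^ (n * k) * p ^ k + ((C + n : ℕ) : ℝ) * p ^ (n * k) := by
    exact_mod_cast h5
  have hpk : (0 : ℝ) < (p : ℝ) ^ k := by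
    have : (0 : ℝ) < p := by exact_mod_cast hp.pos
    positivity
  have hpnk : (0 : ℝ) < (p : ℝ) ^ (n * k) := by
    have : (0 : ℝ) < p := by exact_mod_cast hp.pos
    positivity
  have hE1 : (1 : ℝ) ≤ finrank F E := by
    have : 0 < finrank F E := finrank_pos
    exact_mod_cast this
  have h9 : (finrank F (fx (X.Z.W 0 k)) : ℝ) = finrank F E * p ^ (n * k) := by
    rw [hfr]
    push_cast
    ring
  have h7 : (m : ℝ) ≤ (r + ε) * (finrank F E * p ^ (n * k)) := by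
    have h8 : (m : ℝ) * p ^ k ≤ ((r + ε) * (finrank F E * p ^ (n * k))) * p ^ k := by
      have h10 : ((C + n : ℕ) : ℝ) * p ^ (n * k) ≤ ((p : ℝ) ^ k * ε) * p ^ (n * k) :=
        mul_le_mul_of_nonneg_right hk.le hpnk.le
      have h11 : ((p : ℝ) ^ k * ε) * p ^ (n * k) ≤
          ((p : ℝ) ^ k * ε) * (finrank F E * p ^ (n * k)) := by
        apply mul_le_mul_of_nonneg_left _ (mul_pos hpk hε).le
        exact le_mul_of_one_le_left hpnk.le hE1
      calc (m : ℝ) * p ^ k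
          ≤ r * finrank F E * p ^ (n * k) * p ^ k + ((C + n : ℕ) : ℝ) * p ^ (n * k) := h6
        _ ≤ r * finrank F E * p ^ (n * k) * p ^ k +
            ((p : ℝ) ^ k * ε) * (finrank F E * p ^ (n * k)) := by linarith
        _ = ((r + ε) * (finrank F E * p ^ (n * k))) * p ^ k := by ring
    exact le_of_mul_le_mul_right h8 hpk
  rw [h9]
  linarith

/-- rank zero gives a valuation. -/
theorem GE.concl (Cx : Ctx p F K ζ) (hζE : ζ ∈ E) (hneg : (-1 : K) ∈ TT p E) {s : ℕ}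
    (X : GE p E (s + 1)) (H : Hyp X.Z s) (hgal : ∀ (σ : K ≃ₐ[F] K), ∀ x ∈ E, σ x ∈ E)
    (hs : Nat.card (PC p E) = p ^ (s + 1)) (hs1 : 1 ≤ s) (hr : X.rk hgal = 0) : Concl F K := by
  have hfin := X.fin Cx hζE hgal hs
  obtain ⟨d, hd, hdf⟩ := special_of_rk_zero hs1 X.Z H (X.smo hgal) hfin hr
  exact concl_of_special2 Cx hζE hneg X.Z X.hO (isM_MF X.Z) (X.stM hgal) hs (by omega) d hd hdf

end

theorem exists_GE (Cx : Ctx p F K ζ) [FiniteDimensional F E] (hζE : ζ ∈ E)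
    (hz2 : ∃ z ∈ E, IsPrimitiveRoot z (p ^ 2))
    (hno : ∃ k, ∀ z ∈ E, ¬ IsPrimitiveRoot z (p ^ k)) {m : ℕ}
    (hm : Nat.card (PC p E) = p ^ m) :
    ∃ (s : ℕ) (X : GE p E (s + 1)), m = s + 1 ∧ Hyp X.Z s := by
  obtain ⟨s, c, hc, hms, ⟨S⟩⟩ := exists_KS Cx hz2 hno hm
  obtain ⟨t, ht1, ht2⟩ := S.exists_t Cx hζE hc
  obtain ⟨g, hg1, hg2⟩ := S.exists_g Cx hζE hc
  obtain ⟨Z, H, hO, hiff⟩ := S.exists_PZ Cx hζE hc t ht1 ht2 g hg1 hg2
  exact ⟨s, ⟨Z, hO, hiff⟩, hms, H⟩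

theorem exists_gal2 [IsGalois F K] (E' : IntermediateField F K) [FiniteDimensional F E'] (z : K) :
    ∃ E : IntermediateField F K, E' ≤ E ∧ z ∈ E ∧ FiniteDimensional F E ∧
      ∀ (σ : K ≃ₐ[F] K), ∀ x ∈ E, σ x ∈ E := by
  have h1 : FiniteDimensional F (IntermediateField.adjoin F {z}) :=
    IntermediateField.adjoin.finiteDimensional (Algebra.IsIntegral.isIntegral z)
  have h2 : FiniteDimensional F ↥(E' ⊔ IntermediateField.adjoin F {z}) :=
    IntermediateField.finiteDimensional_sup _ _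
  set E1 := E' ⊔ IntermediateField.adjoin F {z} with hE1
  refine ⟨IntermediateField.normalClosure F E1 K, le_sup_left.trans E1.le_normalClosure,
    E1.le_normalClosure ((le_sup_right : IntermediateField.adjoin F {z} ≤ E1)
      (IntermediateField.mem_adjoin_simple_self F z)), inferInstance, ?_⟩
  intro σ x hx
  have hn : Normal F (IntermediateField.normalClosure F E1 K) := inferInstance
  rw [IntermediateField.normal_iff_forall_map_le'] at hn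
  exact hn σ ⟨x, hx, rfl⟩

theorem rank_gradient_gen (Cx : Ctx p F K ζ) (hζF : ζ ∈ (⊥ : IntermediateField F K))
    (hp2 : p = 2 → ∃ z ∈ (⊥ : IntermediateField F K), z ^ 2 = -1)
    (hno : ∃ k, ∀ z ∈ (⊥ : IntermediateField F K), ¬ IsPrimitiveRoot z (p ^ k)) {n : ℕ}
    (hn : Nat.card (PC p (⊥ : IntermediateField F K)) = p ^ n) (h1 : 1 ≤ n) :
    ∃ r : ℕ,
      (∀ E : IntermediateField F K, FiniteDimensional F E →
        ∃ m, Nat.card (PC p E) = p ^ m ∧ r * finrank F E + 1 ≤ m) ∧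
      (∀ ε : ℝ, 0 < ε → ∃ E : IntermediateField F K, FiniteDimensional F E ∧
        ∃ m : ℕ, Nat.card (PC p E) = p ^ m ∧ (m : ℝ) - 1 ≤ (r + ε) * finrank F E) ∧
      (r = 0 → 2 ≤ n → Concl F K) := by
  classical
  have hp := Cx.hp
  have := Cx.pc.gal
  have hζE : ∀ E : IntermediateField F K, ζ ∈ E := fun E => (bot_le : ⊥ ≤ E) hζF
  obtain ⟨z, hz, hzz, hz1⟩ := exists_roots Cx
  have hneg : ∀ E : IntermediateField F K, (-1 : K) ∈ TT p E := by
    intro E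
    rcases hp.eq_two_or_odd' with h2 | hodd
    · obtain ⟨i, hi, hi2⟩ := hp2 h2
      refine ⟨neg_ne_zero.mpr one_ne_zero, i, (bot_le : ⊥ ≤ E) hi, ?_⟩
      rw [h2]
      exact hi2
    · exact ⟨neg_ne_zero.mpr one_ne_zero, -1, E.neg_mem E.one_mem, by rw [hodd.neg_one_pow]⟩
  -- cardinalities
  have hcard : ∀ E : IntermediateField F K, FiniteDimensional F E →
      ∃ m, Nat.card (PC p E) = p ^ m ∧ n ≤ m := by
    intro E hE
    obtain ⟨m, hm, -⟩ := card_schreier Cx (hζE ⊥) (bot_le : ⊥ ≤ E) hn (μ := finrank F E)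
      (by rw [IntermediateField.finrank_bot, one_mul])
    exact ⟨m, hm, card_mono2 Cx hζF hp2 bot_le hn hm⟩
  let S : Set ℕ := {r | ∃ (E : IntermediateField F K) (_ : FiniteDimensional F E)
    (hgal : ∀ (σ : K ≃ₐ[F] K), ∀ x ∈ E, σ x ∈ E) (s : ℕ) (X : GE p E (s + 1)), Hyp X.Z s ∧
    Nat.card (PC p E) = p ^ (s + 1) ∧ X.rk hgal = r * finrank F E}
  -- every finite Galois extension containing `z 2` gives an element
  have hmem : ∀ (E : IntermediateField F K) (_ : FiniteDimensional F E) (_ : z 2 ∈ E)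
      (_ : ∀ (σ : K ≃ₐ[F] K), ∀ x ∈ E, σ x ∈ E) (m : ℕ), Nat.card (PC p E) = p ^ m →
      ∃ r ∈ S, r * finrank F E + 1 ≤ m := by
    intro E hE hzE hgal m hm
    have hz2 : ∃ z ∈ E, IsPrimitiveRoot z (p ^ 2) := ⟨z 2, hzE, hz 2⟩
    obtain ⟨s, X, hms, H⟩ := exists_GE Cx (hζE E) hz2 (no_roots Cx hζF hp2 hno E) hm
    subst hms
    obtain ⟨r, hr⟩ := X.dvd Cx hζF hp2 hz2 (hζE E) hgal hm
    rw [mul_comm] at hr
    refine ⟨r, ⟨E, hE, hgal, s, X, H, hm, hr⟩, ?_⟩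
    rw [← hr]
    exact X.rank_le Cx (hζE E) hgal hm (by omega)
  have hne : S.Nonempty := by
    obtain ⟨E, -, hzE, hE, hgal⟩ := exists_gal2 (⊥ : IntermediateField F K) (z 2)
    obtain ⟨m, hm, -⟩ := hcard E hE
    obtain ⟨r, hr, -⟩ := hmem E hE hzE hgal m hm
    exact ⟨r, hr⟩
  refine ⟨sInf S, ?_, ?_, ?_⟩
  · intro E' hE'
    obtain ⟨m', hm', hnm'⟩ := hcard E' hE'
    refine ⟨m', hm', ?_⟩
    obtain ⟨E, hle, hzE, hE, hgal⟩ := exists_gal2 E' (z 2)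
    obtain ⟨μ, hμ⟩ : ∃ μ, finrank F E = finrank F E' * μ := by
      have h2 : finrank F E' ∣ finrank F E := IntermediateField.finrank_dvd_of_le_right hle
      exact h2
    obtain ⟨m, hm, hm2⟩ := card_schreier Cx (hζE E') hle hm' hμ
    obtain ⟨r, hr, hr2⟩ := hmem E hE hzE hgal m hm
    have h3 : sInf S ≤ r := Nat.sInf_le hr
    have hμ0 : 0 < μ := by
      have : 0 < finrank F E := finrank_pos
      rw [hμ] at this
      exact Nat.pos_of_mul_pos_left this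
    have h4 : r * (finrank F E' * μ) ≤ μ * (m' - 1) := by rw [← hμ]; omega
    have h5 : μ * (r * finrank F E') ≤ μ * (m' - 1) := by
      calc μ * (r * finrank F E') = r * (finrank F E' * μ) := by ring
        _ ≤ _ := h4
    have h6 := Nat.le_of_mul_le_mul_left h5 hμ0
    have h7 : sInf S * finrank F E' ≤ r * finrank F E' := Nat.mul_le_mul_right _ h3
    omega
  · intro ε hε
    obtain ⟨E, hE, hgal, s, X, H, hs, hr⟩ := Nat.sInf_mem hne
    exact X.approx Cx (hζE E) hgal hs (by omega) hr hε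
  · intro h0 h2
    obtain ⟨E, hE, hgal, s, X, H, hs, hr⟩ := Nat.sInf_mem hne
    rw [h0, zero_mul] at hr
    obtain ⟨m', hm', hnm⟩ := hcard E hE
    have hmm : m' = s + 1 := Nat.pow_right_injective hp.two_le (hm'.symm.trans hs)
    exact X.concl Cx (hζE E) (hneg E) H hgal hs (by omega) hr

end Pool.Agent.Helper25.GG
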