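import Pool.Agent.Helper25.GG.FQ
import Pool.Agent.Helper25.GG.Final

/-!
# Divisibility of the rank, relative version
-/

set_option autoImplicit false

namespace Pool.Agent.Helper25.GG

open Module Pool.Agent.Helper25.ETC Pool.Agent.Helper25.ETC.RG

section

variable {p : ℕ} [Fact p.Prime] {n : ℕ} {V V' : Type} [Group V] [Group V']
  {X : Type} [AddCommGroup X] [Module (ZMod p) X] {ρ : V →* Module.End (ZMod p) X}
  {X' : Type} [AddCommGroup X'] [Module (ZMod p) X'] {ρ' : V' →* Module.End (ZMod p) X'}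

theorem rk_le_of_growth (Z : PZ p V n) (Z' : PZ p V' n) (hsm : Smo Z ρ) (hsm' : Smo Z' ρ')
    (hfin : FiniteDimensional (ZMod p) (fix ρ ⊤)) (hfin' : FiniteDimensional (ZMod p) (fix ρ' ⊤))
    (h : ∀ k, finrank (ZMod p) (fix ρ (Z.W 0 k)) ≤ finrank (ZMod p) (fix ρ' (Z'.W 0 k))) :
    rk Z ρ ≤ rk Z' ρ' := by
  have hp : p.Prime := Fact.out
  obtain ⟨C, hC⟩ := growth_lower Z hsm hfin
  obtain ⟨C', hC'⟩ := growth_upper Z' hsm' hfin'
  by_contra hlt
  push Not at hlt
  set k := C + C' with hk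
  have h1 := hC k
  have h2 := hC' k
  have h3 : finrank (ZMod p) (fix ρ (Z.W 0 k)) * p ^ k ≤
      finrank (ZMod p) (fix ρ' (Z'.W 0 k)) * p ^ k := Nat.mul_le_mul_right _ (h k)
  have h4 : (rk Z' ρ' + 1) * p ^ (n * k) * p ^ k ≤ rk Z ρ * p ^ (n * k) * p ^ k :=
    Nat.mul_le_mul_right _ (Nat.mul_le_mul_right _ hlt)
  have h5 : (rk Z' ρ' + 1) * p ^ (n * k) * p ^ k =
      rk Z' ρ' * p ^ (n * k) * p ^ k + p ^ (n * k) * p ^ k := by ring
  have h6 : p ^ (n * k) * p ^ k ≤ p ^ (n * k) * k := by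
    have e : p ^ (n * k) * k = C' * p ^ (n * k) + C * p ^ (n * k) := by rw [hk]; ring
    rw [e]
    omega
  have h7 : k < p ^ k := Nat.lt_pow_self hp.one_lt
  exact absurd (Nat.le_of_mul_le_mul_left h6 (pow_pos hp.pos _)) (not_le.mpr h7)

end

variable {F K : Type} [Field F] [Field K] [Algebra F K] {p : ℕ} [Fact p.Prime] {n : ℕ} {ζ : K}
  {E : IntermediateField F K}

/-- the isomorphism of the relative group with the absolute one. -/
def relHom (E F1 : IntermediateField F K) :
    (E.fixingSubgroup.subgroupOf F1.fixingSubgroup) →* E.fixingSubgroup where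
  toFun v := ⟨((v : F1.fixingSubgroup) : K ≃ₐ[F] K), v.2⟩
  map_one' := rfl
  map_mul' _ _ := rfl

theorem relHom_coe (F1 : IntermediateField F K)
    (v : E.fixingSubgroup.subgroupOf F1.fixingSubgroup) :
    ((relHom E F1 v : E.fixingSubgroup) : K ≃ₐ[F] K) = ((v : F1.fixingSubgroup) : K ≃ₐ[F] K) := rfl

theorem relHom_inj (E F1 : IntermediateField F K) : Function.Injective (relHom E F1) := by
  intro v w h
  apply Subtype.ext
  apply Subtype.ext
  exact congrArg (Subtype.val : E.fixingSubgroup → (K ≃ₐ[F] K)) h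

theorem relHom_surj {F1 : IntermediateField F K} (hle : F1 ≤ E) :
    Function.Surjective (relHom E F1) := by
  intro v
  have h : (v : K ≃ₐ[F] K) ∈ F1.fixingSubgroup :=
    IntermediateField.fixingSubgroup_antitone hle v.2
  exact ⟨⟨⟨v, h⟩, v.2⟩, rfl⟩

theorem GE.dvd_rel [IsGalois F K] [FiniteDimensional F E] (Cx : Ctx p F K ζ)
    {F1 : IntermediateField F K} (hζ1 : ζ ∈ F1)
    (hp2 : p = 2 → ∃ z ∈ F1, z ^ 2 = -1) (hle : F1 ≤ E)
    (hz2 : ∃ z ∈ E, IsPrimitiveRoot z (p ^ 2)) (hζE : ζ ∈ E) (X : GE p E n)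
    (hgal : ∀ (σ : K ≃ₐ[F] K), ∀ x ∈ E, σ x ∈ E) {m : ℕ} (hs : Nat.card (PC p E) = p ^ m)
    {μ : ℕ} (hμ : finrank F E = finrank F F1 * μ) :
    μ ∣ X.rk hgal := by
  classical
  have hfE : E.fixingSubgroup.index ≠ 0 := (X.dat hgal).fin
  have hleF : E.fixingSubgroup ≤ F1.fixingSubgroup :=
    IntermediateField.fixingSubgroup_antitone hle
  obtain ⟨Z', hZ'1, hZ'2⟩ := exists_sub X.Z 0 (relHom E F1) (relHom_inj E F1) (by
    intro v
    rw [X.Z.zero]
    exact ⟨fun _ => relHom_surj hle v, fun _ => Subgroup.mem_top v⟩)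
  simp only [add_zero] at hZ'1
  let D : GD p F1.fixingSubgroup n :=
    { V := E.fixingSubgroup.subgroupOf F1.fixingSubgroup
      normal := by
        have h1 := normal_fixing (E := E) hgal
        exact Subgroup.normal_subgroupOf
      fin := by
        intro h0
        apply hfE
        rw [← Subgroup.relIndex_mul_index hleF]
        have : E.fixingSubgroup.relIndex F1.fixingSubgroup = 0 := h0
        rw [this, zero_mul]
      Z := Z'
      A := fun k => (im (X.Z.W 0 k)).subgroupOf F1.fixingSubgroup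
      mem_A := by
        intro k g
        rw [Subgroup.mem_subgroupOf, mem_im]
        constructor
        · rintro ⟨h1, h2⟩
          refine ⟨h1, ?_⟩
          rw [hZ'1]
          exact h2
        · rintro ⟨h1, h2⟩
          refine ⟨h1, ?_⟩
          rw [hZ'1] at h2
          exact h2
      normalA := by
        intro k
        have h1 := X.normal hgal k
        exact Subgroup.normal_subgroupOf }
  set M := MF X.Z with hM
  let ρ' : F1.fixingSubgroup →* Module.End (ZMod p) (VV p M) :=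
    (rep p M (X.stM hgal)).comp F1.fixingSubgroup.subtype
  have hfix : ∀ k, fix (D.rs ρ') (D.Z.W 0 k) = fix (repE p E M (X.stM hgal)) (X.Z.W 0 k) := by
    intro k
    ext u
    rw [mem_fix, mem_fix]
    constructor
    · intro h w hw
      obtain ⟨v, rfl⟩ := relHom_surj hle w
      exact h v ((hZ'1 0 k v).mpr hw)
    · intro h v hv
      exact h (relHom E F1 v) ((hZ'1 0 k v).mp hv)
  have hsmD : Smo D.Z (D.rs ρ') := by
    intro u
    obtain ⟨k, hk⟩ := X.smo hgal u
    exact ⟨k, fun v hv => hk (relHom E F1 v) ((hZ'1 0 k v).mp hv)⟩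
  have hfin := X.fin Cx hζE hgal hs
  have hfinD : FiniteDimensional (ZMod p) (fix (D.rs ρ') ⊤) := by
    have h1 := hfix 0
    rw [D.Z.zero, X.Z.zero] at h1
    rw [h1]
    exact hfin
  have hrk : GG.rk D.Z (D.rs ρ') = X.rk hgal := by
    apply le_antisymm
    · exact rk_le_of_growth D.Z X.Z hsmD (X.smo hgal) hfinD hfin (fun k => by rw [hfix])
    · exact rk_le_of_growth X.Z D.Z (X.smo hgal) hsmD hfin hfinD (fun k => by rw [hfix])
  have hch : HasChain p D.V (D.A 1) := by
    apply hasChain_rel Cx hζ1 hp2 hle hz2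
    intro σ hσ y hy
    obtain ⟨h1, h2⟩ := mem_im.mp hσ
    exact (X.iff 1 _).mp h2 y (by rwa [pow_one])
  have h1 := dvd_rank D (ρ := ρ') hch hsmD hfinD
  rw [hrk] at h1
  have h2 : D.V.index = μ := by
    have h3 : E.fixingSubgroup.relIndex F1.fixingSubgroup * F1.fixingSubgroup.index =
      E.fixingSubgroup.index := Subgroup.relIndex_mul_index hleF
    rw [← IntermediateField.finrank_eq_fixingSubgroup_index,
      ← IntermediateField.finrank_eq_fixingSubgroup_index, hμ, mul_comm] at h3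
    have h4 : 0 < finrank F F1 := by
      have : FiniteDimensional F F1 := Module.Finite.of_injective
        (IntermediateField.inclusion hle).toLinearMap (IntermediateField.inclusion_injective hle)
      exact finrank_pos
    exact Nat.eq_of_mul_eq_mul_left h4 h3
  rwa [h2] at h1

end Pool.Agent.Helper25.GG
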