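import Pool.Agent.Helper25.GG.FR
import Pool.Agent.Helper25.GG.FP
import Pool.Agent.Helper25.GG.FO2

/-!
# The rank gradient, general version
-/

set_option autoImplicit false

namespace Pool.Agent.Helper25.GG

open Module Pool.Agent.Helper25.ETC Pool.Agent.Helper25.ETC.RG

variable {F K : Type} [Field F] [Field K] [Algebra F K] {p : ℕ} [Fact p.Prime] {n : ℕ} {ζ : K}
  {E : IntermediateField F K}

theorem exists_GE_all (Cx : Ctx p F K ζ) [FiniteDimensional F E] (hζE : ζ ∈ E)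
    (hz2 : ∃ z ∈ E, IsPrimitiveRoot z (p ^ 2)) {m : ℕ}
    (hm : Nat.card (PC p E) = p ^ m) (hm1 : 1 ≤ m) :
    ∃ (s : ℕ) (X : GE p E (s + 1)), m = s + 1 ∧ Hyp X.Z s := by
  by_cases hall : ∀ k, ∃ z ∈ E, IsPrimitiveRoot z (p ^ k)
  · obtain ⟨s, rfl⟩ : ∃ s, m = s + 1 := ⟨m - 1, by omega⟩
    obtain ⟨Z, H, hO, hiff⟩ := exists_PZ_inf Cx hζE hall hm
    refine ⟨s, ⟨Z, hO, hiff⟩, rfl, ?_⟩
    intro k v
    obtain ⟨a, ha, h⟩ := H k v
    exact ⟨a, ha, fun i hi => h i (by omega)⟩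
  · push Not at hall
    exact exists_GE Cx hζE hz2 hall hm

/-- the rank is approached. -/
theorem GE.approx_rel [IsGalois F K] [FiniteDimensional F E] (Cx : Ctx p F K ζ) (hζE : ζ ∈ E)
    (X : GE p E n) (hgal : ∀ (σ : K ≃ₐ[F] K), ∀ x ∈ E, σ x ∈ E)
    (hs : Nat.card (PC p E) = p ^ n) (h1 : 1 ≤ n) {F1 : IntermediateField F K} (hle : F1 ≤ E)
    {μ : ℕ} (hμ : finrank F E = finrank F F1 * μ)
    {r : ℕ} (hr : X.rk hgal = r * μ) {ε : ℝ} (hε : 0 < ε) :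
    ∃ (L : IntermediateField F K) (μ' : ℕ), F1 ≤ L ∧ FiniteDimensional F L ∧
      finrank F L = finrank F F1 * μ' ∧ ∃ m : ℕ, Nat.card (PC p L) = p ^ m ∧
      (m : ℝ) - 1 ≤ (r + ε) * μ' := by
  have hp := Cx.hp
  have hfin := X.fin Cx hζE hgal hs
  obtain ⟨C, hC⟩ := growth_upper X.Z (X.smo hgal) hfin
  obtain ⟨k, hk⟩ := pow_unbounded_of_one_lt (((C + n : ℕ) : ℝ) / ε)
    (show (1 : ℝ) < (p : ℝ) by exact_mod_cast hp.one_lt)
  rw [div_lt_iff₀ hε] at hk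
  obtain ⟨hLfin, hfr, m, hm, hm2⟩ := X.fxk Cx hζE hs k
  obtain ⟨-, -, -, hEL⟩ := fx_fin X.hO (k := k) (U := X.Z.W 0 k) le_rfl
  obtain ⟨hb1, -⟩ := fix_le Cx hζE X.Z X.hO (isM_MF X.Z) (X.stM hgal) k hm
  have h3 := le_fix Cx hζE X.Z X.hO (isM_MF X.Z) (X.stM hgal) k hm hb1
  have h4 := hC k
  set dd := finrank (ZMod p) (fix (repE p E (MF X.Z) (X.stM hgal)) (X.Z.W 0 k)) with hdd
  have h4' : dd * p ^ k ≤ r * μ * p ^ (n * k) * p ^ k + C * p ^ (n * k) := by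
    have h5 : GG.rk X.Z (repE p E (MF X.Z) (X.stM hgal)) = r * μ := hr
    rw [h5] at h4
    exact h4
  refine ⟨fx (X.Z.W 0 k), μ * p ^ (n * k), hle.trans hEL, hLfin, ?_, m, hm, ?_⟩
  · rw [hfr, hμ, mul_assoc]
  have hkk : p ^ k ≤ p ^ (n * k) := Nat.pow_le_pow_right hp.pos (Nat.le_mul_of_pos_left k h1)
  have h5 : m * p ^ k ≤ r * μ * p ^ (n * k) * p ^ k + (C + n) * p ^ (n * k) := by
    calc m * p ^ k ≤ (dd + n) * p ^ k := Nat.mul_le_mul_right _ h3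
      _ = dd * p ^ k + n * p ^ k := by ring
      _ ≤ (r * μ * p ^ (n * k) * p ^ k + C * p ^ (n * k)) + n * p ^ (n * k) :=
          Nat.add_le_add h4' (Nat.mul_le_mul_left _ hkk)
      _ = _ := by ring
  have h6 : (m : ℝ) * p ^ k ≤
      r * μ * p ^ (n * k) * p ^ k + ((C + n : ℕ) : ℝ) * p ^ (n * k) := by
    exact_mod_cast h5
  have hpk : (0 : ℝ) < (p : ℝ) ^ k := by
    have : (0 : ℝ) < p := by exact_mod_cast hp.pos
    positivity
  have hpnk : (0 : ℝ) < (p : ℝ) ^ (n * k) := by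
    have : (0 : ℝ) < p := by exact_mod_cast hp.pos
    positivity
  have hμ1 : (1 : ℝ) ≤ μ := by
    have h7 : 0 < finrank F E := finrank_pos
    rw [hμ] at h7
    have h8 : 0 < μ := Nat.pos_of_mul_pos_left h7
    exact_mod_cast h8
  push_cast
  have h8 : (m : ℝ) * p ^ k ≤ ((r + ε) * (μ * p ^ (n * k))) * p ^ k := by
    have h10 : ((C + n : ℕ) : ℝ) * p ^ (n * k) ≤ ((p : ℝ) ^ k * ε) * p ^ (n * k) :=
      mul_le_mul_of_nonneg_right hk.le hpnk.le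
    have h11 : ((p : ℝ) ^ k * ε) * p ^ (n * k) ≤
        ((p : ℝ) ^ k * ε) * (μ * p ^ (n * k)) := by
      apply mul_le_mul_of_nonneg_left _ (mul_pos hpk hε).le
      exact le_mul_of_one_le_left hpnk.le hμ1
    calc (m : ℝ) * p ^ k
        ≤ r * μ * p ^ (n * k) * p ^ k + ((C + n : ℕ) : ℝ) * p ^ (n * k) := h6
      _ ≤ r * μ * p ^ (n * k) * p ^ k +
          ((p : ℝ) ^ k * ε) * (μ * p ^ (n * k)) := by linarith
      _ = ((r + ε) * (μ * p ^ (n * k))) * p ^ k := by ring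
  have h7 : (m : ℝ) ≤ (r + ε) * (μ * p ^ (n * k)) := le_of_mul_le_mul_right h8 hpk
  linarith

theorem rank_gradient_rel (Cx : Ctx p F K ζ) {F1 : IntermediateField F K}
    [FiniteDimensional F F1] (hζ1 : ζ ∈ F1) (hp2 : p = 2 → ∃ z ∈ F1, z ^ 2 = -1) {n : ℕ}
    (hn : Nat.card (PC p F1) = p ^ n) (h1 : 1 ≤ n) :
    ∃ r : ℕ,
      (∀ (E : IntermediateField F K) (μ : ℕ), F1 ≤ E → FiniteDimensional F E →
        finrank F E = finrank F F1 * μ →
        ∃ m, Nat.card (PC p E) = p ^ m ∧ r * μ + 1 ≤ m) ∧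
      (∀ ε : ℝ, 0 < ε → ∃ (E : IntermediateField F K) (μ : ℕ), F1 ≤ E ∧ FiniteDimensional F E ∧
        finrank F E = finrank F F1 * μ ∧
        ∃ m : ℕ, Nat.card (PC p E) = p ^ m ∧ (m : ℝ) - 1 ≤ (r + ε) * μ) ∧
      (r = 0 → 2 ≤ n → Concl F K) := by
  classical
  have hp := Cx.hp
  have := Cx.pc.gal
  have hζE : ∀ E : IntermediateField F K, F1 ≤ E → ζ ∈ E := fun E h => h hζ1
  have hF1 : 0 < finrank F F1 := finrank_pos
  obtain ⟨z, hz, hzz, hz1⟩ := exists_roots Cx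
  have hneg : ∀ E : IntermediateField F K, F1 ≤ E → (-1 : K) ∈ TT p E := by
    intro E hE
    rcases hp.eq_two_or_odd' with h2 | hodd
    · obtain ⟨i, hi, hi2⟩ := hp2 h2
      refine ⟨neg_ne_zero.mpr one_ne_zero, i, hE hi, ?_⟩
      rw [h2]
      exact hi2
    · exact ⟨neg_ne_zero.mpr one_ne_zero, -1, E.neg_mem E.one_mem, by rw [hodd.neg_one_pow]⟩
  -- cardinalities
  have hcard : ∀ E : IntermediateField F K, F1 ≤ E → FiniteDimensional F E →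
      ∃ m, Nat.card (PC p E) = p ^ m ∧ n ≤ m := by
    intro E hE1 hE
    obtain ⟨μ, hμ⟩ : ∃ μ, finrank F E = finrank F F1 * μ := by
      have h2 : finrank F F1 ∣ finrank F E := IntermediateField.finrank_dvd_of_le_right hE1
      exact h2
    obtain ⟨m, hm, -⟩ := card_schreier Cx hζ1 hE1 hn hμ
    exact ⟨m, hm, card_mono3 Cx hζ1 hp2 hE1 hn hm⟩
  let S : Set ℕ := {r | ∃ (E : IntermediateField F K) (_ : FiniteDimensional F E)
    (hgal : ∀ (σ : K ≃ₐ[F] K), ∀ x ∈ E, σ x ∈ E) (s : ℕ) (X : GE p E (s + 1)) (μ : ℕ),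
    F1 ≤ E ∧ Hyp X.Z s ∧
    Nat.card (PC p E) = p ^ (s + 1) ∧ finrank F E = finrank F F1 * μ ∧ X.rk hgal = r * μ}
  -- every finite Galois extension containing `z 2` gives an element
  have hmem : ∀ (E : IntermediateField F K) (μ : ℕ) (_ : FiniteDimensional F E) (_ : F1 ≤ E)
      (_ : z 2 ∈ E) (_ : finrank F E = finrank F F1 * μ)
      (_ : ∀ (σ : K ≃ₐ[F] K), ∀ x ∈ E, σ x ∈ E) (m : ℕ), Nat.card (PC p E) = p ^ m →
      ∃ r ∈ S, r * μ + 1 ≤ m := by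
    intro E μ hE hE1 hzE hμ hgal m hm
    have hz2 : ∃ z ∈ E, IsPrimitiveRoot z (p ^ 2) := ⟨z 2, hzE, hz 2⟩
    obtain ⟨m', hm', hnm⟩ := hcard E hE1 hE
    have hmm : m' = m := Nat.pow_right_injective hp.two_le (hm'.symm.trans hm)
    obtain ⟨s, X, hms, H⟩ := exists_GE_all Cx (hζE E hE1) hz2 hm (by omega)
    subst hms
    obtain ⟨r, hr⟩ := X.dvd_rel Cx hζ1 hp2 hE1 hz2 (hζE E hE1) hgal hm hμ
    rw [mul_comm] at hr
    refine ⟨r, ⟨E, hE, hgal, s, X, μ, hE1, H, hm, hμ, hr⟩, ?_⟩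
    rw [← hr]
    exact X.rank_le Cx (hζE E hE1) hgal hm (by omega)
  have hex : ∀ (E' : IntermediateField F K) (_ : FiniteDimensional F E') (_ : F1 ≤ E'),
      ∃ (E : IntermediateField F K) (μ : ℕ), E' ≤ E ∧ F1 ≤ E ∧ FiniteDimensional F E ∧ z 2 ∈ E ∧
        finrank F E = finrank F F1 * μ ∧ ∀ (σ : K ≃ₐ[F] K), ∀ x ∈ E, σ x ∈ E := by
    intro E' hE' hE1
    obtain ⟨E, hle, hzE, hE, hgal⟩ := exists_gal2 E' (z 2)
    obtain ⟨μ, hμ⟩ : ∃ μ, finrank F E = finrank F F1 * μ := by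
      have h2 : finrank F F1 ∣ finrank F E := IntermediateField.finrank_dvd_of_le_right (hE1.trans hle)
      exact h2
    exact ⟨E, μ, hle, hE1.trans hle, hE, hzE, hμ, hgal⟩
  have hne : S.Nonempty := by
    obtain ⟨E, μ, -, hE1, hE, hzE, hμ, hgal⟩ := hex F1 inferInstance le_rfl
    obtain ⟨m, hm, -⟩ := hcard E hE1 hE
    obtain ⟨r, hr, -⟩ := hmem E μ hE hE1 hzE hμ hgal m hm
    exact ⟨r, hr⟩
  refine ⟨sInf S, ?_, ?_, ?_⟩
  · intro E' μ' hE1' hE' hμ'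
    obtain ⟨m', hm', hnm'⟩ := hcard E' hE1' hE'
    refine ⟨m', hm', ?_⟩
    obtain ⟨E, μ, hle, hE1, hE, hzE, hμ, hgal⟩ := hex E' hE' hE1'
    obtain ⟨ν, hν⟩ : ∃ ν, finrank F E = finrank F E' * ν := by
      have h2 : finrank F E' ∣ finrank F E := IntermediateField.finrank_dvd_of_le_right hle
      exact h2
    have hμν : μ = μ' * ν := by
      have h3 : finrank F F1 * μ = finrank F F1 * (μ' * ν) := by
        rw [← hμ, hν, hμ', mul_assoc]
      exact Nat.eq_of_mul_eq_mul_left hF1 h3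
    obtain ⟨m, hm, hm2⟩ := card_schreier Cx (hζE E' hE1') hle hm' hν
    obtain ⟨r, hr, hr2⟩ := hmem E μ hE hE1 hzE hμ hgal m hm
    have h3 : sInf S ≤ r := Nat.sInf_le hr
    have hν0 : 0 < ν := by
      have : 0 < finrank F E := finrank_pos
      rw [hν] at this
      exact Nat.pos_of_mul_pos_left this
    have h4 : r * (μ' * ν) ≤ ν * (m' - 1) := by rw [← hμν]; omega
    have h5 : ν * (r * μ') ≤ ν * (m' - 1) := by
      calc ν * (r * μ') = r * (μ' * ν) := by ring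
        _ ≤ _ := h4
    have h6 := Nat.le_of_mul_le_mul_left h5 hν0
    have h7 : sInf S * μ' ≤ r * μ' := Nat.mul_le_mul_right _ h3
    omega
  · intro ε hε
    obtain ⟨E, hE, hgal, s, X, μ, hE1, H, hs, hμ, hr⟩ := Nat.sInf_mem hne
    -- apply the approximation with `r' = r / [F1 : F]` replaced by the relative degree
    exact X.approx_rel Cx (hζE E hE1) hgal hs (by omega) hE1 hμ hr hε
  · intro h0 h2
    obtain ⟨E, hE, hgal, s, X, μ, hE1, H, hs, hμ, hr⟩ := Nat.sInf_mem hne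
    rw [h0, zero_mul] at hr
    obtain ⟨m', hm', hnm⟩ := hcard E hE1 hE
    have hmm : m' = s + 1 := Nat.pow_right_injective hp.two_le (hm'.symm.trans hs)
    exact X.concl Cx (hζE E hE1) (hneg E hE1) H hgal hs (by omega) hr

end Pool.Agent.Helper25.GG
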