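import Pool.Agent.Helper25.GG.P1

/-!
# Block G1: locally constant functions on G
-/

set_option autoImplicit false

namespace Pool.Agent.Helper25.GG

open Module

variable {p : ℕ} [Fact p.Prime] {V : Type} [Group V] {n : ℕ}

variable {G : Type} [Group G] (D : GD p G n)
  {X : Type} [AddCommGroup X] [Module (ZMod p) X] {ρ : G →* Module.End (ZMod p) X}

theorem CG.smo (m : ℕ) : Smo D.Z (D.rs (CG.ρ D m)) := by
  intro f
  obtain ⟨j, hj⟩ := f.2
  refine ⟨j, fun a ha => Subtype.ext (funext fun x => ?_)⟩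
  rw [GD.rs_apply, CG.ρ_apply]
  exact hj x a ((D.mem_A j a).mpr ⟨a.2, ha⟩)

/-- functions on the cosets of `V`. -/
noncomputable def CG.lift (m : ℕ) :
    (G ⧸ D.V → (Fin m → ZMod p)) →ₗ[ZMod p] fix (D.rs (CG.ρ D m)) ⊤ where
  toFun φ := ⟨⟨fun x => φ (x : G ⧸ D.V), ⟨0, fun x a ha => by
      have h1 : a ∈ D.V := by
        rw [D.mem_A] at ha
        exact ha.1
      have h2 : ((x * a : G) : G ⧸ D.V) = (x : G ⧸ D.V) := by
        rw [QuotientGroup.mk_mul_of_mem x h1]
      change φ ((x * a : G) : G ⧸ D.V) = φ (x : G ⧸ D.V)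
      rw [h2]⟩⟩, fun g _ => by
      apply Subtype.ext
      funext x
      rw [GD.rs_apply, CG.ρ_apply]
      change φ ((x * (g : G) : G) : G ⧸ D.V) = φ (x : G ⧸ D.V)
      rw [QuotientGroup.mk_mul_of_mem x g.2]⟩
  map_add' φ ψ := rfl
  map_smul' c φ := rfl

theorem CG.lift_apply (m : ℕ) (φ : G ⧸ D.V → (Fin m → ZMod p)) (x : G) :
    ((CG.lift D m φ).1).1 x = φ (x : G ⧸ D.V) := rfl

theorem CG.lift_bijective (m : ℕ) : Function.Bijective (CG.lift D m) := by
  constructor
  · intro φ ψ h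
    funext q
    obtain ⟨x, rfl⟩ := QuotientGroup.mk_surjective q
    rw [← CG.lift_apply D m φ, ← CG.lift_apply D m ψ, h]
  · intro f
    refine ⟨fun q => f.1.1 q.out, ?_⟩
    apply Subtype.ext
    apply Subtype.ext
    funext x
    rw [CG.lift_apply]
    have h1 : x⁻¹ * (x : G ⧸ D.V).out ∈ D.V := by
      rw [← QuotientGroup.eq, QuotientGroup.out_eq']
    have h2 := f.2 ⟨_, h1⟩ (Subgroup.mem_top _)
    have h3 : (D.rs (CG.ρ D m) ⟨x⁻¹ * (x : G ⧸ D.V).out, h1⟩ f.1).1 x = f.1.1 x := by rw [h2]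
    rw [GD.rs_apply, CG.ρ_apply, mul_inv_cancel_left] at h3
    exact h3

theorem CG.finrank_fix (m : ℕ) :
    FiniteDimensional (ZMod p) (fix (D.rs (CG.ρ D m)) ⊤) ∧
      finrank (ZMod p) (fix (D.rs (CG.ρ D m)) ⊤) = m * D.V.index := by
  classical
  have hfin : Finite (G ⧸ D.V) := by
    have : D.V.FiniteIndex := ⟨D.fin⟩
    infer_instance
  have := Fintype.ofFinite (G ⧸ D.V)
  let e := LinearEquiv.ofBijective (CG.lift D m) (CG.lift_bijective D m)
  refine ⟨Module.Finite.equiv e, ?_⟩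
  rw [← e.finrank_eq, Module.finrank_pi_fintype]
  simp only [Module.finrank_fin_fun, Finset.sum_const, Finset.card_univ, smul_eq_mul]
  rw [Subgroup.index, Nat.card_eq_fintype_card, mul_comm]

theorem CG.embed (hsm : Smo D.Z (D.rs ρ)) (hfin : FiniteDimensional (ZMod p) (fix (D.rs ρ) ⊤)) :
    ∃ (m : ℕ) (u : X →ₗ[ZMod p] CG D m), (∀ g x, u (ρ g x) = CG.ρ D m g (u x)) ∧
      Function.Injective u := by
  let b := Module.finBasis (ZMod p) (fix (D.rs ρ) ⊤)
  choose μ hμ using fun j => LinearMap.exists_extend (b.coord j)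
  let u : X →ₗ[ZMod p] CG D (finrank (ZMod p) (fix (D.rs ρ) ⊤)) :=
    { toFun := fun h => ⟨fun y i => μ i (ρ y h), by
        obtain ⟨j, hj⟩ := hsm h
        refine ⟨j, fun y a ha => ?_⟩
        obtain ⟨haV, haW⟩ := (D.mem_A j a).mp ha
        funext i
        change μ i (ρ (y * a) h) = μ i (ρ y h)
        have h1 : ρ a h = h := hj ⟨a, haV⟩ haW
        rw [map_mul, Module.End.mul_apply, h1]⟩
      map_add' := fun h h' => by
        apply Subtype.ext
        funext y i
        change μ i (ρ y (h + h')) = μ i (ρ y h) + μ i (ρ y h')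
        rw [map_add, map_add]
      map_smul' := fun c h => by
        apply Subtype.ext
        funext y i
        change μ i (ρ y (c • h)) = c • μ i (ρ y h)
        rw [map_smul, map_smul] }
  have hu : ∀ h y i, (u h).1 y i = μ i (ρ y h) := fun h y i => rfl
  have he : ∀ g h, u (ρ g h) = CG.ρ D _ g (u h) := by
    intro g h
    apply Subtype.ext
    funext y i
    rw [CG.ρ_apply, hu, hu, map_mul, Module.End.mul_apply]
  refine ⟨_, u, he, ?_⟩
  refine Smo.inj_of_fix D.Z hsm (ρ' := D.rs (CG.ρ D _)) (fun v x => ?_) ?_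
  · rw [GD.rs_apply, GD.rs_apply]
    exact he v x
  · intro x hx h0
    have h1 : ∀ j, b.coord j ⟨x, hx⟩ = 0 := by
      intro j
      have h2 := congrArg (fun f => f ⟨x, hx⟩) (hμ j)
      simp only [LinearMap.comp_apply, Submodule.subtype_apply] at h2
      rw [← h2]
      have h3 := hu x 1 j
      rw [map_one, Module.End.one_apply, h0] at h3
      exact h3.symm
    have h4 : (⟨x, hx⟩ : fix (D.rs ρ) ⊤) = 0 := by
      apply b.repr.injective
      ext j
      rw [map_zero]
      exact h1 j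
    exact congrArg Subtype.val h4

end Pool.Agent.Helper25.GG
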