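import Pool.Agent.Helper25.GG.Defs3
import Pool.Agent.Helper25.GG.A1

/-!
# Block G2: locally constant functions on G are coregular
-/

set_option autoImplicit false

namespace Pool.Agent.Helper25.GG

open Module

variable {p : ℕ} [Fact p.Prime] {V : Type} [Group V] {n : ℕ}

/-- a discrete antiderivative of controlled level. -/
theorem exists_antiG2 (Z : PZ p V n) {i : ℕ} (hi : i < n) {k : ℕ} {f : V → ZMod p}
    (hf : f ∈ Cl Z i k) : ∃ g ∈ Cl Z i (k + 1), ∀ x, g (x * Z.t i) - g x = f x := by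
  have hk := hf
  set K := k + 1 with hK
  have hkK : f ∈ Cl Z i K := fun x w hw => hk x w (Z.anti i k hw)
  let g : V → ZMod p := fun x =>
    ∑ a ∈ Finset.range (coA Z i K x), f (rpA Z i K x * Z.t i ^ a)
  have hg : g ∈ Cl Z i K := by
    intro x w hw
    have h1 : rpA Z i K (x * w) = rpA Z i K x := rpA_mul Z i K x (Z.mono i K hw)
    have h2 : coA Z i K (x * w) = coA Z i K x := by
      apply coA_eq Z hi K _ (coA_lt Z hi K x)
      rw [h1]
      have h3 : (Z.t i ^ coA Z i K x)⁻¹ * ((rpA Z i K x)⁻¹ * (x * w)) =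
          ((Z.t i ^ coA Z i K x)⁻¹ * ((rpA Z i K x)⁻¹ * x)) * w := by group
      rw [h3]
      exact (Z.W i K).mul_mem (coA_spec Z hi K x) hw
    simp only [g]
    rw [h1, h2]
  refine ⟨g, hg, ?_⟩
  intro x
  have hmem : Z.t i ∈ Z.W (i + 1) K := Z.mem i hi K
  have h1 : rpA Z i K (x * Z.t i) = rpA Z i K x := rpA_mul Z i K x hmem
  have hsp := coA_spec Z hi K x
  have hlt := coA_lt Z hi K x
  set m := coA Z i K x with hm
  set r := rpA Z i K x with hr
  have hnext : (Z.t i ^ (m + 1))⁻¹ * (r⁻¹ * (x * Z.t i)) ∈ Z.W i K := by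
    have h3 : (Z.t i ^ (m + 1))⁻¹ * (r⁻¹ * (x * Z.t i)) =
        (Z.t i)⁻¹ * ((Z.t i ^ m)⁻¹ * (r⁻¹ * x)) * Z.t i := by
      rw [pow_succ]; group
    rw [h3]
    exact Z.conjA1 hsp _
  have hfx : f x = f (r * Z.t i ^ m) := by
    have h3 : x = r * Z.t i ^ m * ((Z.t i ^ m)⁻¹ * (r⁻¹ * x)) := by group
    conv_lhs => rw [h3]
    exact hkK _ _ hsp
  change (∑ a ∈ Finset.range (coA Z i K (x * Z.t i)), f (rpA Z i K (x * Z.t i) * Z.t i ^ a)) -
    (∑ a ∈ Finset.range m, f (r * Z.t i ^ a)) = f x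
  rw [h1]
  rcases lt_or_eq_of_le (Nat.succ_le_of_lt hlt) with h3 | h3
  · have h4 : coA Z i K (x * Z.t i) = m + 1 := by
      apply coA_eq Z hi K _ h3
      rw [h1]
      exact hnext
    rw [h4, Finset.sum_range_succ, hfx]
    ring
  · have h3' : m + 1 = p ^ K := h3
    have h4 : coA Z i K (x * Z.t i) = 0 := by
      apply coA_eq Z hi K _ (lt_of_le_of_lt (Nat.zero_le _) hlt)
      rw [h1, pow_zero, inv_one, one_mul]
      have h5 : Z.t i ^ (m + 1) ∈ Z.W i K := (Z.order i hi K _).2 (by rw [h3'])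
      have h6 := (Z.W i K).mul_mem h5 hnext
      rwa [mul_inv_cancel_left] at h6
    rw [h4, Finset.sum_range_zero, zero_sub, hfx]
    have h5 : ∑ a ∈ Finset.range (m + 1), f (r * Z.t i ^ a) = 0 := by
      rw [h3', hK, pow_succ]
      apply sum_periodA
      intro a
      have h6 : Z.t i ^ (p ^ k) ∈ Z.W i k := (Z.order i hi k _).2 (dvd_refl _)
      rw [pow_add, ← mul_assoc]
      exact hk _ _ h6
    rw [Finset.sum_range_succ] at h5
    exact (eq_neg_of_add_eq_zero_right h5).symm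

variable {G : Type} [Group G] (D : GD p G n)

theorem CG.coreg (m : ℕ) : Coreg D.Z (D.rs (CG.ρ D m)) n := by
  rintro i hi f ⟨k, hk⟩
  have hk' : ∀ (x : G) (w : D.V), w ∈ D.Z.W i k → f.1 (x * w) = f.1 x := by
    intro x w hw
    have h1 : (D.rs (CG.ρ D m) w f).1 x = f.1 x := by rw [hk w hw]
    exact h1
  -- the antiderivatives on the cosets of `V`
  have hex : ∀ (r : G) (c : Fin m), ∃ g ∈ Cl D.Z i (k + 1),
      ∀ v : D.V, g (v * D.Z.t i) - g v = f.1 (r * v) c := by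
    intro r c
    apply exists_antiG2 D.Z hi (f := fun v : D.V => f.1 (r * v) c)
    intro v w hw
    simp only
    rw [Subgroup.coe_mul, ← mul_assoc, hk' _ w hw]
  choose g hg hgt using hex
  let rp : G → G := fun x => (QuotientGroup.mk x : G ⧸ D.V).out
  have hrp : ∀ x, (rp x)⁻¹ * x ∈ D.V := by
    intro x
    simp only [rp]
    rw [← QuotientGroup.eq]
    exact Quotient.out_eq' _
  have hrpm : ∀ (x : G) (v : D.V), rp (x * v) = rp x := by
    intro x v
    simp only [rp]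
    congr 1
    rw [eq_comm, QuotientGroup.eq, inv_mul_cancel_left]
    exact v.2
  let y : G → (Fin m → ZMod p) := fun x c => g (rp x) c ⟨(rp x)⁻¹ * x, hrp x⟩
  have hyv : ∀ (x : G) (v : D.V) (c : Fin m),
      y (x * v) c = g (rp x) c (⟨(rp x)⁻¹ * x, hrp x⟩ * v) := by
    intro x v c
    have h1 : ∀ (r : G) (hr : r = rp x) (h : r⁻¹ * (x * v) ∈ D.V),
        g r c ⟨r⁻¹ * (x * v), h⟩ = g (rp x) c (⟨(rp x)⁻¹ * x, hrp x⟩ * v) := by
      intro r hr h
      subst hr
      congr 1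
      apply Subtype.ext
      change (rp x)⁻¹ * (x * v) = (rp x)⁻¹ * x * v
      rw [mul_assoc]
    exact h1 (rp (x * v)) (hrpm x v) (hrp (x * v))
  have hyinv : ∀ (x : G) (w : D.V), w ∈ D.Z.W i (k + 1) → y (x * w) = y x := by
    intro x w hw
    funext c
    rw [hyv]
    exact hg (rp x) c _ w hw
  have hmono : ∀ a j, D.Z.W 0 j ≤ D.Z.W a j := by
    intro a j
    induction a with
    | zero => exact le_rfl
    | succ a ih => exact ih.trans (D.Z.mono a j)
  have hyCG : y ∈ CG D m := by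
    refine ⟨k + 1, fun x a ha => ?_⟩
    rw [D.mem_A] at ha
    obtain ⟨haV, ha⟩ := ha
    exact hyinv x ⟨a, haV⟩ (hmono i (k + 1) ha)
  refine ⟨⟨y, hyCG⟩, ⟨k + 1, fun w hw => ?_⟩, ?_⟩
  · apply Subtype.ext
    funext x
    exact hyinv x w hw
  · apply Subtype.ext
    funext x c
    change y (x * (D.Z.t i : D.V)) c - y x c = f.1 x c
    rw [hyv]
    change g (rp x) c (⟨(rp x)⁻¹ * x, hrp x⟩ * D.Z.t i) - g (rp x) c ⟨(rp x)⁻¹ * x, hrp x⟩ = _
    rw [hgt]
    change f.1 (rp x * ((rp x)⁻¹ * x)) c = f.1 x c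
    rw [mul_inv_cancel_left]

end Pool.Agent.Helper25.GG
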