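import Pool.Agent.Helper25.GG.Defs3

/-!
# Block G3: dimension shifting
-/

set_option autoImplicit false

namespace Pool.Agent.Helper25.GG

open Module

variable {p : ℕ} [Fact p.Prime] {V : Type} [Group V] {n : ℕ}

variable {X : Type} [AddCommGroup X] [Module (ZMod p) X] {ρ : V →* Module.End (ZMod p) X}
  {Y : Type} [AddCommGroup Y] [Module (ZMod p) Y] {ρ' : V →* Module.End (ZMod p) Y}
  {X' : Type} [AddCommGroup X'] [Module (ZMod p) X'] {ρ'' : V →* Module.End (ZMod p) X'}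

theorem g3_lev_stab (Z : PZ p V n) {i : ℕ} {y : Y} (hy : y ∈ lev Z ρ' i) (v : V) :
    ρ' v y ∈ lev Z ρ' i := by
  obtain ⟨k, hk⟩ := hy
  refine ⟨k, fun w hw => ?_⟩
  have h1 : w * v = v * (v⁻¹ * w * v) := by group
  have h2 : v⁻¹ * w * v ∈ Z.W i k := by
    have := (Z.normal i k).conj_mem w hw v⁻¹
    rwa [inv_inv] at this
  rw [← Module.End.mul_apply, ← map_mul, h1, map_mul, Module.End.mul_apply, hk _ h2]

theorem g3_lev_mono (Z : PZ p V n) {i : ℕ} {y : Y} (hy : y ∈ lev Z ρ' (i + 1)) :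
    y ∈ lev Z ρ' i := by
  obtain ⟨k, hk⟩ := hy
  exact ⟨k, fun w hw => hk w (Z.mono i k hw)⟩

theorem g3_lev_succ (Z : PZ p V n) {i : ℕ} (hi : i < n) {y : Y} (hy : y ∈ lev Z ρ' i)
    (ht : ρ' (Z.t i) y = y) : y ∈ lev Z ρ' (i + 1) := by
  obtain ⟨k, hk⟩ := hy
  refine ⟨k, fun v hv => ?_⟩
  obtain ⟨m, hm⟩ := Z.gen i hi k v hv
  have h1 : v = Z.t i ^ m * ((Z.t i ^ m)⁻¹ * v) := by group
  have h2 : ∀ m : ℕ, ρ' (Z.t i ^ m) y = y := by
    intro m
    induction m with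
    | zero => rw [pow_zero, map_one]; rfl
    | succ m ih => rw [pow_succ, map_mul, Module.End.mul_apply, ht, ih]
  rw [h1, map_mul, Module.End.mul_apply, hk _ hm, h2]

theorem coreg_snake (Z : PZ p V n) {u : X →ₗ[ZMod p] Y} {g : Y →ₗ[ZMod p] X'}
    (hX : Smo Z ρ) (hY : Smo Z ρ') (hX' : Smo Z ρ'')
    (hu : Eqv ρ ρ' u) (hg : Eqv ρ' ρ'' g) (hinj : Function.Injective u)
    (hsurj : Function.Surjective g) (hex : ∀ y, g y = 0 ↔ ∃ x, u x = y)
    {j : ℕ} (hj : j < n) (hcX : Coreg Z ρ j) (hcY : Coreg Z ρ' n) :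
    Coreg Z ρ'' (j + 1) := by
  have hgu : ∀ x, g (u x) = 0 := fun x => (hex _).2 ⟨x, rfl⟩
  have claim : ∀ i : ℕ, i ≤ j → ∀ w ∈ lev Z ρ'' i, ∃ y ∈ lev Z ρ' i, g y = w := by
    intro i
    induction i with
    | zero =>
      intro _ w _
      obtain ⟨y, hy⟩ := hsurj w
      exact ⟨y, hY y, hy⟩
    | succ i ih =>
      intro hi w hw
      obtain ⟨y, hy, hyw⟩ := ih (by omega) w (g3_lev_mono Z hw)
      have hz : ρ' (Z.t i) y - y ∈ lev Z ρ' i := sub_mem (g3_lev_stab Z hy _) hy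
      have hgz : g (ρ' (Z.t i) y - y) = 0 := by
        obtain ⟨k, hk⟩ := hw
        rw [map_sub, hg, hyw, hk _ (Z.mem i (by omega) k), sub_self]
      obtain ⟨x, hx⟩ := (hex _).1 hgz
      have hxl : x ∈ lev Z ρ i := by
        obtain ⟨k, hk⟩ := hz
        refine ⟨k, fun v hv => hinj ?_⟩
        rw [hu, hx, hk v hv]
      obtain ⟨x', hx'l, hx'⟩ := hcX i (by omega) x hxl
      have hux' : u x' ∈ lev Z ρ' i := by
        obtain ⟨k, hk⟩ := hx'l
        exact ⟨k, fun v hv => by rw [← hu, hk v hv]⟩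
      refine ⟨y - u x', g3_lev_succ Z (by omega) (sub_mem hy hux') ?_, by
        rw [map_sub, hgu, sub_zero, hyw]⟩
      have h3 : ρ' (Z.t i) (u x') = u x' + (ρ' (Z.t i) y - y) := by
        rw [← hu, ← hx, ← hx', map_sub]
        abel
      rw [map_sub, h3]
      abel_nf
  intro i hi x hx
  obtain ⟨y, hy, hyx⟩ := claim i (by omega) x hx
  obtain ⟨y1, hy1, h1⟩ := hcY i (by omega) y hy
  refine ⟨g y1, ?_, ?_⟩
  · obtain ⟨k, hk⟩ := hy1
    exact ⟨k, fun v hv => by rw [← hg, hk v hv]⟩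
  · rw [← hg, ← map_sub, h1, hyx]

end Pool.Agent.Helper25.GG
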