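import Pool.Agent.Helper25.GG.A1
import Pool.Agent.Helper25.GG.P1

/-!
# Block G4: coregular representations are cofree
-/

set_option autoImplicit false

namespace Pool.Agent.Helper25.GG

open Module

variable {p : ℕ} [Fact p.Prime] {V : Type} [Group V] {n : ℕ}

variable {X : Type} [AddCommGroup X] [Module (ZMod p) X] {ρ : V →* Module.End (ZMod p) X}


theorem lev_succ_le (Z : PZ p V n) (ρ : V →* Module.End (ZMod p) X) (i : ℕ) :
    lev Z ρ (i + 1) ≤ lev Z ρ i := by
  rintro x ⟨k, hk⟩
  exact ⟨k, fun w hw => hk w (Z.mono i k hw)⟩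

theorem embed_lev (Z : PZ p V n) {m : ℕ} {u : X →ₗ[ZMod p] (Fin m → Cf Z 0)}
    (hu : Eqv ρ (Cf.ρm Z 0 m) u) {i : ℕ} {x : X} (hx : x ∈ lev Z ρ i) (j : Fin m) :
    (u x j).1 ∈ Cf Z i := by
  obtain ⟨k, hk⟩ := hx
  refine ⟨k, fun v w hw => ?_⟩
  have h1 := hu w x
  rw [hk w hw] at h1
  have h2 := congrFun h1 j
  rw [Cf.ρm_apply] at h2
  have h3 := congrArg (fun f : Cf Z 0 => f.1 v) h2
  simp only [Cf.ρ_apply] at h3
  exact h3.symm

theorem embed_sub (Z : PZ p V n) {m : ℕ} {u : X →ₗ[ZMod p] (Fin m → Cf Z 0)}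
    (hu : Eqv ρ (Cf.ρm Z 0 m) u) (i : ℕ) (x : X) (j : Fin m) (v : V) :
    (u (ρ (Z.t i) x - x) j).1 v = (u x j).1 (v * Z.t i) - (u x j).1 v := by
  rw [map_sub, hu (Z.t i) x]
  rfl

theorem embed_pow (Z : PZ p V n) {m : ℕ} {u : X →ₗ[ZMod p] (Fin m → Cf Z 0)}
    (hu : Eqv ρ (Cf.ρm Z 0 m) u) (hc : Coreg Z ρ n) {i : ℕ} (hi : i < n) (N : ℕ) :
    ∀ w ∈ lev Z ρ i, ∃ w' ∈ lev Z ρ i, ∀ j, ∀ f : Cf Z i, f.1 = (u w' j).1 →
      ((TR Z i ^ N) f).1 = (u w j).1 := by
  induction N with
  | zero =>
    intro w hw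
    exact ⟨w, hw, fun j f hf => hf⟩
  | succ N ih =>
    intro w hw
    obtain ⟨y, hy, hyw⟩ := hc i hi w hw
    obtain ⟨w', hw', h1⟩ := ih y hy
    refine ⟨w', hw', fun j f hf => ?_⟩
    have h2 := h1 j f hf
    rw [pow_succ', Module.End.mul_apply]
    funext v
    rw [TR_apply, h2, ← hyw, embed_sub Z hu]

theorem coreg_iso (Z : PZ p V n) (hsm : Smo Z ρ) (hfin : FiniteDimensional (ZMod p) (fix ρ ⊤))
    (hc : Coreg Z ρ n) :
    ∃ e : X ≃ₗ[ZMod p] (Fin (finrank (ZMod p) (fix ρ ⊤)) → Cf Z 0),
      Eqv ρ (Cf.ρm Z 0 (finrank (ZMod p) (fix ρ ⊤))) e.toLinearMap := by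
  have H := exists_embed Z hsm hfin
  generalize hm : finrank (ZMod p) (fix ρ ⊤) = m at H ⊢
  obtain ⟨u, hu, hinj⟩ := H
  -- the fixed vectors
  have hconst : ∀ x ∈ fix ρ ⊤, ∀ (j : Fin m) (v : V), (u x j).1 v = (u x j).1 1 := by
    intro x hx j v
    have h1 := hu v x
    rw [hx v (Subgroup.mem_top v)] at h1
    have h2 := congrFun h1 j
    rw [Cf.ρm_apply] at h2
    have h3 := congrArg (fun f : Cf Z 0 => f.1 1) h2
    simp only [Cf.ρ_apply, one_mul] at h3
    exact h3.symm
  let ψ : fix ρ ⊤ →ₗ[ZMod p] (Fin m → ZMod p) :=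
    { toFun := fun x j => (u x.1 j).1 1
      map_add' := fun x y => by
        funext j
        change (u (x.1 + y.1) j).1 1 = _
        rw [map_add]
        rfl
      map_smul' := fun c x => by
        funext j
        change (u (c • x.1) j).1 1 = _
        rw [map_smul]
        rfl }
  have hψ : Function.Injective ψ := by
    rw [injective_iff_map_eq_zero]
    intro x hx
    apply Subtype.ext
    apply hinj
    change u x.1 = u 0
    rw [map_zero]
    funext j
    apply Subtype.ext
    funext v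
    rw [hconst x.1 x.2 j v]
    exact congrFun hx j
  have hψs : Function.Surjective ψ := by
    refine (LinearMap.injective_iff_surjective_of_finrank_eq_finrank ?_).1 hψ
    rw [finrank_fin_fun, hm]
  -- all levels
  have key : ∀ d i, i + d = n → ∀ f : Fin m → Cf Z 0, (∀ j, (f j).1 ∈ Cf Z i) →
      ∃ x ∈ lev Z ρ i, u x = f := by
    intro d
    induction d with
    | zero =>
      intro i hi f hf
      obtain rfl : i = n := by omega
      obtain ⟨x, hx⟩ := hψs (fun j => (f j).1 1)
      refine ⟨x.1, ⟨0, fun w _ => x.2 w (Subgroup.mem_top w)⟩, ?_⟩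
      funext j
      apply Subtype.ext
      funext v
      rw [hconst x.1 x.2 j v, Cf.const Z (hf j) v 1]
      exact congrFun hx j
    | succ d ih =>
      intro i hi f hf
      have hin : i < n := by omega
      have step : ∀ N, ∀ g : Fin m → Cf Z i, (∀ j, (TR Z i ^ N) (g j) = 0) →
          ∃ x ∈ lev Z ρ i, ∀ j, (u x j).1 = (g j).1 := by
        intro N
        induction N with
        | zero =>
          intro g hg
          refine ⟨0, Submodule.zero_mem _, fun j => ?_⟩
          have h1 : g j = 0 := hg j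
          rw [h1, map_zero]
          rfl
        | succ N ihN =>
          intro g hg
          have h1 : ∀ j, ((TR Z i ^ N) (g j)).1 ∈ Cf Z (i + 1) := by
            intro j
            rw [← TR_eq_zero_iff Z hin]
            have := hg j
            rwa [pow_succ', Module.End.mul_apply] at this
          obtain ⟨w, hw, huw⟩ := ih (i + 1) (by omega)
            (fun j => ⟨((TR Z i ^ N) (g j)).1, by
              have h2 : ∀ l, Cf Z l ≤ Cf Z 0 := by
                intro l
                induction l with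
                | zero => exact le_rfl
                | succ l ihl => exact (Cf.succ_le Z l).trans ihl
              exact h2 _ (h1 j)⟩) h1
          obtain ⟨w', hw', h3⟩ := embed_pow Z hu hc hin N w (lev_succ_le Z ρ i hw)
          have h4 : ∀ j, (TR Z i ^ N) (⟨(u w' j).1, embed_lev Z hu hw' j⟩ : Cf Z i) =
              (TR Z i ^ N) (g j) := by
            intro j
            apply Subtype.ext
            rw [h3 j _ rfl, huw]
          obtain ⟨x0, hx0, h5⟩ := ihN
            (fun j => g j - (⟨(u w' j).1, embed_lev Z hu hw' j⟩ : Cf Z i)) (fun j => by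
              rw [map_sub, h4, sub_self])
          refine ⟨x0 + w', Submodule.add_mem _ hx0 hw', fun j => ?_⟩
          rw [map_add]
          change (u x0 j).1 + (u w' j).1 = (g j).1
          rw [h5]
          change (g j).1 - (u w' j).1 + (u w' j).1 = (g j).1
          rw [sub_add_cancel]
      have h6 : ∀ j, ∃ k, (f j).1 ∈ Cl Z i k := fun j => hf j
      choose k hk using h6
      obtain ⟨N, hN⟩ : ∃ N, ∀ j, p ^ k j ≤ N := by
        refine ⟨∑ j, p ^ k j, fun j => ?_⟩
        exact Finset.single_le_sum (f := fun j => p ^ k j) (fun _ _ => Nat.zero_le _)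
          (Finset.mem_univ j)
      obtain ⟨x, hx, h7⟩ := step N (fun j => ⟨(f j).1, hf j⟩) (fun j => by
        have h8 := TR_nil Z hin (⟨(f j).1, hf j⟩ : Cf Z i) (hk j)
        rw [← Nat.sub_add_cancel (hN j), pow_add, Module.End.mul_apply, h8, map_zero])
      refine ⟨x, hx, ?_⟩
      funext j
      apply Subtype.ext
      exact h7 j
  have hsurj : Function.Surjective u := by
    intro f
    obtain ⟨x, -, hx⟩ := key n 0 (by omega) f (fun j => (f j).2)
    exact ⟨x, hx⟩
  exact ⟨LinearEquiv.ofBijective u ⟨hinj, hsurj⟩, hu⟩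

end Pool.Agent.Helper25.GG
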