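import Pool.Agent.Helper25.GG.G4
import Pool.Agent.Helper25.GG.A1b

/-!
# Block G5: norms in coregular representations
-/

set_option autoImplicit false

namespace Pool.Agent.Helper25.GG

open Module

variable {p : ℕ} [Fact p.Prime] {V : Type} [Group V] {n : ℕ}

variable {X : Type} [AddCommGroup X] [Module (ZMod p) X] {ρ : V →* Module.End (ZMod p) X}

open Classical in
/-- `c` times the characteristic function of `W 0 1` -/
noncomputable def chW (Z : PZ p V n) (c : ZMod p) : Cf Z 0 :=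
  ⟨fun x => if x ∈ Z.W 0 1 then c else 0, 1, fun x w hw => by
    have : x * w ∈ Z.W 0 1 ↔ x ∈ Z.W 0 1 := (Z.W 0 1).mul_mem_cancel_right hw
    simp only [this]⟩

open Classical in
theorem chW_apply (Z : PZ p V n) (c : ZMod p) (x : V) :
    (chW Z c).1 x = if x ∈ Z.W 0 1 then c else 0 := rfl

theorem norm_surj (Z : PZ p V n) (hsm : Smo Z ρ) (hfin : FiniteDimensional (ZMod p) (fix ρ ⊤))
    (hc : Coreg Z ρ n) {y : X} (hy : y ∈ fix ρ ⊤) :
    ∃ z ∈ fix ρ (Z.W 0 1), ∀ r : V ⧸ Z.W 0 1 → V, (∀ q, (r q : V ⧸ Z.W 0 1) = q) →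
      ∑ᶠ q, ρ (r q) z = y := by
  classical
  obtain ⟨m, e, he'⟩ : ∃ (m : ℕ) (e : X ≃ₗ[ZMod p] (Fin m → Cf Z 0)),
      ∀ v x, e (ρ v x) = Cf.ρm Z 0 m v (e x) := by
    obtain ⟨e, he⟩ := coreg_iso Z hsm hfin hc
    exact ⟨_, e, fun v x => he v x⟩
  have : (Z.W 0 1).Normal := Z.normal 0 1
  have hconst : ∀ j x, (e y j).1 x = (e y j).1 1 := by
    intro j x
    have h1 := he' x y
    rw [hy x (Subgroup.mem_top x)] at h1
    have h3 := congrFun (congrArg Subtype.val (congrFun h1 j)) 1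
    rw [Cf.ρm_apply, Cf.ρ_apply, one_mul] at h3
    exact h3.symm
  refine ⟨e.symm (fun j => chW Z ((e y j).1 1)), ?_, ?_⟩
  · intro w hw
    apply e.injective
    rw [he', e.apply_symm_apply]
    funext j
    apply Subtype.ext
    funext x
    rw [Cf.ρm_apply, Cf.ρ_apply, chW_apply, chW_apply]
    have : x * w ∈ Z.W 0 1 ↔ x ∈ Z.W 0 1 := (Z.W 0 1).mul_mem_cancel_right hw
    simp only [this]
  · intro r hr
    have hp : 0 < p := (Fact.out : p.Prime).pos
    have hidx := index_W Z (Nat.zero_le n) 1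
    have h0 : (Z.W 0 1).index ≠ 0 := by
      rw [hidx]; positivity
    have : (Z.W 0 1).FiniteIndex := ⟨h0⟩
    have : Finite (V ⧸ Z.W 0 1) := inferInstance
    let _ : Fintype (V ⧸ Z.W 0 1) := Fintype.ofFinite _
    rw [finsum_eq_sum_of_fintype]
    apply e.injective
    rw [map_sum]
    funext j
    apply Subtype.ext
    funext x
    rw [Finset.sum_apply]
    have hval : ∀ q : V ⧸ Z.W 0 1,
        (e (ρ (r q) (e.symm (fun j => chW Z ((e y j).1 1)))) j).1 x =
          if q = (x : V ⧸ Z.W 0 1)⁻¹ then (e y j).1 1 else 0 := by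
      intro q
      rw [he', e.apply_symm_apply, Cf.ρm_apply, Cf.ρ_apply, chW_apply]
      have h1 : x * r q ∈ Z.W 0 1 ↔ q = (x : V ⧸ Z.W 0 1)⁻¹ := by
        rw [← QuotientGroup.eq_one_iff, QuotientGroup.mk_mul, hr, mul_eq_one_iff_eq_inv,
          eq_inv_iff_mul_eq_one, mul_eq_one_iff_eq_inv]
        constructor
        · intro h
          rw [h, inv_inv]
        · intro h
          rw [h, inv_inv]
      simp only [h1]
    have hsum : ((∑ q, e (ρ (r q) (e.symm (fun j => chW Z ((e y j).1 1)))) j : Cf Z 0)).1 x =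
        ∑ q, (e (ρ (r q) (e.symm (fun j => chW Z ((e y j).1 1)))) j).1 x := by
      rw [AddSubmonoidClass.coe_finsetSum, Finset.sum_apply]
    rw [hsum, Finset.sum_congr rfl (fun q _ => hval q), Finset.sum_ite_eq' Finset.univ,
      if_pos (Finset.mem_univ _), hconst j x]

end Pool.Agent.Helper25.GG
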