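import Pool.Agent.Helper25.GG.G5
import Pool.Agent.Helper25.GG.P2
import Pool.Agent.Helper20.RG.G7

/-!
# Block G6: divisibility for coregular representations
-/

set_option autoImplicit false

namespace Pool.Agent.Helper25.GG

open Module

variable {p : ℕ} [Fact p.Prime] {V : Type} [Group V] {n : ℕ}

variable {G : Type} [Group G] (D : GD p G n)
  {X : Type} [AddCommGroup X] [Module (ZMod p) X] {ρ : G →* Module.End (ZMod p) X}

namespace G6

open Pool.Agent.Helper74.RG (fixed)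

omit [Fact p.Prime] in
theorem A_le (D : GD p G n) (j : ℕ) : D.A j ≤ D.V := by
  intro g hg
  rw [D.mem_A] at hg
  exact hg.1

omit [Fact p.Prime] in
theorem coe_mem_A (D : GD p G n) (j : ℕ) (v : D.V) : (v : G) ∈ D.A j ↔ v ∈ D.Z.W 0 j := by
  rw [D.mem_A]
  constructor
  · rintro ⟨_, h1⟩
    exact h1
  · intro h
    exact ⟨v.2, h⟩

instance instNormalA (D : GD p G n) (j : ℕ) : (D.A j).Normal := D.normalA j

/-- the finite quotient. -/
abbrev QQ (D : GD p G n) : Type := G ⧸ D.A 1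

omit [Fact p.Prime] in
theorem mk_eq_iff (D : GD p G n) (a b : G) :
    (QuotientGroup.mk' (D.A 1) a = QuotientGroup.mk' (D.A 1) b) ↔ a⁻¹ * b ∈ D.A 1 :=
  QuotientGroup.eq

/-- the image of `V`. -/
noncomputable def V' (D : GD p G n) : Subgroup (QQ D) := D.V.map (QuotientGroup.mk' (D.A 1))

/-- the image of the cosets. -/
noncomputable def tmQ (D : GD p G n) (q : D.V ⧸ D.Z.W 0 1) : V' D :=
  ⟨QuotientGroup.mk' (D.A 1) ((Quotient.out q : D.V) : G),
    Subgroup.mem_map_of_mem _ (Quotient.out q : D.V).2⟩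

omit [Fact p.Prime] in
theorem out_eq (D : GD p G n) (q : D.V ⧸ D.Z.W 0 1) :
    ((Quotient.out q : D.V) : D.V ⧸ D.Z.W 0 1) = q := Quotient.out_eq' q

omit [Fact p.Prime] in
theorem tmQ_bij (D : GD p G n) : Function.Bijective (tmQ D) := by
  constructor
  · intro q q' h
    have h1 := (mk_eq_iff D _ _).mp (congrArg Subtype.val h)
    have h2 : ((Quotient.out q : D.V)⁻¹ * (Quotient.out q' : D.V) : D.V) ∈ D.Z.W 0 1 := by
      rw [← coe_mem_A]
      exact h1
    rw [← out_eq D q, ← out_eq D q']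
    exact QuotientGroup.eq.mpr h2
  · rintro ⟨x, hx⟩
    obtain ⟨v, hv, rfl⟩ := Subgroup.mem_map.mp hx
    refine ⟨((⟨v, hv⟩ : D.V) : D.V ⧸ D.Z.W 0 1), Subtype.ext ((mk_eq_iff D _ _).mpr ?_)⟩
    have h2 : ((Quotient.out ((⟨v, hv⟩ : D.V) : D.V ⧸ D.Z.W 0 1) : D.V)⁻¹ * (⟨v, hv⟩ : D.V) :
        D.V) ∈ D.Z.W 0 1 := by
      rw [← QuotientGroup.eq, out_eq]
    rw [← coe_mem_A] at h2
    exact h2

omit [Fact p.Prime] in
theorem comap_map (D : GD p G n) {U : Subgroup G} (hU : D.A 1 ≤ U) (g : G) :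
    QuotientGroup.mk' (D.A 1) g ∈ U.map (QuotientGroup.mk' (D.A 1)) ↔ g ∈ U := by
  constructor
  · intro h
    obtain ⟨u, hu, h1⟩ := Subgroup.mem_map.mp h
    have h2 := hU ((mk_eq_iff D _ _).mp h1)
    have := U.mul_mem hu h2
    rwa [mul_inv_cancel_left] at this
  · intro h
    exact Subgroup.mem_map_of_mem _ h

omit [Fact p.Prime] in
theorem index_map (D : GD p G n) {U : Subgroup G} (hU : D.A 1 ≤ U) :
    (U.map (QuotientGroup.mk' (D.A 1))).index = U.index := by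
  rw [Subgroup.index_map, MonoidHom.range_eq_top.mpr (QuotientGroup.mk'_surjective _),
    QuotientGroup.ker_mk', sup_of_le_left hU, Subgroup.index_top, mul_one]

theorem finite_QQ (D : GD p G n) : Finite (QQ D) := by
  have h0 : Finite (D.V ⧸ D.Z.W 0 1) := by
    have h1 := index_W D.Z (Nat.zero_le n) 1
    have hp : p ≠ 0 := (Fact.out : p.Prime).ne_zero
    have h2 : (D.Z.W 0 1).index ≠ 0 := by
      rw [h1]
      exact pow_ne_zero _ hp
    exact Nat.finite_of_card_ne_zero h2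
  have h1 : Finite (V' D) := Finite.of_surjective _ (tmQ_bij D).2
  have h2 : (V' D).index ≠ 0 := by
    unfold V'
    rw [index_map D (A_le D 1)]
    exact D.fin
  have h3 : Nat.card (QQ D) ≠ 0 := by
    rw [← Subgroup.card_mul_index (V' D)]
    exact mul_ne_zero Nat.card_pos.ne' h2
  exact Nat.finite_of_card_ne_zero h3

/-- the vectors fixed by `A 1`. -/
abbrev WW (D : GD p G n) (ρ : G →* Module.End (ZMod p) X) : Submodule (ZMod p) X :=
  fixed ρ (D.A 1)

theorem WW_stab (D : GD p G n) (ρ : G →* Module.End (ZMod p) X) (g : G) :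
    ∀ w ∈ WW D ρ, ρ g w ∈ WW D ρ := by
  intro w hw a ha
  have h1 : a * g = g * (g⁻¹ * a * g) := by group
  have h2 : g⁻¹ * a * g ∈ D.A 1 := by
    have := (D.normalA 1).conj_mem a ha g⁻¹
    rwa [inv_inv] at this
  rw [← Module.End.mul_apply, ← map_mul, h1, map_mul, Module.End.mul_apply, hw _ h2]

/-- the action on the vectors fixed by `A 1`. -/
noncomputable def ρG (D : GD p G n) (ρ : G →* Module.End (ZMod p) X) :
    G →* Module.End (ZMod p) (WW D ρ) where
  toFun g := (ρ g).restrict (WW_stab D ρ g)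
  map_one' := by
    apply LinearMap.ext
    intro w
    apply Subtype.ext
    rw [LinearMap.coe_restrict_apply, map_one]
    rfl
  map_mul' a b := by
    apply LinearMap.ext
    intro w
    apply Subtype.ext
    rw [LinearMap.coe_restrict_apply, map_mul]
    rfl

theorem ρG_coe (D : GD p G n) (ρ : G →* Module.End (ZMod p) X) (g : G) (w : WW D ρ) :
    ((ρG D ρ g w : WW D ρ) : X) = ρ g w := rfl

/-- the action of the finite quotient. -/
noncomputable def ρQ (D : GD p G n) (ρ : G →* Module.End (ZMod p) X) :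
    QQ D →* Module.End (ZMod p) (WW D ρ) :=
  QuotientGroup.lift (D.A 1) (ρG D ρ) (by
    intro a ha
    apply LinearMap.ext
    intro w
    apply Subtype.ext
    rw [ρG_coe]
    exact w.2 a ha)

theorem ρQ_coe (D : GD p G n) (ρ : G →* Module.End (ZMod p) X) (g : G) (w : WW D ρ) :
    ((ρQ D ρ (QuotientGroup.mk' (D.A 1) g) w : WW D ρ) : X) = ρ g w := rfl

theorem mem_fixed_V' (D : GD p G n) (ρ : G →* Module.End (ZMod p) X) (w : WW D ρ) :
    w ∈ fixed (ρQ D ρ) (V' D) ↔ (w : X) ∈ fixed ρ D.V := by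
  constructor
  · intro h v hv
    have := h (QuotientGroup.mk' (D.A 1) v) (Subgroup.mem_map_of_mem _ hv)
    rw [← ρQ_coe D ρ v w, this]
  · intro h x hx
    obtain ⟨v, hv, rfl⟩ := Subgroup.mem_map.mp hx
    apply Subtype.ext
    rw [ρQ_coe]
    exact h v hv

theorem finrank_fixed_V' (D : GD p G n) (ρ : G →* Module.End (ZMod p) X) :
    finrank (ZMod p) (fixed (ρQ D ρ) (V' D)) = finrank (ZMod p) (fixed ρ D.V) := by
  have h1 : fixed (ρQ D ρ) (V' D) = Submodule.comap (WW D ρ).subtype (fixed ρ D.V) := by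
    ext w
    rw [mem_fixed_V', Submodule.mem_comap]
    rfl
  have h2 : fixed ρ D.V ≤ WW D ρ := fun h hh a ha => hh a (A_le D 1 ha)
  rw [h1]
  exact LinearEquiv.finrank_eq (Submodule.comapSubtypeEquivOfLe h2)

omit [Fact p.Prime] in
/-- the quotient character. -/
theorem exists_quot_char (D : GD p G n) {U : Subgroup G} (hU : D.A 1 ≤ U) {M : Type} [Group M]
    (ψ : U →* M) (hψ : Function.Surjective ψ) (h1 : ∀ x : U, (x : G) ∈ D.A 1 → ψ x = 1) :
    ∃ ψ' : U.map (QuotientGroup.mk' (D.A 1)) →* M, Function.Surjective ψ' ∧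
      ∀ (x : U.map (QuotientGroup.mk' (D.A 1))) (u : U),
        (x : QQ D) = QuotientGroup.mk' (D.A 1) u → ψ' x = ψ u := by
  have hex : ∀ x : U.map (QuotientGroup.mk' (D.A 1)), ∃ u : U,
      (x : QQ D) = QuotientGroup.mk' (D.A 1) u := by
    rintro ⟨x, hx⟩
    obtain ⟨u, hu, h2⟩ := Subgroup.mem_map.mp hx
    exact ⟨⟨u, hu⟩, h2.symm⟩
  have hwd : ∀ u u' : U, QuotientGroup.mk' (D.A 1) (u : G) = QuotientGroup.mk' (D.A 1) (u' : G) →
      ψ u = ψ u' := by
    intro u u' h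
    have h2 := h1 (u⁻¹ * u') ((mk_eq_iff D _ _).mp h)
    rw [map_mul, map_inv] at h2
    exact (inv_mul_eq_one.mp h2)
  choose c hc using hex
  refine ⟨MonoidHom.mk' (fun x => ψ (c x)) ?_, ?_, ?_⟩
  · intro x y
    rw [← map_mul]
    apply hwd
    rw [← hc, Subgroup.coe_mul, Subgroup.coe_mul, map_mul, ← hc, ← hc]
  · intro m
    obtain ⟨u, rfl⟩ := hψ m
    refine ⟨⟨QuotientGroup.mk' (D.A 1) (u : G), Subgroup.mem_map_of_mem _ u.2⟩, ?_⟩
    exact hwd _ _ (hc _).symm
  · intro x u h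
    exact hwd _ _ ((hc x).symm.trans h)

theorem fix_top (D : GD p G n) (ρ : G →* Module.End (ZMod p) X) :
    fix (D.rs ρ) ⊤ = fixed ρ D.V := by
  ext w
  constructor
  · intro h v hv
    exact h ⟨v, hv⟩ (Subgroup.mem_top _)
  · intro h v _
    exact h v.1 v.2

theorem fix_W (D : GD p G n) (ρ : G →* Module.End (ZMod p) X) :
    fix (D.rs ρ) (D.Z.W 0 1) = fixed ρ (D.A 1) := by
  ext w
  constructor
  · intro h v hv
    have hv' := A_le D 1 hv
    exact h ⟨v, hv'⟩ ((coe_mem_A D 1 ⟨v, hv'⟩).mp hv)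
  · intro h v hv
    exact h v.1 ((coe_mem_A D 1 v).mpr hv)

end G6

open Pool.Agent.Helper74.RG (fixed) in
theorem index_dvd (hch : HasChain p D.V (D.A 1)) (hsm : Smo D.Z (D.rs ρ))
    (hfin : FiniteDimensional (ZMod p) (fix (D.rs ρ) ⊤)) (hc : Coreg D.Z (D.rs ρ) n) :
    D.V.index ∣ finrank (ZMod p) (fix (D.rs ρ) ⊤) := by
  have := G6.finite_QQ D
  have hfin1 := fix_finite D.Z hsm (Pd.finite D.Z hsm hfin) 1
  rw [G6.fix_W] at hfin1
  have : FiniteDimensional (ZMod p) (G6.WW D ρ) := hfin1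
  obtain ⟨m, U, hU0, hUn, hU⟩ := hch
  have hmonoU : ∀ i, i ≤ m → D.V ≤ U i := by
    intro i
    induction i with
    | zero => intro _; rw [hU0]
    | succ i ih => intro hi; exact (ih (by omega)).trans (hU i (by omega)).1
  have hA : ∀ i, i ≤ m → D.A 1 ≤ U i := fun i hi => (G6.A_le D 1).trans (hmonoU i hi)
  have key := Pool.Agent.Helper20.RG.chain_finrank (G6.ρQ D ρ) m
    (fun i => (U i).map (QuotientGroup.mk' (D.A 1))) ?_ ?_ ?_ ?_
  · have e1 : (U 0).map (QuotientGroup.mk' (D.A 1)) = G6.V' D := by rw [hU0]; rfl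
    have gen : ∀ S : Subgroup (G6.QQ D), S = G6.V' D →
        finrank (ZMod p) (fixed (G6.ρQ D ρ) S) =
          S.index * finrank (ZMod p) (fixed (G6.ρQ D ρ) ⊤) →
        D.V.index ∣ finrank (ZMod p) (fixed ρ D.V) := by
      rintro _ rfl h
      rw [G6.finrank_fixed_V'] at h
      have e2 : (G6.V' D).index = D.V.index := G6.index_map D (G6.A_le D 1)
      rw [h, e2]
      exact dvd_mul_right _ _
    rw [G6.fix_top]
    exact gen _ e1 key
  · change (U m).map _ = ⊤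
    rw [hUn]
    exact Subgroup.map_top_of_surjective _ (QuotientGroup.mk'_surjective _)
  · intro i hi
    obtain ⟨_, ψ, hψ, hψ1, hψ2⟩ := hU i hi
    obtain ⟨ψ', h1, h2⟩ := G6.exists_quot_char D (hA (i + 1) (by omega)) ψ hψ hψ2
    refine ⟨ψ', h1, ?_⟩
    rintro ⟨x, hx⟩
    obtain ⟨u, hu, rfl⟩ := Subgroup.mem_map.mp hx
    rw [h2 _ ⟨u, hu⟩ rfl, ← hψ1 ⟨u, hu⟩]
    exact G6.comap_map D (hA i (by omega)) u
  · intro i hi
    exact Subgroup.map_mono (hU i hi).1
  · have e1 : (U 0).map (QuotientGroup.mk' (D.A 1)) = G6.V' D := by rw [hU0]; rfl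
    have gen : ∀ S : Subgroup (G6.QQ D), S = G6.V' D →
        (∀ w ∈ fixed (G6.ρQ D ρ) (G6.V' D), ∃ z,
          ∑ᶠ a : G6.V' D, G6.ρQ D ρ (a : G6.QQ D) z = w) →
        (∀ w ∈ fixed (G6.ρQ D ρ) S, ∃ z, ∑ᶠ a : S, G6.ρQ D ρ (a : G6.QQ D) z = w) := by
      rintro _ rfl h
      exact h
    apply gen _ e1
    intro w hw
    have hw' := (G6.mem_fixed_V' D ρ w).mp hw
    rw [← G6.fix_top] at hw'
    obtain ⟨z, hz, hz1⟩ := norm_surj D.Z hsm hfin hc hw'
    have hz2 := hz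
    rw [G6.fix_W] at hz2
    refine ⟨⟨z, hz2⟩, ?_⟩
    have hz3 := hz1 (fun q => Quotient.out q) (fun q => G6.out_eq D q)
    have hf1 : Fintype (G6.V' D) := Fintype.ofFinite _
    have hf2 : Fintype (D.V ⧸ D.Z.W 0 1) := Fintype.ofInjective _ (G6.tmQ_bij D).1
    rw [finsum_eq_sum_of_fintype] at hz3
    rw [finsum_eq_sum_of_fintype]
    rw [← Function.Bijective.sum_comp (G6.tmQ_bij D)
      (fun a : G6.V' D => G6.ρQ D ρ (a : G6.QQ D) ⟨z, hz2⟩)]
    apply Subtype.ext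
    rw [← hz3, ← Submodule.coe_subtype, map_sum]
    apply Finset.sum_congr rfl
    intro q _
    rw [Submodule.coe_subtype]
    rfl

end Pool.Agent.Helper25.GG
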