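import Pool.Agent.Helper25.GG.G1
import Pool.Agent.Helper25.GG.G2
import Pool.Agent.Helper25.GG.G3
import Pool.Agent.Helper25.GG.G6

/-!
# Block G7: the index divides the rank
-/

set_option autoImplicit false

namespace Pool.Agent.Helper25.GG

open Module

variable {p : ℕ} [Fact p.Prime] {n : ℕ}

variable {G : Type} [Group G] (D : GD p G n)

theorem rk_of_coreg {V : Type} [Group V] {X : Type} [AddCommGroup X] [Module (ZMod p) X]
    {ρ : V →* Module.End (ZMod p) X} (Z : PZ p V n) (hsm : Smo Z ρ)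
    (hfin : FiniteDimensional (ZMod p) (fix ρ ⊤)) (hc : Coreg Z ρ n) :
    rk Z ρ = finrank (ZMod p) (fix ρ ⊤) := by
  obtain ⟨e, he⟩ := coreg_iso Z hsm hfin hc
  rw [rk_congr Z e he, rk_pi]

theorem dvd_rank_aux (hch : HasChain p D.V (D.A 1)) (i : ℕ) : ∀ j, j + i = n →
    ∀ {X : Type} [AddCommGroup X] [Module (ZMod p) X] {ρ : G →* Module.End (ZMod p) X},
      Smo D.Z (D.rs ρ) → FiniteDimensional (ZMod p) (fix (D.rs ρ) ⊤) → Coreg D.Z (D.rs ρ) j →
      D.V.index ∣ rk D.Z (D.rs ρ) := by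
  induction i with
  | zero =>
    intro j hj X _ _ ρ hsm hfin hc
    rw [add_zero] at hj
    subst hj
    rw [rk_of_coreg D.Z hsm hfin hc]
    exact index_dvd D hch hsm hfin hc
  | succ i ih =>
    intro j hj X _ _ ρ hsm hfin hc
    obtain ⟨m, u, hu, hinj⟩ := CG.embed D hsm hfin
    have hS : Stb (CG.ρ D m) (LinearMap.range u) := by
      rintro g _ ⟨x, rfl⟩
      exact ⟨ρ g x, hu g x⟩
    have hfC := CG.finrank_fix D m
    have hsC := CG.smo D m
    have hcC := CG.coreg D m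
    have huE : Eqv (D.rs ρ) (D.rs (CG.ρ D m)) u := fun v x => hu (v : G) x
    have hgE : Eqv (D.rs (CG.ρ D m)) (D.rs (quoρ (CG.ρ D m) (LinearMap.range u) hS))
        (LinearMap.range u).mkQ := fun v x => rfl
    have hsQ : Smo D.Z (D.rs (quoρ (CG.ρ D m) (LinearMap.range u) hS)) := by
      intro w
      obtain ⟨x, rfl⟩ := Submodule.mkQ_surjective _ w
      obtain ⟨k, hk⟩ := hsC x
      refine ⟨k, fun w hw => ?_⟩
      rw [← hgE, hk w hw]
    have hsurj : Function.Surjective (LinearMap.range u).mkQ := Submodule.mkQ_surjective _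
    have hex : ∀ y, (LinearMap.range u).mkQ y = 0 ↔ ∃ x, u x = y := by
      intro y
      rw [Submodule.mkQ_apply, Submodule.Quotient.mk_eq_zero]
      exact Iff.rfl
    have hfQ : FiniteDimensional (ZMod p)
        (fix (D.rs (quoρ (CG.ρ D m) (LinearMap.range u) hS)) ⊤) :=
      fix_finite_quot D.Z hsC hsQ hgE hsurj hfC.1
    have hcQ := coreg_snake D.Z hsm hsC hsQ huE hgE hinj hsurj hex (by omega : j < n) hc hcC
    have h1 := ih (j + 1) (by omega) hsQ hfQ hcQ
    have h2 := rk_add D.Z hsm hsC hsQ huE hgE hinj hsurj hex hfC.1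
    rw [rk_of_coreg D.Z hsC hfC.1 hcC, hfC.2] at h2
    have h3 : D.V.index ∣ rk D.Z (D.rs ρ) +
        rk D.Z (D.rs (quoρ (CG.ρ D m) (LinearMap.range u) hS)) := by
      rw [← h2]
      exact Dvd.intro_left m rfl
    exact (Nat.dvd_add_left h1).mp h3

theorem dvd_rank {X : Type} [AddCommGroup X] [Module (ZMod p) X]
    {ρ : G →* Module.End (ZMod p) X} (hch : HasChain p D.V (D.A 1)) (hsm : Smo D.Z (D.rs ρ))
    (hfin : FiniteDimensional (ZMod p) (fix (D.rs ρ) ⊤)) :
    D.V.index ∣ rk D.Z (D.rs ρ) :=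
  dvd_rank_aux D hch n 0 (zero_add n) hsm hfin (fun i hi => absurd hi (Nat.not_lt_zero i))

end Pool.Agent.Helper25.GG
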