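import Pool.Agent.Helper25.GG.A5

/-!
# Block S1: the last special element
-/

set_option autoImplicit false

namespace Pool.Agent.Helper25.GG

open Module

section

variable {p : ℕ} [Fact p.Prime] {X Y : Type} [AddCommGroup X] [Module (ZMod p) X]
  [AddCommGroup Y] [Module (ZMod p) Y]

theorem S1.fd_of_le {T S : Submodule (ZMod p) X} (hT : FiniteDimensional (ZMod p) T)
    (h : S ≤ T) : FiniteDimensional (ZMod p) S :=
  Submodule.finiteDimensional_of_le h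

/-- a subspace with finite-dimensional image and kernel is finite-dimensional. -/
theorem S1.fd_of_map (A : X →ₗ[ZMod p] Y) (S R : Submodule (ZMod p) X)
    (T : Submodule (ZMod p) Y) (hT : FiniteDimensional (ZMod p) T)
    (hR : FiniteDimensional (ZMod p) R) (h1 : ∀ x ∈ S, A x ∈ T)
    (h2 : ∀ x ∈ S, A x = 0 → x ∈ R) : FiniteDimensional (ZMod p) S := by
  rw [← Submodule.fg_iff_finiteDimensional]
  apply Submodule.fg_of_fg_map_of_fg_inf_ker A
  · rw [Submodule.fg_iff_finiteDimensional]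
    apply S1.fd_of_le hT
    rintro _ ⟨x, hx, rfl⟩
    exact h1 x hx
  · rw [Submodule.fg_iff_finiteDimensional]
    apply S1.fd_of_le hR
    rintro x ⟨hx, hx'⟩
    exact h2 x hx hx'

theorem S1.End_sub_pow (T : Module.End (ZMod p) X) (k : ℕ) :
    (T - 1) ^ (p ^ k) = T ^ (p ^ k) - 1 := by
  by_cases hs : Subsingleton X
  · ext u; exact Subsingleton.elim _ _
  · rw [not_subsingleton_iff_nontrivial] at hs
    have : CharP (Module.End (ZMod p) X) p := charP_of_injective_algebraMap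
          (algebraMap (ZMod p) (Module.End (ZMod p) X)).injective p
    rw [sub_pow_char_pow_of_commute (p := p) k (Commute.one_right T), one_pow]

/-- an increasing union of finite-dimensional subspaces of bounded dimension is attained. -/
theorem S1.union_attained (S : ℕ → Submodule (ZMod p) X) (hS : Monotone S)
    (hfin : ∀ k, FiniteDimensional (ZMod p) (S k)) (C : ℕ)
    (hC : ∀ k, finrank (ZMod p) (S k) ≤ C) : ∃ K, ∀ k, S k ≤ S K := by
  have hne : (Set.range fun k => finrank (ZMod p) (S k)).Nonempty := ⟨_, 0, rfl⟩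
  have hbd : BddAbove (Set.range fun k => finrank (ZMod p) (S k)) := by
    refine ⟨C, ?_⟩
    rintro _ ⟨k, rfl⟩
    exact hC k
  obtain ⟨K, hK⟩ := Nat.sSup_mem hne hbd
  refine ⟨K, fun k => ?_⟩
  have h1 : finrank (ZMod p) (S (max k K)) ≤ finrank (ZMod p) (S K) := by
    have h2 := le_csSup hbd ⟨max k K, rfl⟩
    simp only at hK h2
    rw [hK]
    exact h2
  have h3 : S K = S (max k K) :=
    haveI := hfin (max k K)
    Submodule.eq_of_le_of_finrank_le (hS (le_max_right k K)) h1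
  rw [h3]
  exact hS (le_max_left k K)

end

variable {p : ℕ} [Fact p.Prime] {V : Type} [Group V] {n : ℕ}

theorem S1.eqv_pow {Z : PZ p V n} {i : ℕ} {l : Module.End (ZMod p) (Cf Z i)}
    (hl : Eqv (Cf.ρ Z i) (Cf.ρ Z i) l) (j : ℕ) : Eqv (Cf.ρ Z i) (Cf.ρ Z i) (l ^ j) := by
  induction j with
  | zero => intro v x; rfl
  | succ j ih =>
    intro v x
    rw [pow_succ, Module.End.mul_apply, Module.End.mul_apply, hl v x, ih v]

/-- functions on `V / W 1 k` fixed by `d` are determined by finitely many values. -/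
theorem S1.fix_fin (Z : PZ p V 2) {q : ℕ} (hq : 0 < q) :
    FiniteDimensional (ZMod p) ↥(LinearMap.ker (TR Z 0) ⊓
      LinearMap.ker (Cf.ρ Z 0 ((Z.t 1 ^ q)⁻¹ * Z.t 0) - 1)) := by
  let E : Cf Z 0 →ₗ[ZMod p] (Fin q → ZMod p) :=
    { toFun := fun f m => f.1 (Z.t 1 ^ (m : ℕ))
      map_add' := fun _ _ => rfl
      map_smul' := fun _ _ => rfl }
  have hbot : FiniteDimensional (ZMod p) (⊥ : Submodule (ZMod p) (Cf Z 0)) := inferInstance
  have htop : FiniteDimensional (ZMod p) (⊤ : Submodule (ZMod p) (Fin q → ZMod p)) := inferInstance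
  apply S1.fd_of_map E _ ⊥ ⊤ htop hbot (fun _ _ => Submodule.mem_top)
  rintro f ⟨hf1, hf2⟩ hE
  rw [Submodule.mem_bot]
  have h1 : f.1 ∈ Cf Z 1 := (TR_eq_zero_iff Z (by norm_num) f).1 hf1
  obtain ⟨k, hk⟩ := h1
  have hft : ∀ x, f.1 (x * Z.t 0) = f.1 x := by
    intro x
    have h2 : (TR Z 0 f).1 x = 0 := by
      have : TR Z 0 f = 0 := hf1
      rw [this]; rfl
    rw [TR_apply, sub_eq_zero] at h2
    exact h2
  have hfd : ∀ x, f.1 (x * ((Z.t 1 ^ q)⁻¹ * Z.t 0)) = f.1 x := by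
    intro x
    have h2 : (Cf.ρ Z 0 ((Z.t 1 ^ q)⁻¹ * Z.t 0) f - f).1 x = 0 := by
      have : Cf.ρ Z 0 ((Z.t 1 ^ q)⁻¹ * Z.t 0) f - f = 0 := hf2
      rw [this]; rfl
    have h3 : (Cf.ρ Z 0 ((Z.t 1 ^ q)⁻¹ * Z.t 0) f - f).1 x =
      f.1 (x * ((Z.t 1 ^ q)⁻¹ * Z.t 0)) - f.1 x := rfl
    rw [h3, sub_eq_zero] at h2
    exact h2
  have hfg : ∀ x, f.1 (x * Z.t 1 ^ q) = f.1 x := by
    intro x
    have h2 := hfd (x * Z.t 1 ^ q)
    rw [← mul_assoc, hft, mul_inv_cancel_right] at h2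
    exact h2.symm
  have hfc : ∀ (c : ℕ) x, f.1 (x * (Z.t 1 ^ q) ^ c) = f.1 x := by
    intro c
    induction c with
    | zero => intro x; rw [pow_zero, mul_one]
    | succ c ih => intro x; rw [pow_succ, ← mul_assoc, hfg, ih]
  apply Subtype.ext
  funext v
  have hv : v ∈ Z.W 2 k := by rw [Z.top k]; exact Subgroup.mem_top v
  obtain ⟨m, hm⟩ := Z.gen 1 (by norm_num) k v hv
  have h2 : f.1 v = f.1 (Z.t 1 ^ m) := by
    have h3 := hk (Z.t 1 ^ m) _ hm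
    rw [mul_inv_cancel_left] at h3
    exact h3
  have h4 : Z.t 1 ^ m = Z.t 1 ^ (m % q) * (Z.t 1 ^ q) ^ (m / q) := by
    rw [← pow_mul, ← pow_add, Nat.mod_add_div]
  rw [h2, h4, hfc]
  exact congrFun hE ⟨m % q, Nat.mod_lt m hq⟩

theorem S1.TL_iff_TR (Z : PZ p V 2) (f : Cf Z 0) : TL Z 0 f = 0 ↔ TR Z 0 f = 0 := by
  rw [TL_eq_zero_iff Z (by norm_num), TR_eq_zero_iff Z (by norm_num)]

theorem S1.TL_fix_fin (Z : PZ p V 2) {q : ℕ} (hq : 0 < q) (j : ℕ) :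
    FiniteDimensional (ZMod p) ↥(LinearMap.ker (TL Z 0 ^ j) ⊓
      LinearMap.ker (Cf.ρ Z 0 ((Z.t 1 ^ q)⁻¹ * Z.t 0) - 1)) := by
  induction j with
  | zero =>
    apply S1.fd_of_le (T := ⊥) inferInstance
    rintro f ⟨hf, -⟩
    rw [pow_zero] at hf
    exact hf
  | succ j ih =>
    apply S1.fd_of_map (TL Z 0 ^ j) _ _ _ (S1.fix_fin Z hq) ih
    · rintro f ⟨hf, hf2⟩
      refine ⟨?_, ?_⟩
      · have h1 : (TL Z 0 ^ (j + 1)) f = 0 := hf
        rw [pow_succ', Module.End.mul_apply] at h1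
        exact (S1.TL_iff_TR Z _).1 h1
      · have h1 : Cf.ρ Z 0 ((Z.t 1 ^ q)⁻¹ * Z.t 0) f - f = 0 := hf2
        change Cf.ρ Z 0 ((Z.t 1 ^ q)⁻¹ * Z.t 0) ((TL Z 0 ^ j) f) - (TL Z 0 ^ j) f = 0
        rw [← S1.eqv_pow (TL_eqv Z 0) j, ← map_sub, h1, map_zero]
    · rintro f ⟨-, hf2⟩ hf
      exact ⟨hf, hf2⟩

/-- the kernel of `l'` on `Cf Z 1` has bounded level. -/
theorem S1.exists_level (Z : PZ p V 2) {l : Module.End (ZMod p) (Cf Z 0)}
    (hl : Eqv (Cf.ρ Z 0) (Cf.ρ Z 0) l) (h0 : ∃ f : Cf Z 0, f.1 ∈ Cf Z (0 + 1) ∧ l f ≠ 0) :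
    ∃ K : ℕ, ∀ f : Cf Z 0, l f = 0 → TR Z 0 f = 0 → f.1 ∈ Cl Z 1 K := by
  obtain ⟨l1, hl1, hres⟩ := Eqv.exists_res Z (i := 0) (by norm_num) hl
  have hle : Cf Z (0 + 1) ≤ Cf Z 0 := Cf.succ_le Z 0
  have h1 : l1 ≠ 0 := by
    rintro rfl
    obtain ⟨f, hf, hne⟩ := h0
    apply hne
    apply Subtype.ext
    rw [← hres ⟨f.1, hf⟩ f.2]
    rfl
  obtain ⟨C, hC⟩ := ker_growth Z (i := 0 + 1) (by norm_num) hl1 h1
  let S : ℕ → Submodule (ZMod p) (Cf Z (0 + 1)) := fun k =>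
    LinearMap.ker l1 ⊓ (Cl Z (0 + 1) k).comap (Cf Z (0 + 1)).subtype
  have hanti : Antitone (Z.W (0 + 1)) := antitone_nat_of_succ_le (Z.anti (0 + 1))
  have hmono : Monotone S := by
    intro k k' hkk f hf
    exact ⟨hf.1, fun x w hw => hf.2 x w (hanti hkk hw)⟩
  have hfin : ∀ k, FiniteDimensional (ZMod p) (S k) := by
    intro k
    apply S1.fd_of_map (Cf Z (0 + 1)).subtype (S k) ⊥ (Cl Z (0 + 1) k)
      (finrank_Cl Z (by norm_num) k).1 inferInstance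
    · rintro f ⟨-, hf⟩
      exact hf
    · rintro f - hf
      rw [Submodule.mem_bot]
      exact Subtype.ext hf
  have hp : 0 < p := (Fact.out : p.Prime).pos
  have hC' : ∀ k, finrank (ZMod p) (S k) ≤ C := by
    intro k
    have h2 := hC k
    rw [show 2 - (0 + 1) = 1 by norm_num, one_mul] at h2
    exact Nat.le_of_mul_le_mul_right h2 (pow_pos hp k)
  obtain ⟨K, hK⟩ := S1.union_attained S hmono hfin C hC'
  refine ⟨K, fun f hf hT => ?_⟩
  have hf1 : f.1 ∈ Cf Z (0 + 1) := (TR_eq_zero_iff Z (by norm_num) f).1 hT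
  obtain ⟨k, hk⟩ := hf1
  have h3 : (⟨f.1, ⟨k, hk⟩⟩ : Cf Z (0 + 1)) ∈ S k := by
    refine ⟨?_, hk⟩
    change l1 _ = 0
    apply Subtype.ext
    rw [hres _ f.2, show (⟨f.1, f.2⟩ : Cf Z 0) = f from rfl, hf]
    rfl
  exact (hK k h3).2

/-- `n = 2`: for large `b` the element `d = (t 1) ^ (- p ^ b) * t 0` has only finitely many fixed
vectors in the kernel of `l`. -/
theorem special_base (Z : PZ p V 2) {l : Module.End (ZMod p) (Cf Z 0)}
    (hl : Eqv (Cf.ρ Z 0) (Cf.ρ Z 0) l) (h0 : l ≠ 0) :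
    ∃ b0 : ℕ, ∀ b, b0 ≤ b → FiniteDimensional (ZMod p) ↥(LinearMap.ker l ⊓
      LinearMap.ker (Cf.ρ Z 0 ((Z.t 1 ^ (p ^ b))⁻¹ * Z.t 0) - 1)) := by
  have hp1 : 1 < p := (Fact.out : p.Prime).one_lt
  have hp : 0 < p := by omega
  obtain ⟨j, l', hl', hfac, hne⟩ := Eqv.factor Z (i := 0) (by norm_num) hl h0
  obtain ⟨K, hK⟩ := S1.exists_level Z hl' hne
  refine ⟨K + 1, fun b hb => ?_⟩
  have hq : 0 < p ^ b := pow_pos hp b
  set d : V := (Z.t 1 ^ (p ^ b))⁻¹ * Z.t 0 with hd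
  have hlT : ∀ f, l' (TR Z 0 f) = TR Z 0 (l' f) := by
    intro f
    change l' (Cf.ρ Z 0 (Z.t 0) f - f) = Cf.ρ Z 0 (Z.t 0) (l' f) - l' f
    rw [map_sub, hl']
  have hlTm : ∀ (m : ℕ) f, l' ((TR Z 0 ^ m) f) = (TR Z 0 ^ m) (l' f) := by
    intro m
    induction m with
    | zero => intro f; rfl
    | succ m ih =>
      intro f
      rw [pow_succ, Module.End.mul_apply, Module.End.mul_apply, ih, hlT]
  -- the operator G = ρ(g) - 1
  let G : Module.End (ZMod p) (Cf Z 0) := Cf.ρ Z 0 (Z.t 1) - 1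
  have hG : ∀ f, G f = Cf.ρ Z 0 (Z.t 1) f - f := fun f => rfl
  have hGpow : ∀ c : ℕ, G ^ (p ^ c) = Cf.ρ Z 0 (Z.t 1 ^ (p ^ c)) - 1 := by
    intro c
    rw [S1.End_sub_pow, ← map_pow]
  have hlG : ∀ f, l' (G f) = G (l' f) := by
    intro f
    rw [hG, hG, map_sub, hl']
  -- G ^ a kills N
  have hN : ∀ f : Cf Z 0, l' f = 0 → TR Z 0 f = 0 → (G ^ (p ^ K)) f = 0 := by
    intro f hf1 hf2
    have h1 := hK f hf1 hf2
    rw [hGpow]
    apply Subtype.ext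
    funext x
    change f.1 (x * Z.t 1 ^ (p ^ K)) - f.1 x = 0
    rw [sub_eq_zero]
    apply h1
    exact (Z.order 1 (by norm_num) K _).2 (dvd_refl _)
  -- G preserves ker l' ∩ ker TR ^ m
  have hGpres : ∀ (m : ℕ) (f : Cf Z 0), l' f = 0 → (TR Z 0 ^ m) f = 0 →
      l' (G f) = 0 ∧ (TR Z 0 ^ m) (G f) = 0 := by
    intro m f hf1 hf2
    refine ⟨by rw [hlG, hf1, map_zero], ?_⟩
    cases m with
    | zero =>
      rw [pow_zero] at hf2 ⊢
      have : f = 0 := hf2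
      rw [this, map_zero, map_zero]
    | succ m =>
      have h1 := (TR_pow_comm Z (i := 0) (by norm_num) m f hf2 (Z.t 1)).2
      rw [hG, map_sub, h1, hf2, sub_zero]
  have hGpres' : ∀ (c m : ℕ) (f : Cf Z 0), l' f = 0 → (TR Z 0 ^ m) f = 0 →
      l' ((G ^ c) f) = 0 ∧ (TR Z 0 ^ m) ((G ^ c) f) = 0 := by
    intro c m f hf1 hf2
    induction c with
    | zero => exact ⟨hf1, hf2⟩
    | succ c ih =>
      rw [pow_succ', Module.End.mul_apply]
      exact hGpres m _ ih.1 ih.2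
  have hcomm : ∀ (c m : ℕ) (f : Cf Z 0), l' f = 0 → (TR Z 0 ^ (m + 1)) f = 0 →
      (TR Z 0 ^ m) ((G ^ c) f) = (G ^ c) ((TR Z 0 ^ m) f) := by
    intro c m f hf1 hf2
    induction c with
    | zero => rfl
    | succ c ih =>
      have h1 := hGpres' c (m + 1) f hf1 hf2
      have h2 := (TR_pow_comm Z (i := 0) (by norm_num) m _ h1.2 (Z.t 1)).1
      rw [pow_succ', Module.End.mul_apply, Module.End.mul_apply, ← ih, hG, hG, map_sub, h2]
  have hdrop : ∀ (m : ℕ) (f : Cf Z 0), l' f = 0 → (TR Z 0 ^ (m + 1)) f = 0 →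
      l' ((G ^ (p ^ K)) f) = 0 ∧ (TR Z 0 ^ m) ((G ^ (p ^ K)) f) = 0 := by
    intro m f hf1 hf2
    refine ⟨(hGpres' _ (m + 1) f hf1 hf2).1, ?_⟩
    rw [hcomm _ m f hf1 hf2]
    apply hN
    · rw [hlTm, hf1, map_zero]
    · rw [pow_succ', Module.End.mul_apply] at hf2
      exact hf2
  have hb2 : p ^ K + p ^ K ≤ p ^ b := by
    calc p ^ K + p ^ K = 2 * p ^ K := by ring
      _ ≤ p * p ^ K := Nat.mul_le_mul_right _ hp1
      _ = p ^ (K + 1) := by rw [pow_succ]; ring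
      _ ≤ p ^ b := Nat.pow_le_pow_right hp hb
  have hdrop2 : ∀ (m : ℕ) (f : Cf Z 0), l' f = 0 → (TR Z 0 ^ (m + 2)) f = 0 →
      (TR Z 0 ^ m) ((G ^ (p ^ b)) f) = 0 := by
    intro m f hf1 hf2
    obtain ⟨h1, h2⟩ := hdrop (m + 1) f hf1 hf2
    obtain ⟨h3, h4⟩ := hdrop m _ h1 h2
    have h5 : p ^ b = (p ^ b - (p ^ K + p ^ K)) + (p ^ K + p ^ K) := by omega
    rw [h5, pow_add, pow_add, Module.End.mul_apply, Module.End.mul_apply]
    exact (hGpres' _ m _ h3 h4).2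
  -- fixed vectors of d in ker l'
  have hfixN : ∀ f : Cf Z 0, l' f = 0 → Cf.ρ Z 0 d f = f → TR Z 0 f = 0 := by
    intro f hf1 hf2
    have hTR : TR Z 0 f = (G ^ (p ^ b)) f := by
      rw [hGpow]
      change Cf.ρ Z 0 (Z.t 0) f - f = Cf.ρ Z 0 (Z.t 1 ^ (p ^ b)) f - f
      congr 1
      have h1 : Cf.ρ Z 0 (Z.t 1 ^ (p ^ b)) (Cf.ρ Z 0 d f) = Cf.ρ Z 0 (Z.t 0) f := by
        rw [← Module.End.mul_apply, ← map_mul, hd, mul_inv_cancel_left]
      rw [← h1, hf2]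
    obtain ⟨k, hk⟩ := f.2
    have hnil : (TR Z 0 ^ (p ^ k)) f = 0 := TR_nil Z (by norm_num) f hk
    have hall : ∀ m : ℕ, (TR Z 0 ^ (m + 1)) f = 0 → TR Z 0 f = 0 := by
      intro m
      induction m with
      | zero => intro h; rw [zero_add, pow_one] at h; exact h
      | succ m ih =>
        intro h
        apply ih
        have h1 := hdrop2 m f hf1 h
        rw [← hTR] at h1
        rw [pow_succ, Module.End.mul_apply]
        exact h1
    have hk1 : p ^ k = (p ^ k - 1) + 1 := by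
      have := pow_pos hp k
      omega
    rw [hk1] at hnil
    exact hall _ hnil
  have hfd1 : FiniteDimensional (ZMod p) ↥(LinearMap.ker l' ⊓ LinearMap.ker (Cf.ρ Z 0 d - 1)) := by
    apply S1.fd_of_map (Cf Z 0).subtype _ ⊥ (Cl Z 1 K) (finrank_Cl Z (by norm_num) K).1
      inferInstance
    · rintro f ⟨hf1, hf2⟩
      have h1 : Cf.ρ Z 0 d f - f = 0 := hf2
      exact hK f hf1 (hfixN f hf1 (sub_eq_zero.1 h1))
    · rintro f - hf
      rw [Submodule.mem_bot]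
      exact Subtype.ext hf
  apply S1.fd_of_map (TL Z 0 ^ j) _ _ _ hfd1 (S1.TL_fix_fin Z hq j)
  · rintro f ⟨hf1, hf2⟩
    refine ⟨?_, ?_⟩
    · have h1 : l f = 0 := hf1
      rw [hfac, Module.End.mul_apply] at h1
      exact h1
    · have h1 : Cf.ρ Z 0 d f - f = 0 := hf2
      change Cf.ρ Z 0 d ((TL Z 0 ^ j) f) - (TL Z 0 ^ j) f = 0
      rw [← S1.eqv_pow (TL_eqv Z 0) j, ← map_sub, h1, map_zero]
  · rintro f ⟨-, hf2⟩ hf
    exact ⟨hf, hf2⟩

end Pool.Agent.Helper25.GG
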